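import Pool.Agent.Lib.MP_305fdd_al.F2.ChStm

set_option autoImplicit false

namespace Pool.Agent.F2Ch

open MvPolynomial

private theorem b1_rho {p : ℕ} [Fact p.Prime] {K : Type} [Field K] [CharP K p] {ι : Type}
    [Fintype ι] {b : ι → K} {ρ : ι → K → K} (hb : IsPB p b ρ) {ι' : Type} [Fintype ι']
    (w : ι' → K) (a : ι' → K) (i : ι) :
    ρ i (∑ j, a j ^ p * w j) = ∑ j, a j * ρ i (w j) := by
  have h : ∑ j, a j ^ p * w j = ∑ i, (∑ j, a j * ρ i (w j)) ^ p * b i := by
    calc ∑ j, a j ^ p * w j = ∑ j, a j ^ p * ∑ i, ρ i (w j) ^ p * b i := by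
          refine Finset.sum_congr rfl fun j _ => ?_
          rw [hb.repr]
      _ = ∑ j, ∑ i, (a j * ρ i (w j)) ^ p * b i := by
          refine Finset.sum_congr rfl fun j _ => ?_
          rw [Finset.mul_sum]
          refine Finset.sum_congr rfl fun i _ => ?_
          rw [mul_pow, mul_assoc]
      _ = ∑ i, ∑ j, (a j * ρ i (w j)) ^ p * b i := Finset.sum_comm
      _ = ∑ i, (∑ j, a j * ρ i (w j)) ^ p * b i := by
          refine Finset.sum_congr rfl fun i _ => ?_
          rw [sum_pow_char, Finset.sum_mul]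
  rw [h, hb.uniq]

private theorem b1_ext {p : ℕ} [Fact p.Prime] {K : Type} [Field K] {ι : Type}
    [Fintype ι] {b : ι → K} {ρ : ι → K → K} (hb : IsPB p b ρ) {f g : K}
    (h : ∀ i, ρ i f = ρ i g) : f = g := by
  rw [← hb.repr f, ← hb.repr g]
  simp only [h]

theorem p_B1 : S_B1 := by
  intro p _ K _ _ ι _ b ρ hb ι' _ w hw
  let T : (ι' → K) →ₗ[K] (ι → K) :=
    { toFun := fun a i => ∑ j, a j * ρ i (w j)
      map_add' := fun a a' => by
        funext i
        simp only [Pi.add_apply, add_mul, Finset.sum_add_distrib]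
      map_smul' := fun c a => by
        funext i
        simp only [Pi.smul_apply, smul_eq_mul, RingHom.id_apply, Finset.mul_sum, mul_assoc] }
  have hT : ∀ a i, T a i = ∑ j, a j * ρ i (w j) := fun a i => rfl
  have h0 : ∀ i, ρ i 0 = 0 := fun i => by
    have h := b1_rho hb (ι' := Empty) (fun _ => (0 : K)) (fun _ => 0) i
    simpa using h
  have hinj : Function.Injective T := by
    rw [← LinearMap.ker_eq_bot, LinearMap.ker_eq_bot']
    intro a ha
    apply hw
    apply b1_ext hb
    intro i
    rw [b1_rho hb, ← hT, ha, h0]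
    rfl
  have hle := LinearMap.finrank_le_finrank_of_injective hinj
  rw [Module.finrank_fintype_fun_eq_card, Module.finrank_fintype_fun_eq_card] at hle
  refine ⟨hle, fun hcard => ?_⟩
  have hfin : Module.finrank K (ι' → K) = Module.finrank K (ι → K) := by
    rw [Module.finrank_fintype_fun_eq_card, Module.finrank_fintype_fun_eq_card, hcard]
  have hsur : Function.Surjective T :=
    (LinearMap.injective_iff_surjective_of_finrank_eq_finrank hfin).1 hinj
  let e := LinearEquiv.ofBijective T ⟨hinj, hsur⟩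
  have he : ∀ a, e a = T a := fun a => rfl
  refine ⟨fun j f => e.symm (fun i => ρ i f) j, ⟨fun f => ?_, fun a j => ?_⟩⟩
  · apply b1_ext hb
    intro i
    rw [b1_rho hb, ← hT, ← he, LinearEquiv.apply_symm_apply]
  · have : (fun i => ρ i (∑ j, a j ^ p * w j)) = e a := by
      funext i
      rw [b1_rho hb, he, hT]
    change e.symm (fun i => ρ i (∑ j, a j ^ p * w j)) j = a j
    rw [this, LinearEquiv.symm_apply_apply]

end Pool.Agent.F2Ch
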