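import Pool.Agent.Lib.MP_305fdd_al.F2.ChStm

/-!
# MP_305fdd_al, F_2 project, section C: the piece B4 (the degree of `K` over `K ^ p`)
-/

set_option autoImplicit false

namespace Pool.Agent.F2Ch

open MvPolynomial

theorem b4_root {p : ℕ} [Fact p.Prime] {K : Type} [Field K] [CharP K p]
    (c : (frobenius K p).fieldRange) : ∃ a : K, a ^ p = (c : K) := by
  obtain ⟨a, ha⟩ := RingHom.mem_fieldRange.1 c.2
  exact ⟨a, by simpa [frobenius_def] using ha⟩

theorem b4_mem {p : ℕ} [Fact p.Prime] {K : Type} [Field K] [CharP K p] (a : K) :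
    a ^ p ∈ (frobenius K p).fieldRange :=
  RingHom.mem_fieldRange.2 ⟨a, by simp [frobenius_def]⟩

/-- a finite dimensional extension has a basis in the sense of `IsPB` -/
theorem b4_exists {p : ℕ} [Fact p.Prime] {K : Type} [Field K] [CharP K p] {N : ℕ} (hN : N ≠ 0)
    (h : Module.finrank (frobenius K p).fieldRange K = N) :
    ∃ (b : Fin N → K) (ρ : Fin N → K → K), IsPB p b ρ := by
  have : Module.Finite (frobenius K p).fieldRange K := Module.finite_of_finrank_pos (by omega)
  let B := Module.finBasisOfFinrankEq (frobenius K p).fieldRange K h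
  choose rt hrt using b4_root (p := p) (K := K)
  refine ⟨B, fun i f => rt (B.repr f i), ?_, ?_⟩
  · intro f
    have := B.sum_repr f
    simp only [hrt]
    exact this
  · intro a i
    have h1 : ∑ j, a j ^ p * B j =
        ∑ j, (⟨a j ^ p, b4_mem (a j)⟩ : (frobenius K p).fieldRange) • B j := rfl
    have h2 : B.repr (∑ j, a j ^ p * B j) i =
        (⟨a i ^ p, b4_mem (a i)⟩ : (frobenius K p).fieldRange) := by
      rw [h1, B.repr_sum_self]
    have h3 := hrt (B.repr (∑ j, a j ^ p * B j) i)
    rw [h2] at h3
    show rt (B.repr (∑ j, a j ^ p * B j) i) = a i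
    rw [h2]
    exact frobenius_inj K p (by simpa [frobenius_def] using h3)

/-- the degree from a basis in the sense of `IsPB` -/
theorem b4_finrank {p : ℕ} [Fact p.Prime] {K ι : Type} [Field K] [CharP K p] [Fintype ι]
    {w : ι → K} {π : ι → K → K} (h : IsPB p w π) :
    Module.finrank (frobenius K p).fieldRange K = Fintype.card ι := by
  choose rt hrt using b4_root (p := p) (K := K)
  have hli : LinearIndependent (frobenius K p).fieldRange w := by
    rw [Fintype.linearIndependent_iff]
    intro g hg i
    have h1 : ∑ j, (rt (g j)) ^ p * w j = 0 := by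
      simp only [hrt]
      exact hg
    have h2 := h.uniq (fun j => rt (g j)) i
    have h3 := h.uniq (fun _ => 0) i
    have h4 : (p : ℕ) ≠ 0 := (Fact.out : p.Prime).ne_zero
    rw [h1] at h2
    simp only [ne_eq, h4, not_false_eq_true, zero_pow, zero_mul, Finset.sum_const_zero] at h3
    have h5 : rt (g i) = 0 := by rw [← h2, h3]
    have h6 := hrt (g i)
    rw [h5, zero_pow h4] at h6
    exact Subtype.ext h6.symm
  have hsp : ⊤ ≤ Submodule.span (frobenius K p).fieldRange (Set.range w) := by
    intro f _
    rw [← h.repr f]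
    refine Submodule.sum_mem _ fun i _ => ?_
    have : π i f ^ p * w i = (⟨π i f ^ p, b4_mem _⟩ : (frobenius K p).fieldRange) • w i := rfl
    rw [this]
    exact Submodule.smul_mem _ _ (Submodule.subset_span ⟨i, rfl⟩)
  exact Module.finrank_eq_card_basis (Module.Basis.mk hli hsp)

/-- the degrees over the `p`-th powers of a field and a finite extension are equal -/
theorem b4_tower {p : ℕ} [Fact p.Prime] {K : Type} [Field K] [CharP K p] (A : Subfield K)
    (hA : Module.finrank A K ≠ 0) [CharP A p] :
    Module.finrank (frobenius K p).fieldRange K = Module.finrank (frobenius A p).fieldRange A := by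
  set f := frobenius K p with hf
  have e1 : (frobenius A p).fieldRange.map A.subtype = A.map f := by
    rw [RingHom.map_fieldRange]
    have : A.subtype.comp (frobenius A p) = f.comp A.subtype := by
      ext a
      simp [hf, frobenius_def]
    rw [this, ← RingHom.map_fieldRange, Subfield.fieldRange_subtype]
  have e2 : Subfield.relfinrank (A.map f) A = Module.finrank (frobenius A p).fieldRange A := by
    rw [← e1]
    have := Subfield.relfinrank_map_map (frobenius A p).fieldRange ⊤ A.subtype
    rw [Subfield.relfinrank_top_right, ← RingHom.fieldRange_eq_map,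
      Subfield.fieldRange_subtype] at this
    exact this
  have hle : A.map f ≤ A := by
    intro z hz
    obtain ⟨a, ha, rfl⟩ := Subfield.mem_map.1 hz
    rw [hf, frobenius_def]
    exact pow_mem ha p
  have h1 := Subfield.relfinrank_mul_finrank_top hle
  have hle2 : A.map f ≤ f.fieldRange := by
    intro z hz
    obtain ⟨a, ha, rfl⟩ := Subfield.mem_map.1 hz
    exact RingHom.mem_fieldRange.2 ⟨a, rfl⟩
  have h2 := Subfield.relfinrank_mul_finrank_top hle2
  have h3 : Subfield.relfinrank (A.map f) f.fieldRange = Module.finrank A K := by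
    rw [RingHom.fieldRange_eq_map, Subfield.relfinrank_map_map, Subfield.relfinrank_top_right]
  rw [e2] at h1
  rw [h3] at h2
  have h4 : Module.finrank A K * Module.finrank f.fieldRange K =
      Module.finrank A K * Module.finrank (frobenius A p).fieldRange A := by
    rw [h2, ← h1, mul_comm]
  exact Nat.eq_of_mul_eq_mul_left (Nat.pos_of_ne_zero hA) h4

/-- the monomials `x ^ a`, `a ∈ [0,p)^d` -/
def b4_mon {E : Type} [Field E] {p d : ℕ} (x : Fin d → E) (a : Fin d → Fin p) : E :=
  ∏ i, x i ^ (a i : ℕ)

theorem b4_span {p : ℕ} [Fact p.Prime] {k E : Type} [Field k] [CharP k p] [PerfectRing k p]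
    [Field E] [Algebra k E] [CharP E p] {d : ℕ} (x : Fin d → E) (hx : FracGen k x) (f : E) :
    ∃ c : (Fin d → Fin p) → E, ∑ a, c a ^ p * b4_mon x a = f := by
  have hp : p ≠ 0 := (Fact.out : p.Prime).ne_zero
  have hadd : ∀ f g : E, (∃ c : (Fin d → Fin p) → E, ∑ a, c a ^ p * b4_mon x a = f) →
      (∃ c : (Fin d → Fin p) → E, ∑ a, c a ^ p * b4_mon x a = g) →
      ∃ c : (Fin d → Fin p) → E, ∑ a, c a ^ p * b4_mon x a = f + g := by
    rintro f g ⟨c, rfl⟩ ⟨c', rfl⟩
    refine ⟨fun a => c a + c' a, ?_⟩
    rw [← Finset.sum_add_distrib]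
    refine Finset.sum_congr rfl fun a _ => ?_
    rw [add_pow_char]
    ring
  have hmul : ∀ z f : E, (∃ c : (Fin d → Fin p) → E, ∑ a, c a ^ p * b4_mon x a = f) →
      ∃ c : (Fin d → Fin p) → E, ∑ a, c a ^ p * b4_mon x a = z ^ p * f := by
    rintro z f ⟨c, rfl⟩
    refine ⟨fun a => z * c a, ?_⟩
    rw [Finset.mul_sum]
    refine Finset.sum_congr rfl fun a _ => ?_
    rw [mul_pow]
    ring
  have hmon : ∀ m : Fin d →₀ ℕ, ∃ c : (Fin d → Fin p) → E,
      ∑ a, c a ^ p * b4_mon x a = ∏ i, x i ^ (m i) := by
    intro m
    refine ⟨Pi.single (fun i => ⟨m i % p, Nat.mod_lt _ (Nat.pos_of_ne_zero hp)⟩)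
      (∏ i, x i ^ (m i / p)), ?_⟩
    rw [Finset.sum_eq_single (fun i => ⟨m i % p, Nat.mod_lt _ (Nat.pos_of_ne_zero hp)⟩)]
    · rw [Pi.single_eq_same, b4_mon, ← Finset.prod_pow, ← Finset.prod_mul_distrib]
      refine Finset.prod_congr rfl fun i _ => ?_
      rw [← pow_mul, ← pow_add]
      congr 1
      rw [mul_comm]
      exact Nat.div_add_mod _ _
    · intro a _ ha
      rw [Pi.single_eq_of_ne ha, zero_pow hp, zero_mul]
    · intro h
      exact absurd (Finset.mem_univ _) h
  have hpoly : ∀ q : MvPolynomial (Fin d) k, ∃ c : (Fin d → Fin p) → E,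
      ∑ a, c a ^ p * b4_mon x a = aeval x q := by
    intro q
    induction q using MvPolynomial.induction_on' with
    | monomial m c =>
      rw [aeval_monomial, Finsupp.prod_fintype _ _ (fun i => pow_zero _)]
      have hc : algebraMap k E c = algebraMap k E ((frobeniusEquiv k p).symm c) ^ p := by
        rw [← map_pow, frobeniusEquiv_symm_pow_p]
      rw [hc]
      exact hmul _ _ (hmon m)
    | add q q' hq hq' =>
      rw [map_add]
      exact hadd _ _ hq hq'
  obtain ⟨a, b, hb, hab⟩ := hx f
  have hf : f = (aeval x b)⁻¹ ^ p * aeval x (a * b ^ (p - 1)) := by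
    have h1 : f = aeval x a / aeval x b := by
      rw [← hab]
      field_simp
    rw [h1, map_mul, map_pow]
    have h2 : (aeval x b) ^ p = (aeval x b) ^ (p - 1) * aeval x b := by
      rw [← pow_succ]
      congr 1
      omega
    rw [inv_pow, h2]
    field_simp
  rw [hf]
  exact hmul _ _ (hpoly _)

theorem b4_indep {p : ℕ} [Fact p.Prime] {k E : Type} [Field k] [CharP k p]
    [Field E] [Algebra k E] {d : ℕ} (x : Fin d → E) (hx : FracGen k x)
    (hi : AlgebraicIndependent k x) (c : (Fin d → Fin p) → E)
    (h : ∑ a, c a ^ p * b4_mon x a = 0) : c = 0 := by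
  classical
  have hp : p ≠ 0 := (Fact.out : p.Prime).ne_zero
  choose N D hD hND using fun a => hx (c a)
  set Q : MvPolynomial (Fin d) k := ∏ a, D a with hQ
  have hQ0 : aeval x Q ≠ 0 := by
    rw [hQ, map_prod]
    exact Finset.prod_ne_zero_iff.2 fun a _ => hD a
  have hP : ∀ a, ∃ P : MvPolynomial (Fin d) k, aeval x P = c a * aeval x Q := by
    intro a
    refine ⟨N a * ∏ b ∈ Finset.univ.erase a, D b, ?_⟩
    rw [map_mul, ← hND a, hQ, ← Finset.mul_prod_erase Finset.univ D (Finset.mem_univ a), map_mul]
    ring
  choose P hP using hP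
  have hz : ∑ a, P a ^ p * monomial (Finsupp.equivFunOnFinite.symm fun i => ((a i : Fin p) : ℕ)) (1 : k) = 0 := by
    apply hi
    rw [map_zero, map_sum]
    have : ∀ a : Fin d → Fin p, aeval x (P a ^ p *
        monomial (Finsupp.equivFunOnFinite.symm fun i => ((a i : Fin p) : ℕ)) (1 : k)) =
        (aeval x Q) ^ p * (c a ^ p * b4_mon x a) := by
      intro a
      rw [map_mul, map_pow, hP, aeval_monomial, Finsupp.prod_fintype _ _ (fun i => pow_zero _)]
      simp only [map_one, one_mul, Finsupp.equivFunOnFinite_symm_apply_apply, b4_mon]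
      ring
    rw [Finset.sum_congr rfl fun a _ => this a, ← Finset.mul_sum, h, mul_zero]
  have hP0 : ∀ a, P a = 0 := by
    intro a
    ext m
    rw [coeff_zero]
    have h1 := congrArg (coeff (p • m + Finsupp.equivFunOnFinite.symm fun i => ((a i : Fin p) : ℕ))) hz
    rw [coeff_sum, coeff_zero, Finset.sum_eq_single a] at h1
    · rw [coeff_mul_monomial, mul_one, ← map_frobenius_expand, coeff_map, coeff_expand_smul _ hp,
        frobenius_def] at h1
      exact pow_eq_zero_iff hp |>.1 h1
    · intro b _ hb
      rw [coeff_mul_monomial']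
      split_ifs with hle
      · obtain ⟨i, hi⟩ := Function.ne_iff.1 hb
        rw [mul_one, ← map_frobenius_expand, coeff_map, coeff_expand_of_not_dvd (i := i), map_zero]
        · intro hdvd
          apply hi
          have h2 := hle i
          simp only [Finsupp.coe_add, Finsupp.coe_smul, Pi.add_apply, Pi.smul_apply, smul_eq_mul,
            Finsupp.equivFunOnFinite_symm_apply_apply, Finsupp.coe_tsub, Pi.sub_apply] at h2 hdvd
          have h3 := (a i).2
          have h4 := (b i).2
          apply Fin.ext
          have h5 : (p * m i + (a i : ℕ)) % p = (b i : ℕ) % p := by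
            obtain ⟨e, he⟩ := hdvd
            have : p * m i + (a i : ℕ) = p * e + (b i : ℕ) := by omega
            rw [this, Nat.mul_add_mod]
          rw [Nat.mul_add_mod, Nat.mod_eq_of_lt h3, Nat.mod_eq_of_lt h4] at h5
          exact h5.symm
      · rfl
    · intro h
      exact absurd (Finset.mem_univ _) h
  funext a
  have := hP a
  rw [hP0 a, map_zero] at this
  exact (mul_eq_zero.1 this.symm).resolve_right hQ0

/-- a rational function field has degree `p ^ d` over its `p`-th powers -/
theorem b4_rat {p : ℕ} [Fact p.Prime] {k E : Type} [Field k] [CharP k p] [PerfectRing k p]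
    [Field E] [Algebra k E] [CharP E p] {d : ℕ} (x : Fin d → E) (hx : FracGen k x)
    (hi : AlgebraicIndependent k x) :
    Module.finrank (frobenius E p).fieldRange E = p ^ d := by
  have hp : p ≠ 0 := (Fact.out : p.Prime).ne_zero
  choose π hπ using b4_span (p := p) x hx
  have hPB : IsPB p (b4_mon (p := p) x) (fun i f => π f i) := by
    refine ⟨hπ, fun c i => ?_⟩
    have h1 := hπ (∑ j, c j ^ p * b4_mon x j)
    have h2 : ∑ j, (π (∑ j, c j ^ p * b4_mon x j) j - c j) ^ p * b4_mon x j = 0 := by
      have : ∀ j, (π (∑ j, c j ^ p * b4_mon x j) j - c j) ^ p * b4_mon x j =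
          π (∑ j, c j ^ p * b4_mon x j) j ^ p * b4_mon x j - c j ^ p * b4_mon x j := by
        intro j
        rw [sub_pow_char]
        ring
      rw [Finset.sum_congr rfl fun j _ => this j, Finset.sum_sub_distrib, h1, sub_self]
    have h3 := b4_indep x hx hi _ h2
    exact sub_eq_zero.1 (congrFun h3 i)
  rw [b4_finrank hPB, Fintype.card_fun, Fintype.card_fin, Fintype.card_fin]

theorem p_B4 : S_B4 := by
  intro p _ k K _ _ _ _ _ n t ht
  have hp : p ≠ 0 := (Fact.out : p.Prime).ne_zero
  have : CharP K p := charP_of_injective_algebraMap (algebraMap k K).injective p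
  -- a finite transcendence basis
  have halg : Algebra.IsAlgebraic (Algebra.adjoin k (Set.range t)) K := by
    refine ⟨fun f => ?_⟩
    obtain ⟨a, b, hb, hab⟩ := ht f
    have hmem : ∀ q : MvPolynomial (Fin n) k, aeval t q ∈ Algebra.adjoin k (Set.range t) := by
      intro q
      rw [Algebra.adjoin_range_eq_range_aeval]
      exact ⟨q, rfl⟩
    refine ⟨Polynomial.C ⟨aeval t b, hmem b⟩ * Polynomial.X - Polynomial.C ⟨aeval t a, hmem a⟩,
      ?_, ?_⟩
    · intro h
      have h1 := congrArg (fun q => Polynomial.coeff q 1) h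
      simp only [Polynomial.coeff_sub, Polynomial.coeff_C_mul, Polynomial.coeff_X_one, mul_one,
        Polynomial.coeff_C_succ, sub_zero, Polynomial.coeff_zero] at h1
      exact hb (congrArg Subtype.val h1)
    · simp only [map_sub, map_mul, Polynomial.aeval_C, Polynomial.aeval_X]
      rw [sub_eq_zero, mul_comm]
      exact hab
  obtain ⟨s, hs, hbas⟩ := exists_isTranscendenceBasis_subset (R := k) (A := K) (Set.range t)
  have hfin : Finite s := (Set.finite_range t).subset hs
  obtain ⟨d, ⟨e⟩⟩ := Finite.exists_equiv_fin s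
  set x : Fin d → K := fun i => (e.symm i : K) with hx
  have hbx : IsTranscendenceBasis k x := hbas.comp_equiv e.symm
  have htr : Algebra.trdeg k K = d := by
    rw [← hbx.cardinalMk_eq_trdeg, Cardinal.mk_fin]
  set A := IntermediateField.adjoin k (Set.range x) with hA
  have hKA : Algebra.IsAlgebraic A K := hbx.isAlgebraic_field
  have hfd : FiniteDimensional A K := by
    have h1 : FiniteDimensional A (IntermediateField.adjoin A (Set.range t)) :=
      IntermediateField.finiteDimensional_adjoin fun z _ =>
        (Algebra.IsAlgebraic.isAlgebraic z).isIntegral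
    have h2 : IntermediateField.adjoin A (Set.range t) = ⊤ := by
      rw [eq_top_iff]
      intro f _
      obtain ⟨a, b, hb, hab⟩ := ht f
      have hmem : ∀ q : MvPolynomial (Fin n) k,
          aeval t q ∈ IntermediateField.adjoin A (Set.range t) := by
        intro q
        have h3 : aeval t q ∈ Algebra.adjoin k (Set.range t) := by
          rw [Algebra.adjoin_range_eq_range_aeval]
          exact ⟨q, rfl⟩
        have h4 : Algebra.adjoin k (Set.range t) ≤
            (IntermediateField.adjoin A (Set.range t)).toSubalgebra.restrictScalars k := by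
          rw [Algebra.adjoin_le_iff]
          exact IntermediateField.subset_adjoin A (Set.range t)
        exact h4 h3
      have h5 : f = aeval t a / aeval t b := by
        rw [← hab]
        field_simp
      rw [h5]
      exact div_mem (hmem a) (hmem b)
    rw [h2] at h1
    exact (IntermediateField.topEquiv (F := A) (E := K)).toLinearEquiv.finiteDimensional
  have hne : Module.finrank A K ≠ 0 := Module.finrank_pos.ne'
  have hcA : CharP A p := charP_of_injective_algebraMap (algebraMap k A).injective p
  set x' : Fin d → A := fun i => ⟨x i, IntermediateField.subset_adjoin k _ ⟨i, rfl⟩⟩ with hx'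
  have hval : ∀ q : MvPolynomial (Fin d) k, ((aeval x' q : A) : K) = aeval x q := by
    intro q
    have : A.val (aeval x' q) = aeval x q := by
      rw [← AlgHom.comp_apply, comp_aeval]
      rfl
    exact this
  have hind : AlgebraicIndependent k x' := by
    have h1 : AlgebraicIndependent k (A.val ∘ x') := hbx.1
    exact h1.of_comp _
  have hfrac : FracGen k x' := by
    intro z
    obtain ⟨a, b, hab⟩ := (IntermediateField.mem_adjoin_range_iff k x (z : K)).1 z.2
    by_cases hb : aeval x b = 0
    · refine ⟨0, 1, ?_, ?_⟩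
      · simp
      · rw [hb, div_zero] at hab
        have : z = 0 := Subtype.ext hab
        simp [this]
    · refine ⟨a, b, ?_, ?_⟩
      · intro h
        apply hb
        rw [← hval, h]
        rfl
      · apply Subtype.ext
        show (z : K) * ((aeval x' b : A) : K) = ((aeval x' a : A) : K)
        rw [hval, hval, hab]
        field_simp
  have h1 : Module.finrank (frobenius A p).fieldRange A = p ^ d := b4_rat x' hfrac hind
  have h2 := @b4_tower p _ K _ _ A.toSubfield hne hcA
  have h3 : Module.finrank (frobenius K p).fieldRange K = p ^ d := h2.trans h1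
  obtain ⟨b, ρ, hb⟩ := b4_exists (pow_ne_zero d hp) h3
  exact ⟨d, b, ρ, htr, hb⟩

end Pool.Agent.F2Ch
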