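import Pool.Agent.Lib.MP_305fdd_al.F2.ChStmG

/-!
# MP_305fdd_al, F_2 project, section C, piece U4: residues persist
-/

set_option autoImplicit false

namespace Pool.Agent.F2Ch

open MvPolynomial

section
variable {K Γ : Type} [Field K] [AddCommGroup Γ] [LinearOrder Γ] [IsOrderedAddMonoid Γ]

theorem u4_one {v : K → Γ} (hv : IsV v) : v 1 = 0 := by
  have h := hv.mul 1 1 one_ne_zero one_ne_zero
  rw [mul_one] at h
  exact (left_eq_add.mp h)

theorem u4_ge_mul {v : K → Γ} (hv : IsV v) {a b : K} (ha : Ge v 0 a) (hb : Ge v 0 b) :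
    Ge v 0 (a * b) := by
  rcases ha with rfl | ha
  · exact Or.inl (zero_mul _)
  rcases hb with rfl | hb
  · exact Or.inl (mul_zero _)
  by_cases h1 : a = 0
  · exact Or.inl (by rw [h1, zero_mul])
  by_cases h2 : b = 0
  · exact Or.inl (by rw [h2, mul_zero])
  right
  rw [hv.mul a b h1 h2]
  exact add_nonneg ha hb

theorem u4_gt_mul {v : K → Γ} (hv : IsV v) {a b : K} (ha : Ge v 0 a) (hb : Gt v 0 b) :
    Gt v 0 (a * b) := by
  rcases ha with rfl | ha
  · exact Or.inl (zero_mul _)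
  rcases hb with rfl | hb
  · exact Or.inl (mul_zero _)
  by_cases h1 : a = 0
  · exact Or.inl (by rw [h1, zero_mul])
  by_cases h2 : b = 0
  · exact Or.inl (by rw [h2, mul_zero])
  right
  rw [hv.mul a b h1 h2]
  exact add_pos_of_nonneg_of_pos ha hb

theorem u4_ge_add {v : K → Γ} (hv : IsV v) {a b : K} (ha : Ge v 0 a) (hb : Ge v 0 b) :
    Ge v 0 (a + b) := by
  by_cases h1 : a = 0
  · rw [h1, zero_add]; exact hb
  by_cases h2 : b = 0
  · rw [h2, add_zero]; exact ha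
  by_cases h3 : a + b = 0
  · exact Or.inl h3
  right
  exact le_trans (le_min (ha.resolve_left h1) (hb.resolve_left h2)) (hv.add a b h1 h2 h3)

theorem u4_gt_add {v : K → Γ} (hv : IsV v) {a b : K} (ha : Gt v 0 a) (hb : Gt v 0 b) :
    Gt v 0 (a + b) := by
  by_cases h1 : a = 0
  · rw [h1, zero_add]; exact hb
  by_cases h2 : b = 0
  · rw [h2, add_zero]; exact ha
  by_cases h3 : a + b = 0
  · exact Or.inl h3
  right
  exact lt_of_lt_of_le (lt_min (ha.resolve_left h1) (hb.resolve_left h2)) (hv.add a b h1 h2 h3)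

theorem u4_gt_ge {v : K → Γ} {a : K} (ha : Gt v 0 a) : Ge v 0 a :=
  ha.imp_right le_of_lt

theorem u4_gt_neg {v : K → Γ} (hv : IsV v) {a : K} (ha : Gt v 0 a) : Gt v 0 (-a) := by
  have h1 : v (-1 : K) = 0 := by
    have h := hv.mul (-1) (-1) (by simp) (by simp)
    rw [neg_mul_neg, mul_one, u4_one hv] at h
    have h2 : (2 : ℕ) • v (-1 : K) = 0 := by rw [two_nsmul]; exact h.symm
    exact (smul_eq_zero.mp h2).resolve_left (by norm_num)
  have h2 : Ge v 0 (-1 : K) := Or.inr h1.ge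
  have h3 := u4_gt_mul hv h2 ha
  rwa [neg_one_mul] at h3

theorem u4_ge_alg {k : Type} [Field k] [Algebra k K] {v : K → Γ} (ht : Triv k v) (c : k) :
    Ge v 0 (algebraMap k K c) := Or.inr (ht c).ge

theorem u4_ge_pow {v : K → Γ} (hv : IsV v) {a : K} (ha : Ge v 0 a) (i : ℕ) : Ge v 0 (a ^ i) := by
  induction i with
  | zero => rw [pow_zero]; exact Or.inr (u4_one hv).ge
  | succ i ih => rw [pow_succ]; exact u4_ge_mul hv ih ha

theorem u4_ge_aeval {k : Type} [Field k] [Algebra k K] {σ : Type} {v : K → Γ} (hv : IsV v)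
    (ht : Triv k v) (g : σ → K) (hg : ∀ i, Ge v 0 (g i)) (P : MvPolynomial σ k) :
    Ge v 0 (aeval g P) := by
  induction P using MvPolynomial.induction_on with
  | C a => rw [aeval_C]; exact u4_ge_alg ht a
  | add P Q hP hQ => rw [map_add]; exact u4_ge_add hv hP hQ
  | mul_X P i hP => rw [map_mul, aeval_X]; exact u4_ge_mul hv hP (hg i)

theorem u4_gt_sum {ι : Type} {v : K → Γ} (hv : IsV v) (s : Finset ι) (g : ι → K)
    (hg : ∀ i ∈ s, Gt v 0 (g i)) : Gt v 0 (∑ i ∈ s, g i) := by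
  classical
  induction s using Finset.induction_on with
  | empty => exact Or.inl Finset.sum_empty
  | insert a s ha ih =>
    rw [Finset.sum_insert ha]
    exact u4_gt_add hv (hg a (Finset.mem_insert_self _ _))
      (ih fun i hi => hg i (Finset.mem_insert_of_mem hi))

end

section
variable {k K κ Γ : Type} [Field k] [Field K] [Algebra k K] [Field κ] [Algebra k κ]
  [AddCommGroup Γ] [LinearOrder Γ] [IsOrderedAddMonoid Γ] {r : ℕ}

theorem u4_lc_eq {v : K → Γ} {ac : K → κ} {a : K} (h1 : a ≠ 0) (h2 : v a = 0) :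
    lc v ac 0 a = ac a := if_pos ⟨h1, h2⟩

theorem u4_lc_zero {v : K → Γ} {ac : K → κ} {a : K} (h : Gt v 0 a) : lc v ac 0 a = 0 := by
  unfold lc
  rw [if_neg]
  rintro ⟨h1, h2⟩
  rcases h with h | h
  · exact h1 h
  · rw [h2] at h; exact lt_irrefl _ h

theorem u4_ge_cases {v : K → Γ} {a : K} (ha : Ge v 0 a) : Gt v 0 a ∨ (a ≠ 0 ∧ v a = 0) := by
  by_cases h : a = 0
  · exact Or.inl (Or.inl h)
  rcases ha with h' | h'
  · exact absurd h' h
  rcases h'.eq_or_lt with h'' | h''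
  · exact Or.inr ⟨h, h''.symm⟩
  · exact Or.inl (Or.inr h'')

theorem u4_lc_iff {v : K → Γ} {x : Fin r → K} {ac : K → κ} (hac : IsAC k v x ac) {a : K}
    (ha : Ge v 0 a) : lc v ac 0 a = 0 ↔ Gt v 0 a := by
  constructor
  · intro h
    rcases u4_ge_cases ha with h' | ⟨h1, h2⟩
    · exact h'
    · rw [u4_lc_eq h1 h2] at h
      exact absurd h (hac.ne a h1)
  · exact u4_lc_zero

theorem u4_lc_mul {v : K → Γ} (hv : IsV v) {x : Fin r → K} {ac : K → κ} (hac : IsAC k v x ac)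
    {a b : K} (ha : Ge v 0 a) (hb : Ge v 0 b) :
    lc v ac 0 (a * b) = lc v ac 0 a * lc v ac 0 b := by
  rcases u4_ge_cases ha with ha' | ⟨h1, h2⟩
  · rw [u4_lc_zero ha', zero_mul, u4_lc_zero]
    rw [mul_comm]
    exact u4_gt_mul hv hb ha'
  rcases u4_ge_cases hb with hb' | ⟨h3, h4⟩
  · rw [u4_lc_zero hb', mul_zero, u4_lc_zero]
    exact u4_gt_mul hv ha hb'
  rw [u4_lc_eq h1 h2, u4_lc_eq h3 h4, u4_lc_eq (mul_ne_zero h1 h3), hac.mul]
  rw [hv.mul a b h1 h3, h2, h4, add_zero]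

theorem u4_lc_alg {v : K → Γ} {x : Fin r → K} {ac : K → κ} (hac : IsAC k v x ac)
    (ht : Triv k v) (c : k) : lc v ac 0 (algebraMap k K c) = algebraMap k κ c := by
  by_cases h : c = 0
  · rw [h, map_zero, map_zero]
    exact u4_lc_zero (Or.inl rfl)
  · rw [u4_lc_eq _ (ht c), hac.alg]
    exact (map_ne_zero _).mpr h

theorem u4_ev {σ : Type} {v : K → Γ} (hv : IsV v) (ht : Triv k v) {x : Fin r → K} {ac : K → κ}
    (hac : IsAC k v x ac) (g : σ → K) (hg : ∀ i, Ge v 0 (g i)) (P : MvPolynomial σ k) :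
    aeval (fun i => lc v ac 0 (g i)) P = lc v ac 0 (aeval g P) := by
  induction P using MvPolynomial.induction_on with
  | C a => rw [aeval_C, aeval_C, u4_lc_alg hac ht]
  | add P Q hP hQ =>
    rw [map_add, map_add, hP, hQ, hac.add 0 _ _ (u4_ge_aeval hv ht g hg P)
      (u4_ge_aeval hv ht g hg Q)]
  | mul_X P i hP =>
    rw [map_mul, map_mul, aeval_X, aeval_X, hP,
      u4_lc_mul hv hac (u4_ge_aeval hv ht g hg P) (hg i)]

end

theorem p_U4 (hD0 : S_D0) (hU1 : S_U1) (hU2 : S_U2) (hU3 : S_U3) : S_U4 := by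
  intro p _ k K κ _ _ _ _ _ _ _ Γ _ _ _ v r s x y ex ac π ρ hF n t ht h φ hh hvh hφ m f hf
  classical
  have hFA := hD0 p k K κ Γ v r s x y ex ac π ρ hF
  have hv := hF.isv
  have htr := hF.triv
  have hac := hF.isac
  obtain ⟨-, hU3a, hU3b⟩ := hU3 p k K κ Γ v r s x y ex ac π ρ hF n t ht
  -- the evaluation maps
  set g : Fin s ⊕ Fin m → K := Sum.elim y f with hg_def
  have hg : ∀ i, Ge v 0 (g i) := by
    rintro (j | i)
    · exact Or.inr (hF.y_val j).ge
    · exact hf i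
  set Ev : MvPolynomial (Fin s ⊕ Fin m) k →ₐ[k] κ := aeval (fun i => lc v ac 0 (g i)) with hEv_def
  have hEv : ∀ P, Ev P = lc v ac 0 (aeval g P) := fun P => u4_ev hv htr hac g hg P
  obtain ⟨S, hS⟩ : (RingHom.ker Ev).FG := IsNoetherian.noetherian _
  have hker : ∀ Q, Ev Q = 0 ↔ Gt v 0 (aeval g Q) := fun Q => by
    rw [hEv, u4_lc_iff hac (u4_ge_aeval hv htr g hg Q)]
  refine ⟨insert h (Set.range y ∪ {z | ∃ i, z = f i ∧ f i ≠ 0 ∧ v (f i) = 0}),
    {z | z ∈ (S.image (aeval g) : Finset K) ∧ z ≠ 0} ∪ {z | ∃ i, z = f i ∧ f i ≠ 0 ∧ 0 < v (f i)},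
    ?_, ?_, ?_, ?_, ?_⟩
  · refine Set.Finite.insert _ (Set.Finite.union (Set.finite_range y) ?_)
    refine (Set.finite_range f).subset ?_
    rintro z ⟨i, rfl, -⟩
    exact ⟨i, rfl⟩
  · refine Set.Finite.union ?_ ?_
    · exact (Finset.finite_toSet _).subset fun z hz => hz.1
    · refine (Set.finite_range f).subset ?_
      rintro z ⟨i, rfl, -⟩
      exact ⟨i, rfl⟩
  · rintro z (rfl | ⟨j, rfl⟩ | ⟨i, rfl, h1, h2⟩)
    · exact ⟨hh, hvh⟩
    · exact ⟨hF.y_ne j, hF.y_val j⟩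
    · exact ⟨h1, h2⟩
  · rintro z (⟨hz, hz0⟩ | ⟨i, rfl, h1, h2⟩)
    · refine ⟨hz0, ?_⟩
      obtain ⟨Q, hQ, rfl⟩ := Finset.mem_image.mp hz
      have : Ev Q = 0 := by
        have h1 : Q ∈ RingHom.ker Ev := by rw [← hS]; exact Ideal.subset_span hQ
        exact h1
      exact ((hker Q).mp this).resolve_left hz0
    · exact ⟨h1, h2⟩
  intro Γ' _ _ _ w hw hwt hwc hw0 hw1 P
  have horth := hU1 p k K κ r s x y ex ac π ρ hFA h φ hh hφ Γ' w hw hwc (hw0 h (Or.inl rfl))
  have hwy : ∀ j, w (y j) = 0 := fun j => hw0 _ (Or.inr (Or.inl ⟨j, rfl⟩))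
  have hky := hU2 p k K κ r s x y ex ac π ρ hFA Γ' w hw hwt horth hwy
  have hgw : ∀ i, Ge w 0 (g i) := by
    rintro (j | i)
    · exact Or.inr (hwy j).ge
    · by_cases h1 : f i = 0
      · exact Or.inl h1
      right
      rcases (hf i).resolve_left h1 |>.eq_or_lt with h2 | h2
      · exact (hw0 _ (Or.inr (Or.inr ⟨i, rfl, h1, h2.symm⟩))).ge
      · exact (hw1 _ (Or.inr ⟨i, rfl, h1, h2⟩)).le
  have hGe : ∀ Q : MvPolynomial (Fin s ⊕ Fin m) k, Ge w 0 (aeval g Q) := fun Q =>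
    u4_ge_aeval hw hwt g hgw Q
  have hK1 : ∀ Q : MvPolynomial (Fin s ⊕ Fin m) k, Ev Q = 0 → Gt w 0 (aeval g Q) := by
    intro Q hQ
    have hQ' : Q ∈ Submodule.span (MvPolynomial (Fin s ⊕ Fin m) k)
        (S : Set (MvPolynomial (Fin s ⊕ Fin m) k)) := by
      have : Q ∈ RingHom.ker Ev := hQ
      rw [← hS] at this
      exact this
    clear hQ
    induction hQ' using Submodule.span_induction with
    | mem Q hQ =>
      by_cases h0 : aeval g Q = 0
      · exact Or.inl h0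
      · right
        refine hw1 _ (Or.inl ⟨Finset.mem_image.mpr ⟨Q, hQ, rfl⟩, h0⟩)
    | zero => exact Or.inl (map_zero _)
    | add A B _ _ hA hB => rw [map_add]; exact u4_gt_add hw hA hB
    | smul A B _ hB =>
      rw [smul_eq_mul, map_mul]
      exact u4_gt_mul hw (hGe A) hB
  have hK2 : ∀ Q : MvPolynomial (Fin s ⊕ Fin m) k, Ev Q ≠ 0 → ¬ Gt w 0 (aeval g Q) := by
    intro Q hQ hGt
    obtain ⟨d, a, ha0, hsum⟩ := hU3b (Ev Q) hQ
    have hEvr : ∀ A : MvPolynomial (Fin s) k, Ev (rename Sum.inl A) =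
        aeval (fun j => ac (y j)) A := by
      intro A
      rw [hEv_def, aeval_rename]
      congr 2
      funext j
      exact u4_lc_eq (hF.y_ne j) (hF.y_val j)
    have hevr : ∀ A : MvPolynomial (Fin s) k, aeval g (rename Sum.inl A) = aeval y A := by
      intro A
      rw [aeval_rename]
      rfl
    have hS0 : Ev (∑ i ∈ Finset.range (d + 1), rename Sum.inl (a i) * Q ^ i) = 0 := by
      rw [map_sum, ← hsum]
      refine Finset.sum_congr rfl fun i _ => ?_
      rw [map_mul, map_pow, hEvr]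
    have h1 := hK1 _ hS0
    rw [map_sum, Finset.sum_range_succ', map_mul, hevr, pow_zero, map_one, mul_one] at h1
    have h2 : Gt w 0 (∑ i ∈ Finset.range d,
        aeval g (rename Sum.inl (a (i + 1)) * Q ^ (i + 1))) := by
      refine u4_gt_sum hw _ _ fun i _ => ?_
      rw [map_mul, map_pow, pow_succ, ← mul_assoc]
      exact u4_gt_mul hw (u4_ge_mul hw (hGe _) (u4_ge_pow hw (hGe _) i)) hGt
    have h3 := u4_gt_add hw h1 (u4_gt_neg hw h2)
    have h4 : ∀ A B : K, A + B + -A = B := fun A B => by ring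
    rw [h4] at h3
    obtain ⟨h5, h6⟩ := hky (a 0) ha0
    rcases h3 with h3 | h3
    · exact h5 h3
    · rw [h6] at h3; exact lt_irrefl _ h3
  have hfin : aeval f P = aeval g (rename Sum.inr P) := by
    rw [aeval_rename]
    rfl
  rw [hfin]
  refine ⟨hGe _, ?_⟩
  constructor
  · intro h1
    rw [← hker]
    by_contra h2
    exact hK2 _ h2 h1
  · intro h1
    exact hK1 _ ((hker _).mpr h1)

end Pool.Agent.F2Ch
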