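import Pool.Agent.Lib.MP_305fdd_al.F2.ChStm

/-!
# MP_305fdd_al, F_2 project, section C: piece [F2C A3]
-/

set_option autoImplicit false

namespace Pool.Agent.F2Ch

open MvPolynomial

private theorem a3_aeval_rename {k K : Type} [Field k] [Field K] [Algebra k K] {n m : ℕ}
    (t : Fin n → K) (s : Fin m → K) (q : MvPolynomial (Fin n) k) :
    aeval (Fin.append t s) (rename (Fin.castAdd m) q) = aeval t q := by
  rw [aeval_rename]
  have h : (Fin.append t s) ∘ (Fin.castAdd m) = t := by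
    funext i
    simp
  rw [h]

private theorem a3_fg {k K : Type} [Field k] [Field K] [Algebra k K] {n m : ℕ}
    (t : Fin n → K) (s : Fin m → K) (h : FracGen k t) : FracGen k (Fin.append t s) := by
  intro x
  obtain ⟨a, b, hb, hx⟩ := h x
  refine ⟨rename (Fin.castAdd m) a, rename (Fin.castAdd m) b, ?_, ?_⟩
  · rw [a3_aeval_rename]
    exact hb
  · rw [a3_aeval_rename, a3_aeval_rename]
    exact hx

private theorem a3_bound {k K : Type} [Field k] [Field K] [Algebra k K]
    (V : ℕ → Submodule k K) (hV : Monotone V) (E : Set K) (hE : E.Finite)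
    (h : ∀ x ∈ E, ∃ d, x ∈ V d) : ∃ e, ∀ x ∈ E, x ∈ V e := by
  classical
  choose! d hd using h
  refine ⟨hE.toFinset.sup d, fun x hx => ?_⟩
  exact hV (Finset.le_sup (f := d) (hE.mem_toFinset.mpr hx)) (hd x hx)

theorem p_A3 (hA1 : S_A1) : S_A3 := by
  intro p _ k K _ _ _ _ _ n t ht ι _ π hπ E hE
  obtain ⟨m, s, hs⟩ : ∃ (m : ℕ) (s : Fin m → K), ∀ x ∈ E, ∃ j, s j = x := by
    have := hE.to_subtype
    obtain ⟨m, ⟨u⟩⟩ := Finite.exists_equiv_fin E
    refine ⟨m, fun j => (u.symm j : K), fun x hx => ⟨u ⟨x, hx⟩, ?_⟩⟩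
    simp
  obtain ⟨V, D, hfd, hm, hq, hstab⟩ :=
    hA1 p k K (n + m) (Fin.append t s) (a3_fg t s ht) ι π hπ
  have hmono : Monotone V := monotone_nat_of_le_succ hm
  have hE1 : ∀ x ∈ E, ∃ d, x ∈ V d := by
    intro x hx
    obtain ⟨j, hj⟩ := hs x hx
    obtain ⟨d, hd⟩ := hq (X (Fin.natAdd n j))
    refine ⟨d, ?_⟩
    have h1 : aeval (Fin.append t s) (X (Fin.natAdd n j) : MvPolynomial (Fin (n + m)) k) = x := by
      rw [aeval_X, Fin.append_right, hj]
    rwa [h1] at hd
  obtain ⟨e0, he0⟩ := a3_bound V hmono E hE hE1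
  obtain ⟨e, heD, hee⟩ : ∃ e, D ≤ e ∧ e0 ≤ 2 * e := ⟨D + e0, by omega, by omega⟩
  have key : ∀ (l : List ι) (r : ℕ), r ≤ l.length → ∀ f ∈ V (2 * e + r), wd π l f ∈ V (2 * e) := by
    intro l
    induction l with
    | nil =>
      intro r hr f hf
      have hr0 : r = 0 := by simpa using hr
      subst hr0
      simpa [wd] using hf
    | cons i l ih =>
      intro r hr f hf
      have hr' : r / 2 ≤ l.length := by
        have : r ≤ l.length + 1 := by simpa using hr
        omega
      have h1 : π i f ∈ V (2 * e + r / 2) := by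
        refine hmono ?_ (hstab i _ f hf)
        omega
      have h2 := ih (r / 2) hr' (π i f) h1
      simpa [wd] using h2
  refine ⟨V (2 * e), hfd _, fun x hx => hmono hee (he0 x hx), ?_, ?_⟩
  · intro i f hf
    refine hmono ?_ (hstab i _ f hf)
    omega
  · intro q
    obtain ⟨d, hd⟩ := hq (rename (Fin.castAdd m) q)
    rw [a3_aeval_rename] at hd
    refine ⟨d, fun N hN l hl => ?_⟩
    exact key l d (by omega) _ (hmono (by omega) hd)

end Pool.Agent.F2Ch
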