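import Pool.Agent.Lib.MP_305fdd_al.F2.ChStm

set_option autoImplicit false

namespace Pool.Agent.F2Ch

open MvPolynomial

private theorem b2_sum {p : ℕ} {K : Type} [Field K] {φ : K → K} (hφ : IsPinv p φ) {ι : Type}
    [Fintype ι] (a w : ι → K) : φ (∑ j, a j ^ p * w j) = ∑ j, a j * φ (w j) := by
  let F : K →+ K := AddMonoidHom.mk' φ hφ.add
  have hF : ∀ x, φ x = F x := fun _ => rfl
  rw [hF, map_sum]
  refine Finset.sum_congr rfl fun j _ => ?_
  rw [← hF, hφ.pow_mul]

theorem p_B2 : S_B2 := by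
  intro p _ K _ _ ι _ b ρ hb n w hn φ hφ
  have hli : ¬ LinearIndependent K (fun i : ι => (fun j : Fin n => φ (b i * w j))) := by
    intro h
    have h2 := h.fintype_card_le_finrank
    rw [Module.finrank_fin_fun] at h2
    omega
  rw [Fintype.not_linearIndependent_iff] at hli
  obtain ⟨a, ha, i, hi⟩ := hli
  have hz : ∀ j : Fin n, ∑ i, a i * φ (b i * w j) = 0 := by
    intro j
    have h := congrFun ha j
    simpa [Finset.sum_apply, Pi.smul_apply, smul_eq_mul] using h
  have hp : p ≠ 0 := (Fact.out : p.Prime).ne_zero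
  refine ⟨∑ i, a i ^ p * b i, fun h0 => hi ?_, fun c => ?_⟩
  · have h1 := hb.uniq a i
    have h2 := hb.uniq (fun _ => 0) i
    rw [h0] at h1
    simp only [zero_pow hp, zero_mul, Finset.sum_const_zero] at h2
    rw [← h1, h2]
  · have hg : ∀ j : Fin n, φ ((∑ i, a i ^ p * b i) * w j) = 0 := by
      intro j
      rw [Finset.sum_mul]
      simp only [mul_assoc]
      rw [b2_sum hφ, hz]
    have : (∑ i, a i ^ p * b i) * ∑ j, c j ^ p * w j =
        ∑ j, c j ^ p * ((∑ i, a i ^ p * b i) * w j) := by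
      rw [Finset.mul_sum]
      refine Finset.sum_congr rfl fun j _ => ?_
      ring
    rw [this, b2_sum hφ]
    simp [hg]

end Pool.Agent.F2Ch
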