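import Pool.Agent.Lib.MP_305fdd_al.F2.ChStm

set_option autoImplicit false

namespace Pool.Agent.F2Ch

open MvPolynomial

section
variable {K Γ : Type} [Field K] [AddCommGroup Γ] [LinearOrder Γ] [IsOrderedAddMonoid Γ]

private theorem b3_one {v : K → Γ} (hv : IsV v) : v 1 = 0 := by
  have h := hv.mul 1 1 one_ne_zero one_ne_zero
  rw [mul_one] at h
  simpa using h

private theorem b3_negone {v : K → Γ} (hv : IsV v) : v (-1) = 0 := by
  have h := hv.mul (-1) (-1) (neg_ne_zero.2 one_ne_zero) (neg_ne_zero.2 one_ne_zero)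
  rw [neg_mul_neg, mul_one, b3_one hv] at h
  rcases lt_trichotomy (v (-1)) 0 with h1 | h1 | h1
  · have := add_neg h1 h1
    rw [← h] at this
    exact absurd this (lt_irrefl _)
  · exact h1
  · have := add_pos h1 h1
    rw [← h] at this
    exact absurd this (lt_irrefl _)

private theorem b3_neg {v : K → Γ} (hv : IsV v) (x : K) : v (-x) = v x := by
  rcases eq_or_ne x 0 with rfl | hx
  · rw [neg_zero]
  · rw [← neg_one_mul, hv.mul _ _ (neg_ne_zero.2 one_ne_zero) hx, b3_negone hv, zero_add]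

private theorem b3_pow {v : K → Γ} (hv : IsV v) (x : K) (hx : x ≠ 0) (n : ℕ) :
    v (x ^ n) = n • v x := by
  induction n with
  | zero => rw [pow_zero, zero_smul, b3_one hv]
  | succ n ih => rw [pow_succ, hv.mul _ _ (pow_ne_zero n hx) hx, ih, succ_nsmul]

private theorem b3_step {p : ℕ} [Fact p.Prime] [CharP K p] {v : K → Γ} (hv : IsV v) {n : ℕ}
    (w : Fin n → K) (hw : VI p v w) (x : K) (hx : x ≠ 0)
    (hn : ∀ c : Fin n → K, ¬ Gt v (v x) (x - ∑ j, c j ^ p * w j)) :
    VI p v (Fin.snoc w x : Fin (n + 1) → K) := by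
  have hn1 : ∀ c : Fin n → K, x - ∑ j, c j ^ p * w j ≠ 0 := fun c h => hn c (Or.inl h)
  have hn2 : ∀ c : Fin n → K, v (x - ∑ j, c j ^ p * w j) ≤ v x := fun c =>
    not_lt.1 fun h => hn c (Or.inr h)
  have hp : p ≠ 0 := (Fact.out : p.Prime).ne_zero
  have hsum : ∀ a : Fin (n + 1) → K, ∑ j, a j ^ p * (Fin.snoc w x : Fin (n + 1) → K) j =
      (∑ j : Fin n, a j.castSucc ^ p * w j) + a (Fin.last n) ^ p * x := by
    intro a
    rw [Fin.sum_univ_castSucc]
    simp only [Fin.snoc_castSucc, Fin.snoc_last]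
  have key : ∀ (a : Fin (n + 1) → K), a (Fin.last n) ≠ 0 →
      (∑ j : Fin n, a j.castSucc ^ p * w j) + a (Fin.last n) ^ p * x ≠ 0 ∧
      v ((∑ j : Fin n, a j.castSucc ^ p * w j) + a (Fin.last n) ^ p * x) ≤
        p • v (a (Fin.last n)) + v x := by
    intro a hc
    have hcp : a (Fin.last n) ^ p ≠ 0 := pow_ne_zero p hc
    have hneg : ∀ y : K, (-y) ^ p = -(y ^ p) := fun y => (frobenius K p).map_neg y
    have e : (∑ j : Fin n, a j.castSucc ^ p * w j) + a (Fin.last n) ^ p * x =
        a (Fin.last n) ^ p *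
          (x - ∑ j, (-(a j.castSucc / a (Fin.last n))) ^ p * w j) := by
      rw [mul_sub, Finset.mul_sum]
      have : ∀ j : Fin n, a (Fin.last n) ^ p *
          ((-(a j.castSucc / a (Fin.last n))) ^ p * w j) = -(a j.castSucc ^ p * w j) := by
        intro j
        rw [hneg, div_pow]
        field_simp
      rw [Finset.sum_congr rfl fun j _ => this j, Finset.sum_neg_distrib]
      ring
    rw [e]
    refine ⟨mul_ne_zero hcp (hn1 _), ?_⟩
    rw [hv.mul _ _ hcp (hn1 _), b3_pow hv _ hc]
    have h := hn2 (fun j => -(a j.castSucc / a (Fin.last n)))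
    exact add_le_add_right h _
  refine ⟨fun i => ?_, fun a i hi => ?_, fun a i hi => ?_⟩
  · refine Fin.lastCases ?_ (fun j => ?_) i
    · rw [Fin.snoc_last]
      exact hx
    · rw [Fin.snoc_castSucc]
      exact hw.ne j
  · rw [hsum]
    by_cases hc : a (Fin.last n) = 0
    · rw [hc, zero_pow hp, zero_mul, add_zero]
      revert hi
      refine Fin.lastCases ?_ (fun j => ?_) i
      · intro h
        exact absurd hc h
      · intro h
        exact hw.ne_zero (fun j => a j.castSucc) j h
    · exact (key a hc).1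
  · rw [hsum]
    by_cases hc : a (Fin.last n) = 0
    · rw [hc, zero_pow hp, zero_mul, add_zero]
      revert hi
      refine Fin.lastCases ?_ (fun j => ?_) i
      · intro h
        exact absurd hc h
      · intro h
        rw [Fin.snoc_castSucc]
        exact hw.le (fun j => a j.castSucc) j h
    · obtain ⟨k1, k2⟩ := key a hc
      revert hi
      refine Fin.lastCases ?_ (fun j => ?_) i
      · intro _
        rw [Fin.snoc_last]
        exact k2
      · intro h
        rw [Fin.snoc_castSucc]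
        have hA := hw.ne_zero (fun j => a j.castSucc) j h
        have hA2 := hw.le (fun j => a j.castSucc) j h
        refine le_trans ?_ hA2
        have hcx : a (Fin.last n) ^ p * x ≠ 0 := mul_ne_zero (pow_ne_zero p hc) hx
        have e : (∑ j : Fin n, a j.castSucc ^ p * w j) =
            ((∑ j : Fin n, a j.castSucc ^ p * w j) + a (Fin.last n) ^ p * x) +
              (-(a (Fin.last n) ^ p * x)) := by ring
        have h3 := hv.add _ (-(a (Fin.last n) ^ p * x)) k1 (neg_ne_zero.2 hcx)
          (by rw [← e]; exact hA)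
        rw [← e, b3_neg hv, hv.mul _ _ (pow_ne_zero p hc) hx, b3_pow hv _ hc] at h3
        rwa [min_eq_left k2] at h3

end

theorem p_B3 (hB1 : S_B1) (hB2 : S_B2) : S_B3 := by
  intro p _ K _ _ ι _ b ρ hb Γ _ _ _ v hv φ hφ hφ1 hcomp
  have hφ0 : φ 0 = 0 := by
    have h := hφ.add 0 0
    rw [add_zero] at h
    simpa using h
  have main : ∀ n, n ≤ Fintype.card ι → ∃ w : Fin n → K, VI p v w := by
    intro n
    induction n with
    | zero => exact fun _ => ⟨Fin.elim0, ⟨fun i => i.elim0, fun _ i => i.elim0, fun _ i => i.elim0⟩⟩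
    | succ n ih =>
      intro hn
      obtain ⟨w, hw⟩ := ih (by omega)
      obtain ⟨g, hg, hgw⟩ := hB2 p K ι b ρ hb n w (by omega) φ hφ
      refine ⟨Fin.snoc w g⁻¹, b3_step hv w hw g⁻¹ (inv_ne_zero hg) fun c hc => ?_⟩
      have hz : φ (1 - g * ∑ j, c j ^ p * w j) = 1 := by
        have h := hφ.add (1 - g * ∑ j, c j ^ p * w j) (g * ∑ j, c j ^ p * w j)
        rw [sub_add_cancel, hgw, add_zero, hφ1] at h
        exact h.symm
      have hzz : 1 - g * ∑ j, c j ^ p * w j = g * (g⁻¹ - ∑ j, c j ^ p * w j) := by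
        rw [mul_sub, mul_inv_cancel₀ hg]
      rcases hc with h | h
      · rw [hzz, h, mul_zero, hφ0] at hz
        exact zero_ne_one hz
      · have hne : g⁻¹ - ∑ j, c j ^ p * w j ≠ 0 := by
          intro h'
          rw [hzz, h', mul_zero, hφ0] at hz
          exact zero_ne_one hz
        have h1 := hcomp (1 - g * ∑ j, c j ^ p * w j) (by rw [hz]; exact one_ne_zero)
        rw [hz, b3_one hv, smul_zero, hzz, hv.mul _ _ hg hne] at h1
        have h2 := hv.mul g g⁻¹ hg (inv_ne_zero hg)
        rw [mul_inv_cancel₀ hg, b3_one hv] at h2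
        have h3 : v g + v g⁻¹ < v g + v (g⁻¹ - ∑ j, c j ^ p * w j) := add_lt_add_right h _
        rw [← h2] at h3
        exact absurd h1 (not_le.2 h3)
  obtain ⟨w, hw⟩ := main _ le_rfl
  let e := Fintype.equivFin ι
  have hs : ∀ a : ι → K, ∑ j, a j ^ p * w (e j) = ∑ j, (a (e.symm j)) ^ p * w j := by
    intro a
    rw [← Equiv.sum_comp e]
    simp
  have hVI : VI p v (fun i => w (e i)) := by
    refine ⟨fun i => hw.ne _, fun a i hi => ?_, fun a i hi => ?_⟩
    · rw [hs]
      exact hw.ne_zero (fun j => a (e.symm j)) (e i) (by simpa using hi)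
    · rw [hs]
      have h := hw.le (fun j => a (e.symm j)) (e i) (by simpa using hi)
      simpa using h
  obtain ⟨_, h⟩ := hB1 p K ι b ρ hb ι (fun i => w (e i)) (by
    intro a ha
    by_contra hne
    obtain ⟨i, hi⟩ := Function.ne_iff.1 hne
    exact hVI.ne_zero a i hi ha)
  obtain ⟨π, hπ⟩ := h rfl
  exact ⟨_, π, hπ, hVI⟩

end Pool.Agent.F2Ch
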