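import Pool.Agent.Lib.MP_305fdd_al.F2.ChStm

set_option autoImplicit false

namespace Pool.Agent.F2Ch

open MvPolynomial

private theorem c0_gt_add {K Γ : Type} [Field K] [AddCommGroup Γ] [LinearOrder Γ]
    [IsOrderedAddMonoid Γ] {v : K → Γ} (hv : IsV v) {c : Γ} {x y : K} (hx : Gt v c x)
    (hy : Gt v c y) : Gt v c (x + y) := by
  by_cases h0 : x + y = 0
  · exact Or.inl h0
  · rcases hx with hx | hx
    · rw [hx, zero_add]
      exact hy
    · rcases hy with hy | hy
      · rw [hy, add_zero]
        exact Or.inr hx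
      · by_cases hx0 : x = 0
        · rw [hx0, zero_add]
          exact Or.inr hy
        · by_cases hy0 : y = 0
          · rw [hy0, add_zero]
            exact Or.inr hx
          · exact Or.inr (lt_of_lt_of_le (lt_min hx hy) (hv.add x y hx0 hy0 h0))

private theorem c0_gt_sum {K Γ ι : Type} [Field K] [AddCommGroup Γ] [LinearOrder Γ]
    [IsOrderedAddMonoid Γ] {v : K → Γ} (hv : IsV v) {c : Γ} (s : Finset ι) (x : ι → K)
    (hx : ∀ i ∈ s, Gt v c (x i)) : Gt v c (∑ i ∈ s, x i) := by
  classical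
  induction s using Finset.induction_on with
  | empty => exact Or.inl Finset.sum_empty
  | insert a s ha ih =>
    rw [Finset.sum_insert ha]
    exact c0_gt_add hv (hx a (Finset.mem_insert_self a s))
      (ih fun i hi => hx i (Finset.mem_insert_of_mem hi))

private theorem c0_smul {k K Γ : Type} [Field k] [Field K] [Algebra k K] [AddCommGroup Γ]
    [LinearOrder Γ] [IsOrderedAddMonoid Γ] {v : K → Γ} (hv : IsV v) (ht : Triv k v) {c : k}
    {x : K} (hc : c ≠ 0) (hx : x ≠ 0) : v (c • x) = v x := by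
  rw [Algebra.smul_def, hv.mul _ _ ((map_ne_zero (algebraMap k K)).2 hc) hx, ht c, zero_add]

theorem p_C0 : S_C0 := by
  classical
  intro k K Γ _ _ _ _ _ _ v hv ht V hV
  by_contra hinf
  have hinf' : Set.Infinite {γ : Γ | ∃ f ∈ V, f ≠ 0 ∧ v f = γ} := hinf
  obtain ⟨t, hts, htc⟩ := hinf'.exists_subset_card_eq (Module.finrank k V + 1)
  have hex : ∀ γ : t, ∃ f ∈ V, f ≠ 0 ∧ v f = γ := fun γ => hts γ.2
  choose f hfV hf0 hfv using hex
  have hli : LinearIndependent k (fun γ : t => (⟨f γ, hfV γ⟩ : V)) := by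
    rw [linearIndependent_iff']
    intro s g hg
    by_contra hcon
    push Not at hcon
    obtain ⟨i1, hi1, hgi1⟩ := hcon
    have hne : (s.filter fun i => g i ≠ 0).Nonempty := ⟨i1, Finset.mem_filter.2 ⟨hi1, hgi1⟩⟩
    obtain ⟨i0, hi0, hmin⟩ := Finset.exists_min_image _ (fun i : t => (i : Γ)) hne
    rw [Finset.mem_filter] at hi0
    have hsum : ∑ i ∈ s, g i • f i = 0 := by
      have h1 := congrArg (Submodule.subtype V) hg
      rw [map_sum, map_zero] at h1
      rw [← h1]
      exact Finset.sum_congr rfl fun i _ => by rw [map_smul, Submodule.subtype_apply]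
    have hrest : Gt v (i0 : Γ) (∑ i ∈ s.erase i0, g i • f i) := by
      refine c0_gt_sum hv _ _ fun i hi => ?_
      rw [Finset.mem_erase] at hi
      by_cases hgi : g i = 0
      · left
        rw [hgi, zero_smul]
      · right
        rw [c0_smul hv ht hgi (hf0 i), hfv i]
        refine lt_of_le_of_ne (hmin i (Finset.mem_filter.2 ⟨hi.2, hgi⟩)) ?_
        intro he
        exact hi.1 (Subtype.ext he.symm)
    rw [← Finset.add_sum_erase _ _ hi0.1] at hsum
    have h2 : ∑ i ∈ s.erase i0, g i • f i = (-g i0) • f i0 := by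
      rw [neg_smul]
      exact (neg_eq_of_add_eq_zero_right hsum).symm
    rw [h2] at hrest
    rcases hrest with h3 | h3
    · exact (smul_ne_zero (neg_ne_zero.2 hi0.2) (hf0 i0)) h3
    · rw [c0_smul hv ht (neg_ne_zero.2 hi0.2) (hf0 i0), hfv i0] at h3
      exact lt_irrefl _ h3
  have h4 := hli.fintype_card_le_finrank
  rw [Fintype.card_coe, htc] at h4
  omega

end Pool.Agent.F2Ch
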