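import Pool.Agent.Lib.MP_305fdd_al.F2.ChStm

/-!
# MP_305fdd_al, F_2 project, [F2C C1]: the value group is finitely generated
-/

set_option autoImplicit false

namespace Pool.Agent.F2Ch

open MvPolynomial

section
variable {K Γ : Type} [Field K] [AddCommGroup Γ] [LinearOrder Γ] [IsOrderedAddMonoid Γ]

private theorem c1_one {v : K → Γ} (hv : IsV v) : v 1 = 0 := by
  have h := hv.mul 1 1 one_ne_zero one_ne_zero
  rw [one_mul] at h
  exact left_eq_add.mp h

private theorem c1_pow {v : K → Γ} (hv : IsV v) {x : K} (hx : x ≠ 0) (n : ℕ) :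
    v (x ^ n) = n • v x := by
  induction n with
  | zero => rw [pow_zero, zero_smul]; exact c1_one hv
  | succ n ih => rw [pow_succ, hv.mul _ _ (pow_ne_zero _ hx) hx, ih, succ_nsmul]

omit [IsOrderedAddMonoid Γ] in
private theorem c1_sum {v : K → Γ} (hv : IsV v) {ι : Type} (s : Finset ι) (f : ι → K) (γ : Γ)
    (h : ∀ i ∈ s, f i ≠ 0 → γ ≤ v (f i)) (hs : ∑ i ∈ s, f i ≠ 0) : γ ≤ v (∑ i ∈ s, f i) := by
  classical
  induction s using Finset.induction_on with
  | empty => simp at hs
  | insert a s ha ih =>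
    rw [Finset.sum_insert ha] at hs ⊢
    by_cases h1 : ∑ i ∈ s, f i = 0
    · rw [h1, add_zero] at hs ⊢
      exact h a (Finset.mem_insert_self _ _) hs
    · have h2 := ih (fun i hi => h i (Finset.mem_insert_of_mem hi)) h1
      by_cases h3 : f a = 0
      · rw [h3, zero_add]
        exact h2
      · exact le_trans (le_min (h a (Finset.mem_insert_self _ _) h3) h2) (hv.add _ _ h3 h1 hs)

private theorem c1_pinv {p : ℕ} [Fact p.Prime] [CharP K p] {ι : Type} [Fintype ι] {w : ι → K}
    {π : ι → K → K} (hb : IsPB p w π) (i : ι) : IsPinv p (π i) := by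
  refine ⟨fun x y => ?_, fun a b => ?_⟩
  · have h1 : x + y = ∑ j, (π j x + π j y) ^ p * w j := by
      conv_lhs => rw [← hb.repr x, ← hb.repr y]
      rw [← Finset.sum_add_distrib]
      refine Finset.sum_congr rfl fun j _ => ?_
      rw [add_pow_char, add_mul]
    conv_lhs => rw [h1]
    exact hb.uniq (fun j => π j x + π j y) i
  · have h1 : a ^ p * b = ∑ j, (a * π j b) ^ p * w j := by
      conv_lhs => rw [← hb.repr b]
      rw [Finset.mul_sum]
      refine Finset.sum_congr rfl fun j _ => ?_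
      rw [mul_pow, mul_assoc]
    conv_lhs => rw [h1]
    exact hb.uniq (fun j => a * π j b) i

private theorem c1_step {p : ℕ} [Fact p.Prime] {v : K → Γ} (hv : IsV v) {ι : Type} [Fintype ι]
    {w : ι → K} {π : ι → K → K} (hb : IsPB p w π) (hi : VI p v w) {f : K} (hf : f ≠ 0) :
    ∃ i, π i f ≠ 0 ∧ v f = p • v (π i f) + v (w i) := by
  classical
  have hp : p ≠ 0 := (Fact.out : p.Prime).ne_zero
  have hne : (Finset.univ.filter fun i => π i f ≠ 0).Nonempty := by
    by_contra h
    rw [Finset.not_nonempty_iff_eq_empty, Finset.filter_eq_empty_iff] at h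
    apply hf
    rw [← hb.repr f]
    refine Finset.sum_eq_zero fun i _ => ?_
    have h1 : π i f = 0 := by
      have := h (Finset.mem_univ i)
      push Not at this
      exact this
    rw [h1, zero_pow hp, zero_mul]
  obtain ⟨i, him, hmin⟩ := Finset.exists_min_image _ (fun i => p • v (π i f) + v (w i)) hne
  have hif : π i f ≠ 0 := (Finset.mem_filter.mp him).2
  refine ⟨i, hif, le_antisymm ?_ ?_⟩
  · have h1 := hi.le (fun j => π j f) i hif
    rw [hb.repr f] at h1
    exact h1
  · have h1 := c1_sum hv Finset.univ (fun j => (π j f) ^ p * w j) (p • v (π i f) + v (w i)) ?_ ?_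
    · rw [hb.repr f] at h1
      exact h1
    · intro j _ hj
      have hj1 : π j f ≠ 0 := by
        intro h0
        apply hj
        simp only [h0]
        rw [zero_pow hp, zero_mul]
      have h2 := hmin j (Finset.mem_filter.mpr ⟨Finset.mem_univ j, hj1⟩)
      show p • v (π i f) + v (w i) ≤ v ((π j f) ^ p * w j)
      rw [hv.mul _ _ (pow_ne_zero _ hj1) (hi.ne j), c1_pow hv hj1]
      exact h2
    · rw [hb.repr f]
      exact hf

private theorem c1_word {p : ℕ} [Fact p.Prime] {v : K → Γ} (hv : IsV v) {ι : Type} [Fintype ι]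
    {w : ι → K} {π : ι → K → K} (hb : IsPB p w π) (hi : VI p v w) (N : ℕ) :
    ∀ f : K, f ≠ 0 → ∃ l : List ι, l.length = N ∧ wd π l f ≠ 0 ∧
      v f - p ^ N • v (wd π l f) ∈ AddSubgroup.closure (Set.range fun i => v (w i)) := by
  induction N with
  | zero =>
    intro f hf
    refine ⟨[], rfl, hf, ?_⟩
    rw [pow_zero, one_smul]
    show v f - v f ∈ _
    rw [sub_self]
    exact zero_mem _
  | succ N ih =>
    intro f hf
    obtain ⟨i, hif, hvi⟩ := c1_step hv hb hi hf
    obtain ⟨l, hl, hg, hc⟩ := ih (π i f) hif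
    refine ⟨i :: l, by rw [List.length_cons, hl], hg, ?_⟩
    have h1 : v f - p ^ (N + 1) • v (wd π (i :: l) f)
        = p • (v (π i f) - p ^ N • v (wd π l (π i f))) + v (w i) := by
      show v f - p ^ (N + 1) • v (wd π l (π i f)) = _
      rw [hvi, smul_sub, smul_smul, pow_succ']
      abel
    rw [h1]
    exact add_mem (AddSubgroup.nsmul_mem _ hc _) (AddSubgroup.subset_closure ⟨i, rfl⟩)

end

theorem p_C1 (hA3 : S_A3) (hC0 : S_C0) : S_C1 := by
  intro p _ k K Γ _ _ _ _ _ _ _ _ n t ht v hv htr ι _ w π hb hi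
  have : CharP K p := charP_of_injective_algebraMap (algebraMap k K).injective p
  obtain ⟨V, hVf, -, -, hVa⟩ := hA3 p k K n t ht ι π (fun i => c1_pinv hb i) ∅ Set.finite_empty
  have hfin := hC0 k K Γ v hv htr V hVf
  set G : Set Γ := (Set.range fun i => v (w i)) ∪ {γ : Γ | ∃ f ∈ V, f ≠ 0 ∧ v f = γ} with hG
  have hGf : G.Finite := (Set.finite_range _).union hfin
  have hpol : ∀ q : MvPolynomial (Fin n) k, aeval t q ≠ 0 →
      v (aeval t q) ∈ AddSubgroup.closure G := by
    intro q hq
    obtain ⟨N0, hN0⟩ := hVa q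
    obtain ⟨l, hl, hg, hc⟩ := c1_word hv hb hi N0 (aeval t q) hq
    have hgV := hN0 N0 le_rfl l hl
    have h1 : v (aeval t q) - p ^ N0 • v (wd π l (aeval t q)) ∈ AddSubgroup.closure G :=
      AddSubgroup.closure_mono Set.subset_union_left hc
    have h2 : p ^ N0 • v (wd π l (aeval t q)) ∈ AddSubgroup.closure G := by
      have h0 : v (wd π l (aeval t q)) ∈ AddSubgroup.closure G := by
        apply AddSubgroup.subset_closure
        right
        exact ⟨_, hgV, hg, rfl⟩
      exact AddSubgroup.nsmul_mem _ h0 _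
    have h3 := add_mem h1 h2
    rwa [sub_add_cancel] at h3
  have hall : AddSubgroup.closure {γ : Γ | ∃ f, f ≠ 0 ∧ v f = γ} = AddSubgroup.closure G := by
    apply le_antisymm
    · rw [AddSubgroup.closure_le]
      rintro γ ⟨f, hf, rfl⟩
      obtain ⟨a, b, hb0, hab⟩ := ht f
      have ha0 : aeval t a ≠ 0 := by
        rw [← hab]
        exact mul_ne_zero hf hb0
      have h1 := hv.mul f (aeval t b) hf hb0
      rw [hab] at h1
      have h2 : v f = v (aeval t a) - v (aeval t b) := by
        rw [h1, add_sub_cancel_right]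
      rw [SetLike.mem_coe, h2]
      exact sub_mem (hpol a ha0) (hpol b hb0)
    · apply AddSubgroup.closure_mono
      rintro γ (⟨i, rfl⟩ | ⟨f, -, hf, hγ⟩)
      · exact ⟨w i, hi.ne i, rfl⟩
      · exact ⟨f, hf, hγ⟩
  rw [hall]
  exact (AddSubgroup.fg_iff _).mpr ⟨G, rfl, hGf⟩

end Pool.Agent.F2Ch
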