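import Pool.Agent.Lib.MP_305fdd_al.F2.ChStm

/-!
# Piece C2: a basis of the value group
-/

set_option autoImplicit false

namespace Pool.Agent.F2Ch

open MvPolynomial

private theorem c2_one {K Γ : Type} [Field K] [AddCommGroup Γ] [LinearOrder Γ]
    [IsOrderedAddMonoid Γ] {v : K → Γ} (hv : IsV v) : v 1 = 0 := by
  have h := hv.mul 1 1 one_ne_zero one_ne_zero
  rw [mul_one] at h
  exact left_eq_add.1 h

private theorem c2_mem {K Γ : Type} [Field K] [AddCommGroup Γ] [LinearOrder Γ]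
    [IsOrderedAddMonoid Γ] {v : K → Γ} (hv : IsV v) (γ : Γ)
    (h : γ ∈ AddSubgroup.closure {γ : Γ | ∃ f, f ≠ 0 ∧ v f = γ}) : ∃ f, f ≠ 0 ∧ v f = γ := by
  induction h using AddSubgroup.closure_induction with
  | mem x hx => exact hx
  | zero => exact ⟨1, one_ne_zero, c2_one hv⟩
  | add a b _ _ ha hb =>
    obtain ⟨f, hf, rfl⟩ := ha
    obtain ⟨g, hg, rfl⟩ := hb
    exact ⟨f * g, mul_ne_zero hf hg, hv.mul f g hf hg⟩
  | neg a _ ha =>
    obtain ⟨f, hf, rfl⟩ := ha
    refine ⟨f⁻¹, inv_ne_zero hf, ?_⟩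
    have h1 := hv.mul f f⁻¹ hf (inv_ne_zero hf)
    rw [mul_inv_cancel₀ hf, c2_one hv] at h1
    exact eq_neg_of_add_eq_zero_right h1.symm

theorem p_C2 : S_C2 := by
  intro K Γ _ _ _ _ v hv hfg
  set H := AddSubgroup.closure {γ : Γ | ∃ f, f ≠ 0 ∧ v f = γ} with hH
  have hfin : Module.Finite ℤ H :=
    Module.Finite.iff_addGroup_fg.2 ((AddGroup.fg_iff_addSubgroup_fg H).2 hfg)
  have htf : Module.IsTorsionFree ℤ H := inferInstance
  have hfree : Module.Free ℤ H := Module.free_of_finite_type_torsion_free'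
  let b := Module.finBasis ℤ H
  let ε : Fin (Module.finrank ℤ H) → ℤˣ := fun i => if 0 < ((b i : H) : Γ) then 1 else -1
  let b' := b.unitsSMul ε
  have hpos : ∀ i, 0 < ((b' i : H) : Γ) := by
    intro i
    have h1 : b' i = ε i • b i := b.unitsSMul_apply i
    rw [h1]
    have hne : ((b i : H) : Γ) ≠ 0 := by
      intro h0
      exact b.ne_zero i (Subtype.ext h0)
    by_cases hi : 0 < ((b i : H) : Γ)
    · have : ε i = 1 := if_pos hi
      rw [this, one_smul]
      exact hi
    · have : ε i = -1 := if_neg hi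
      rw [this]
      have h2 : ((-1 : ℤˣ) • b i : H) = -b i := by
        rw [Units.smul_def, Units.val_neg, Units.val_one, neg_smul, one_smul]
      rw [h2, AddSubgroup.coe_neg]
      exact neg_pos.2 (lt_of_le_of_ne (not_lt.1 hi) hne)
  have hx : ∀ i, ∃ f, f ≠ 0 ∧ v f = ((b' i : H) : Γ) := fun i => c2_mem hv _ (b' i).2
  choose x hx0 hxv using hx
  have hmem : ∀ f, f ≠ 0 → v f ∈ H := fun f hf => AddSubgroup.subset_closure ⟨f, hf, rfl⟩
  classical
  refine ⟨Module.finrank ℤ H, x, fun f => if h : f = 0 then 0 else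
    fun i => b'.repr ⟨v f, hmem f h⟩ i, ?_⟩
  have hwt : ∀ m : Fin (Module.finrank ℤ H) → ℤ,
      wt (fun i => v (x i)) m = ((∑ i, m i • b' i : H) : Γ) := by
    intro m
    unfold wt
    rw [AddSubgroup.val_finsetSum]
    refine Finset.sum_congr rfl fun i _ => ?_
    show m i • v (x i) = _
    rw [hxv i]
    rfl
  refine ⟨hx0, fun i => by rw [hxv i]; exact hpos i, ?_, ?_, ?_⟩
  · intro m hm
    rw [hwt] at hm
    have h1 : ∑ i, m i • b' i = 0 := Subtype.ext hm
    funext i
    exact Fintype.linearIndependent_iff.1 b'.linearIndependent m h1 i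
  · intro f hf
    rw [hwt]
    simp only [dif_neg hf]
    rw [b'.sum_repr]
  · simp only [dite_true]

end Pool.Agent.F2Ch
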