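import Pool.Agent.Lib.MP_305fdd_al.F2.ChStm

/-!
# [F2C C4] the count `[K : K ^ p] = p ^ r [κ : κ ^ p]`
-/

set_option autoImplicit false
set_option linter.unusedSectionVars false

namespace Pool.Agent.F2Ch

open MvPolynomial

section c4
variable {K Γ : Type} [Field K] [AddCommGroup Γ] [LinearOrder Γ] [IsOrderedAddMonoid Γ]

theorem c4_one {v : K → Γ} (hv : IsV v) : v 1 = 0 := by
  have h := hv.mul 1 1 one_ne_zero one_ne_zero
  rw [mul_one] at h
  simpa using h

theorem c4_pow {v : K → Γ} (hv : IsV v) (a : K) (ha : a ≠ 0) (n : ℕ) : v (a ^ n) = n • v a := by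
  induction n with
  | zero => simp [c4_one hv]
  | succ n ih => rw [pow_succ, hv.mul _ _ (pow_ne_zero _ ha) ha, ih, succ_nsmul]

theorem c4_inv {v : K → Γ} (hv : IsV v) (a : K) (ha : a ≠ 0) : v a⁻¹ = - v a := by
  have h := hv.mul a a⁻¹ ha (inv_ne_zero ha)
  rw [mul_inv_cancel₀ ha, c4_one hv] at h
  exact (neg_eq_of_add_eq_zero_right h.symm).symm

theorem c4_zpow {v : K → Γ} (hv : IsV v) (a : K) (ha : a ≠ 0) (n : ℤ) : v (a ^ n) = n • v a := by
  cases n with
  | ofNat n => simp [c4_pow hv a ha]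
  | negSucc n =>
    rw [zpow_negSucc, c4_inv hv _ (pow_ne_zero _ ha), c4_pow hv a ha, negSucc_zsmul]

theorem c4_prod {v : K → Γ} (hv : IsV v) {ι : Type} (s : Finset ι) (f : ι → K)
    (hf : ∀ i, f i ≠ 0) : v (∏ i ∈ s, f i) = ∑ i ∈ s, v (f i) := by
  classical
  induction s using Finset.induction_on with
  | empty => simp [c4_one hv]
  | insert a s ha ih =>
    rw [Finset.prod_insert ha, Finset.sum_insert ha,
      hv.mul _ _ (hf a) (Finset.prod_ne_zero_iff.mpr fun i _ => hf i), ih]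

/-- the Laurent monomial with exponent `m` -/
noncomputable def c4_mon {r : ℕ} (x : Fin r → K) (m : Fin r → ℤ) : K := ∏ i, x i ^ m i

theorem c4_mon_ne {r : ℕ} (x : Fin r → K) (hx : ∀ i, x i ≠ 0) (m : Fin r → ℤ) :
    c4_mon x m ≠ 0 := Finset.prod_ne_zero_iff.mpr fun i _ => zpow_ne_zero _ (hx i)

theorem c4_mon_val {v : K → Γ} (hv : IsV v) {r : ℕ} (x : Fin r → K) (hx : ∀ i, x i ≠ 0)
    (m : Fin r → ℤ) : v (c4_mon x m) = wt (fun i => v (x i)) m := by
  unfold c4_mon wt
  rw [c4_prod hv _ _ fun i => zpow_ne_zero _ (hx i)]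
  exact Finset.sum_congr rfl fun i _ => c4_zpow hv _ (hx i) _

/-- the angular component as a homomorphism -/
noncomputable def c4_hom {k κ : Type} {r : ℕ} [Field k] [Algebra k K] [Field κ] [Algebra k κ]
    {v : K → Γ} {x : Fin r → K} {ac : K → κ} (h : IsAC k v x ac) : K →*₀ κ where
  toFun := ac
  map_zero' := h.zero
  map_one' := by
    have := h.alg 1
    simpa using this
  map_mul' := h.mul

theorem c4_mon_ac {k κ : Type} {r : ℕ} [Field k] [Algebra k K] [Field κ] [Algebra k κ]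
    {v : K → Γ} {x : Fin r → K} {ac : K → κ} (h : IsAC k v x ac) (m : Fin r → ℤ) :
    ac (c4_mon x m) = 1 := by
  have h1 : c4_hom h (c4_mon x m) = ∏ i, (c4_hom h (x i)) ^ m i := by
    unfold c4_mon
    rw [map_prod]
    exact Finset.prod_congr rfl fun i _ => map_zpow₀ _ _ _
  have h2 : ∀ i, c4_hom h (x i) = 1 := h.x_one
  simp only [h2, one_zpow, Finset.prod_const_one] at h1
  exact h1

theorem c4_ac_pow {k κ : Type} {r : ℕ} [Field k] [Algebra k K] [Field κ] [Algebra k κ]
    {v : K → Γ} {x : Fin r → K} {ac : K → κ} (h : IsAC k v x ac) (a : K) (n : ℕ) :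
    ac (a ^ n) = ac a ^ n := map_pow (c4_hom h) a n

theorem c4_ge_add {v : K → Γ} (hv : IsV v) {c : Γ} {a b : K} (ha : Ge v c a) (hb : Ge v c b) :
    Ge v c (a + b) := by
  by_cases h0 : a + b = 0
  · exact Or.inl h0
  by_cases ha0 : a = 0
  · subst ha0; simpa using hb
  by_cases hb0 : b = 0
  · subst hb0; simpa using ha
  rcases ha with ha | ha
  · exact absurd ha ha0
  rcases hb with hb | hb
  · exact absurd hb hb0
  exact Or.inr (le_trans (le_min ha hb) (hv.add a b ha0 hb0 h0))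

theorem c4_lc_zero {κ : Type} [Field κ] (v : K → Γ) (ac : K → κ) (γ : Γ) : lc v ac γ 0 = 0 := by
  unfold lc
  simp

theorem c4_lc_sum {k κ : Type} {r : ℕ} [Field k] [Algebra k K] [Field κ] [Algebra k κ]
    {v : K → Γ} (hv : IsV v) {x : Fin r → K} {ac : K → κ} (h : IsAC k v x ac) (γ : Γ)
    {ι : Type} (s : Finset ι) (f : ι → K) (hf : ∀ i, Ge v γ (f i)) :
    Ge v γ (∑ i ∈ s, f i) ∧ lc v ac γ (∑ i ∈ s, f i) = ∑ i ∈ s, lc v ac γ (f i) := by
  classical
  induction s using Finset.induction_on with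
  | empty => exact ⟨Or.inl (by simp), by simp [c4_lc_zero]⟩
  | insert a s ha ih =>
    rw [Finset.sum_insert ha, Finset.sum_insert ha]
    exact ⟨c4_ge_add hv (hf a) ih.1, by rw [h.add γ _ _ (hf a) ih.1, ih.2]⟩

open Classical in
theorem c4_lc_term {k κ : Type} {r p : ℕ} (hp : p ≠ 0) [Field k] [Algebra k K] [Field κ]
    [Algebra k κ] {v : K → Γ} (hv : IsV v) {x : Fin r → K} {ac : K → κ} (h : IsAC k v x ac)
    (γ : Γ) (a w : K) (hw : w ≠ 0) :
    lc v ac γ (a ^ p * w) = (if a ≠ 0 ∧ p • v a + v w = γ then ac a else 0) ^ p * ac w := by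
  by_cases ha : a = 0
  · subst ha
    simp [hp, c4_lc_zero]
  · have h1 : v (a ^ p * w) = p • v a + v w := by
      rw [hv.mul _ _ (pow_ne_zero _ ha) hw, c4_pow hv a ha]
    unfold lc
    rw [h1]
    by_cases h2 : p • v a + v w = γ
    · rw [if_pos ⟨mul_ne_zero (pow_ne_zero _ ha) hw, h2⟩, if_pos ⟨ha, h2⟩, h.mul, c4_ac_pow h]
    · rw [if_neg (fun h3 => h2 h3.2), if_neg (fun h3 => h2 h3.2)]
      simp [hp]

theorem c4_term_val {p : ℕ} {v : K → Γ} (hv : IsV v) (a w : K) (ha : a ≠ 0) (hw : w ≠ 0) :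
    v (a ^ p * w) = p • v a + v w := by
  rw [hv.mul _ _ (pow_ne_zero _ ha) hw, c4_pow hv a ha]

end c4

theorem c4_wt_inj {Γ : Type} [AddCommGroup Γ] {r : ℕ} (u : Fin r → Γ)
    (h : ∀ m : Fin r → ℤ, wt u m = 0 → m = 0) (a b : Fin r → ℤ) (hab : wt u a = wt u b) :
    a = b := by
  have h1 : wt u (a - b) = 0 := by
    unfold wt at *
    simp only [Pi.sub_apply, sub_smul, Finset.sum_sub_distrib, hab, sub_self]
  exact sub_eq_zero.mp (h _ h1)

theorem c4_wt_lin {Γ : Type} [AddCommGroup Γ] {r : ℕ} (u : Fin r → Γ) (p : ℤ)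
    (a b : Fin r → ℤ) : wt u (p • a + b) = p • wt u a + wt u b := by
  unfold wt
  simp only [Pi.add_apply, Pi.smul_apply, smul_eq_mul, add_smul, mul_smul,
    Finset.sum_add_distrib, Finset.smul_sum]

theorem c4_mkPB (p : ℕ) [Fact p.Prime] (K : Type) [Field K] [CharP K p] (ι : Type) [Fintype ι]
    (w : ι → K) (h0 : ∀ a : ι → K, ∑ j, a j ^ p * w j = 0 → a = 0)
    (hs : ∀ z : K, ∃ a : ι → K, ∑ j, a j ^ p * w j = z) : ∃ ρ : ι → K → K, IsPB p w ρ := by
  choose c hc using hs
  refine ⟨fun i z => c z i, hc, ?_⟩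
  intro a i
  have h1 := hc (∑ j, a j ^ p * w j)
  have h2 : ∑ j, (c (∑ j, a j ^ p * w j) j - a j) ^ p * w j = 0 := by
    have : ∀ j, (c (∑ j, a j ^ p * w j) j - a j) ^ p * w j
        = (c (∑ j, a j ^ p * w j) j) ^ p * w j - a j ^ p * w j := by
      intro j
      rw [sub_pow_char, sub_mul]
    rw [Finset.sum_congr rfl fun j _ => this j, Finset.sum_sub_distrib, h1, sub_self]
  have h3 := congrFun (h0 _ h2) i
  exact sub_eq_zero.mp h3

/-- the class of an exponent modulo `p` -/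
def c4_cls (p : ℕ) [NeZero p] {r : ℕ} (m : Fin r → ℤ) : Fin r → Fin p :=
  fun i => ⟨(m i % (p : ℤ)).toNat, by
    have h1 : (0 : ℤ) < p := by exact_mod_cast NeZero.pos p
    have h2 := Int.emod_nonneg (m i) h1.ne'
    have h3 := Int.emod_lt_of_pos (m i) h1
    omega⟩

/-- the exponent in `[0, p)` of a class -/
def c4_rep {p r : ℕ} (c : Fin r → Fin p) : Fin r → ℤ := fun i => ((c i : ℕ) : ℤ)

/-- the quotient -/
def c4_quo (p : ℕ) {r : ℕ} (m : Fin r → ℤ) : Fin r → ℤ := fun i => m i / (p : ℤ)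

theorem c4_quo_spec (p : ℕ) [NeZero p] {r : ℕ} (m : Fin r → ℤ) :
    m = (p : ℤ) • c4_quo p m + c4_rep (c4_cls p m) := by
  funext i
  have h1 : (0 : ℤ) < p := by exact_mod_cast NeZero.pos p
  have h2 := Int.emod_nonneg (m i) h1.ne'
  have h3 := Int.mul_ediv_add_emod (m i) (p : ℤ)
  simp only [c4_quo, c4_rep, c4_cls, Pi.add_apply, Pi.smul_apply, smul_eq_mul]
  rw [Int.toNat_of_nonneg h2]
  linarith

theorem c4_cls_spec (p : ℕ) [NeZero p] {r : ℕ} (m s : Fin r → ℤ) (c : Fin r → Fin p)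
    (h : (p : ℤ) • s + m = c4_rep c) : c4_cls p m = c := by
  funext i
  have h1 : (0 : ℤ) < p := by exact_mod_cast NeZero.pos p
  have h4 := congrFun h i
  simp only [c4_rep, Pi.add_apply, Pi.smul_apply, smul_eq_mul] at h4
  apply Fin.ext
  simp only [c4_cls]
  have h5 : m i = ((c i : ℕ) : ℤ) + (p : ℤ) * (- s i) := by linarith
  rw [h5, Int.add_mul_emod_self_left, Int.emod_eq_of_lt (by positivity)
    (by exact_mod_cast (c i).2)]
  simp

theorem c4_sum_sub {ι M : Type} [Fintype ι] [AddCommMonoid M] (P : ι → Prop) [DecidablePred P]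
    (g : ι → M) (hg : ∀ i, ¬ P i → g i = 0) :
    ∑ i, g i = ∑ i : {i // P i}, g i.1 := by
  rw [← Finset.sum_subtype (Finset.univ.filter P) (fun i => by simp) g, Finset.sum_filter]
  exact Finset.sum_congr rfl fun i _ => by
    by_cases h : P i
    · rw [if_pos h]
    · rw [if_neg h, hg i h]

theorem c4_class (p : ℕ) [Fact p.Prime] (k K Γ κ : Type) [Field k] [Field K] [Algebra k K]
    [CharP K p] [AddCommGroup Γ] [LinearOrder Γ] [IsOrderedAddMonoid Γ]
    [Field κ] [Algebra k κ] [CharP κ p] (v : K → Γ) (hv : IsV v)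
    (r : ℕ) (x : Fin r → K) (ex : K → Fin r → ℤ) (ac : K → κ) (hx : IsVB v x ex)
    (hac : IsAC k v x ac) (ι : Type) [Fintype ι] [DecidableEq ι] (w : ι → K)
    (π : ι → K → K) (hw : IsPB p w π) (hvi : VI p v w) (c : Fin r → Fin p) :
    ∃ ρ, IsPB p (fun i : {i // c4_cls p (ex (w i)) = c} => ac (w i)) ρ := by
  classical
  have hp : p ≠ 0 := (Fact.out : p.Prime).ne_zero
  set u : Fin r → Γ := fun i => v (x i) with hu
  have hexw : ∀ i, v (w i) = wt u (ex (w i)) := fun i => hx.gen _ (hvi.ne i)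
  set γ : Γ := wt u (c4_rep c) with hγ
  apply c4_mkPB
  · -- independence
    intro a ha
    by_contra hne
    obtain ⟨i0, hi0⟩ : ∃ i, a i ≠ 0 := by
      by_contra h
      push Not at h
      exact hne (funext h)
    have hf : ∀ z : κ, ∃ f : K, (z = 0 → f = 0) ∧ (z ≠ 0 → f ≠ 0 ∧ v f = 0) ∧ ac f = z := by
      intro z
      by_cases hz : z = 0
      · exact ⟨0, fun _ => rfl, fun h => absurd hz h, by rw [hz]; exact hac.zero⟩
      · obtain ⟨f, h1, h2, h3⟩ := hac.surj z hz
        exact ⟨f, fun h => absurd h hz, fun _ => ⟨h1, h2⟩, h3⟩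
    choose F hF0 hF1 hF2 using hf
    let b : ι → K := fun i =>
      if h : c4_cls p (ex (w i)) = c then F (a ⟨i, h⟩) * c4_mon x (- c4_quo p (ex (w i))) else 0
    have hb0 : ∀ i, b i ≠ 0 → c4_cls p (ex (w i)) = c ∧ p • v (b i) + v (w i) = γ := by
      intro i hi
      by_cases h : c4_cls p (ex (w i)) = c
      · refine ⟨h, ?_⟩
        have h1 : b i = F (a ⟨i, h⟩) * c4_mon x (- c4_quo p (ex (w i))) := by
          simp only [b, dif_pos h]
        have h2 : a ⟨i, h⟩ ≠ 0 := by
          intro h3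
          apply hi
          rw [h1, hF0 _ h3, zero_mul]
        have h3 := hF1 _ h2
        rw [h1, hv.mul _ _ h3.1 (c4_mon_ne x hx.ne _), h3.2, zero_add, c4_mon_val hv x hx.ne,
          hexw i]
        have h4 := c4_quo_spec p (ex (w i))
        rw [h] at h4
        have h5 : wt u (ex (w i)) = (p : ℤ) • wt u (c4_quo p (ex (w i))) + wt u (c4_rep c) := by
          conv_lhs => rw [h4]
          exact c4_wt_lin u p _ _
        have h6 : wt u (- c4_quo p (ex (w i))) = - wt u (c4_quo p (ex (w i))) := by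
          simp [wt]
        rw [h5, h6, hγ, natCast_zsmul]
        simp
      · exact absurd (by simp only [b, dif_neg h]) hi
    have hbi0 : b i0.1 ≠ 0 := by
      have h1 : b i0.1 = F (a i0) * c4_mon x (- c4_quo p (ex (w i0.1))) := by
        simp only [b, dif_pos i0.2]
      rw [h1]
      exact mul_ne_zero (hF1 _ hi0).1 (c4_mon_ne x hx.ne _)
    have hge : ∀ i, Ge v γ (b i ^ p * w i) := by
      intro i
      by_cases h : b i = 0
      · left; rw [h]; simp [hp]
      · right; rw [c4_term_val hv _ _ h (hvi.ne i), (hb0 i h).2]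
    have hsum := c4_lc_sum hv hac γ Finset.univ (fun i => b i ^ p * w i) hge
    have hlc : lc v ac γ (∑ i, b i ^ p * w i) = 0 := by
      rw [hsum.2]
      have h1 : ∀ i, lc v ac γ (b i ^ p * w i) =
          if h : c4_cls p (ex (w i)) = c then (a ⟨i, h⟩) ^ p * ac (w i) else 0 := by
        intro i
        rw [c4_lc_term hp hv hac γ _ _ (hvi.ne i)]
        by_cases h : b i = 0
        · rw [if_neg (fun h3 => h3.1 h)]
          by_cases h4 : c4_cls p (ex (w i)) = c
          · rw [dif_pos h4]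
            have h1 : b i = F (a ⟨i, h4⟩) * c4_mon x (- c4_quo p (ex (w i))) := by
              simp only [b, dif_pos h4]
            have h5 : F (a ⟨i, h4⟩) = 0 := by
              rw [h1] at h
              exact (mul_eq_zero.mp h).resolve_right (c4_mon_ne x hx.ne _)
            have h6 : a ⟨i, h4⟩ = 0 := by
              by_contra h7
              exact (hF1 _ h7).1 h5
            rw [h6]
          · rw [dif_neg h4]; simp [hp]
        · have h4 := (hb0 i h).1
          rw [if_pos ⟨h, (hb0 i h).2⟩, dif_pos h4]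
          have h1 : b i = F (a ⟨i, h4⟩) * c4_mon x (- c4_quo p (ex (w i))) := by
            simp only [b, dif_pos h4]
          rw [h1, hac.mul, hF2, c4_mon_ac hac, mul_one]
      refine Eq.trans ?_ ha
      rw [Finset.sum_congr rfl fun i _ => h1 i]
      rw [c4_sum_sub (fun i => c4_cls p (ex (w i)) = c) _ (fun i hi => dif_neg hi)]
      exact Finset.sum_congr rfl fun i _ => dif_pos i.2
    have hne' := hvi.ne_zero b i0.1 hbi0
    have hle := hvi.le b i0.1 hbi0
    rw [(hb0 _ hbi0).2] at hle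
    have hval : v (∑ i, b i ^ p * w i) = γ := by
      rcases hsum.1 with h | h
      · exact absurd h hne'
      · exact le_antisymm hle h
    unfold lc at hlc
    rw [if_pos ⟨hne', hval⟩] at hlc
    exact hac.ne _ hne' hlc
  · -- spanning
    intro z
    by_cases hz : z = 0
    · exact ⟨0, by simp [hz, hp]⟩
    obtain ⟨g, hg0, hg1, hg2⟩ := hac.surj z hz
    set f : K := g * c4_mon x (c4_rep c) with hf
    have hf0 : f ≠ 0 := mul_ne_zero hg0 (c4_mon_ne x hx.ne _)
    have hfv : v f = γ := by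
      rw [hf, hv.mul _ _ hg0 (c4_mon_ne x hx.ne _), hg1, zero_add, c4_mon_val hv x hx.ne]
    have hfac : ac f = z := by rw [hf, hac.mul, c4_mon_ac hac, mul_one, hg2]
    have hrep := hw.repr f
    have hterm : ∀ i, π i f ≠ 0 → γ ≤ p • v (π i f) + v (w i) := by
      intro i hi
      have := hvi.le (fun j => π j f) i hi
      rw [hrep, hfv] at this
      exact this
    have hge : ∀ i, Ge v γ (π i f ^ p * w i) := by
      intro i
      by_cases h : π i f = 0
      · left; rw [h]; simp [hp]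
      · right; rw [c4_term_val hv _ _ h (hvi.ne i)]; exact hterm i h
    have hsum := c4_lc_sum hv hac γ Finset.univ (fun i => π i f ^ p * w i) hge
    have h1 : lc v ac γ f = z := by
      unfold lc
      rw [if_pos ⟨hf0, hfv⟩, hfac]
    have h2 := hsum.2
    rw [hrep, h1] at h2
    refine ⟨fun i => if π i.1 f ≠ 0 ∧ p • v (π i.1 f) + v (w i.1) = γ then ac (π i.1 f) else 0, ?_⟩
    rw [h2]
    rw [c4_sum_sub (fun i => c4_cls p (ex (w i)) = c) (fun i => lc v ac γ (π i f ^ p * w i)) _]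
    · exact Finset.sum_congr rfl fun i _ => (c4_lc_term hp hv hac γ _ _ (hvi.ne i.1)).symm
    · intro i hi
      change lc v ac γ (π i f ^ p * w i) = 0
      rw [c4_lc_term hp hv hac γ _ _ (hvi.ne i), if_neg ?_]
      · simp [hp]
      · rintro ⟨h3, h4⟩
        apply hi
        apply c4_cls_spec p (ex (w i)) (ex (π i f)) c
        apply c4_wt_inj u hx.indep
        rw [c4_wt_lin, ← hexw i, ← hx.gen _ h3, natCast_zsmul, h4]

theorem p_C4 (hB1 : S_B1) : S_C4 := by
  intro p _ k K Γ κ _ _ _ _ _ _ _ _ _ _ v hv _ r x ex ac hx hac ι _ w π hw hvi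
  classical
  have hcl := c4_class p k K Γ κ v hv r x ex ac hx hac ι w π hw hvi
  set c0 : Fin r → Fin p := fun _ => ⟨0, (Fact.out : p.Prime).pos⟩ with hc0
  choose ρ hρ using hcl
  -- uniqueness form
  have hun : ∀ c, ∀ a : {i // c4_cls p (ex (w i)) = c} → κ, ∑ j, a j ^ p * ac (w j) = 0 → a = 0 := by
    intro c a ha
    funext i
    have h1 := (hρ c).uniq a i
    have h2 := (hρ c).uniq 0 i
    have hp : p ≠ 0 := (Fact.out : p.Prime).ne_zero
    have h3 : ∑ j : {i // c4_cls p (ex (w i)) = c},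
        (0 : {i // c4_cls p (ex (w i)) = c} → κ) j ^ p * ac (w j) = 0 := by
      simp [hp]
    rw [h3] at h2
    rw [ha, h2] at h1
    exact h1.symm
  have hcard : ∀ c, Fintype.card {i // c4_cls p (ex (w i)) = c}
      = Fintype.card {i // c4_cls p (ex (w i)) = c0} := by
    intro c
    apply le_antisymm
    · exact (hB1 p κ _ _ _ (hρ c0) _ _ (hun c)).1
    · exact (hB1 p κ _ _ _ (hρ c) _ _ (hun c0)).1
  have htot : Fintype.card ι = ∑ c : Fin r → Fin p, Fintype.card {i // c4_cls p (ex (w i)) = c} := by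
    rw [← Fintype.card_sigma]
    exact Fintype.card_congr (Equiv.sigmaFiberEquiv fun i => c4_cls p (ex (w i))).symm
  set f := Fintype.card {i // c4_cls p (ex (w i)) = c0} with hf
  let e : {i // c4_cls p (ex (w i)) = c0} ≃ Fin f := Fintype.equivFin _
  refine ⟨f, fun j => ac (w (e.symm j)), fun j z => ρ c0 (e.symm j) z, ⟨?_, ?_⟩, ?_⟩
  · intro z
    rw [← (hρ c0).repr z]
    conv_rhs => rw [← (hρ c0).repr z]
    exact Equiv.sum_comp e.symm
      (fun i : {i // c4_cls p (ex (w i)) = c0} => (ρ c0 i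
        (∑ i, (ρ c0 i z) ^ p * ac (w i))) ^ p * ac (w i)) |>.trans (by rw [(hρ c0).repr z])
  · intro a i
    have h1 := (hρ c0).uniq (fun j => a (e j)) (e.symm i)
    simp only [Equiv.apply_symm_apply] at h1
    rw [← h1]
    congr 1
    rw [← Equiv.sum_comp e]
    simp
  · rw [htot, Finset.sum_congr rfl fun c _ => hcard c, Finset.sum_const, Finset.card_univ,
      Fintype.card_fun, Fintype.card_fin, Fintype.card_fin, smul_eq_mul]

end Pool.Agent.F2Ch
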