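import Pool.Agent.Lib.MP_305fdd_al.F2.ChStm

/-!
# [F2C C5] a `p`-basis consisting of monomials
-/

set_option autoImplicit false
set_option linter.unusedSectionVars false

namespace Pool.Agent.F2Ch

open MvPolynomial

section c5
variable {κ : Type} [Field κ]

/-- the set of the combinations of the monomials with coefficients in `κ ^ p` -/
def c5_S (p : ℕ) {s : ℕ} (y : Fin s → κ) : Set κ :=
  {z | ∃ a : (Fin s → Fin p) → κ, ∑ j, a j ^ p * monY y j = z}

variable {p : ℕ} [Fact p.Prime] [CharP κ p] {s : ℕ} (y : Fin s → κ)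

theorem c5_zero : (0 : κ) ∈ c5_S p y :=
  ⟨0, by simp [(Fact.out : p.Prime).ne_zero]⟩

theorem c5_add {a b : κ} (ha : a ∈ c5_S p y) (hb : b ∈ c5_S p y) : a + b ∈ c5_S p y := by
  obtain ⟨f, rfl⟩ := ha
  obtain ⟨g, rfl⟩ := hb
  refine ⟨fun j => f j + g j, ?_⟩
  rw [← Finset.sum_add_distrib]
  exact Finset.sum_congr rfl fun j _ => by rw [add_pow_char, add_mul]

theorem c5_pmul (c : κ) {a : κ} (ha : a ∈ c5_S p y) : c ^ p * a ∈ c5_S p y := by
  obtain ⟨f, rfl⟩ := ha
  refine ⟨fun j => c * f j, ?_⟩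
  rw [Finset.mul_sum]
  exact Finset.sum_congr rfl fun j _ => by rw [mul_pow, mul_assoc]

theorem c5_sum {ι : Type} (t : Finset ι) (f : ι → κ) (h : ∀ i ∈ t, f i ∈ c5_S p y) :
    ∑ i ∈ t, f i ∈ c5_S p y := by
  classical
  induction t using Finset.induction_on with
  | empty => simpa using c5_zero y
  | insert a t ha ih =>
    rw [Finset.sum_insert ha]
    exact c5_add y (h a (Finset.mem_insert_self _ _))
      (ih fun i hi => h i (Finset.mem_insert_of_mem hi))

theorem c5_mon (m : Fin s → ℕ) : (∏ i, y i ^ m i) ∈ c5_S p y := by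
  have hp := (Fact.out : p.Prime)
  have h1 : (∏ i, y i ^ m i) = (∏ i, y i ^ (m i / p)) ^ p *
      monY (p := p) y (fun i => ⟨m i % p, Nat.mod_lt _ hp.pos⟩) := by
    unfold monY
    rw [← Finset.prod_pow, ← Finset.prod_mul_distrib]
    refine Finset.prod_congr rfl fun i _ => ?_
    rw [← pow_mul, ← pow_add]
    congr 1
    rw [mul_comm]
    exact (Nat.div_add_mod _ _).symm
  rw [h1]
  apply c5_pmul
  refine ⟨Pi.single (fun i => ⟨m i % p, Nat.mod_lt _ hp.pos⟩) 1, ?_⟩
  rw [Finset.sum_eq_single (fun i => ⟨m i % p, Nat.mod_lt _ hp.pos⟩)]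
  · simp
  · intro b _ hb
    rw [Pi.single_eq_of_ne hb]
    simp [hp.ne_zero]
  · intro h
    exact absurd (Finset.mem_univ _) h

theorem c5_mul {a b : κ} (ha : a ∈ c5_S p y) (hb : b ∈ c5_S p y) : a * b ∈ c5_S p y := by
  obtain ⟨f, rfl⟩ := ha
  obtain ⟨g, rfl⟩ := hb
  rw [Finset.sum_mul_sum]
  refine c5_sum y _ _ fun j _ => c5_sum y _ _ fun j' _ => ?_
  have h1 : f j ^ p * monY y j * (g j' ^ p * monY y j')
      = (f j * g j') ^ p * ∏ i, y i ^ ((j i : ℕ) + (j' i : ℕ)) := by
    unfold monY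
    have h2 : ∏ i, y i ^ ((j i : ℕ) + (j' i : ℕ)) =
        (∏ i, y i ^ (j i : ℕ)) * ∏ i, y i ^ (j' i : ℕ) := by
      rw [← Finset.prod_mul_distrib]
      exact Finset.prod_congr rfl fun i _ => pow_add _ _ _
    rw [h2]
    ring
  rw [h1]
  exact c5_pmul y _ (c5_mon y _)

theorem c5_one : (1 : κ) ∈ c5_S p y := by
  have := c5_mon (p := p) y (fun _ => 0)
  simpa using this

/-- the subfield -/
noncomputable def c5_F (p : ℕ) [Fact p.Prime] [CharP κ p] {s : ℕ} (y : Fin s → κ) :
    Subfield κ where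
  carrier := c5_S p y
  mul_mem' := c5_mul y
  one_mem' := c5_one y
  add_mem' := c5_add y
  zero_mem' := c5_zero y
  neg_mem' := by
    intro a ha
    have h1 := c5_pmul (p := p) y (-1) ha
    have h2 : (-1 : κ) ^ p = -1 := by
      have h3 := sub_pow_char (0 : κ) 1 (p := p)
      simpa [(Fact.out : p.Prime).ne_zero] using h3
    rw [h2] at h1
    simpa using h1
  inv_mem' := by
    intro a ha
    by_cases h0 : a = 0
    · rw [h0, inv_zero]; exact c5_zero y
    have h1 : ∀ n : ℕ, a ^ n ∈ c5_S p y := by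
      intro n
      induction n with
      | zero => rw [pow_zero]; exact c5_one y
      | succ n ih => rw [pow_succ]; exact c5_mul y ih ha
    have h2 := c5_pmul (p := p) y a⁻¹ (h1 (p - 1))
    have h3 : a⁻¹ ^ p * a ^ (p - 1) = a⁻¹ := by
      have hp := (Fact.out : p.Prime).pos
      have h4 : a⁻¹ ^ p = a⁻¹ * a⁻¹ ^ (p - 1) := by
        rw [← pow_succ', Nat.sub_add_cancel hp]
      rw [h4, mul_assoc, ← mul_pow, inv_mul_cancel₀ h0, one_pow, mul_one]
    rwa [h3] at h2

theorem c5_indep (z : κ) (hz : z ∉ c5_S p y) (A : Fin p → κ) (hA : ∀ m, A m ∈ c5_S p y)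
    (h : ∑ m, A m * z ^ (m : ℕ) = 0) : ∀ m, A m = 0 := by
  have hp := (Fact.out : p.Prime)
  set F := c5_F p y with hF
  have hzp : z ^ p ∈ F := by
    have := c5_pmul (p := p) y z (c5_one y)
    rw [mul_one] at this
    exact this
  have hirr : Irreducible (Polynomial.X ^ p - Polynomial.C (⟨z ^ p, hzp⟩ : F)) := by
    rw [X_pow_sub_C_irreducible_iff_of_prime hp]
    intro b hb
    apply hz
    have h1 : (b : κ) ^ p = z ^ p := by
      have := congrArg (fun w : F => (w : κ)) hb
      simpa using this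
    have h2 : (b : κ) = z := frobenius_inj κ p h1
    rw [← h2]
    exact b.2
  have hmin : minpoly F z = Polynomial.X ^ p - Polynomial.C (⟨z ^ p, hzp⟩ : F) := by
    symm
    apply minpoly.eq_of_irreducible_of_monic hirr
    · simp only [map_sub, map_pow, Polynomial.aeval_X, Polynomial.aeval_C]
      exact sub_self _
    · exact Polynomial.monic_X_pow_sub_C _ hp.ne_zero
  set P : Polynomial F := ∑ m : Fin p, Polynomial.C (⟨A m, hA m⟩ : F) * Polynomial.X ^ (m : ℕ)
    with hP
  have hPz : Polynomial.aeval z P = 0 := by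
    rw [hP, map_sum]
    simp only [map_mul, map_pow, Polynomial.aeval_X, Polynomial.aeval_C]
    exact h
  have hPd : P.degree < p := by
    rw [hP]
    apply (Polynomial.degree_sum_le _ _).trans_lt
    rw [Finset.sup_lt_iff (by exact_mod_cast WithBot.bot_lt_coe p)]
    intro m _
    refine (Polynomial.degree_C_mul_X_pow_le _ _).trans_lt ?_
    exact_mod_cast m.2
  have hP0 : P = 0 := by
    by_contra h0
    have h1 := minpoly.degree_le_of_ne_zero F z h0 hPz
    rw [hmin, Polynomial.degree_X_pow_sub_C hp.pos] at h1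
    exact absurd hPd (not_lt.mpr h1)
  intro m
  have h1 : P.coeff m = ⟨A m, hA m⟩ := by
    rw [hP, Polynomial.finsetSum_coeff, Finset.sum_eq_single m]
    · simp
    · intro b _ hb
      rw [Polynomial.coeff_C_mul_X_pow, if_neg]
      intro h2
      exact hb (Fin.ext h2.symm)
    · intro h2
      exact absurd (Finset.mem_univ _) h2
  rw [hP0, Polynomial.coeff_zero] at h1
  exact (congrArg (fun w : F => (w : κ)) h1).symm

end c5

theorem c5_mkPB (p : ℕ) [Fact p.Prime] (K : Type) [Field K] [CharP K p] (ι : Type) [Fintype ι]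
    (w : ι → K) (h0 : ∀ a : ι → K, ∑ j, a j ^ p * w j = 0 → a = 0)
    (hs : ∀ z : K, ∃ a : ι → K, ∑ j, a j ^ p * w j = z) : ∃ ρ : ι → K → K, IsPB p w ρ := by
  choose c hc using hs
  refine ⟨fun i z => c z i, hc, ?_⟩
  intro a i
  have h1 := hc (∑ j, a j ^ p * w j)
  have h2 : ∑ j, (c (∑ j, a j ^ p * w j) j - a j) ^ p * w j = 0 := by
    have : ∀ j, (c (∑ j, a j ^ p * w j) j - a j) ^ p * w j
        = (c (∑ j, a j ^ p * w j) j) ^ p * w j - a j ^ p * w j := by
      intro j
      rw [sub_pow_char, sub_mul]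
    rw [Finset.sum_congr rfl fun j _ => this j, Finset.sum_sub_distrib, h1, sub_self]
  have h3 := congrFun (h0 _ h2) i
  exact sub_eq_zero.mp h3

theorem p_C5 (hB1 : S_B1) : S_C5 := by
  intro p _ κ _ _ s b ρ hb
  have hp := (Fact.out : p.Prime)
  have hbun : ∀ a : Fin (p ^ s) → κ, ∑ j, a j ^ p * b j = 0 → a = 0 := by
    intro a ha
    funext i
    have h1 := hb.uniq a i
    have h2 := hb.uniq 0 i
    have h3 : ∑ j, (0 : Fin (p ^ s) → κ) j ^ p * b j = 0 := by simp [hp.ne_zero]
    rw [h3] at h2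
    rw [ha, h2] at h1
    exact h1.symm
  have key : ∀ n : ℕ, n ≤ s → ∃ y : Fin n → κ, (∀ i, y i ≠ 0) ∧
      ∀ a : (Fin n → Fin p) → κ, ∑ j, a j ^ p * monY y j = 0 → a = 0 := by
    intro n
    induction n with
    | zero =>
      intro _
      refine ⟨fun i => i.elim0, fun i => i.elim0, ?_⟩
      intro a ha
      funext j
      have h1 : ∑ j, a j ^ p * monY (fun i : Fin 0 => (i.elim0 : κ)) j = a j ^ p := by
        rw [Finset.sum_eq_single j]
        · simp [monY]
        · intro b _ hb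
          exact absurd (Subsingleton.elim _ _) hb
        · intro h; exact absurd (Finset.mem_univ _) h
      rw [h1] at ha
      exact (pow_eq_zero_iff hp.ne_zero).mp ha
    | succ n ih =>
      intro hn
      obtain ⟨y, hy0, hy⟩ := ih (by omega)
      obtain ⟨z, hz⟩ : ∃ z, z ∉ c5_S p y := by
        by_contra h
        push Not at h
        obtain ⟨ρ', hρ'⟩ := c5_mkPB p κ _ (monY (p := p) y) hy h
        have h1 := (hB1 p κ _ _ _ hρ' _ b hbun).1
        rw [Fintype.card_fin, Fintype.card_fun, Fintype.card_fin, Fintype.card_fin] at h1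
        have h2 : p ^ n < p ^ s := Nat.pow_lt_pow_right hp.one_lt (by omega)
        omega
      have hz0 : z ≠ 0 := fun h => hz (h ▸ c5_zero y)
      refine ⟨Fin.cons z y, ?_, ?_⟩
      · intro i
        refine Fin.cases ?_ (fun i => ?_) i
        · simpa using hz0
        · simpa using hy0 i
      · intro a ha
        have h1 : ∑ m : Fin p, (∑ j : Fin n → Fin p, a (Fin.cons m j) ^ p * monY y j) * z ^ (m : ℕ)
            = 0 := by
          rw [← ha, ← (Fin.consEquiv fun _ : Fin (n + 1) => Fin p).sum_comp,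
            Fintype.sum_prod_type]
          refine Finset.sum_congr rfl fun m _ => ?_
          rw [Finset.sum_mul]
          refine Finset.sum_congr rfl fun j _ => ?_
          change a (Fin.cons m j) ^ p * monY y j * z ^ (m : ℕ) =
            a (Fin.cons m j) ^ p * monY (Fin.cons z y : Fin (n + 1) → κ)
              (Fin.cons m j : Fin (n + 1) → Fin p)
          simp only [monY, Fin.prod_univ_succ, Fin.cons_zero, Fin.cons_succ]
          ring
        have h2 := c5_indep y z hz _ (fun m => ⟨fun j => a (Fin.cons m j), rfl⟩) h1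
        funext j
        have h3 := congrFun (hy _ (h2 (j 0))) (Fin.tail j)
        simpa using h3
  obtain ⟨y, hy0, hy⟩ := key s le_rfl
  have h1 := (hB1 p κ _ b ρ hb _ (monY (p := p) y) hy).2 (by simp)
  obtain ⟨ρ', hρ'⟩ := h1
  exact ⟨y, ρ', hy0, hρ'⟩

end Pool.Agent.F2Ch
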