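import Pool.Agent.Lib.MP_305fdd_al.F2.ChStm

/-!
# [F2C C5b] monomials in a valuation basis and in lifts of a `p`-basis of the residue field
-/

set_option autoImplicit false
set_option linter.unusedSectionVars false

namespace Pool.Agent.F2Ch

open MvPolynomial

section c5b
variable {K Γ : Type} [Field K] [AddCommGroup Γ] [LinearOrder Γ] [IsOrderedAddMonoid Γ]

theorem c5b_one {v : K → Γ} (hv : IsV v) : v 1 = 0 := by
  have h := hv.mul 1 1 one_ne_zero one_ne_zero
  rw [mul_one] at h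
  simpa using h

theorem c5b_pow {v : K → Γ} (hv : IsV v) (a : K) (ha : a ≠ 0) (n : ℕ) : v (a ^ n) = n • v a := by
  induction n with
  | zero => simp [c5b_one hv]
  | succ n ih => rw [pow_succ, hv.mul _ _ (pow_ne_zero _ ha) ha, ih, succ_nsmul]

theorem c5b_inv {v : K → Γ} (hv : IsV v) (a : K) (ha : a ≠ 0) : v a⁻¹ = - v a := by
  have h := hv.mul a a⁻¹ ha (inv_ne_zero ha)
  rw [mul_inv_cancel₀ ha, c5b_one hv] at h
  exact (neg_eq_of_add_eq_zero_right h.symm).symm

theorem c5b_zpow {v : K → Γ} (hv : IsV v) (a : K) (ha : a ≠ 0) (n : ℤ) : v (a ^ n) = n • v a := by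
  cases n with
  | ofNat n => simp [c5b_pow hv a ha]
  | negSucc n =>
    rw [zpow_negSucc, c5b_inv hv _ (pow_ne_zero _ ha), c5b_pow hv a ha, negSucc_zsmul]

theorem c5b_prod {v : K → Γ} (hv : IsV v) {ι : Type} (s : Finset ι) (f : ι → K)
    (hf : ∀ i, f i ≠ 0) : v (∏ i ∈ s, f i) = ∑ i ∈ s, v (f i) := by
  classical
  induction s using Finset.induction_on with
  | empty => simp [c5b_one hv]
  | insert a s ha ih =>
    rw [Finset.prod_insert ha, Finset.sum_insert ha,
      hv.mul _ _ (hf a) (Finset.prod_ne_zero_iff.mpr fun i _ => hf i), ih]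

/-- the Laurent monomial with exponent `m` -/
noncomputable def c5b_mon {r : ℕ} (x : Fin r → K) (m : Fin r → ℤ) : K := ∏ i, x i ^ m i

theorem c5b_mon_ne {r : ℕ} (x : Fin r → K) (hx : ∀ i, x i ≠ 0) (m : Fin r → ℤ) :
    c5b_mon x m ≠ 0 := Finset.prod_ne_zero_iff.mpr fun i _ => zpow_ne_zero _ (hx i)

theorem c5b_mon_val {v : K → Γ} (hv : IsV v) {r : ℕ} (x : Fin r → K) (hx : ∀ i, x i ≠ 0)
    (m : Fin r → ℤ) : v (c5b_mon x m) = wt (fun i => v (x i)) m := by
  unfold c5b_mon wt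
  rw [c5b_prod hv _ _ fun i => zpow_ne_zero _ (hx i)]
  exact Finset.sum_congr rfl fun i _ => c5b_zpow hv _ (hx i) _

/-- the angular component as a homomorphism -/
noncomputable def c5b_hom {k κ : Type} {r : ℕ} [Field k] [Algebra k K] [Field κ] [Algebra k κ]
    {v : K → Γ} {x : Fin r → K} {ac : K → κ} (h : IsAC k v x ac) : K →*₀ κ where
  toFun := ac
  map_zero' := h.zero
  map_one' := by
    have := h.alg 1
    simpa using this
  map_mul' := h.mul

theorem c5b_mon_ac {k κ : Type} {r : ℕ} [Field k] [Algebra k K] [Field κ] [Algebra k κ]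
    {v : K → Γ} {x : Fin r → K} {ac : K → κ} (h : IsAC k v x ac) (m : Fin r → ℤ) :
    ac (c5b_mon x m) = 1 := by
  have h1 : c5b_hom h (c5b_mon x m) = ∏ i, (c5b_hom h (x i)) ^ m i := by
    unfold c5b_mon
    rw [map_prod]
    exact Finset.prod_congr rfl fun i _ => map_zpow₀ _ _ _
  have h2 : ∀ i, c5b_hom h (x i) = 1 := h.x_one
  simp only [h2, one_zpow, Finset.prod_const_one] at h1
  exact h1

theorem c5b_ac_pow {k κ : Type} {r : ℕ} [Field k] [Algebra k K] [Field κ] [Algebra k κ]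
    {v : K → Γ} {x : Fin r → K} {ac : K → κ} (h : IsAC k v x ac) (a : K) (n : ℕ) :
    ac (a ^ n) = ac a ^ n := map_pow (c5b_hom h) a n

theorem c5b_ge_add {v : K → Γ} (hv : IsV v) {c : Γ} {a b : K} (ha : Ge v c a) (hb : Ge v c b) :
    Ge v c (a + b) := by
  by_cases h0 : a + b = 0
  · exact Or.inl h0
  by_cases ha0 : a = 0
  · subst ha0; simpa using hb
  by_cases hb0 : b = 0
  · subst hb0; simpa using ha
  rcases ha with ha | ha
  · exact absurd ha ha0
  rcases hb with hb | hb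
  · exact absurd hb hb0
  exact Or.inr (le_trans (le_min ha hb) (hv.add a b ha0 hb0 h0))

theorem c5b_lc_zero {κ : Type} [Field κ] (v : K → Γ) (ac : K → κ) (γ : Γ) : lc v ac γ 0 = 0 := by
  unfold lc
  simp

theorem c5b_lc_sum {k κ : Type} {r : ℕ} [Field k] [Algebra k K] [Field κ] [Algebra k κ]
    {v : K → Γ} (hv : IsV v) {x : Fin r → K} {ac : K → κ} (h : IsAC k v x ac) (γ : Γ)
    {ι : Type} (s : Finset ι) (f : ι → K) (hf : ∀ i, Ge v γ (f i)) :
    Ge v γ (∑ i ∈ s, f i) ∧ lc v ac γ (∑ i ∈ s, f i) = ∑ i ∈ s, lc v ac γ (f i) := by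
  classical
  induction s using Finset.induction_on with
  | empty => exact ⟨Or.inl (by simp), by simp [c5b_lc_zero]⟩
  | insert a s ha ih =>
    rw [Finset.sum_insert ha, Finset.sum_insert ha]
    exact ⟨c5b_ge_add hv (hf a) ih.1, by rw [h.add γ _ _ (hf a) ih.1, ih.2]⟩

open Classical in
theorem c5b_lc_term {k κ : Type} {r p : ℕ} (hp : p ≠ 0) [Field k] [Algebra k K] [Field κ]
    [Algebra k κ] {v : K → Γ} (hv : IsV v) {x : Fin r → K} {ac : K → κ} (h : IsAC k v x ac)
    (γ : Γ) (a w : K) (hw : w ≠ 0) :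
    lc v ac γ (a ^ p * w) = (if a ≠ 0 ∧ p • v a + v w = γ then ac a else 0) ^ p * ac w := by
  by_cases ha : a = 0
  · subst ha
    simp [hp, c5b_lc_zero]
  · have h1 : v (a ^ p * w) = p • v a + v w := by
      rw [hv.mul _ _ (pow_ne_zero _ ha) hw, c5b_pow hv a ha]
    unfold lc
    rw [h1]
    by_cases h2 : p • v a + v w = γ
    · rw [if_pos ⟨mul_ne_zero (pow_ne_zero _ ha) hw, h2⟩, if_pos ⟨ha, h2⟩, h.mul, c5b_ac_pow h]
    · rw [if_neg (fun h3 => h2 h3.2), if_neg (fun h3 => h2 h3.2)]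
      simp [hp]

theorem c5b_term_val {p : ℕ} {v : K → Γ} (hv : IsV v) (a w : K) (ha : a ≠ 0) (hw : w ≠ 0) :
    v (a ^ p * w) = p • v a + v w := by
  rw [hv.mul _ _ (pow_ne_zero _ ha) hw, c5b_pow hv a ha]

end c5b

theorem c5b_wt_inj {Γ : Type} [AddCommGroup Γ] {r : ℕ} (u : Fin r → Γ)
    (h : ∀ m : Fin r → ℤ, wt u m = 0 → m = 0) (a b : Fin r → ℤ) (hab : wt u a = wt u b) :
    a = b := by
  have h1 : wt u (a - b) = 0 := by
    unfold wt at *
    simp only [Pi.sub_apply, sub_smul, Finset.sum_sub_distrib, hab, sub_self]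
  exact sub_eq_zero.mp (h _ h1)

theorem c5b_wt_lin {Γ : Type} [AddCommGroup Γ] {r : ℕ} (u : Fin r → Γ) (p : ℤ)
    (a b : Fin r → ℤ) : wt u (p • a + b) = p • wt u a + wt u b := by
  unfold wt
  simp only [Pi.add_apply, Pi.smul_apply, smul_eq_mul, add_smul, mul_smul,
    Finset.sum_add_distrib, Finset.smul_sum]


theorem c5b_monxy_ne {K : Type} [Field K] {p r s : ℕ} (x : Fin r → K) (y : Fin s → K)
    (hx : ∀ i, x i ≠ 0) (hy : ∀ j, y j ≠ 0) (l : Ix p r s) : mon x y l ≠ 0 :=
  mul_ne_zero (Finset.prod_ne_zero_iff.mpr fun i _ => pow_ne_zero _ (hx i))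
    (Finset.prod_ne_zero_iff.mpr fun i _ => pow_ne_zero _ (hy i))

theorem c5b_mon_v {K Γ : Type} [Field K] [AddCommGroup Γ] [LinearOrder Γ] [IsOrderedAddMonoid Γ]
    {v : K → Γ} (hv : IsV v) {p r s : ℕ} (x : Fin r → K) (y : Fin s → K)
    (hx : ∀ i, x i ≠ 0) (hy : ∀ j, y j ≠ 0) (hyv : ∀ j, v (y j) = 0) (l : Ix p r s) :
    v (mon x y l) = wt (fun i => v (x i)) (exl l) := by
  unfold mon wt exl
  rw [hv.mul _ _ (Finset.prod_ne_zero_iff.mpr fun i _ => pow_ne_zero _ (hx i))
    (Finset.prod_ne_zero_iff.mpr fun i _ => pow_ne_zero _ (hy i)),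
    c5b_prod hv _ _ fun i => pow_ne_zero _ (hx i), c5b_prod hv _ _ fun i => pow_ne_zero _ (hy i)]
  have h1 : ∀ j, v (y j ^ (l.2 j : ℕ)) = 0 := by
    intro j
    rw [c5b_pow hv _ (hy j), hyv, smul_zero]
  simp only [h1, Finset.sum_const_zero, add_zero]
  exact Finset.sum_congr rfl fun i _ => by rw [c5b_pow hv _ (hx i), natCast_zsmul]

theorem c5b_mon_a {k K κ Γ : Type} [Field k] [Field K] [Algebra k K] [Field κ] [Algebra k κ]
    [AddCommGroup Γ] [LinearOrder Γ] [IsOrderedAddMonoid Γ]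
    {v : K → Γ} {p r s : ℕ} {x : Fin r → K} {ac : K → κ} (hac : IsAC k v x ac) (y : Fin s → K)
    (l : Ix p r s) : ac (mon x y l) = monY (fun j => ac (y j)) l.2 := by
  have h1 : c5b_hom hac (mon x y l) = monY (fun j => c5b_hom hac (y j)) l.2 := by
    unfold mon monY
    rw [map_mul, map_prod, map_prod]
    have h2 : ∀ i, c5b_hom hac (x i ^ (l.1 i : ℕ)) = 1 := by
      intro i
      rw [map_pow]
      have : c5b_hom hac (x i) = 1 := hac.x_one i
      rw [this, one_pow]
    simp only [h2, Finset.prod_const_one, one_mul, map_pow]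
  exact h1

theorem p_C5b (hB1 : S_B1) : S_C5b := by
  intro p _ k K Γ κ _ _ _ _ _ _ _ _ _ _ v hv htr r s x ex ac hx hac y ρ hy hyv hrb ι _ w π hw hcard
  classical
  have hp : p ≠ 0 := (Fact.out : p.Prime).ne_zero
  have hp1 : (0 : ℤ) < p := by exact_mod_cast (Fact.out : p.Prime).pos
  set u : Fin r → Γ := fun i => v (x i) with hu
  have hmn : ∀ l : Ix p r s, mon x y l ≠ 0 := c5b_monxy_ne x y hx.ne hy
  have hmv : ∀ l : Ix p r s, v (mon x y l) = wt u (exl l) := c5b_mon_v hv x y hx.ne hy hyv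
  have hρ0 : ∀ j, ρ j 0 = 0 := by
    intro j
    have h := hrb.uniq 0 j
    simpa [hp] using h
  -- the key fact
  have key : ∀ a : Ix p r s → K, ∀ i0, a i0 ≠ 0 → ∑ l, a l ^ p * mon x y l ≠ 0 ∧
      ∀ i, a i ≠ 0 → v (∑ l, a l ^ p * mon x y l) ≤ p • v (a i) + v (mon x y i) := by
    intro a i0 hi0
    obtain ⟨l0, hl0, hmin⟩ := Finset.exists_min_image (Finset.univ.filter fun l => a l ≠ 0)
      (fun l => p • v (a l) + v (mon x y l)) ⟨i0, by simpa using hi0⟩
    simp only [Finset.mem_filter, Finset.mem_univ, true_and] at hl0 hmin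
    set μ := p • v (a l0) + v (mon x y l0) with hμ
    have hge : ∀ l, Ge v μ (a l ^ p * mon x y l) := by
      intro l
      by_cases h : a l = 0
      · left; rw [h]; simp [hp]
      · right; rw [c5b_term_val hv _ _ h (hmn l)]; exact hmin l h
    have hsum := c5b_lc_sum hv hac μ Finset.univ (fun l => a l ^ p * mon x y l) hge
    -- the coefficients
    set c : (Fin s → Fin p) → κ := fun j =>
      if a (l0.1, j) ≠ 0 ∧ p • v (a (l0.1, j)) + v (mon x y (l0.1, j)) = μ
        then ac (a (l0.1, j)) else 0 with hc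
    have hc0 : c l0.2 ≠ 0 := by
      simp only [hc]
      rw [if_pos ⟨hl0, rfl⟩]
      exact hac.ne _ hl0
    have hlc : lc v ac μ (∑ l, a l ^ p * mon x y l) = ∑ j, c j ^ p * monY (fun j => ac (y j)) j := by
      rw [hsum.2, Fintype.sum_prod_type, Finset.sum_eq_single l0.1]
      · refine Finset.sum_congr rfl fun j _ => ?_
        rw [c5b_lc_term hp hv hac μ _ _ (hmn _), c5b_mon_a hac]
      · intro b _ hb
        refine Finset.sum_eq_zero fun j _ => ?_
        rw [c5b_lc_term hp hv hac μ _ _ (hmn _), if_neg ?_]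
        · simp [hp]
        · rintro ⟨h1, h2⟩
          apply hb
          have h3 : (p : ℤ) • ex (a (b, j)) + exl (b, j) = (p : ℤ) • ex (a l0) + exl l0 := by
            apply c5b_wt_inj u hx.indep
            rw [c5b_wt_lin, c5b_wt_lin, ← hmv, ← hmv, ← hx.gen _ h1, ← hx.gen _ hl0,
              natCast_zsmul, natCast_zsmul, h2]
          funext i
          have h4 := congrFun h3 i
          simp only [exl, Pi.add_apply, Pi.smul_apply, smul_eq_mul] at h4
          apply Fin.ext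
          have h5 : ((b i : ℕ) : ℤ) % p = ((l0.1 i : ℕ) : ℤ) % p := by
            have h6 := congrArg (fun z : ℤ => z % p) h4
            simpa using h6
          rw [Int.emod_eq_of_lt (by positivity) (by exact_mod_cast (b i).2),
            Int.emod_eq_of_lt (by positivity) (by exact_mod_cast (l0.1 i).2)] at h5
          exact_mod_cast h5
      · intro h
        exact absurd (Finset.mem_univ _) h
    have hlc0 : lc v ac μ (∑ l, a l ^ p * mon x y l) ≠ 0 := by
      rw [hlc]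
      intro h
      have h1 := hrb.uniq c l0.2
      rw [h, hρ0] at h1
      exact hc0 h1.symm
    have hboth : ∑ l, a l ^ p * mon x y l ≠ 0 ∧ v (∑ l, a l ^ p * mon x y l) = μ := by
      by_contra h
      apply hlc0
      unfold lc
      rw [if_neg h]
    refine ⟨hboth.1, fun i hi => ?_⟩
    rw [hboth.2]
    exact hmin i hi
  have hun : ∀ a : Ix p r s → K, ∑ l, a l ^ p * mon x y l = 0 → a = 0 := by
    intro a ha
    by_contra hne
    obtain ⟨i0, hi0⟩ : ∃ i, a i ≠ 0 := by
      by_contra h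
      push Not at h
      exact hne (funext h)
    exact (key a i0 hi0).1 ha
  have hcI : Fintype.card (Ix p r s) = Fintype.card ι := by
    rw [hcard, pow_add]
    simp [Ix]
  obtain ⟨π', hπ'⟩ := (hB1 p K ι w π hw (Ix p r s) (mon x y) hun).2 hcI
  refine ⟨π', hv, htr, hx, hac, hy, hyv, hπ', ?_, hrb⟩
  intro l f hl
  have h := (key (fun l => π' l f) l hl).2 l hl
  rwa [hπ'.repr f] at h

end Pool.Agent.F2Ch
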