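import Pool.Agent.Lib.MP_305fdd_al.F2.ChStm

/-! # MP_305fdd_al, F_2 project: piece [F2C C6] (helper58) -/

set_option autoImplicit false

namespace Pool.Agent.F2Ch

open MvPolynomial

theorem p_C6 (hB3 : S_B3) (hC1 : S_C1) (hC2 : S_C2) (hC3 : S_C3) (hC4 : S_C4) (hC5 : S_C5)
    (hC5b : S_C5b) : S_C6 := by
  intro p hp k K Γ _ _ _ _ _ _ _ _ n t ht v hv htr φ hφ h1 hc d b ρ0 hb
  have hprime : p.Prime := hp.out
  have hKp : CharP K p := charP_of_injective_algebraMap (algebraMap k K).injective p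
  obtain ⟨w, π, hw, hvi⟩ := hB3 p K (Fin (p ^ d)) b ρ0 hb Γ v hv φ hφ h1 hc
  have hfg := hC1 p k K Γ n t ht v hv htr (Fin (p ^ d)) w π hw hvi
  obtain ⟨r, x, ex, hx⟩ := hC2 K Γ v hv hfg
  obtain ⟨κ, _, _, ac, hac⟩ := hC3 k K Γ v hv htr r x ex hx
  have hκp : CharP κ p := charP_of_injective_algebraMap (algebraMap k κ).injective p
  obtain ⟨f, b', ρ', hb', hcard⟩ := hC4 p k K Γ κ v hv htr r x ex ac hx hac (Fin (p ^ d)) w π hw hvi
  rw [Fintype.card_fin] at hcard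
  obtain ⟨s, _, rfl⟩ := (Nat.dvd_prime_pow hprime).1 (Dvd.intro_left _ hcard)
  have hrs : r + s = d := by
    rw [← pow_add] at hcard
    exact Nat.pow_right_injective hprime.two_le hcard
  obtain ⟨yb, ρ'', hyb, hrb⟩ := hC5 p κ s b' ρ' hb'
  choose y hy0 hyv hyac using fun j => hac.surj (yb j) (hyb j)
  have hye : (fun j => ac (y j)) = yb := funext hyac
  obtain ⟨π', hF⟩ := hC5b p k K Γ κ v hv htr r s x ex ac hx hac y ρ'' hy0 hyv
    (by rw [hye]; exact hrb) (Fin (p ^ d)) w π hw (by rw [Fintype.card_fin, hrs])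
  exact ⟨r, s, κ, _, _, x, y, ex, ac, π', ρ'', hF, hrs⟩

end Pool.Agent.F2Ch
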