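import Pool.Agent.Lib.MP_305fdd_al.F2.ChStm

/-!
# MP_305fdd_al, F_2 project, section C, piece C7
-/

set_option autoImplicit false
set_option linter.unusedSectionVars false

namespace Pool.Agent.F2Ch

open MvPolynomial

section

variable {K Γ : Type} [Field K] [AddCommGroup Γ] [LinearOrder Γ] [IsOrderedAddMonoid Γ]

/-- Coordinate functions are additive and `p⁻¹`-linear. -/
private theorem c7_pinv {p : ℕ} [Fact p.Prime] [CharP K p] {ι : Type} [Fintype ι] {w : ι → K}
    {π : ι → K → K} (h : IsPB p w π) (i : ι) : IsPinv p (π i) := by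
  constructor
  · intro f g
    have h1 : ∑ j, (π j f + π j g) ^ p * w j = f + g := by
      conv_rhs => rw [← h.repr f, ← h.repr g]
      rw [← Finset.sum_add_distrib]
      refine Finset.sum_congr rfl fun j _ => ?_
      rw [add_pow_char, add_mul]
    have h2 := h.uniq (fun j => π j f + π j g) i
    rw [h1] at h2
    exact h2
  · intro a b
    have h1 : ∑ j, (a * π j b) ^ p * w j = a ^ p * b := by
      conv_rhs => rw [← h.repr b]
      rw [Finset.mul_sum]
      refine Finset.sum_congr rfl fun j _ => ?_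
      rw [mul_pow, mul_assoc]
    have h2 := h.uniq (fun j => a * π j b) i
    rw [h1] at h2
    exact h2

private theorem c7_ge_add {v : K → Γ} (hv : IsV v) {γ : Γ} {f g : K} (hf : Ge v γ f)
    (hg : Ge v γ g) : Ge v γ (f + g) := by
  by_cases hf0 : f = 0
  · rw [hf0, zero_add]
    exact hg
  by_cases hg0 : g = 0
  · rw [hg0, add_zero]
    exact hf
  by_cases hs : f + g = 0
  · exact Or.inl hs
  · exact Or.inr ((le_min (hf.resolve_left hf0) (hg.resolve_left hg0)).trans
      (hv.add f g hf0 hg0 hs))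

variable {k : Type} [Field k] [Algebra k K]

private theorem c7_val_smul {v : K → Γ} (hv : IsV v) (ht : Triv k v) {c : k} (hc : c ≠ 0) {f : K}
    (hf : f ≠ 0) : v (c • f) = v f := by
  rw [Algebra.smul_def, hv.mul _ _ ((map_ne_zero _).2 hc) hf, ht c, zero_add]

/-- the elements of `V` of value at least `γ` -/
private def c7_U (v : K → Γ) (hv : IsV v) (ht : Triv k v) (V : Submodule k K) (γ : Γ) :
    Submodule k K where
  carrier := {g | g ∈ V ∧ Ge v γ g}
  add_mem' := fun {a b} ha hb => ⟨V.add_mem ha.1 hb.1, c7_ge_add hv ha.2 hb.2⟩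
  zero_mem' := ⟨V.zero_mem, Or.inl rfl⟩
  smul_mem' := fun c a ha => by
    refine ⟨V.smul_mem c ha.1, ?_⟩
    by_cases hc : c = 0
    · rw [hc, zero_smul]
      exact Or.inl rfl
    · by_cases h0 : a = 0
      · rw [h0, smul_zero]
        exact Or.inl rfl
      · right
        rw [c7_val_smul hv ht hc h0]
        exact ha.2.resolve_left h0

variable {κ : Type} [Field κ] [Algebra k κ] {r : ℕ}

private theorem c7_lc_smul {v : K → Γ} (hv : IsV v) (ht : Triv k v) {x : Fin r → K} {ac : K → κ}
    (hac : IsAC k v x ac) (γ : Γ) (c : k) (f : K) :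
    lc v ac γ (c • f) = c • lc v ac γ f := by
  by_cases hc : c = 0
  · rw [hc, zero_smul, zero_smul]
    unfold lc
    rw [if_neg (fun h => h.1 rfl)]
  · by_cases h0 : f = 0
    · rw [h0, smul_zero]
      unfold lc
      rw [if_neg (fun h => h.1 rfl), smul_zero]
    · have h1 : c • f ≠ 0 := smul_ne_zero hc h0
      unfold lc
      rw [c7_val_smul hv ht hc h0]
      by_cases h2 : v f = γ
      · rw [if_pos ⟨h1, h2⟩, if_pos ⟨h0, h2⟩, Algebra.smul_def, hac.mul, hac.alg,
          ← Algebra.smul_def]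
      · rw [if_neg (fun h => h2 h.2), if_neg (fun h => h2 h.2), smul_zero]

/-- the leading coefficient map on `c7_U` -/
private noncomputable def c7_L (v : K → Γ) (hv : IsV v) (ht : Triv k v) {x : Fin r → K}
    {ac : K → κ} (hac : IsAC k v x ac) (V : Submodule k K) (γ : Γ) :
    c7_U v hv ht V γ →ₗ[k] κ where
  toFun := fun g => lc v ac γ g
  map_add' := fun f g => hac.add γ f g f.2.2 g.2.2
  map_smul' := fun c f => c7_lc_smul hv ht hac γ c f

/-- For a finite dimensional space the leading coefficients at level `γ` are in the span of a finite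
set. -/
private theorem c7_fin (v : K → Γ) (hv : IsV v) (ht : Triv k v) {x : Fin r → K}
    {ac : K → κ} (hac : IsAC k v x ac) (V : Submodule k K) (hV : FiniteDimensional k V) (γ : Γ) :
    ∃ S : Finset κ, ∀ f ∈ V, f ≠ 0 → v f = γ → ac f ∈ Submodule.span k (S : Set κ) := by
  have hle : c7_U v hv ht V γ ≤ V := fun g hg => hg.1
  have : FiniteDimensional k (c7_U v hv ht V γ) := Submodule.finiteDimensional_of_le hle
  obtain ⟨S, hS⟩ : (LinearMap.range (c7_L v hv ht hac V γ)).FG :=
    Module.Finite.iff_fg.1 inferInstance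
  refine ⟨S, fun f hf h0 hγ => ?_⟩
  rw [hS]
  refine ⟨⟨f, hf, Or.inr hγ.ge⟩, ?_⟩
  show lc v ac γ f = ac f
  unfold lc
  rw [if_pos ⟨h0, hγ⟩]

private theorem c7_abs_succ {p s : ℕ} (π : Ix p r s → K → K) (V : Set K) (N : ℕ) (f : K)
    (h : Abs π V (N + 1) f) (l : Ix p r s) : Abs π V N (π l f) := by
  intro l' hl'
  exact h (l :: l') (by rw [List.length_cons, hl'])

end

theorem p_C7 (hA3 : S_A3) (hC0 : S_C0) (hC8 : S_C8) : S_C7 := by
  classical
  intro p _ k K Γ κ _ _ _ _ _ _ _ _ _ _ n t ht v r s x y ex ac π ρ hF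
  have hK : CharP K p := charP_of_injective_algebraMap (algebraMap k K).injective p
  have hv := hF.isv
  have htr := hF.triv
  have hac := hF.isac
  obtain ⟨V, hVfin, -, -, hVabs⟩ := hA3 p k K n t ht (Ix p r s) π (fun l => c7_pinv hF.pb l) ∅
    Set.finite_empty
  have hA := hC0 k K Γ v hv htr V hVfin
  choose S hS using fun γ => c7_fin v hv htr hac V hVfin γ
  have hfin : (Set.range (fun j => ac (y j)) ∪
      ⋃ γ ∈ {γ : Γ | ∃ f ∈ V, f ≠ 0 ∧ v f = γ}, (S γ : Set κ)).Finite :=
    (Set.finite_range _).union (hA.biUnion fun γ _ => (S γ).finite_toSet)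
  obtain ⟨n', t', -, ht'⟩ := hfin.fin_param
  refine ⟨n', t', ?_⟩
  have hy : ∀ j, ac (y j) ∈ IntermediateField.adjoin k (Set.range t') := by
    intro j
    apply IntermediateField.subset_adjoin
    rw [ht']
    exact Or.inl ⟨j, rfl⟩
  have hspan : ∀ γ ∈ {γ : Γ | ∃ f ∈ V, f ≠ 0 ∧ v f = γ}, ∀ z ∈ Submodule.span k (S γ : Set κ),
      z ∈ IntermediateField.adjoin k (Set.range t') := by
    intro γ hγ z hz
    have h1 : Submodule.span k (S γ : Set κ) ≤
        Subalgebra.toSubmodule (IntermediateField.adjoin k (Set.range t')).toSubalgebra := by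
      rw [Submodule.span_le]
      intro a ha
      have h2 : a ∈ IntermediateField.adjoin k (Set.range t') := by
        apply IntermediateField.subset_adjoin
        rw [ht']
        exact Or.inr (Set.mem_biUnion hγ ha)
      exact h2
    exact h1 hz
  have hclaim : ∀ (N : ℕ) (f : K), f ≠ 0 → Abs π (V : Set K) N f →
      ac f ∈ IntermediateField.adjoin k (Set.range t') := by
    intro N
    induction N with
    | zero =>
      intro f hf h
      have hfV : f ∈ V := h [] rfl
      exact hspan (v f) ⟨f, hfV, hf, rfl⟩ _ (hS (v f) f hfV hf rfl)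
    | succ N ih =>
      intro f hf h
      have h1 := (hC8 p k K Γ κ v r s x y ex ac π ρ hF f hf).2.2
      rw [h1]
      refine sum_mem fun l _ => ?_
      split_ifs with hl
      · refine mul_mem (pow_mem (ih _ hl.1 (c7_abs_succ π _ N f h l)) _) ?_
        unfold monY
        exact prod_mem fun i _ => pow_mem (hy i) _
      · exact zero_mem _
  have htop : ∀ z : κ, z ∈ IntermediateField.adjoin k (Set.range t') := by
    intro z
    by_cases hz : z = 0
    · rw [hz]
      exact zero_mem _
    obtain ⟨f, hf, -, rfl⟩ := hac.surj z hz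
    obtain ⟨a, b, hb, hab⟩ := ht f
    have ha : aeval t a ≠ 0 := by
      rw [← hab]
      exact mul_ne_zero hf hb
    obtain ⟨Na, hNa⟩ := hVabs a
    obtain ⟨Nb, hNb⟩ := hVabs b
    have h1 := hclaim Na _ ha (hNa Na le_rfl)
    have h2 := hclaim Nb _ hb (hNb Nb le_rfl)
    have h3 : ac f = ac (aeval t a) / ac (aeval t b) := by
      rw [← hab, hac.mul, mul_div_assoc, div_self (hac.ne _ hb), mul_one]
    rw [h3]
    exact div_mem h1 h2
  intro z
  obtain ⟨a, b, hab⟩ := (IntermediateField.mem_adjoin_range_iff k t' z).1 (htop z)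
  by_cases hb : aeval t' b = 0
  · refine ⟨0, 1, ?_, ?_⟩
    · rw [map_one]
      exact one_ne_zero
    · rw [hab, hb, div_zero, zero_mul, map_zero]
  · exact ⟨a, b, hb, by rw [hab, div_mul_cancel₀ _ hb]⟩

end Pool.Agent.F2Ch
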