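import Pool.Agent.Lib.MP_305fdd_al.F2.ChStm

/-!
# MP_305fdd_al, F_2 project, piece [F2C C8]

The leading coefficient of an element in terms of the leading coefficients of its coordinates.
-/

set_option autoImplicit false

namespace Pool.Agent.F2Ch

open MvPolynomial

section
variable {K Γ : Type} [Field K] [AddCommGroup Γ] [LinearOrder Γ] [IsOrderedAddMonoid Γ]

private lemma c8_v_one {v : K → Γ} (hv : IsV v) : v 1 = 0 := by
  have h := hv.mul 1 1 one_ne_zero one_ne_zero
  rw [mul_one] at h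
  exact left_eq_add.mp h

private lemma c8_v_pow {v : K → Γ} (hv : IsV v) {a : K} (ha : a ≠ 0) (n : ℕ) :
    v (a ^ n) = n • v a := by
  induction n with
  | zero => rw [pow_zero, zero_smul, c8_v_one hv]
  | succ n ih => rw [pow_succ, hv.mul _ _ (pow_ne_zero _ ha) ha, ih, succ_nsmul]

private lemma c8_v_prod {v : K → Γ} (hv : IsV v) {ι : Type} (s : Finset ι) (g : ι → K)
    (hg : ∀ i, g i ≠ 0) : v (∏ i ∈ s, g i) = ∑ i ∈ s, v (g i) := by
  classical
  induction s using Finset.induction_on with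
  | empty => rw [Finset.prod_empty, Finset.sum_empty, c8_v_one hv]
  | insert a s ha ih =>
    rw [Finset.prod_insert ha, Finset.sum_insert ha,
      hv.mul _ _ (hg a) (Finset.prod_ne_zero_iff.mpr fun i _ => hg i), ih]

private lemma c8_mon_ne {p r s : ℕ} {x : Fin r → K} {y : Fin s → K} (hx : ∀ i, x i ≠ 0)
    (hy : ∀ j, y j ≠ 0) (l : Ix p r s) : mon x y l ≠ 0 :=
  mul_ne_zero (Finset.prod_ne_zero_iff.mpr fun i _ => pow_ne_zero _ (hx i))
    (Finset.prod_ne_zero_iff.mpr fun i _ => pow_ne_zero _ (hy i))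

private lemma c8_v_mon {v : K → Γ} (hv : IsV v) {p r s : ℕ} {x : Fin r → K} {y : Fin s → K}
    (hx : ∀ i, x i ≠ 0) (hy : ∀ j, y j ≠ 0) (hy0 : ∀ j, v (y j) = 0) (l : Ix p r s) :
    v (mon x y l) = wt (fun i => v (x i)) (exl l) := by
  unfold mon wt exl
  rw [hv.mul _ _ (Finset.prod_ne_zero_iff.mpr fun i _ => pow_ne_zero _ (hx i))
    (Finset.prod_ne_zero_iff.mpr fun i _ => pow_ne_zero _ (hy i)),
    c8_v_prod hv _ _ fun i => pow_ne_zero _ (hx i),
    c8_v_prod hv _ _ fun i => pow_ne_zero _ (hy i)]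
  have h2 : ∑ j, v (y j ^ (l.2 j : ℕ)) = 0 :=
    Finset.sum_eq_zero fun j _ => by rw [c8_v_pow hv (hy j), hy0, smul_zero]
  rw [h2, add_zero]
  refine Finset.sum_congr rfl fun i _ => ?_
  rw [c8_v_pow hv (hx i), natCast_zsmul]

omit [LinearOrder Γ] [IsOrderedAddMonoid Γ] in
private lemma c8_wt_comb {r : ℕ} (u : Fin r → Γ) (p : ℕ) (a b : Fin r → ℤ) :
    wt u ((p : ℤ) • a + b) = p • wt u a + wt u b := by
  unfold wt
  rw [Finset.smul_sum, ← Finset.sum_add_distrib]
  refine Finset.sum_congr rfl fun i _ => ?_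
  rw [Pi.add_apply, Pi.smul_apply, smul_eq_mul, add_smul, mul_smul, natCast_zsmul]

omit [IsOrderedAddMonoid Γ] in
private lemma c8_wt_inj {r : ℕ} {v : K → Γ} {x : Fin r → K} {ex : K → Fin r → ℤ}
    (hb : IsVB v x ex) {a b : Fin r → ℤ}
    (h : wt (fun i => v (x i)) a = wt (fun i => v (x i)) b) : a = b := by
  have h1 : wt (fun i => v (x i)) (a - b) = 0 := by
    have : wt (fun i => v (x i)) (a - b) =
        wt (fun i => v (x i)) a - wt (fun i => v (x i)) b := by
      unfold wt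
      rw [← Finset.sum_sub_distrib]
      refine Finset.sum_congr rfl fun i _ => ?_
      rw [Pi.sub_apply, sub_smul]
    rw [this, h, sub_self]
  exact sub_eq_zero.mp (hb.indep _ h1)

omit [IsOrderedAddMonoid Γ] in
private lemma c8_ge_add {v : K → Γ} (hv : IsV v) {c : Γ} {a b : K} (ha : Ge v c a)
    (hb : Ge v c b) : Ge v c (a + b) := by
  by_cases h : a + b = 0
  · exact Or.inl h
  rcases ha with ha | ha
  · rw [ha, zero_add]; exact hb
  rcases hb with hb | hb
  · rw [hb, add_zero]; exact Or.inr ha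
  by_cases ha0 : a = 0
  · rw [ha0, zero_add]; exact Or.inr hb
  by_cases hb0 : b = 0
  · rw [hb0, add_zero]; exact Or.inr ha
  exact Or.inr ((le_min ha hb).trans (hv.add a b ha0 hb0 h))

omit [IsOrderedAddMonoid Γ] in
private lemma c8_sum {k κ : Type} {r : ℕ} [Field k] [Algebra k K] [Field κ] [Algebra k κ]
    {v : K → Γ} (hv : IsV v) {x : Fin r → K} {ac : K → κ} (hac : IsAC k v x ac) (c : Γ)
    {ι : Type} (s : Finset ι) (g : ι → K) (hg : ∀ i, Ge v c (g i)) :
    Ge v c (∑ i ∈ s, g i) ∧ lc v ac c (∑ i ∈ s, g i) = ∑ i ∈ s, lc v ac c (g i) := by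
  classical
  induction s using Finset.induction_on with
  | empty =>
    rw [Finset.sum_empty, Finset.sum_empty]
    refine ⟨Or.inl rfl, ?_⟩
    unfold lc
    rw [if_neg fun h => h.1 rfl]
  | insert a s ha ih =>
    rw [Finset.sum_insert ha, Finset.sum_insert ha]
    exact ⟨c8_ge_add hv (hg a) ih.1, by rw [hac.add c _ _ (hg a) ih.1, ih.2]⟩

omit [IsOrderedAddMonoid Γ] in
private lemma c8_ac_one {k κ : Type} {r : ℕ} [Field k] [Algebra k K] [Field κ] [Algebra k κ]
    {v : K → Γ} {x : Fin r → K} {ac : K → κ} (hac : IsAC k v x ac) : ac 1 = 1 := by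
  have h := hac.mul 1 1
  rw [mul_one] at h
  exact (mul_eq_left₀ (hac.ne 1 one_ne_zero)).mp h.symm

omit [IsOrderedAddMonoid Γ] in
private lemma c8_ac_pow {k κ : Type} {r : ℕ} [Field k] [Algebra k K] [Field κ] [Algebra k κ]
    {v : K → Γ} {x : Fin r → K} {ac : K → κ} (hac : IsAC k v x ac) (a : K) (n : ℕ) :
    ac (a ^ n) = ac a ^ n := by
  induction n with
  | zero => rw [pow_zero, pow_zero, c8_ac_one hac]
  | succ n ih => rw [pow_succ, pow_succ, hac.mul, ih]

omit [IsOrderedAddMonoid Γ] in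
private lemma c8_ac_prod {k κ : Type} {r : ℕ} [Field k] [Algebra k K] [Field κ] [Algebra k κ]
    {v : K → Γ} {x : Fin r → K} {ac : K → κ} (hac : IsAC k v x ac) {ι : Type} (s : Finset ι)
    (g : ι → K) : ac (∏ i ∈ s, g i) = ∏ i ∈ s, ac (g i) := by
  classical
  induction s using Finset.induction_on with
  | empty => rw [Finset.prod_empty, Finset.prod_empty, c8_ac_one hac]
  | insert a s ha ih => rw [Finset.prod_insert ha, Finset.prod_insert ha, hac.mul, ih]

omit [IsOrderedAddMonoid Γ] in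
private lemma c8_ac_mon {k κ : Type} {p r s : ℕ} [Field k] [Algebra k K] [Field κ] [Algebra k κ]
    {v : K → Γ} {x : Fin r → K} {ac : K → κ} (hac : IsAC k v x ac) (y : Fin s → K)
    (l : Ix p r s) : ac (mon x y l) = monY (fun i => ac (y i)) l.2 := by
  unfold mon monY
  rw [hac.mul, c8_ac_prod hac, c8_ac_prod hac]
  have h1 : ∏ i, ac (x i ^ (l.1 i : ℕ)) = 1 :=
    Finset.prod_eq_one fun i _ => by rw [c8_ac_pow hac, hac.x_one, one_pow]
  rw [h1, one_mul]
  exact Finset.prod_congr rfl fun i _ => c8_ac_pow hac _ _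

end

theorem p_C8 : S_C8 := by
  intro p hp k K Γ κ _ _ _ _ _ _ _ _ _ v r s x y ex ac π ρ F f hf
  have hp0 : p ≠ 0 := hp.out.ne_zero
  have hmne : ∀ l : Ix p r s, mon x y l ≠ 0 := fun l => c8_mon_ne F.vb.ne F.y_ne l
  have hvt : ∀ l : Ix p r s, π l f ≠ 0 → v ((π l f) ^ p * mon x y l) =
      p • v (π l f) + v (mon x y l) := by
    intro l hl
    rw [F.isv.mul _ _ (pow_ne_zero _ hl) (hmne l), c8_v_pow F.isv hl]
  have hvw : ∀ l : Ix p r s, π l f ≠ 0 → p • v (π l f) + v (mon x y l) =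
      wt (fun i => v (x i)) ((p : ℤ) • ex (π l f) + exl l) := by
    intro l hl
    rw [c8_wt_comb, ← F.vb.gen _ hl, c8_v_mon F.isv F.vb.ne F.y_ne F.y_val]
  have hge : ∀ l : Ix p r s, Ge v (v f) ((π l f) ^ p * mon x y l) := by
    intro l
    by_cases hl : π l f = 0
    · left
      rw [hl, zero_pow hp0, zero_mul]
    · right
      rw [hvt l hl]
      exact F.orth l f hl
  have hiff : ∀ l : Ix p r s, π l f ≠ 0 → (v ((π l f) ^ p * mon x y l) = v f ↔
      ex f = (p : ℤ) • ex (π l f) + exl l) := by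
    intro l hl
    rw [hvt l hl, hvw l hl]
    constructor
    · intro h
      rw [F.vb.gen f hf] at h
      exact (c8_wt_inj F.vb h).symm
    · intro h
      rw [F.vb.gen f hf, h]
  have hsum := (c8_sum F.isv F.isac (v f) Finset.univ
    (fun l => (π l f) ^ p * mon x y l) hge).2
  rw [F.pb.repr f] at hsum
  have hac : ac f = ∑ l, open Classical in
      if π l f ≠ 0 ∧ ex f = (p : ℤ) • ex (π l f) + exl l
          then ac (π l f) ^ p * monY (fun i => ac (y i)) l.2 else 0 := by
    have h1 : lc v ac (v f) f = ac f := by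
      unfold lc
      rw [if_pos ⟨hf, rfl⟩]
    rw [← h1, hsum]
    refine Finset.sum_congr rfl fun l _ => ?_
    unfold lc
    by_cases hl : π l f = 0
    · rw [if_neg, if_neg]
      · exact fun h => h.1 hl
      · intro h
        exact h.1 (by rw [hl, zero_pow hp0, zero_mul])
    · by_cases he : ex f = (p : ℤ) • ex (π l f) + exl l
      · rw [if_pos ⟨mul_ne_zero (pow_ne_zero _ hl) (hmne l), (hiff l hl).mpr he⟩,
          if_pos ⟨hl, he⟩, F.isac.mul, c8_ac_pow F.isac, c8_ac_mon F.isac]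
      · rw [if_neg fun h => he ((hiff l hl).mp h.2), if_neg fun h => he h.2]
  refine ⟨?_, ?_, hac⟩
  · intro l hl
    have h1 : wt (fun i => v (x i)) (ex f) ≤
        wt (fun i => v (x i)) ((p : ℤ) • ex (π l f) + exl l) := by
      rw [← hvw l hl, ← F.vb.gen f hf]
      exact F.orth l f hl
    rcases h1.eq_or_lt with h | h
    · exact Or.inl (c8_wt_inj F.vb h)
    · exact Or.inr h
  · by_contra hcon
    push Not at hcon
    apply F.isac.ne f hf
    rw [hac]
    refine Finset.sum_eq_zero fun l _ => ?_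
    rw [if_neg]
    exact fun h => hcon l h.1 h.2

end Pool.Agent.F2Ch
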