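import Pool.Agent.Lib.MP_305fdd_al.F2.ChStm

/-!
# MP_305fdd_al, F_2 project: piece [F2C C9]

The form of the map `φ` in a frame.
-/

set_option autoImplicit false

namespace Pool.Agent.F2Ch

open MvPolynomial

private theorem c9_pinv {p : ℕ} [Fact p.Prime] {K ι : Type} [Field K] [CharP K p] [Fintype ι]
    {w : ι → K} {π : ι → K → K} (hw : IsPB p w π) (l : ι) : IsPinv p (π l) := by
  refine ⟨fun f g => ?_, fun a f => ?_⟩
  · have h := hw.uniq (fun i => π i f + π i g) l
    rw [← h]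
    congr 1
    conv_lhs => rw [← hw.repr f, ← hw.repr g]
    rw [← Finset.sum_add_distrib]
    exact Finset.sum_congr rfl fun i _ => by rw [add_pow_char]; ring
  · have h := hw.uniq (fun i => a * π i f) l
    rw [← h]
    congr 1
    conv_lhs => rw [← hw.repr f]
    rw [Finset.mul_sum]
    exact Finset.sum_congr rfl fun i _ => by rw [mul_pow]; ring

private theorem c9_zero {p : ℕ} {K : Type} [Field K] {π : K → K} (h : IsPinv p π) : π 0 = 0 := by
  have := h.add 0 0
  simpa using this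

private theorem c9_sum {p : ℕ} {K ι : Type} [Field K] {π : K → K} (h : IsPinv p π)
    (s : Finset ι) (F : ι → K) : π (∑ i ∈ s, F i) = ∑ i ∈ s, π (F i) := by
  classical
  induction s using Finset.induction_on with
  | empty => simpa using c9_zero h
  | insert a s ha ih => rw [Finset.sum_insert ha, Finset.sum_insert ha, h.add, ih]

private theorem c9_basis {p : ℕ} [Fact p.Prime] {K ι : Type} [Field K] [Fintype ι] [DecidableEq ι]
    {w : ι → K} {π : ι → K → K} (hw : IsPB p w π) (l l' : ι) :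
    π l (w l') = if l = l' then 1 else 0 := by
  have hp : p ≠ 0 := (Fact.out : p.Prime).ne_zero
  have h := hw.uniq (fun i => if i = l' then 1 else 0) l
  have e : ∑ j, (if j = l' then (1 : K) else 0) ^ p * w j = w l' := by
    rw [Finset.sum_eq_single l']
    · simp
    · intro b _ hb
      simp [hb, hp]
    · intro h
      exact absurd (Finset.mem_univ _) h
  rw [e] at h
  exact h

private theorem c9_one {K Γ : Type} [Field K] [AddCommGroup Γ] [LinearOrder Γ]
    [IsOrderedAddMonoid Γ] {v : K → Γ} (hv : IsV v) : v 1 = 0 := by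
  have h := hv.mul 1 1 one_ne_zero one_ne_zero
  rw [mul_one] at h
  exact left_eq_add.mp h

private theorem c9_pow {K Γ : Type} [Field K] [AddCommGroup Γ] [LinearOrder Γ]
    [IsOrderedAddMonoid Γ] {v : K → Γ} (hv : IsV v) {a : K} (ha : a ≠ 0) (n : ℕ) :
    v (a ^ n) = n • v a := by
  induction n with
  | zero => simpa using c9_one hv
  | succ n ih => rw [pow_succ, hv.mul _ _ (pow_ne_zero _ ha) ha, ih, succ_nsmul]

private theorem c9_vprod {K Γ ι : Type} [Field K] [AddCommGroup Γ] [LinearOrder Γ]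
    [IsOrderedAddMonoid Γ] {v : K → Γ} (hv : IsV v) (s : Finset ι) (F : ι → K)
    (hF : ∀ i, F i ≠ 0) : v (∏ i ∈ s, F i) = ∑ i ∈ s, v (F i) := by
  classical
  induction s using Finset.induction_on with
  | empty => simpa using c9_one hv
  | insert a s ha ih =>
    rw [Finset.prod_insert ha, Finset.sum_insert ha,
      hv.mul _ _ (hF a) (Finset.prod_ne_zero_iff.mpr fun i _ => hF i), ih]

private theorem c9_mon_ne {K : Type} [Field K] {p r s : ℕ} {x : Fin r → K} {y : Fin s → K}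
    (hx : ∀ i, x i ≠ 0) (hy : ∀ j, y j ≠ 0) (l : Ix p r s) : mon x y l ≠ 0 :=
  mul_ne_zero (Finset.prod_ne_zero_iff.mpr fun i _ => pow_ne_zero _ (hx i))
    (Finset.prod_ne_zero_iff.mpr fun i _ => pow_ne_zero _ (hy i))

private theorem c9_mon_val {K Γ : Type} [Field K] [AddCommGroup Γ] [LinearOrder Γ]
    [IsOrderedAddMonoid Γ] {v : K → Γ} (hv : IsV v) {p r s : ℕ} {x : Fin r → K} {y : Fin s → K}
    (hx : ∀ i, x i ≠ 0) (hy : ∀ j, y j ≠ 0) (hy0 : ∀ j, v (y j) = 0) (l : Ix p r s) :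
    v (mon x y l) = wt (fun i => v (x i)) (exl l) := by
  rw [mon, hv.mul _ _ (Finset.prod_ne_zero_iff.mpr fun i _ => pow_ne_zero _ (hx i))
    (Finset.prod_ne_zero_iff.mpr fun i _ => pow_ne_zero _ (hy i)),
    c9_vprod hv _ _ (fun i => pow_ne_zero _ (hx i)), c9_vprod hv _ _ (fun i => pow_ne_zero _ (hy i))]
  have e2 : ∑ i, v (y i ^ (l.2 i : ℕ)) = 0 :=
    Finset.sum_eq_zero fun i _ => by rw [c9_pow hv (hy i), hy0, smul_zero]
  rw [e2, add_zero, wt]
  exact Finset.sum_congr rfl fun i _ => by rw [c9_pow hv (hx i), exl, natCast_zsmul]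

/-- the quotient of two monomials -/
private theorem c9_quot {K : Type} [Field K] {p t : ℕ} [NeZero p] (z : Fin t → K)
    (hz : ∀ i, z i ≠ 0) (c c' : Fin t → Fin p) :
    ∃ (A : K) (c'' : Fin t → Fin p), (∏ i, z i ^ (c' i : ℕ)) / (∏ i, z i ^ (c i : ℕ)) =
      A ^ p * ∏ i, z i ^ (c'' i : ℕ) ∧
      ((∀ i, (c'' i : ℕ) = 0) → c = c') := by
  have hp : 0 < p := NeZero.pos p
  have hpz : (p : ℤ) ≠ 0 := by exact_mod_cast hp.ne'
  have key : ∀ i, ∃ (q : ℤ) (m : Fin p), ((c' i : ℕ) : ℤ) - ((c i : ℕ) : ℤ) = p * q + ((m : ℕ) : ℤ) := by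
    intro i
    have h1 : 0 ≤ (((c' i : ℕ) : ℤ) - ((c i : ℕ) : ℤ)) % p := Int.emod_nonneg _ hpz
    have h2 : (((c' i : ℕ) : ℤ) - ((c i : ℕ) : ℤ)) % p < p :=
      Int.emod_lt_of_pos _ (by exact_mod_cast hp)
    refine ⟨(((c' i : ℕ) : ℤ) - ((c i : ℕ) : ℤ)) / p,
      ⟨((((c' i : ℕ) : ℤ) - ((c i : ℕ) : ℤ)) % p).toNat, ?_⟩, ?_⟩
    · zify
      rw [Int.toNat_of_nonneg h1]
      exact h2
    · simp only [Int.toNat_of_nonneg h1]
      exact (Int.mul_ediv_add_emod _ _).symm
  choose q m hqm using key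
  refine ⟨∏ i, z i ^ (q i), m, ?_, ?_⟩
  · rw [← Finset.prod_div_distrib, ← Finset.prod_pow, ← Finset.prod_mul_distrib]
    refine Finset.prod_congr rfl fun i _ => ?_
    rw [← zpow_natCast (z i) (c' i), ← zpow_natCast (z i) (c i), ← zpow_sub₀ (hz i), hqm i,
      zpow_add₀ (hz i), mul_comm (p : ℤ) (q i), zpow_mul, zpow_natCast, zpow_natCast]
  · intro h0
    funext i
    have h := hqm i
    rw [h0 i] at h
    have h1 : ((c' i : ℕ) : ℤ) < p := by exact_mod_cast (c' i).2
    have h2 : ((c i : ℕ) : ℤ) < p := by exact_mod_cast (c i).2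
    have h3 : (0 : ℤ) ≤ ((c' i : ℕ) : ℤ) := by positivity
    have h4 : (0 : ℤ) ≤ ((c i : ℕ) : ℤ) := by positivity
    have hq : q i = 0 := by
      have hpp : (0 : ℤ) < p := by exact_mod_cast hp
      have a1 : (p : ℤ) * q i < p * 1 := by simp only [Nat.cast_zero] at h; linarith
      have a2 : (p : ℤ) * (-1) < p * q i := by simp only [Nat.cast_zero] at h; linarith
      have b1 := lt_of_mul_lt_mul_left a1 hpp.le
      have b2 := lt_of_mul_lt_mul_left a2 hpp.le
      omega
    rw [hq] at h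
    apply Fin.ext
    simp at h
    omega

private theorem c9_mon0 {K : Type} [Field K] {p r s : ℕ} [NeZero p] (x : Fin r → K)
    (y : Fin s → K) : mon x y (ix0 : Ix p r s) = 1 := by
  simp [mon, ix0]

private theorem c9_delta {p : ℕ} [Fact p.Prime] {K : Type} [Field K] [CharP K p] {r s : ℕ}
    {x : Fin r → K} {y : Fin s → K} {π : Ix p r s → K → K} (hw : IsPB p (mon x y) π)
    (hx : ∀ i, x i ≠ 0) (hy : ∀ j, y j ≠ 0) (l l' : Ix p r s) :
    π ix0 ((mon x y l)⁻¹ * mon x y l') = if l' = l then 1 else 0 := by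
  by_cases hl : l' = l
  · subst hl
    rw [inv_mul_cancel₀ (c9_mon_ne hx hy l'), if_pos rfl]
    have h := c9_basis hw (ix0 : Ix p r s) ix0
    rw [if_pos rfl, c9_mon0] at h
    exact h
  · rw [if_neg hl]
    obtain ⟨A, a, hA, ha⟩ := c9_quot x hx l.1 l'.1
    obtain ⟨B, b, hB, hb⟩ := c9_quot y hy l.2 l'.2
    have e : (mon x y l)⁻¹ * mon x y l' = (A * B) ^ p * mon x y (a, b) := by
      have e1 : (mon x y l)⁻¹ * mon x y l' = ((∏ i, x i ^ (l'.1 i : ℕ)) / (∏ i, x i ^ (l.1 i : ℕ))) *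
          ((∏ i, y i ^ (l'.2 i : ℕ)) / (∏ i, y i ^ (l.2 i : ℕ))) := by
        rw [mon, mon]
        field_simp
      rw [e1, hA, hB, mon]
      ring
    rw [e, (c9_pinv hw ix0).pow_mul, c9_basis hw, if_neg, mul_zero]
    intro h0
    apply hl
    have h1 : a = (ix0 : Ix p r s).1 := by rw [h0]
    have h2 : b = (ix0 : Ix p r s).2 := by rw [h0]
    exact (Prod.ext (ha fun i => by rw [h1]; rfl) (hb fun i => by rw [h2]; rfl)).symm

private theorem c9_formula {p : ℕ} [Fact p.Prime] {K : Type} [Field K] [CharP K p] {r s : ℕ}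
    {x : Fin r → K} {y : Fin s → K} {π : Ix p r s → K → K} (hw : IsPB p (mon x y) π)
    (hx : ∀ i, x i ≠ 0) (hy : ∀ j, y j ≠ 0) {φ : K → K} (hφ : IsPinv p φ) (f : K) :
    φ f = π ix0 ((∑ l : Ix p r s, φ (mon x y l) ^ p * (mon x y l)⁻¹) * f) := by
  have h0 := c9_pinv hw ix0
  have e1 : φ f = ∑ l, π l f * φ (mon x y l) := by
    conv_lhs => rw [← hw.repr f]
    rw [c9_sum hφ]
    exact Finset.sum_congr rfl fun l _ => hφ.pow_mul _ _
  rw [e1, Finset.sum_mul, c9_sum h0]
  refine Finset.sum_congr rfl fun l _ => ?_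
  rw [mul_assoc, h0.pow_mul]
  have e2 : π ix0 ((mon x y l)⁻¹ * f) = π l f := by
    conv_lhs => rw [← hw.repr f]
    rw [Finset.mul_sum, c9_sum h0, Finset.sum_eq_single l]
    · rw [mul_left_comm, h0.pow_mul, c9_delta hw hx hy, if_pos rfl, mul_one]
    · intro l' _ hl'
      rw [mul_left_comm, h0.pow_mul, c9_delta hw hx hy, if_neg hl', mul_zero]
    · intro h
      exact absurd (Finset.mem_univ _) h
  rw [e2, mul_comm]

private theorem c9_ge_add {K Γ : Type} [Field K] [AddCommGroup Γ] [LinearOrder Γ]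
    [IsOrderedAddMonoid Γ] {v : K → Γ} (hv : IsV v) {c : Γ} {f g : K} (hf : Ge v c f)
    (hg : Ge v c g) : Ge v c (f + g) := by
  rcases hf with rfl | hf'
  · rwa [zero_add]
  rcases hg with rfl | hg'
  · rw [add_zero]
    exact Or.inr hf'
  by_cases hf0 : f = 0
  · rw [hf0, zero_add]
    exact Or.inr hg'
  by_cases hg0 : g = 0
  · rw [hg0, add_zero]
    exact Or.inr hf'
  by_cases hs : f + g = 0
  · exact Or.inl hs
  · exact Or.inr (le_trans (le_min hf' hg') (hv.add f g hf0 hg0 hs))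

private theorem c9_lc_sum {k K Γ κ ι : Type} [Field k] [Field K] [Algebra k K] [AddCommGroup Γ]
    [LinearOrder Γ] [IsOrderedAddMonoid Γ] [Field κ] [Algebra k κ] {v : K → Γ} (hv : IsV v)
    {r : ℕ} {x : Fin r → K} {ac : K → κ} (hac : IsAC k v x ac) (s : Finset ι) (F : ι → K) (γ : Γ)
    (hF : ∀ i, Ge v γ (F i)) :
    Ge v γ (∑ i ∈ s, F i) ∧ lc v ac γ (∑ i ∈ s, F i) = ∑ i ∈ s, lc v ac γ (F i) := by
  classical
  induction s using Finset.induction_on with
  | empty =>
    refine ⟨Or.inl (by simp), ?_⟩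
    simp [lc]
  | insert a s ha ih =>
    rw [Finset.sum_insert ha, Finset.sum_insert ha]
    exact ⟨c9_ge_add hv (hF a) ih.1, by rw [hac.add γ _ _ (hF a) ih.1, ih.2]⟩

private theorem c9_ac_one {K κ : Type} [Field K] [Field κ] {ac : K → κ}
    (hne : ∀ f, f ≠ 0 → ac f ≠ 0) (hmul : ∀ f g, ac (f * g) = ac f * ac g) : ac 1 = 1 := by
  have h := hmul 1 1
  rw [mul_one] at h
  exact (mul_eq_left₀ (hne 1 one_ne_zero)).mp h.symm

private theorem c9_ac_pow {K κ : Type} [Field K] [Field κ] {ac : K → κ}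
    (hne : ∀ f, f ≠ 0 → ac f ≠ 0) (hmul : ∀ f g, ac (f * g) = ac f * ac g) (f : K) (n : ℕ) :
    ac (f ^ n) = ac f ^ n := by
  induction n with
  | zero => simpa using c9_ac_one hne hmul
  | succ n ih => rw [pow_succ, pow_succ, hmul, ih]

private theorem c9_ac_prod {K κ ι : Type} [Field K] [Field κ] {ac : K → κ}
    (hne : ∀ f, f ≠ 0 → ac f ≠ 0) (hmul : ∀ f g, ac (f * g) = ac f * ac g) (s : Finset ι)
    (F : ι → K) : ac (∏ i ∈ s, F i) = ∏ i ∈ s, ac (F i) := by
  classical
  induction s using Finset.induction_on with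
  | empty => simpa using c9_ac_one hne hmul
  | insert a s ha ih => rw [Finset.prod_insert ha, Finset.prod_insert ha, hmul, ih]

private theorem c9_ac_mon {k K Γ κ : Type} [Field k] [Field K] [Algebra k K] [AddCommGroup Γ]
    [LinearOrder Γ] [IsOrderedAddMonoid Γ] [Field κ] [Algebra k κ] {v : K → Γ}
    {p r s : ℕ} {x : Fin r → K} {y : Fin s → K} {ac : K → κ} (hac : IsAC k v x ac)
    (l : Ix p r s) : ac (mon x y l) = monY (fun j => ac (y j)) l.2 := by
  rw [mon, hac.mul, c9_ac_prod hac.ne hac.mul, c9_ac_prod hac.ne hac.mul, monY]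
  have e1 : ∏ i, ac (x i ^ (l.1 i : ℕ)) = 1 := Finset.prod_eq_one fun i _ => by
    rw [c9_ac_pow hac.ne hac.mul, hac.x_one, one_pow]
  rw [e1, one_mul]
  exact Finset.prod_congr rfl fun i _ => c9_ac_pow hac.ne hac.mul _ _

private theorem c9_wt_add {Γ : Type} [AddCommGroup Γ] {r : ℕ} (u : Fin r → Γ) (m n : Fin r → ℤ) :
    wt u (m + n) = wt u m + wt u n := by
  simp [wt, add_smul, Finset.sum_add_distrib]

private theorem c9_wt_smul {Γ : Type} [AddCommGroup Γ] {r : ℕ} (u : Fin r → Γ) (c : ℕ)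
    (n : Fin r → ℤ) : wt u ((c : ℤ) • n) = c • wt u n := by
  simp only [wt, Finset.smul_sum, Pi.smul_apply, smul_eq_mul]
  exact Finset.sum_congr rfl fun i _ => by rw [mul_smul, natCast_zsmul]

/-- the coordinate with index `0` and the leading coefficient at level `0` -/
private theorem c9_res {p : ℕ} [Fact p.Prime] {k K Γ κ : Type} [Field k] [Field K] [Algebra k K]
    [CharP K p] [AddCommGroup Γ] [LinearOrder Γ] [IsOrderedAddMonoid Γ] [Field κ] [Algebra k κ]
    [CharP κ p] {v : K → Γ} {r s : ℕ} {x : Fin r → K} {y : Fin s → K} {ex : K → Fin r → ℤ}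
    {ac : K → κ} {π : Ix p r s → K → K} {ρ : (Fin s → Fin p) → κ → κ}
    (hF : Frame k p v x y ex ac π ρ) (g : K) (hg : Ge v 0 g) :
    Ge v 0 (π ix0 g) ∧ lc v ac 0 (π ix0 g) = ρ j0 (lc v ac 0 g) := by
  classical
  have hv := hF.isv
  have hac := hF.isac
  have hp0 : p ≠ 0 := (Fact.out : p.Prime).ne_zero
  have hone := c9_one hv
  have hterm : ∀ l, π l g ≠ 0 → 0 ≤ p • v (π l g) + v (mon x y l) := by
    intro l hl
    have h := hF.orth l g hl
    rcases hg with h0 | h0
    · exact absurd (by rw [h0]; exact c9_zero (c9_pinv hF.pb l)) hl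
    · exact le_trans h0 h
  have hval : ∀ l, π l g ≠ 0 →
      v (π l g ^ p * mon x y l) = p • v (π l g) + v (mon x y l) := by
    intro l hl
    rw [hv.mul _ _ (pow_ne_zero _ hl) (c9_mon_ne hF.vb.ne hF.y_ne l), c9_pow hv hl]
  have hge : ∀ l, Ge v 0 (π l g ^ p * mon x y l) := by
    intro l
    by_cases hl : π l g = 0
    · exact Or.inl (by rw [hl, zero_pow hp0, zero_mul])
    · exact Or.inr (by rw [hval l hl]; exact hterm l hl)
  have hsum := (c9_lc_sum hv hac Finset.univ (fun l => π l g ^ p * mon x y l) 0 hge).2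
  rw [hF.pb.repr g] at hsum
  -- the terms
  have hlc : ∀ l : Ix p r s, lc v ac 0 (π l g ^ p * mon x y l) =
      if l.1 = (ix0 : Ix p r s).1 then
        lc v ac 0 (π l g) ^ p * monY (fun j => ac (y j)) l.2 else 0 := by
    intro l
    by_cases hl : π l g = 0
    · rw [hl, zero_pow hp0, zero_mul]
      simp [lc, hp0]
    have hne : π l g ^ p * mon x y l ≠ 0 :=
      mul_ne_zero (pow_ne_zero _ hl) (c9_mon_ne hF.vb.ne hF.y_ne l)
    by_cases h1 : l.1 = (ix0 : Ix p r s).1
    · rw [if_pos h1]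
      have hm : v (mon x y l) = 0 := by
        rw [c9_mon_val hv hF.vb.ne hF.y_ne hF.y_val, wt]
        exact Finset.sum_eq_zero fun i _ => by rw [exl, h1]; simp [ix0]
      have hiff : v (π l g ^ p * mon x y l) = 0 ↔ v (π l g) = 0 := by
        rw [hval l hl, hm, add_zero]
        constructor
        · intro h
          exact (smul_eq_zero.mp h).resolve_left hp0
        · intro h
          rw [h, smul_zero]
      by_cases h2 : v (π l g) = 0
      · rw [lc, lc, if_pos ⟨hne, hiff.mpr h2⟩, if_pos ⟨hl, h2⟩, hac.mul,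
          c9_ac_pow hac.ne hac.mul, c9_ac_mon hac]
      · rw [lc, lc, if_neg (fun h => h2 (hiff.mp h.2)), if_neg (fun h => h2 h.2),
          zero_pow hp0, zero_mul]
    · rw [if_neg h1, lc, if_neg]
      rintro ⟨-, h2⟩
      rw [hval l hl, c9_mon_val hv hF.vb.ne hF.y_ne hF.y_val, hF.vb.gen _ hl, ← c9_wt_smul,
        ← c9_wt_add] at h2
      have h3 := hF.vb.indep _ h2
      apply h1
      funext i
      have h4 := congrFun h3 i
      simp only [Pi.add_apply, Pi.smul_apply, smul_eq_mul, exl, Pi.zero_apply] at h4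
      have h5 : (p : ℤ) ∣ ((l.1 i : ℕ) : ℤ) :=
        ⟨-(ex (π l g) i), by linarith⟩
      have h6 : p ∣ (l.1 i : ℕ) := by exact_mod_cast h5
      have h7 : (l.1 i : ℕ) = 0 := Nat.eq_zero_of_dvd_of_lt h6 (l.1 i).2
      exact Fin.ext (by rw [h7]; rfl)
  have hsum2 : lc v ac 0 g = ∑ j : Fin s → Fin p,
      lc v ac 0 (π ((ix0 : Ix p r s).1, j) g) ^ p * monY (fun j => ac (y j)) j := by
    rw [hsum, Finset.sum_congr rfl fun l _ => hlc l, Fintype.sum_prod_type,
      Finset.sum_eq_single (ix0 : Ix p r s).1]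
    · exact Finset.sum_congr rfl fun j _ => by rw [if_pos rfl]
    · intro a _ ha
      exact Finset.sum_eq_zero fun j _ => by rw [if_neg ha]
    · intro h
      exact absurd (Finset.mem_univ _) h
  refine ⟨?_, ?_⟩
  · by_cases hl : π ix0 g = 0
    · exact Or.inl hl
    · refine Or.inr ?_
      have h := hterm ix0 hl
      rw [c9_mon0, hone, add_zero] at h
      by_contra hlt
      have hlt' : v (π ix0 g) < 0 := lt_of_not_ge hlt
      exact absurd h (not_le.mpr (nsmul_neg hlt' hp0))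
  · rw [hsum2]
    exact (hF.rb.uniq (fun j => lc v ac 0 (π ((ix0 : Ix p r s).1, j) g)) j0).symm

theorem p_C9 : S_C9 := by
  intro p _ k K Γ κ _ _ _ _ _ _ _ _ _ _ v r s x y ex ac π ρ hF φ hφ hφ1
  have hv := hF.isv
  have hac := hF.isac
  have hone := c9_one hv
  have hform := fun f => c9_formula hF.pb hF.vb.ne hF.y_ne hφ f
  set h : K := ∑ l : Ix p r s, φ (mon x y l) ^ p * (mon x y l)⁻¹ with hh
  have h0 := c9_pinv hF.pb (ix0 : Ix p r s)
  have hph : π ix0 h = 1 := by
    have := hform 1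
    rw [mul_one, hφ1] at this
    exact this.symm
  have hne : h ≠ 0 := by
    intro h00
    rw [h00, c9_zero h0] at hph
    exact zero_ne_one hph
  refine ⟨h, hne, hform, fun hc => ?_⟩
  have hvh : v h = 0 := by
    apply le_antisymm
    · have := hF.orth ix0 h (by rw [hph]; exact one_ne_zero)
      rw [hph, hone, smul_zero, c9_mon0, hone, add_zero] at this
      exact this
    · have h1 : φ h⁻¹ = 1 := by
        rw [hform, mul_inv_cancel₀ hne]
        have := c9_basis hF.pb (ix0 : Ix p r s) ix0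
        rw [c9_mon0, if_pos rfl] at this
        exact this
      have h2 := hc h⁻¹ (by rw [h1]; exact one_ne_zero)
      rw [h1, hone, smul_zero] at h2
      have h3 := hv.mul h h⁻¹ hne (inv_ne_zero hne)
      rw [mul_inv_cancel₀ hne, hone] at h3
      have h4 : v h = - v h⁻¹ := eq_neg_of_add_eq_zero_left h3.symm
      rw [h4]
      exact neg_nonneg.mpr h2
  have hr := c9_pinv hF.rb (j0 : Fin s → Fin p)
  have hlast : ∀ f, Ge v 0 f → Ge v 0 (φ f) ∧ lc v ac 0 (φ f) = ρ j0 (ac h * lc v ac 0 f) := by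
    intro f hf
    have hg : Ge v 0 (h * f) := by
      rcases hf with rfl | hf
      · exact Or.inl (mul_zero _)
      · by_cases hf0 : f = 0
        · exact Or.inl (by rw [hf0, mul_zero])
        · exact Or.inr (by rw [hv.mul _ _ hne hf0, hvh, zero_add]; exact hf)
    have hlcg : lc v ac 0 (h * f) = ac h * lc v ac 0 f := by
      by_cases hf0 : f = 0
      · rw [hf0, mul_zero]
        simp [lc]
      · have hvf : v (h * f) = v f := by rw [hv.mul _ _ hne hf0, hvh, zero_add]
        by_cases h2 : v f = 0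
        · rw [lc, lc, if_pos ⟨mul_ne_zero hne hf0, by rw [hvf]; exact h2⟩, if_pos ⟨hf0, h2⟩,
            hac.mul]
        · rw [lc, lc, if_neg (fun h => h2 (by rw [← hvf]; exact h.2)), if_neg (fun h => h2 h.2),
            mul_zero]
    have := c9_res hF (h * f) hg
    rw [hlcg, ← hform f] at this
    exact this
  refine ⟨hvh, fun c => ρ j0 (ac h * c), ⟨fun a b => ?_, fun a b => ?_⟩, ?_, fun c => rfl, hlast⟩
  · show ρ j0 (ac h * (a + b)) = _
    rw [mul_add, hr.add]
  · show ρ j0 (ac h * (a ^ p * b)) = _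
    rw [mul_left_comm, hr.pow_mul]
  · have h1 := (hlast 1 (Or.inr (by rw [hone]))).2
    have h2 : lc v ac 0 (1 : K) = 1 := by
      rw [lc, if_pos ⟨one_ne_zero, hone⟩]
      exact c9_ac_one hac.ne hac.mul
    rw [hφ1, h2] at h1
    exact h1.symm

end Pool.Agent.F2Ch
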