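import Pool.Agent.Lib.MP_305fdd_al.F2.ChStmG

set_option autoImplicit false

namespace Pool.Agent.F2Ch

open MvPolynomial

section
variable {Γ : Type} [AddCommGroup Γ]

theorem d0_wt_sub {r : ℕ} (u : Fin r → Γ) (m n : Fin r → ℤ) :
    wt u (m - n) = wt u m - wt u n := by
  simp only [wt, Pi.sub_apply, sub_smul, Finset.sum_sub_distrib]

theorem d0_wt_add {r : ℕ} (u : Fin r → Γ) (m n : Fin r → ℤ) :
    wt u (m + n) = wt u m + wt u n := by
  simp only [wt, Pi.add_apply, add_smul, Finset.sum_add_distrib]

theorem d0_wt_zero {r : ℕ} (u : Fin r → Γ) : wt u 0 = 0 := by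
  simp only [wt, Pi.zero_apply, zero_smul, Finset.sum_const_zero]

theorem d0_wt_single {r : ℕ} (u : Fin r → Γ) (i : Fin r) :
    wt u (Pi.single i 1) = u i := by
  rw [wt, Finset.sum_eq_single i]
  · rw [Pi.single_eq_same, one_smul]
  · intro j _ hj
    rw [Pi.single_eq_of_ne hj, zero_smul]
  · intro h
    exact absurd (Finset.mem_univ i) h

end

theorem p_D0 : S_D0 := by
  intro p _ k K κ _ _ _ _ _ _ _ Γ _ _ _ v r s x y ex ac π ρ F
  have key : ∀ m n : Fin r → ℤ, wt (fun i => v (x i)) m = wt (fun i => v (x i)) n → m = n := by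
    intro m n h
    have h1 : wt (fun i => v (x i)) (m - n) = 0 := by
      rw [d0_wt_sub, h, sub_self]
    exact sub_eq_zero.1 (F.vb.indep _ h1)
  exact
    { x_ne := F.vb.ne
      y_ne := F.y_ne
      ac_zero := F.isac.zero
      ac_ne := F.isac.ne
      ac_mul := F.isac.mul
      ac_alg := F.isac.alg
      ac_x := F.isac.x_one
      ex_zero := F.vb.zero
      ex_mul := by
        intro f g hf hg
        apply key
        rw [d0_wt_add, ← F.vb.gen f hf, ← F.vb.gen g hg, ← F.vb.gen (f * g) (mul_ne_zero hf hg)]
        exact F.isv.mul f g hf hg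
      ex_alg := by
        intro c
        by_cases hc : c = 0
        · rw [hc, map_zero]
          exact F.vb.zero
        · apply key
          have hc' : algebraMap k K c ≠ 0 := by
            intro h
            exact hc ((map_eq_zero (algebraMap k K)).1 h)
          rw [← F.vb.gen _ hc', d0_wt_zero]
          exact F.triv c
      ex_x := by
        intro i
        apply key
        rw [← F.vb.gen _ (F.vb.ne i), d0_wt_single]
      ex_y := by
        intro j
        apply key
        rw [← F.vb.gen _ (F.y_ne j), d0_wt_zero]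
        exact F.y_val j
      pb := F.pb
      rb := F.rb }

end Pool.Agent.F2Ch

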