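import Pool.Agent.Lib.MP_305fdd_al.F2.ChStmG

set_option autoImplicit false

namespace Pool.Agent.F2Ch

open MvPolynomial

section
variable {p r s : ℕ} [NeZero p] {K κ : Type} [Field K] [Field κ]

theorem d1_pi {x : Fin r → K} {y : Fin s → K} {π : Ix p r s → K → K}
    (pb : IsPB p (mon x y) π) (z : K) (σ : Equiv.Perm (Ix p r s)) (a : Ix p r s → K)
    (h : ∀ l, z * mon x y l = a l ^ p * mon x y (σ l)) (f : K) (l : Ix p r s) :
    π (σ l) (z * f) = a l * π l f := by
  have h1 : z * f = ∑ l', (a (σ.symm l') * π (σ.symm l') f) ^ p * mon x y l' := by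
    rw [← Equiv.sum_comp σ]
    simp only [Equiv.symm_apply_apply]
    conv_lhs => rw [← pb.repr f]
    rw [Finset.mul_sum]
    refine Finset.sum_congr rfl fun l' _ => ?_
    rw [mul_pow, mul_left_comm, h l']
    ring
  rw [h1, pb.uniq (fun l' => a (σ.symm l') * π (σ.symm l') f) (σ l)]
  simp only [Equiv.symm_apply_apply]

/-- shift of the first component -/
def d1_sx (p r s : ℕ) [NeZero p] (i : Fin r) : Equiv.Perm (Ix p r s) :=
  Equiv.addRight (((Pi.single i 1 : Fin r → Fin p), (0 : Fin s → Fin p)) : Ix p r s)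

/-- shift of the second component -/
def d1_sy (p r s : ℕ) [NeZero p] (j : Fin s) : Equiv.Perm (Ix p r s) :=
  Equiv.addRight (((0 : Fin r → Fin p), (Pi.single j 1 : Fin s → Fin p)) : Ix p r s)

/-- carry -/
def d1_c {p : ℕ} (a : Fin p) : ℕ := if (a : ℕ) + 1 < p then 0 else 1

theorem d1_carry (hp : 1 < p) (a : Fin p) : (a : ℕ) + 1 = p * d1_c a + ((a + 1 : Fin p) : ℕ) := by
  have h1 : ((1 : Fin p) : ℕ) = 1 := by
    rw [Fin.val_one']
    exact Nat.mod_eq_of_lt hp
  have ha := a.2
  rw [Fin.val_add, h1, d1_c]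
  split_ifs with h
  · rw [Nat.mod_eq_of_lt h]; omega
  · have : (a : ℕ) + 1 = p := by omega
    rw [this, Nat.mod_self]; omega

theorem d1_prod {M : Type} [CommMonoid M] {t : ℕ} (hp : 1 < p) (w : Fin t → M) (m : Fin t → Fin p)
    (i : Fin t) :
    w i * ∏ i', w i' ^ (m i' : ℕ) =
      (w i ^ d1_c (m i)) ^ p * ∏ i', w i' ^ (((m + Pi.single i 1 : Fin t → Fin p) i' : Fin p) : ℕ) := by
  conv_rhs => rw [← Finset.mul_prod_erase Finset.univ _ (Finset.mem_univ i)]
  rw [← Finset.mul_prod_erase Finset.univ (fun i' => w i' ^ (m i' : ℕ)) (Finset.mem_univ i),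
    ← mul_assoc, ← mul_assoc]
  congr 1
  · rw [← pow_succ', Pi.add_apply, Pi.single_eq_same, ← pow_mul, ← pow_add, d1_carry hp (m i),
      mul_comm p]
  · refine Finset.prod_congr rfl fun i' hi' => ?_
    rw [Pi.add_apply, Pi.single_eq_of_ne (Finset.ne_of_mem_erase hi'), add_zero]

theorem d1_sx_one (i : Fin r) (l : Ix p r s) :
    (d1_sx p r s i l).1 = l.1 + Pi.single i 1 := rfl

theorem d1_sx_two (i : Fin r) (l : Ix p r s) : (d1_sx p r s i l).2 = l.2 := by
  change l.2 + 0 = l.2
  rw [add_zero]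

theorem d1_sy_one (j : Fin s) (l : Ix p r s) : (d1_sy p r s j l).1 = l.1 := by
  change l.1 + 0 = l.1
  rw [add_zero]

theorem d1_sy_two (j : Fin s) (l : Ix p r s) :
    (d1_sy p r s j l).2 = l.2 + Pi.single j 1 := rfl

theorem d1_monx {M : Type} [CommMonoid M] (hp : 1 < p) (x : Fin r → M) (y : Fin s → M) (i : Fin r)
    (l : Ix p r s) :
    x i * mon x y l = (x i ^ d1_c (l.1 i)) ^ p * mon x y (d1_sx p r s i l) := by
  rw [mon, mon, d1_sx_two, d1_sx_one, ← mul_assoc, ← mul_assoc, d1_prod hp x l.1 i]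

theorem d1_mony {M : Type} [CommMonoid M] (hp : 1 < p) (x : Fin r → M) (y : Fin s → M) (j : Fin s)
    (l : Ix p r s) :
    y j * mon x y l = (y j ^ d1_c (l.2 j)) ^ p * mon x y (d1_sy p r s j l) := by
  rw [mon, mon, d1_sy_one, d1_sy_two, mul_left_comm, d1_prod hp y l.2 j, mul_left_comm]

theorem d1_exl (hp : 1 < p) (i : Fin r) (l : Ix p r s) :
    (Pi.single i 1 : Fin r → ℤ) + exl l =
      (p * d1_c (l.1 i)) • (Pi.single i 1 : Fin r → ℤ) + exl (d1_sx p r s i l) := by
  funext i'
  simp only [Pi.add_apply, Pi.smul_apply, exl, d1_sx_one]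
  by_cases h : i' = i
  · subst h
    have h1 := d1_carry hp (l.1 i')
    rw [Pi.single_eq_same, Pi.single_eq_same, nsmul_eq_mul, mul_one]
    have h2 : (((l.1 i' : Fin p) : ℕ) : ℤ) + 1 = ((p * d1_c (l.1 i') : ℕ) : ℤ)
        + (((l.1 i' + 1 : Fin p) : ℕ) : ℤ) := by
      exact_mod_cast h1
    rw [add_comm, h2]
  · rw [Pi.single_eq_of_ne h, Pi.single_eq_of_ne h, smul_zero, add_zero]

theorem d1_omx (hp : 1 < p) (y : Fin s → K) (ac : K → κ) (i : Fin r) (l : Ix p r s) :
    (AddMonoidAlgebra.single (Pi.single i 1 : Fin r → ℤ) (1 : κ)) * om y ac l =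
      ((AddMonoidAlgebra.single (Pi.single i 1 : Fin r → ℤ) (1 : κ)) ^ d1_c (l.1 i)) ^ p *
        om y ac (d1_sx p r s i l) := by
  rw [om, om, ← pow_mul, AddMonoidAlgebra.single_pow, AddMonoidAlgebra.single_mul_single,
    AddMonoidAlgebra.single_mul_single, one_pow, d1_sx_two, d1_exl hp i l, mul_comm (d1_c _) p]

theorem d1_omy (hp : 1 < p) (y : Fin s → K) (ac : K → κ) (j : Fin s) (l : Ix p r s) :
    (AddMonoidAlgebra.single (0 : Fin r → ℤ) (ac (y j))) * om y ac l =
      ((AddMonoidAlgebra.single (0 : Fin r → ℤ) (ac (y j))) ^ d1_c (l.2 j)) ^ p *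
        om y ac (d1_sy p r s j l) := by
  have h1 := d1_prod hp (fun j => ac (y j)) l.2 j
  have h2 : exl (d1_sy p r s j l) = exl l := by
    funext i
    simp only [exl, d1_sy_one]
  rw [om, om, h2, AddMonoidAlgebra.single_pow, AddMonoidAlgebra.single_pow,
    AddMonoidAlgebra.single_mul_single, AddMonoidAlgebra.single_mul_single, monY, monY, d1_sy_two]
  simp only [smul_zero, zero_add]
  rw [h1]

omit [NeZero p] in
theorem d1_c_le (a : Fin p) : d1_c a = 0 ∨ d1_c a = 1 := by
  rw [d1_c]; split_ifs <;> simp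

theorem d1_gen {x : Fin r → K} {y : Fin s → K} {π : Ix p r s → K → K} {ex : K → Fin r → ℤ}
    {ac : K → κ} (pb : IsPB p (mon x y) π) (z : K) (Z : AddMonoidAlgebra κ (Fin r → ℤ))
    (σ : Equiv.Perm (Ix p r s)) (c : Ix p r s → ℕ) (hc : ∀ l, c l = 0 ∨ c l = 1)
    (h : ∀ l, z * mon x y l = (z ^ c l) ^ p * mon x y (σ l))
    (h' : ∀ l, Z * om y ac l = (Z ^ c l) ^ p * om y ac (σ l))
    (h0 : ∀ f, ap y ex ac π 0 (z * f) = Z * ap y ex ac π 0 f) :
    ∀ N f, ap y ex ac π N (z * f) = Z * ap y ex ac π N f := by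
  intro N
  induction N with
  | zero => exact h0
  | succ N ih =>
    intro f
    rw [ap, ap, ← Equiv.sum_comp σ, Finset.mul_sum]
    refine Finset.sum_congr rfl fun l _ => ?_
    rw [d1_pi pb z σ (fun l => z ^ c l) h f l]
    have h1 : ap y ex ac π N (z ^ c l * π l f) = Z ^ c l * ap y ex ac π N (π l f) := by
      rcases hc l with h2 | h2
      · rw [h2, pow_zero, pow_zero, one_mul, one_mul]
      · rw [h2, pow_one, pow_one, ih]
    rw [h1, mul_pow, mul_left_comm Z, h' l]
    ring

end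

theorem p_D1 : S_D1 := by
  intro p _ k K κ _ _ _ _ _ _ _ r s x y ex ac π ρ hF
  have hp : 1 < p := (Fact.out : p.Prime).one_lt
  have hp0 : p ≠ 0 := by omega
  have : NeZero p := ⟨hp0⟩
  have base : ∀ (z : K) (e : Fin r → ℤ) (a : κ), z ≠ 0 → ex z = e → ac z = a →
      ∀ f, ap y ex ac π 0 (z * f) = AddMonoidAlgebra.single e a * ap y ex ac π 0 f := by
    intro z e a hz he ha f
    by_cases hf : f = 0
    · subst hf
      simp only [ap, lead, mul_zero, hF.ac_zero, AddMonoidAlgebra.single_zero]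
    · rw [ap, ap, lead, lead, AddMonoidAlgebra.single_mul_single, hF.ex_mul z f hz hf, hF.ac_mul, he, ha]
  have hzero : ∀ l, π l 0 = 0 := by
    intro l
    have h1 := hF.pb.uniq (fun _ => (0 : K)) l
    simpa [zero_pow hp0] using h1
  have hap0 : ∀ N, ap y ex ac π N 0 = 0 := by
    intro N
    induction N with
    | zero => simp only [ap, lead, hF.ac_zero, AddMonoidAlgebra.single_zero]
    | succ N ih =>
      rw [ap]
      refine Finset.sum_eq_zero fun l _ => ?_
      rw [hzero, ih, zero_pow hp0, zero_mul]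
  refine ⟨?_, ?_, ?_, ?_, hap0⟩
  · intro N
    induction N with
    | zero =>
      intro c f
      by_cases hc : c = 0
      · subst hc
        rw [map_zero, map_zero, zero_mul, AddMonoidAlgebra.single_zero, zero_mul, hap0]
      · exact base _ _ _ ((map_ne_zero _).mpr hc) (hF.ex_alg c) (hF.ac_alg c) f
    | succ N ih =>
      intro c f
      obtain ⟨d, hd⟩ := (PerfectRing.bijective_frobenius (R := k) (p := p)).surjective c
      replace hd : d ^ p = c := hd
      subst hd
      rw [ap, ap, Finset.mul_sum]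
      refine Finset.sum_congr rfl fun l _ => ?_
      have h1 : π l (algebraMap k K (d ^ p) * f) = algebraMap k K d * π l f := by
        have := d1_pi hF.pb (algebraMap k K (d ^ p)) (Equiv.refl _) (fun _ => algebraMap k K d)
          (fun l => by rw [map_pow]; rfl) f l
        simpa using this
      rw [h1, ih, mul_pow, AddMonoidAlgebra.single_pow, smul_zero, map_pow]
      ring
  · intro N i f
    exact d1_gen hF.pb (x i) _ (d1_sx p r s i) (fun l => d1_c (l.1 i)) (fun l => d1_c_le _)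
      (fun l => d1_monx hp x y i l) (fun l => d1_omx hp y ac i l)
      (base _ _ _ (hF.x_ne i) (hF.ex_x i) (hF.ac_x i)) N f
  · intro N j f
    exact d1_gen hF.pb (y j) _ (d1_sy p r s j) (fun l => d1_c (l.2 j)) (fun l => d1_c_le _)
      (fun l => d1_mony hp x y j l) (fun l => d1_omy hp y ac j l)
      (base _ _ _ (hF.y_ne j) (hF.ex_y j) rfl) N f
  · have hmon : mon x y (ix0 : Ix p r s) = 1 := by
      simp [mon, ix0]
    have hone : ∀ l, π l 1 = if l = ix0 then 1 else 0 := by
      intro l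
      have h1 := hF.pb.uniq (fun l => if l = ix0 then (1 : K) else 0) l
      rw [← h1]
      congr 1
      rw [Finset.sum_eq_single (ix0 : Ix p r s)]
      · rw [if_pos rfl, one_pow, one_mul, hmon]
      · intro b _ hb
        rw [if_neg hb, zero_pow hp0, zero_mul]
      · intro h; exact absurd (Finset.mem_univ _) h
    have hom : om y ac (ix0 : Ix p r s) = 1 := by
      have e0 : exl (ix0 : Ix p r s) = 0 := by
        funext i; simp [exl, ix0]
      have e1 : monY (fun j => ac (y j)) (ix0 : Ix p r s).2 = 1 := by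
        simp [monY, ix0]
      rw [om, e0, e1]; rfl
    intro N
    induction N with
    | zero =>
      have h1 := hF.ex_alg 1
      have h2 := hF.ac_alg 1
      rw [map_one] at h1 h2
      rw [map_one] at h2
      rw [ap, lead, h1, h2]; rfl
    | succ N ih =>
      rw [ap, Finset.sum_eq_single (ix0 : Ix p r s)]
      · rw [hone, if_pos rfl, ih, one_pow, one_mul, hom]
      · intro b _ hb
        rw [hone, if_neg hb, hap0, zero_pow hp0, zero_mul]
      · intro h; exact absurd (Finset.mem_univ _) h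

end Pool.Agent.F2Ch
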