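import Pool.Agent.Lib.MP_305fdd_al.F2.ChStmG

set_option autoImplicit false

namespace Pool.Agent.F2Ch

open MvPolynomial

section
variable {Γ : Type} [AddCommGroup Γ] [LinearOrder Γ] [IsOrderedAddMonoid Γ]

omit [LinearOrder Γ] [IsOrderedAddMonoid Γ] in
theorem d3_wt {r : ℕ} (u : Fin r → Γ) (p : ℕ) (m n : Fin r → ℤ) :
    wt u ((p : ℤ) • m + n) = p • wt u m + wt u n := by
  rw [wt, wt, wt, Finset.smul_sum, ← Finset.sum_add_distrib]
  refine Finset.sum_congr rfl fun i _ => ?_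
  rw [Pi.add_apply, Pi.smul_apply, add_smul, smul_assoc, natCast_zsmul]

omit [IsOrderedAddMonoid Γ] in
theorem d3_min {κ : Type} [Field κ] {r : ℕ} (u : Fin r → Γ)
    (P : AddMonoidAlgebra κ (Fin r → ℤ)) (hP : ∃ m, P.coeff m ≠ 0) : ∃ c, IsMinW u P c := by
  classical
  obtain ⟨m, hm⟩ := hP
  have hne : (P.coeff.support).Nonempty := ⟨m, Finsupp.mem_support_iff.2 hm⟩
  obtain ⟨n, hn, hmin⟩ := Finset.exists_min_image P.coeff.support (fun m => wt u m) hne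
  refine ⟨wt u n, fun m' hm' => hmin m' (Finsupp.mem_support_iff.2 hm'), n,
    Finsupp.mem_support_iff.1 hn, rfl⟩

end

theorem p_D3 (hD2 : S_D2) : S_D3 := by
  intro p _ k K κ _ _ _ _ _ _ _ r s x y ex ac π ρ hF Γ' _ _ _ u
  obtain ⟨-, h2, h3⟩ := hD2 p k K κ r s x y ex ac π ρ hF
  have hex : ∀ P : AddMonoidAlgebra κ (Fin r → ℤ), P ≠ 0 → ∃ m, P.coeff m ≠ 0 := by
    intro P hP
    by_contra hcon
    push Not at hcon
    apply hP
    ext m
    simpa using hcon m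
  have hA : ∀ N f c, UGe u c (ap y ex ac π (N + 1) f) ↔
      ∀ l c', IsMinW u (ap y ex ac π N (π l f)) c' → c ≤ p • c' + wt u (exl l) := by
    intro N f c
    constructor
    · rintro h l c' ⟨-, m, hm, rfl⟩
      have h4 := h ((p : ℤ) • m + exl l) ((h2 N f _).2 ⟨l, m, hm, rfl⟩)
      rwa [d3_wt] at h4
    · intro h n hn
      obtain ⟨l, m, hm, rfl⟩ := (h2 N f n).1 hn
      obtain ⟨c', hc'⟩ := d3_min u (ap y ex ac π N (π l f)) ⟨m, hm⟩
      have h4 := h l c' hc'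
      have h5 := hc'.1 m hm
      rw [d3_wt]
      exact h4.trans (add_le_add_left (nsmul_le_nsmul_right h5 p) _)
  refine ⟨hA, ?_, ?_⟩
  · intro N f c
    constructor
    · rintro ⟨h, n, hn, hcn⟩
      have h4 := (hA N f c).1 h
      refine ⟨h4, ?_⟩
      obtain ⟨l, m, hm, rfl⟩ := (h2 N f n).1 hn
      obtain ⟨c', hc'⟩ := d3_min u (ap y ex ac π N (π l f)) ⟨m, hm⟩
      refine ⟨l, c', hc', le_antisymm (h4 l c' hc') ?_⟩
      rw [hcn, d3_wt]
      exact add_le_add_left (nsmul_le_nsmul_right (hc'.1 m hm) p) _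
    · rintro ⟨h, l, c', ⟨-, m, hm, rfl⟩, rfl⟩
      refine ⟨(hA N f _).2 h, (p : ℤ) • m + exl l, (h2 N f _).2 ⟨l, m, hm, rfl⟩, ?_⟩
      rw [d3_wt]
  · intro N f hf
    exact d3_min u _ (hex _ fun h => hf ((h3 N f).1 h))

end Pool.Agent.F2Ch
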