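import Pool.Agent.Lib.MP_305fdd_al.F2.ChStmG

set_option autoImplicit false

/-!
# MP_305fdd_al, F_2 project, piece [F2C D4]: carries
-/

namespace Pool.Agent.F2Ch

open MvPolynomial

/-- one component of the carry -/
private lemma d4_num {p : ℕ} (hp : 0 < p) (a b : Fin p) (c : Fin 2) :
    (a : ℕ) + (b : ℕ) + (c : ℕ) =
      p * ((((a : ℕ) + (b : ℕ) + (c : ℕ)) / p) % 2) + ((a : ℕ) + (b : ℕ) + (c : ℕ)) % p := by
  have ha := a.isLt
  have hb := b.isLt
  have hc := c.isLt
  have h1 : ((a : ℕ) + (b : ℕ) + (c : ℕ)) / p < 2 := by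
    rw [Nat.div_lt_iff_lt_mul hp]; omega
  rw [Nat.mod_eq_of_lt h1]
  exact (Nat.div_add_mod _ _).symm

/-- products of powers whose exponents satisfy a carry relation -/
private lemma d4_prod {ι M : Type} [Fintype ι] [CommMonoid M] (x : ι → M) (a b c q e : ι → ℕ)
    (p : ℕ) (h : ∀ i, a i + b i + c i = p * q i + e i) :
    (∏ i, x i ^ a i) * (∏ i, x i ^ b i) * (∏ i, x i ^ c i) =
      (∏ i, x i ^ q i) ^ p * ∏ i, x i ^ e i := by
  rw [← Finset.prod_pow, ← Finset.prod_mul_distrib, ← Finset.prod_mul_distrib,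
    ← Finset.prod_mul_distrib]
  refine Finset.prod_congr rfl fun i _ => ?_
  rw [← pow_add, ← pow_add, h i, pow_add, ← pow_mul, mul_comm (q i) p]

/-- the product of three monomials -/
private lemma d4_mon {M : Type} [CommMonoid M] {p r s : ℕ} [NeZero p] (x : Fin r → M)
    (y : Fin s → M) (l l' : Ix p r s) (θ : Ix 2 r s) :
    mon x y l * mon x y l' * mon x y θ = (mon x y (cq l l' θ)) ^ p * mon x y (cr l l' θ) := by
  have hx := d4_prod x (fun i => (l.1 i : ℕ)) (fun i => (l'.1 i : ℕ)) (fun i => (θ.1 i : ℕ))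
    (fun i => ((cq l l' θ).1 i : ℕ)) (fun i => ((cr l l' θ).1 i : ℕ)) p
    (fun i => d4_num (NeZero.pos p) (l.1 i) (l'.1 i) (θ.1 i))
  have hy := d4_prod y (fun i => (l.2 i : ℕ)) (fun i => (l'.2 i : ℕ)) (fun i => (θ.2 i : ℕ))
    (fun i => ((cq l l' θ).2 i : ℕ)) (fun i => ((cr l l' θ).2 i : ℕ)) p
    (fun i => d4_num (NeZero.pos p) (l.2 i) (l'.2 i) (θ.2 i))
  have e : mon x y l * mon x y l' * mon x y θ =
      ((∏ i, x i ^ (l.1 i : ℕ)) * (∏ i, x i ^ (l'.1 i : ℕ)) * (∏ i, x i ^ (θ.1 i : ℕ))) *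
      ((∏ i, y i ^ (l.2 i : ℕ)) * (∏ i, y i ^ (l'.2 i : ℕ)) * (∏ i, y i ^ (θ.2 i : ℕ))) := by
    unfold mon
    rw [mul_mul_mul_comm (∏ i, x i ^ (l.1 i : ℕ)), mul_mul_mul_comm]
  rw [e, hx, hy]
  unfold mon
  rw [mul_mul_mul_comm, mul_pow]

section
variable {p : ℕ} {K ι : Type} [Field K] [Fintype ι] {w : ι → K} {π : ι → K → K}

private lemma d4_eq (hb : IsPB p w π) (f : K) (a : ι → K) (h : f = ∑ j, a j ^ p * w j) (i : ι) :
    π i f = a i := by
  rw [h]; exact hb.uniq a i

private lemma d4_add [Fact p.Prime] [CharP K p] (hb : IsPB p w π) (i : ι) (f g : K) :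
    π i (f + g) = π i f + π i g := by
  refine d4_eq hb (f + g) (fun j => π j f + π j g) ?_ i
  conv_lhs => rw [← hb.repr f, ← hb.repr g, ← Finset.sum_add_distrib]
  refine Finset.sum_congr rfl fun j _ => ?_
  rw [add_pow_char, add_mul]

private lemma d4_pmul (hb : IsPB p w π) (i : ι) (a f : K) :
    π i (a ^ p * f) = a * π i f := by
  refine d4_eq hb (a ^ p * f) (fun j => a * π j f) ?_ i
  conv_lhs => rw [← hb.repr f, Finset.mul_sum]
  refine Finset.sum_congr rfl fun j _ => ?_
  rw [mul_pow, mul_assoc]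

private lemma d4_zero [Fact p.Prime] [CharP K p] (hb : IsPB p w π) (i : ι) : π i 0 = 0 := by
  have h := d4_add hb i 0 0
  rw [add_zero] at h
  exact left_eq_add.mp h

private lemma d4_wadd [Fact p.Prime] [CharP K p] (hb : IsPB p w π) (l : List ι) :
    ∀ f g : K, wd π l (f + g) = wd π l f + wd π l g := by
  induction l with
  | nil => intro f g; rfl
  | cons i l ih =>
    intro f g
    have h1 : ∀ f, wd π (i :: l) f = wd π l (π i f) := fun f => rfl
    rw [h1, h1, h1, d4_add hb, ih]

private lemma d4_wzero [Fact p.Prime] [CharP K p] (hb : IsPB p w π) (l : List ι) :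
    wd π l (0 : K) = 0 := by
  have h := d4_wadd hb l 0 0
  rw [add_zero] at h
  exact left_eq_add.mp h

private lemma d4_abs_add {k : Type} [Field k] [Algebra k K] [Fact p.Prime] [CharP K p]
    (hb : IsPB p w π) (V : Submodule k K) (M : ℕ) (f g : K) (hf : Abs π (V : Set K) M f)
    (hg : Abs π (V : Set K) M g) : Abs π (V : Set K) M (f + g) := by
  intro l hl
  rw [d4_wadd hb]
  exact V.add_mem (hf l hl) (hg l hl)

private lemma d4_abs_zero {k : Type} [Field k] [Algebra k K] [Fact p.Prime] [CharP K p]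
    (hb : IsPB p w π) (V : Submodule k K) (M : ℕ) : Abs π (V : Set K) M 0 := by
  intro l hl
  rw [d4_wzero hb]
  exact V.zero_mem

private lemma d4_abs_sum {k : Type} [Field k] [Algebra k K] [Fact p.Prime] [CharP K p]
    (hb : IsPB p w π) (V : Submodule k K) (M : ℕ) {α : Type} (S : Finset α) (h : α → K)
    (hh : ∀ i ∈ S, Abs π (V : Set K) M (h i)) : Abs π (V : Set K) M (∑ i ∈ S, h i) :=
  Finset.sum_induction h (fun z => Abs π (V : Set K) M z)
    (fun a b ha hb' => d4_abs_add hb V M a b ha hb') (d4_abs_zero hb V M) hh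

omit [Fintype ι] in
private lemma d4_abs_succ {k : Type} [Field k] [Algebra k K] (V : Submodule k K) (M : ℕ) (f : K) :
    Abs π (V : Set K) (M + 1) f ↔ ∀ i, Abs π (V : Set K) M (π i f) := by
  constructor
  · intro h i l hl
    exact h (i :: l) (by simp [hl])
  · intro h l hl
    cases l with
    | nil => simp at hl
    | cons i l => exact h i l (by simpa using hl)

end

/-- (a) of the piece -/
private lemma d4_a {p : ℕ} [Fact p.Prime] {K : Type} [Field K] [CharP K p] {r s : ℕ}
    (x : Fin r → K) (y : Fin s → K) (π : Ix p r s → K → K) (hb : IsPB p (mon x y) π)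
    (f g : K) (θ : Ix 2 r s) (l'' : Ix p r s) :
    π l'' (f * g * mon x y θ) =
      ∑ l, ∑ l', if cr l l' θ = l'' then π l f * π l' g * mon x y (cq l l' θ) else 0 := by
  classical
  have hp : p ≠ 0 := (Fact.out : p.Prime).ne_zero
  refine d4_eq hb (f * g * mon x y θ) (fun l'' => ∑ l, ∑ l', if cr l l' θ = l'' then
    π l f * π l' g * mon x y (cq l l' θ) else 0) ?_ l''
  have e1 : f * g * mon x y θ = ∑ l, ∑ l',
      (π l f * π l' g * mon x y (cq l l' θ)) ^ p * mon x y (cr l l' θ) := by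
    conv_lhs => rw [← hb.repr f, ← hb.repr g, Finset.sum_mul_sum, Finset.sum_mul]
    refine Finset.sum_congr rfl fun l _ => ?_
    rw [Finset.sum_mul]
    refine Finset.sum_congr rfl fun l' _ => ?_
    have h := d4_mon x y l l' θ
    calc π l f ^ p * mon x y l * (π l' g ^ p * mon x y l') * mon x y θ
        = π l f ^ p * π l' g ^ p * (mon x y l * mon x y l' * mon x y θ) := by ring
      _ = _ := by rw [h]; ring
  have e2 : ∀ l'' : Ix p r s, (∑ l, ∑ l', if cr l l' θ = l'' then
      π l f * π l' g * mon x y (cq l l' θ) else 0) ^ p * mon x y l'' =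
      ∑ l, ∑ l', if cr l l' θ = l'' then
        (π l f * π l' g * mon x y (cq l l' θ)) ^ p * mon x y l'' else 0 := by
    intro l''
    rw [sum_pow_char p, Finset.sum_mul]
    refine Finset.sum_congr rfl fun l _ => ?_
    rw [sum_pow_char p, Finset.sum_mul]
    refine Finset.sum_congr rfl fun l' _ => ?_
    split_ifs with h
    · rfl
    · rw [zero_pow hp, zero_mul]
  rw [e1]
  simp only [e2]
  symm
  rw [Finset.sum_comm]
  refine Finset.sum_congr rfl fun l _ => ?_
  rw [Finset.sum_comm]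
  refine Finset.sum_congr rfl fun l' _ => ?_
  rw [Finset.sum_ite_eq]
  simp

/-- (b) of the piece -/
private lemma d4_b {p : ℕ} [Fact p.Prime] {K κ : Type} [Field K] [Field κ] {r s : ℕ}
    (y : Fin s → K) (ac : K → κ) (l l' : Ix p r s) (θ : Ix 2 r s) :
    om y ac l * om y ac l' * om y ac θ =
      (om y ac (cq l l' θ)) ^ p * om y ac (cr l l' θ) := by
  have hy := d4_prod (fun j => ac (y j)) (fun i => (l.2 i : ℕ)) (fun i => (l'.2 i : ℕ))
    (fun i => (θ.2 i : ℕ)) (fun i => ((cq l l' θ).2 i : ℕ)) (fun i => ((cr l l' θ).2 i : ℕ)) p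
    (fun i => d4_num (NeZero.pos p) (l.2 i) (l'.2 i) (θ.2 i))
  have hx : exl l + exl l' + exl θ = p • exl (cq l l' θ) + exl (cr l l' θ) := by
    funext i
    have h := d4_num (NeZero.pos p) (l.1 i) (l'.1 i) (θ.1 i)
    have h' : (((l.1 i : ℕ) + (l'.1 i : ℕ) + (θ.1 i : ℕ) : ℕ) : ℤ) =
        ((p * ((cq l l' θ).1 i : ℕ) + ((cr l l' θ).1 i : ℕ) : ℕ) : ℤ) := by
      exact congrArg (fun n : ℕ => (n : ℤ)) h
    simp only [exl, Pi.add_apply, nsmul_eq_mul]
    push_cast at h'
    exact h'
  unfold om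
  rw [AddMonoidAlgebra.single_mul_single, AddMonoidAlgebra.single_mul_single,
    AddMonoidAlgebra.single_pow, AddMonoidAlgebra.single_mul_single, hx]
  congr 1

theorem p_D4 : S_D4 := by
  intro p _ k K κ _ _ _ _ _ _ _ r s x y ex ac π ρ hFA
  have : CharP K p := charP_of_injective_algebraMap (algebraMap k K).injective p
  have hb := hFA.pb
  have ha := d4_a x y π hb
  refine ⟨ha, fun l l' θ => d4_b y ac l l' θ, ?_⟩
  intro V hV hst
  have hgen : ∀ f ∈ V, ∀ g ∈ V, ∀ θ : Ix 2 r s, f * g * mon x y θ ∈ prodSp x y V :=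
    fun f hf g hg θ => Submodule.subset_span ⟨f, hf, g, hg, θ, rfl⟩
  refine ⟨?_, ?_, ?_, ?_⟩
  · -- finite dimension
    have hfg : (V * V * Submodule.span k (Set.range (mon x y : Ix 2 r s → K))).FG := by
      have hVfg : V.FG := (Submodule.fg_iff_finiteDimensional V).2 hV
      exact Submodule.FG.mul (Submodule.FG.mul hVfg hVfg)
        (Submodule.fg_span (Set.finite_range _))
    have : FiniteDimensional k
        ↥(V * V * Submodule.span k (Set.range (mon x y : Ix 2 r s → K))) :=
      (Submodule.fg_iff_finiteDimensional _).1 hfg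
    refine Submodule.finiteDimensional_of_le (S₂ :=
      V * V * Submodule.span k (Set.range (mon x y : Ix 2 r s → K))) ?_
    refine Submodule.span_le.2 ?_
    rintro z ⟨f, hf, g, hg, θ, rfl⟩
    exact Submodule.mul_mem_mul (Submodule.mul_mem_mul hf hg)
      (Submodule.subset_span ⟨θ, rfl⟩)
  · -- stability
    intro l f hf
    refine Submodule.span_induction (p := fun z _ => π l z ∈ prodSp x y V) ?_ ?_ ?_ ?_ hf
    · rintro z ⟨f, hf, g, hg, θ, rfl⟩
      rw [ha]
      refine Submodule.sum_mem _ fun l1 _ => Submodule.sum_mem _ fun l2 _ => ?_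
      split_ifs with h
      · exact hgen _ (hst l1 f hf) _ (hst l2 g hg) _
      · exact Submodule.zero_mem _
    · show π l 0 ∈ prodSp x y V
      rw [d4_zero hb]
      exact Submodule.zero_mem _
    · intro a b _ _ h1 h2
      show π l (a + b) ∈ prodSp x y V
      rw [d4_add hb]
      exact Submodule.add_mem _ h1 h2
    · intro c a _ h1
      obtain ⟨d, rfl⟩ := (PerfectRing.bijective_frobenius (R := k) (p := p)).2 c
      show π l ((frobenius k p d) • a) ∈ prodSp x y V
      have e : (frobenius k p d) • a = (algebraMap k K d) ^ p * a := by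
        rw [frobenius_def, Algebra.smul_def, map_pow]
      rw [e, d4_pmul hb, ← Algebra.smul_def]
      exact Submodule.smul_mem _ d h1
  · intro M
    induction M with
    | zero =>
      intro f g θ hf hg l hl
      have hl0 : l = [] := List.length_eq_zero_iff.mp hl
      subst hl0
      exact hgen f (hf [] rfl) g (hg [] rfl) θ
    | succ M ih =>
      intro f g θ hf hg
      rw [d4_abs_succ] at hf hg ⊢
      intro l''
      rw [ha]
      refine d4_abs_sum hb _ M _ _ fun l _ => d4_abs_sum hb _ M _ _ fun l' _ => ?_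
      split_ifs with h
      · exact ih _ _ _ (hf l) (hg l')
      · exact d4_abs_zero hb _ M
  · intro h1 f hf
    have h := hgen f hf 1 h1 ((fun _ => 0, fun _ => 0) : Ix 2 r s)
    have e : mon x y ((fun _ => 0, fun _ => 0) : Ix 2 r s) = (1 : K) := by
      simp [mon]
    rw [e, mul_one, mul_one] at h
    exact h

end Pool.Agent.F2Ch
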