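import Pool.Agent.Lib.MP_305fdd_al.F2.ChStmG

/-! # MP_305fdd_al, F_2 project: piece [F2C D5] (helper58) -/

set_option autoImplicit false

namespace Pool.Agent.F2Ch

open MvPolynomial

section d5

variable {κ : Type} [Field κ] {r : ℕ} {Γ' : Type} [AddCommGroup Γ'] [LinearOrder Γ']
  [IsOrderedAddMonoid Γ'] (u : Fin r → Γ')

omit [LinearOrder Γ'] [IsOrderedAddMonoid Γ'] in
private theorem d5_wt_add (m m' : Fin r → ℤ) : wt u (m + m') = wt u m + wt u m' := by
  unfold wt
  rw [← Finset.sum_add_distrib]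
  exact Finset.sum_congr rfl fun i _ => by rw [Pi.add_apply, add_smul]

open Classical in
omit [IsOrderedAddMonoid Γ'] in
private theorem d5_coeff_part (c : Γ') (P : AddMonoidAlgebra κ (Fin r → ℤ)) (m : Fin r → ℤ) :
    (part u c P).coeff m = if wt u m = c then P.coeff m else 0 := by
  unfold part
  rw [AddMonoidAlgebra.coeff_ofCoeff, Finsupp.filter_apply]

omit [IsOrderedAddMonoid Γ'] in
private theorem d5_part_add (c : Γ') (P Q : AddMonoidAlgebra κ (Fin r → ℤ)) :
    part u c (P + Q) = part u c P + part u c Q := by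
  ext m
  rw [d5_coeff_part, AddMonoidAlgebra.coeff_add, AddMonoidAlgebra.coeff_add, Finsupp.add_apply,
    Finsupp.add_apply, d5_coeff_part, d5_coeff_part]
  split_ifs
  · rfl
  · rw [add_zero]

omit [IsOrderedAddMonoid Γ'] in
private theorem d5_part_self (c : Γ') (P : AddMonoidAlgebra κ (Fin r → ℤ))
    (h : ∀ m, P.coeff m ≠ 0 → wt u m = c) : part u c P = P := by
  ext m
  rw [d5_coeff_part]
  split_ifs with h1
  · rfl
  · by_contra h2
    exact h1 (h m (fun h3 => h2 h3.symm))

omit [IsOrderedAddMonoid Γ'] in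
private theorem d5_part_zero (c : Γ') (P : AddMonoidAlgebra κ (Fin r → ℤ))
    (h : ∀ m, P.coeff m ≠ 0 → wt u m ≠ c) : part u c P = 0 := by
  ext m
  rw [d5_coeff_part, AddMonoidAlgebra.coeff_zero, Finsupp.zero_apply]
  split_ifs with h1
  · by_contra h2
    exact h m h2 h1
  · rfl

private theorem d5_mul {P Q : AddMonoidAlgebra κ (Fin r → ℤ)} {n : Fin r → ℤ}
    (h : (P * Q).coeff n ≠ 0) : ∃ m m', P.coeff m ≠ 0 ∧ Q.coeff m' ≠ 0 ∧ n = m + m' := by
  classical
  rw [AddMonoidAlgebra.coeff_mul] at h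
  obtain ⟨m, hm, hm2⟩ := Finset.exists_ne_zero_of_sum_ne_zero h
  obtain ⟨m', hm', hm3⟩ := Finset.exists_ne_zero_of_sum_ne_zero hm2
  refine ⟨m, m', Finsupp.mem_support_iff.1 hm, Finsupp.mem_support_iff.1 hm', ?_⟩
  by_contra h1
  exact hm3 (if_neg fun h2 => h1 h2.symm)

private theorem d5_add {P Q : AddMonoidAlgebra κ (Fin r → ℤ)} {n : Fin r → ℤ}
    (h : (P + Q).coeff n ≠ 0) : P.coeff n ≠ 0 ∨ Q.coeff n ≠ 0 := by
  by_contra h1
  push Not at h1
  rw [AddMonoidAlgebra.coeff_add, Finsupp.add_apply, h1.1, h1.2, add_zero] at h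
  exact h rfl

omit [IsOrderedAddMonoid Γ'] in
/-- `P` is the sum of its part of weight `c` and of terms of larger weight. -/
private theorem d5_split {c : Γ'} {P : AddMonoidAlgebra κ (Fin r → ℤ)} (h : UGe u c P) :
    ∃ P1, P = part u c P + P1 ∧ ∀ m, P1.coeff m ≠ 0 → c < wt u m := by
  refine ⟨P - part u c P, by rw [add_sub_cancel], fun m hm => ?_⟩
  have e : (P - part u c P).coeff m = P.coeff m - (part u c P).coeff m := by
    rw [eq_sub_iff_add_eq, ← Finsupp.add_apply, ← AddMonoidAlgebra.coeff_add, sub_add_cancel]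
  rw [e, d5_coeff_part] at hm
  split_ifs at hm with h1
  · rw [sub_self] at hm
    exact absurd rfl hm
  · rw [sub_zero] at hm
    exact lt_of_le_of_ne (h m hm) (fun h2 => h1 h2.symm)

omit [IsOrderedAddMonoid Γ'] in
private theorem d5_part_wt {c : Γ'} {P : AddMonoidAlgebra κ (Fin r → ℤ)} {m : Fin r → ℤ}
    (h : (part u c P).coeff m ≠ 0) : wt u m = c := by
  rw [d5_coeff_part] at h
  by_contra h1
  rw [if_neg h1] at h
  exact h rfl

omit [IsOrderedAddMonoid Γ'] in
private theorem d5_min_iff {c : Γ'} {P : AddMonoidAlgebra κ (Fin r → ℤ)} (h : UGe u c P) :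
    part u c P ≠ 0 ↔ IsMinW u P c := by
  constructor
  · intro h1
    refine ⟨h, ?_⟩
    by_contra h2
    push Not at h2
    exact h1 (d5_part_zero u c P fun m hm h3 => h2 m hm h3.symm)
  · rintro ⟨-, m, hm, hc⟩ h1
    have h2 := d5_coeff_part u c P m
    rw [h1, if_pos hc.symm, AddMonoidAlgebra.coeff_zero, Finsupp.zero_apply] at h2
    exact hm h2.symm

private theorem d5_mul_part {P Q : AddMonoidAlgebra κ (Fin r → ℤ)} {c c' : Γ'}
    (hP : UGe u c P) (hQ : UGe u c' Q) :
    UGe u (c + c') (P * Q) ∧ part u (c + c') (P * Q) = part u c P * part u c' Q := by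
  constructor
  · intro n hn
    obtain ⟨m, m', hm, hm', rfl⟩ := d5_mul hn
    rw [d5_wt_add]
    exact add_le_add (hP m hm) (hQ m' hm')
  · obtain ⟨P1, eP, hP1⟩ := d5_split u hP
    obtain ⟨Q1, eQ, hQ1⟩ := d5_split u hQ
    have e : P * Q = part u c P * part u c' Q +
        (part u c P * Q1 + (P1 * part u c' Q + P1 * Q1)) := by
      conv_lhs => rw [eP, eQ]
      ring
    have e1 : part u (c + c') (part u c P * part u c' Q) = part u c P * part u c' Q := by
      apply d5_part_self
      intro n hn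
      obtain ⟨m, m', hm, hm', rfl⟩ := d5_mul hn
      rw [d5_wt_add, d5_part_wt u hm, d5_part_wt u hm']
    have e2 : part u (c + c') (part u c P * Q1 + (P1 * part u c' Q + P1 * Q1)) = 0 := by
      apply d5_part_zero
      intro n hn
      apply ne_of_gt
      rcases d5_add hn with hn | hn
      · obtain ⟨m, m', hm, hm', rfl⟩ := d5_mul hn
        rw [d5_wt_add, d5_part_wt u hm]
        exact add_lt_add_right (hQ1 m' hm') _
      rcases d5_add hn with hn | hn
      · obtain ⟨m, m', hm, hm', rfl⟩ := d5_mul hn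
        rw [d5_wt_add, d5_part_wt u hm']
        exact add_lt_add_left (hP1 m hm) _
      · obtain ⟨m, m', hm, hm', rfl⟩ := d5_mul hn
        rw [d5_wt_add]
        exact add_lt_add (hP1 m hm) (hQ1 m' hm')
    rw [e, d5_part_add, e1, e2, add_zero]

end d5

theorem p_D5 : S_D5 := by
  intro κ _ r Γ' _ _ _ u
  refine ⟨?_, ?_, fun P Q c c' hP hQ => d5_mul_part u hP hQ, ?_, ?_,
    fun P Q c => d5_part_add u c P Q, fun P c hP => d5_min_iff u hP⟩
  · intro P hP
    have h1 : P.coeff.support.Nonempty := by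
      rw [Finsupp.support_nonempty_iff]
      intro h
      exact hP (AddMonoidAlgebra.coeff_eq_zero.1 h)
    obtain ⟨m, hm, hmin⟩ := Finset.exists_min_image P.coeff.support (wt u) h1
    exact ⟨wt u m, fun m' hm' => hmin m' (Finsupp.mem_support_iff.2 hm'), m,
      Finsupp.mem_support_iff.1 hm, rfl⟩
  · rintro P c c' ⟨h1, m, hm, rfl⟩ ⟨h2, m', hm', rfl⟩
    exact le_antisymm (h1 m' hm') (h2 m hm)
  · intro P Q c c' hP hQ
    obtain ⟨h1, h2⟩ := d5_mul_part u hP.1 hQ.1
    rw [← d5_min_iff u h1, h2]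
    exact mul_ne_zero ((d5_min_iff u hP.1).2 hP) ((d5_min_iff u hQ.1).2 hQ)
  · intro P E c c' hP hE hcc
    have h1 : UGe u c (P + E) := by
      intro m hm
      rcases d5_add hm with h | h
      · exact hP.1 m h
      · exact hcc.le.trans (hE m h)
    have h2 : part u c (P + E) = part u c P := by
      rw [d5_part_add, d5_part_zero u c E, add_zero]
      intro m hm
      exact ne_of_gt (hcc.trans_le (hE m hm))
    refine ⟨?_, h2⟩
    rw [← d5_min_iff u h1, h2]
    exact (d5_min_iff u hP.1).2 hP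

end Pool.Agent.F2Ch
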