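import Pool.Agent.Lib.MP_305fdd_al.F2.ChStm
import Pool.Agent.Lib.MP_305fdd_al.F2.ChStmG

set_option autoImplicit false
set_option linter.unusedSectionVars false

namespace Pool.Agent.F2Ch

open MvPolynomial

section E1
variable {Γ : Type} [AddCommGroup Γ] [LinearOrder Γ] [IsOrderedAddMonoid Γ]

private theorem e1_wt_add {r : ℕ} (u : Fin r → Γ) (m n : Fin r → ℤ) :
    wt u (m + n) = wt u m + wt u n := by
  unfold wt
  rw [← Finset.sum_add_distrib]
  exact Finset.sum_congr rfl (fun i _ => by rw [Pi.add_apply, add_smul])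

private theorem e1_wt_sub {r : ℕ} (u : Fin r → Γ) (m n : Fin r → ℤ) :
    wt u (m - n) = wt u m - wt u n := by
  have h := e1_wt_add u (m - n) n
  rw [sub_add_cancel] at h
  rw [h, add_sub_cancel_right]

private theorem e1_wt_smul {r : ℕ} (u : Fin r → Γ) (p : ℕ) (m : Fin r → ℤ) :
    wt u ((p : ℤ) • m) = p • wt u m := by
  unfold wt
  rw [Finset.smul_sum]
  exact Finset.sum_congr rfl (fun i _ => by
    rw [Pi.smul_apply, smul_eq_mul, mul_smul, natCast_zsmul])

variable {κ : Type} [Field κ]

private theorem e1_uge_zero {r : ℕ} (u : Fin r → Γ) (c : Γ) :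
    UGe u c (0 : AddMonoidAlgebra κ (Fin r → ℤ)) := by
  intro m hm
  exact absurd (by simp) hm

private theorem e1_uge_add {r : ℕ} {u : Fin r → Γ} {c : Γ} {P Q : AddMonoidAlgebra κ (Fin r → ℤ)}
    (hP : UGe u c P) (hQ : UGe u c Q) : UGe u c (P + Q) := by
  intro m hm
  by_cases h : P.coeff m = 0
  · refine hQ m (fun h' => hm ?_)
    rw [AddMonoidAlgebra.coeff_add, Finsupp.add_apply, h, h', add_zero]
  · exact hP m h

private theorem e1_uge_neg {r : ℕ} {u : Fin r → Γ} {c : Γ} {P : AddMonoidAlgebra κ (Fin r → ℤ)}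
    (hP : UGe u c P) : UGe u c (-P) := by
  intro m hm
  refine hP m (fun h' => hm ?_)
  rw [AddMonoidAlgebra.coeff_neg, Finsupp.neg_apply, h', neg_zero]

private theorem e1_uge_sum {r : ℕ} {u : Fin r → Γ} {c : Γ} {ι : Type*} (s : Finset ι)
    (P : ι → AddMonoidAlgebra κ (Fin r → ℤ)) (hP : ∀ i ∈ s, UGe u c (P i)) :
    UGe u c (∑ i ∈ s, P i) := by
  classical
  induction s using Finset.induction_on with
  | empty => rw [Finset.sum_empty]; exact e1_uge_zero u c
  | insert a s ha ih =>
    rw [Finset.sum_insert ha]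
    exact e1_uge_add (hP a (Finset.mem_insert_self a s))
      (ih (fun i hi => hP i (Finset.mem_insert_of_mem hi)))

private theorem e1_uge_single {r : ℕ} {u : Fin r → Γ} {c : Γ} {m : Fin r → ℤ} (a : κ)
    (h : c ≤ wt u m) : UGe u c (AddMonoidAlgebra.single m a) := by
  intro n hn
  rw [AddMonoidAlgebra.coeff_single] at hn
  by_cases hmn : m = n
  · rw [← hmn]; exact h
  · exact absurd (Finsupp.single_eq_of_ne (Ne.symm hmn)) hn

end E1

section E1F

variable {k K κ : Type} [Field k] [Field K] [Algebra k K] [Field κ] [Algebra k κ]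
variable {Γ : Type} [AddCommGroup Γ] [LinearOrder Γ] [IsOrderedAddMonoid Γ]
variable {p r s : ℕ} {v : K → Γ} {x : Fin r → K} {y : Fin s → K} {ex : K → Fin r → ℤ}
variable {ac : K → κ} {π : Ix p r s → K → K} {ρ : (Fin s → Fin p) → κ → κ}

private theorem e1_inj (hvb : IsVB v x ex) {m n : Fin r → ℤ}
    (h : wt (fun i => v (x i)) m = wt (fun i => v (x i)) n) : m = n := by
  have h1 : wt (fun i => v (x i)) (m - n) = 0 := by rw [e1_wt_sub, h, sub_self]
  exact sub_eq_zero.1 (hvb.indep _ h1)

private theorem e1_fin (hC0 : S_C0) (hF : Frame k p v x y ex ac π ρ) (V : Submodule k K)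
    (hV : FiniteDimensional k V) : {m : Fin r → ℤ | ∃ f ∈ V, f ≠ 0 ∧ ex f = m}.Finite := by
  have h1 := hC0 k K Γ v hF.isv hF.triv V hV
  have h2 := h1.preimage (f := wt (fun i => v (x i)))
    (fun m _ n _ h => e1_inj hF.vb h)
  refine h2.subset ?_
  rintro m ⟨f, hf, hf0, rfl⟩
  exact ⟨f, hf, hf0, hF.vb.gen f hf0⟩

private theorem e1_cmpfin (hC0 : S_C0) (hF : Frame k p v x y ex ac π ρ) (V : Submodule k K)
    (hV : FiniteDimensional k V) (hst : ∀ l, ∀ f ∈ V, π l f ∈ V) :
    (Cmp v x ex π (V : Set K)).Finite := by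
  have h1 := e1_fin hC0 hF V hV
  have h2 : ((fun q : (Fin r → ℤ) × (Fin r → ℤ) => q.1 - q.2) ''
      ({m : Fin r → ℤ | ∃ f ∈ V, f ≠ 0 ∧ ex f = m} ×ˢ
        {m : Fin r → ℤ | ∃ f ∈ V, f ≠ 0 ∧ ex f = m})).Finite := (h1.prod h1).image _
  have h3 : (⋃ l : Ix p r s, (fun q : (Fin r → ℤ) × (Fin r → ℤ) => (p : ℤ) • q.1 + exl l - q.2) ''
      ({m : Fin r → ℤ | ∃ f ∈ V, f ≠ 0 ∧ ex f = m} ×ˢ
        {m : Fin r → ℤ | ∃ f ∈ V, f ≠ 0 ∧ ex f = m})).Finite :=
    Set.finite_iUnion (fun l => (h1.prod h1).image _)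
  refine (h2.union h3).subset ?_
  rintro n ⟨-, ⟨f, hf, g, hg, hf0, hg0, rfl⟩ | ⟨f, hf, l, hf0, hl, rfl⟩⟩
  · exact Or.inl ⟨(ex f, ex g), ⟨⟨f, hf, hf0, rfl⟩, ⟨g, hg, hg0, rfl⟩⟩, rfl⟩
  · exact Or.inr (Set.mem_iUnion.2 ⟨l, (ex (π l f), ex f),
      ⟨⟨π l f, hst l f hf, hl, rfl⟩, ⟨f, hf, hf0, rfl⟩⟩, rfl⟩)

private theorem e1_lead_zero (hF : Frame k p v x y ex ac π ρ) : lead ex ac (0 : K) = 0 := by
  unfold lead
  rw [hF.isac.zero]
  simp

private theorem e1_pi_zero (hp : p ≠ 0) (hF : Frame k p v x y ex ac π ρ) (l : Ix p r s) :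
    π l 0 = 0 := by
  have h := hF.pb.uniq (fun _ => 0) l
  simp only [zero_pow hp, zero_mul, Finset.sum_const_zero] at h
  exact h

private theorem e1_ap1 (hp : p ≠ 0) (f : K) :
    ap y ex ac π 1 f = ∑ l, AddMonoidAlgebra.single ((p : ℤ) • ex (π l f) + exl l)
      (ac (π l f) ^ p * monY (fun i => ac (y i)) l.2) := by
  show ∑ l, (lead ex ac (π l f)) ^ p * om y ac l = _
  refine Finset.sum_congr rfl (fun l _ => ?_)
  unfold lead om
  rw [AddMonoidAlgebra.single_pow, AddMonoidAlgebra.single_mul_single, natCast_zsmul]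

/-- the case of different values in the additivity -/
private theorem e1_lt (hF : Frame k p v x y ex ac π ρ) {f g : K} (hf : f ≠ 0) (hg : g ≠ 0)
    (h : v f < v g) : f + g ≠ 0 ∧ ex (f + g) = ex f ∧ ac (f + g) = ac f := by
  have h1 := hF.isac.add (v f) f g (Or.inr le_rfl) (Or.inr h.le)
  have h2 : lc v ac (v f) f = ac f := by
    unfold lc
    rw [if_pos ⟨hf, rfl⟩]
  have h3 : lc v ac (v f) g = 0 := by
    unfold lc
    rw [if_neg (fun h' => h.ne' h'.2)]
  rw [h2, h3, add_zero] at h1
  have h4 : f + g ≠ 0 ∧ v (f + g) = v f := by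
    by_contra hcon
    unfold lc at h1
    rw [if_neg hcon] at h1
    exact hF.isac.ne f hf h1.symm
  unfold lc at h1
  rw [if_pos h4] at h1
  refine ⟨h4.1, ?_, h1⟩
  apply e1_inj hF.vb
  rw [← hF.vb.gen _ h4.1, ← hF.vb.gen _ hf, h4.2]

end E1F

theorem p_E1 (hC0 : S_C0) (hC8 : S_C8) : S_E1 := by
  intro p hp k K κ _ _ _ _ _ _ _ Γ _ _ _ v r s x y ex ac π ρ hF V hV hst
  have hp0 : p ≠ 0 := hp.out.ne_zero
  haveI : CharP K p := charP_of_injective_algebraMap (algebraMap k K).injective p
  have hfin := e1_cmpfin hC0 hF V hV hst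
  refine ⟨hfin, ?_⟩
  intro Γ' _ _ _ _ u hgood
  -- choice of δ
  obtain ⟨δ, hδ, hδn⟩ : ∃ δ : Γ', 0 < δ ∧ ∀ n ∈ Cmp v x ex π (V : Set K), δ ≤ wt u n := by
    rcases (Cmp v x ex π (V : Set K)).eq_empty_or_nonempty with he | hne
    · obtain ⟨δ, hδ⟩ := exists_zero_lt (α := Γ')
      exact ⟨δ, hδ, fun n hn => by rw [he] at hn; exact hn.elim⟩
    · obtain ⟨n0, hn0, hmin⟩ := Set.exists_min_image _ (wt u) hfin hne
      exact ⟨wt u n0, hgood n0 hn0, hmin⟩
  refine ⟨δ, hδ, hst, ?_, ?_, ?_⟩
  · -- orth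
    intro f hf hf0 l hl
    obtain ⟨h1, -, -⟩ := hC8 p k K Γ κ v r s x y ex ac π ρ hF f hf0
    rcases h1 l hl with h | h
    · rw [h, e1_wt_add, e1_wt_smul]
    · have hn : (p : ℤ) • ex (π l f) + exl l - ex f ∈ Cmp v x ex π (V : Set K) := by
        refine ⟨?_, Or.inr ⟨f, hf, l, hf0, hl, rfl⟩⟩
        rw [e1_wt_sub]
        exact sub_pos.2 h
      have h2 := hδn _ hn
      rw [e1_wt_sub, e1_wt_add, e1_wt_smul] at h2
      have h3 : 0 ≤ p • wt u (ex (π l f)) + wt u (exl l) - wt u (ex f) := hδ.le.trans h2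
      exact sub_nonneg.1 h3
  · -- step
    intro f hf
    by_cases hf0 : f = 0
    · subst hf0
      have e1 : ap y ex ac π 1 (0 : K) = 0 := by
        rw [e1_ap1 hp0]
        refine Finset.sum_eq_zero (fun l _ => ?_)
        rw [e1_pi_zero hp0 hF, hF.isac.zero, zero_pow hp0, zero_mul]
        simp
      have e2 : ap y ex ac π 0 (0 : K) = 0 := e1_lead_zero hF
      rw [e1, e2, sub_zero]
      exact e1_uge_zero u _
    · classical
      obtain ⟨h1, -, h3⟩ := hC8 p k K Γ κ v r s x y ex ac π ρ hF f hf0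
      have e2 : ap y ex ac π 0 f = ∑ l, (if π l f ≠ 0 ∧ ex f = (p : ℤ) • ex (π l f) + exl l
          then AddMonoidAlgebra.single ((p : ℤ) • ex (π l f) + exl l)
            (ac (π l f) ^ p * monY (fun i => ac (y i)) l.2) else 0) := by
        show AddMonoidAlgebra.single (ex f) (ac f) = _
        have e3 : AddMonoidAlgebra.single (ex f) (ac f) =
            AddMonoidAlgebra.single (ex f) (∑ l, if π l f ≠ 0 ∧ ex f = (p : ℤ) • ex (π l f) + exl l
              then ac (π l f) ^ p * monY (fun i => ac (y i)) l.2 else 0) := by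
          rw [h3]
        rw [e3]
        have e4 : ∀ (F : Ix p r s → κ), AddMonoidAlgebra.single (ex f) (∑ l, F l) =
            ∑ l, AddMonoidAlgebra.single (ex f) (F l) := by
          intro F
          exact map_sum (AddMonoidAlgebra.singleAddHom (ex f)) F Finset.univ
        rw [e4]
        refine Finset.sum_congr rfl (fun l _ => ?_)
        split_ifs with h
        · rw [← h.2]
        · simp
      rw [e1_ap1 hp0, e2, ← Finset.sum_sub_distrib]
      refine e1_uge_sum _ _ (fun l _ => ?_)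
      by_cases hl : π l f = 0
      · have e5 : AddMonoidAlgebra.single ((p : ℤ) • ex (π l f) + exl l)
            (ac (π l f) ^ p * monY (fun i => ac (y i)) l.2) = 0 := by
          rw [hl, hF.isac.zero, zero_pow hp0, zero_mul]
          simp
        rw [e5, if_neg (fun h => h.1 hl), sub_zero]
        exact e1_uge_zero u _
      · by_cases he : ex f = (p : ℤ) • ex (π l f) + exl l
        · rw [if_pos ⟨hl, he⟩, sub_self]
          exact e1_uge_zero u _
        · rw [if_neg (fun h => he h.2), sub_zero]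
          refine e1_uge_single _ ?_
          have hlt := (h1 l hl).resolve_left he
          have hn : (p : ℤ) • ex (π l f) + exl l - ex f ∈ Cmp v x ex π (V : Set K) := by
            refine ⟨?_, Or.inr ⟨f, hf, l, hf0, hl, rfl⟩⟩
            rw [e1_wt_sub]
            exact sub_pos.2 hlt
          have h2 := hδn _ hn
          rw [e1_wt_sub] at h2
          rw [add_comm]
          exact le_sub_iff_add_le.1 h2
  · -- add
    have key : ∀ a b : K, a ∈ V → b ∈ V → a ≠ 0 → b ≠ 0 → v a < v b →
        wt u (ex a) + δ ≤ wt u (ex b) := by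
      intro a b ha hb ha0 hb0 hab
      have hn : ex b - ex a ∈ Cmp v x ex π (V : Set K) := by
        refine ⟨?_, Or.inl ⟨b, hb, a, ha, hb0, ha0, rfl⟩⟩
        rw [e1_wt_sub, ← hF.vb.gen _ hb0, ← hF.vb.gen _ ha0]
        exact sub_pos.2 hab
      have h2 := hδn _ hn
      rw [e1_wt_sub] at h2
      rw [add_comm]
      exact le_sub_iff_add_le.1 h2
    intro f hf g hg c hcf hcg
    by_cases hf0 : f = 0
    · have e : lead ex ac (f + g) - lead ex ac f - lead ex ac g = 0 := by
        rw [hf0, zero_add, e1_lead_zero hF, sub_zero, sub_self]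
      rw [e]
      exact e1_uge_zero u _
    by_cases hg0 : g = 0
    · have e : lead ex ac (f + g) - lead ex ac f - lead ex ac g = 0 := by
        rw [hg0, add_zero, e1_lead_zero hF, sub_zero, sub_self]
      rw [e]
      exact e1_uge_zero u _
    rcases lt_trichotomy (v f) (v g) with h | h | h
    · obtain ⟨h1, h2, h3⟩ := e1_lt hF hf0 hg0 h
      have e : lead ex ac (f + g) - lead ex ac f - lead ex ac g = -lead ex ac g := by
        have : lead ex ac (f + g) = lead ex ac f := by
          unfold lead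
          rw [h2, h3]
        rw [this]
        abel
      rw [e]
      refine e1_uge_neg (e1_uge_single _ ?_)
      exact le_trans (by simpa using add_le_add_left (hcf hf0) δ) (key f g hf hg hf0 hg0 h)
    · have hex : ex f = ex g := by
        apply e1_inj hF.vb
        rw [← hF.vb.gen _ hf0, ← hF.vb.gen _ hg0, h]
      have h1 := hF.isac.add (v f) f g (Or.inr le_rfl) (Or.inr h.le)
      have h2 : lc v ac (v f) f = ac f := by
        unfold lc
        rw [if_pos ⟨hf0, rfl⟩]
      have h3 : lc v ac (v f) g = ac g := by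
        unfold lc
        rw [if_pos ⟨hg0, h.symm⟩]
      rw [h2, h3] at h1
      have e0 : lead ex ac f + lead ex ac g = AddMonoidAlgebra.single (ex f) (ac f + ac g) := by
        unfold lead
        rw [← hex, AddMonoidAlgebra.single_add]
      by_cases hs : f + g ≠ 0 ∧ v (f + g) = v f
      · have h4 : ac (f + g) = ac f + ac g := by
          rw [← h1]
          unfold lc
          rw [if_pos hs]
        have h5 : ex (f + g) = ex f := by
          apply e1_inj hF.vb
          rw [← hF.vb.gen _ hs.1, ← hF.vb.gen _ hf0, hs.2]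
        have e : lead ex ac (f + g) - lead ex ac f - lead ex ac g = 0 := by
          rw [sub_sub, e0]
          unfold lead
          rw [h4, h5, sub_self]
        rw [e]
        exact e1_uge_zero u _
      · have h4 : ac f + ac g = 0 := by
          rw [← h1]
          unfold lc
          rw [if_neg hs]
        have e : lead ex ac (f + g) - lead ex ac f - lead ex ac g = lead ex ac (f + g) := by
          rw [sub_sub, e0, h4]
          simp
        rw [e]
        by_cases hs0 : f + g = 0
        · rw [hs0, e1_lead_zero hF]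
          exact e1_uge_zero u _
        · have h5 : v f < v (f + g) := by
            have h6 := hF.isv.add f g hf0 hg0 hs0
            rw [← h, min_self] at h6
            exact lt_of_le_of_ne h6 (fun h7 => hs ⟨hs0, h7.symm⟩)
          refine e1_uge_single _ ?_
          exact le_trans (by simpa using add_le_add_left (hcf hf0) δ)
            (key f (f + g) hf (V.add_mem hf hg) hf0 hs0 h5)
    · obtain ⟨h1, h2, h3⟩ := e1_lt hF hg0 hf0 h
      have e : lead ex ac (f + g) - lead ex ac f - lead ex ac g = -lead ex ac f := by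
        have : lead ex ac (f + g) = lead ex ac g := by
          rw [add_comm f g]
          unfold lead
          rw [h2, h3]
        rw [this]
        abel
      rw [e]
      refine e1_uge_neg (e1_uge_single _ ?_)
      exact le_trans (by simpa using add_le_add_left (hcg hg0) δ) (key g f hg hf hg0 hf0 h)

end Pool.Agent.F2Ch
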