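import Pool.Agent.Lib.MP_305fdd_al.F2.ChStmG

set_option autoImplicit false

namespace Pool.Agent.F2Ch

open MvPolynomial

section
variable {κ : Type} [Field κ] {r : ℕ} {Γ : Type} [AddCommGroup Γ] [LinearOrder Γ]
  [IsOrderedAddMonoid Γ]

private theorem e2_wt_add (u : Fin r → Γ) (m n : Fin r → ℤ) : wt u (m + n) = wt u m + wt u n := by
  simp only [wt, Pi.add_apply, add_smul, Finset.sum_add_distrib]

private theorem e2_mono {u : Fin r → Γ} {c c' : Γ} {P : AddMonoidAlgebra κ (Fin r → ℤ)}
    (h : UGe u c P) (hc : c' ≤ c) : UGe u c' P := fun m hm => hc.trans (h m hm)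

private theorem e2_zero (u : Fin r → Γ) (c : Γ) : UGe u c (0 : AddMonoidAlgebra κ (Fin r → ℤ)) := by
  intro m hm
  exact absurd (by simp) hm

private theorem e2_add {u : Fin r → Γ} {c : Γ} {P Q : AddMonoidAlgebra κ (Fin r → ℤ)}
    (hP : UGe u c P) (hQ : UGe u c Q) : UGe u c (P + Q) := by
  intro m hm
  by_cases h : P.coeff m = 0
  · refine hQ m fun h' => hm ?_
    rw [AddMonoidAlgebra.coeff_add, Finsupp.add_apply, h, h', add_zero]
  · exact hP m h

private theorem e2_sum {ι : Type} (s : Finset ι) {u : Fin r → Γ} {c : Γ}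
    {P : ι → AddMonoidAlgebra κ (Fin r → ℤ)} (h : ∀ i ∈ s, UGe u c (P i)) :
    UGe u c (∑ i ∈ s, P i) := by
  classical
  induction s using Finset.induction_on with
  | empty => simpa using e2_zero u c
  | insert a s ha ih =>
    rw [Finset.sum_insert ha]
    exact e2_add (h a (Finset.mem_insert_self a s))
      (ih fun i hi => h i (Finset.mem_insert_of_mem hi))

private theorem e2_mul {u : Fin r → Γ} {c c' : Γ} {P Q : AddMonoidAlgebra κ (Fin r → ℤ)}
    (hP : UGe u c P) (hQ : UGe u c' Q) : UGe u (c + c') (P * Q) := by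
  classical
  intro m hm
  have h := AddMonoidAlgebra.support_coeff_mul_subset P Q (Finsupp.mem_support_iff.2 hm)
  obtain ⟨a, ha, b, hb, rfl⟩ := Finset.mem_add.1 h
  rw [e2_wt_add]
  exact add_le_add (hP a (Finsupp.mem_support_iff.1 ha)) (hQ b (Finsupp.mem_support_iff.1 hb))

private theorem e2_pow {u : Fin r → Γ} {c : Γ} {P : AddMonoidAlgebra κ (Fin r → ℤ)}
    (hP : UGe u c P) (n : ℕ) : UGe u (n • c) (P ^ n) := by
  induction n with
  | zero =>
    intro m hm
    have : m = 0 := by
      by_contra h
      apply hm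
      rw [pow_zero, AddMonoidAlgebra.one_def, AddMonoidAlgebra.coeff_single,
        Finsupp.single_eq_of_ne h]
    subst this
    simp [wt]
  | succ n ih =>
    rw [pow_succ, succ_nsmul]
    exact e2_mul ih hP

private theorem e2_single (u : Fin r → Γ) (m : Fin r → ℤ) (z : κ) :
    UGe u (wt u m) (AddMonoidAlgebra.single m z) := by
  intro n hn
  have : n = m := by
    by_contra h
    apply hn
    rw [AddMonoidAlgebra.coeff_single, Finsupp.single_eq_of_ne h]
  rw [this]

end

theorem p_E2 (hD2 : S_D2) (hD3 : S_D3) : S_E2 := by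
  intro p _ k K κ _ _ _ _ _ _ _ r s x y ex ac π ρ hFA Γ' _ _ _ u V δ hL
  haveI : CharP κ p := charP_of_injective_algebraMap (algebraMap k κ).injective p
  haveI : CharP (AddMonoidAlgebra κ (Fin r → ℤ)) p :=
    charP_of_injective_algebraMap (algebraMap κ (AddMonoidAlgebra κ (Fin r → ℤ))).injective p
  obtain ⟨-, -, hD2c⟩ := hD2 p k K κ r s x y ex ac π ρ hFA
  obtain ⟨hD3a, -, hD3c⟩ := hD3 p k K κ r s x y ex ac π ρ hFA Γ' u
  have hap0 : ∀ N, ap y ex ac π N 0 = 0 := fun N => (hD2c N 0).2 rfl
  -- the difference formula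
  have hdiff : ∀ N M f, ap y ex ac π (N + 1) f - ap y ex ac π (M + 1) f =
      ∑ l, (ap y ex ac π N (π l f) - ap y ex ac π M (π l f)) ^ p * om y ac l := by
    intro N M f
    change ∑ l, (ap y ex ac π N (π l f)) ^ p * om y ac l -
      ∑ l, (ap y ex ac π M (π l f)) ^ p * om y ac l = _
    rw [← Finset.sum_sub_distrib]
    refine Finset.sum_congr rfl fun l _ => ?_
    rw [sub_pow_char, sub_mul]
  have hterm : ∀ (l : Ix p r s) (P : AddMonoidAlgebra κ (Fin r → ℤ)) c, UGe u c P →
      UGe u (p • c + wt u (exl l)) (P ^ p * om y ac l) := by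
    intro l P c hP
    exact e2_mul (e2_pow hP p) (e2_single u _ _)
  -- the case `M = 0`
  have h0 : ∀ N, ∀ f ∈ V, f ≠ 0 →
      UGe u (wt u (ex f) + δ) (ap y ex ac π N f - ap y ex ac π 0 f) := by
    intro N
    induction N with
    | zero =>
      intro f _ _
      rw [sub_self]
      exact e2_zero u _
    | succ N ih =>
      intro f hf hf0
      have e : ap y ex ac π (N + 1) f - ap y ex ac π 0 f =
          (ap y ex ac π (N + 1) f - ap y ex ac π (0 + 1) f) +
            (ap y ex ac π 1 f - ap y ex ac π 0 f) := by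
        rw [zero_add]; abel
      rw [e]
      refine e2_add ?_ (hL.step f hf)
      rw [hdiff]
      refine e2_sum _ fun l _ => ?_
      by_cases hl : π l f = 0
      · rw [hl, hap0, hap0, sub_zero, zero_pow (Nat.Prime.ne_zero Fact.out), zero_mul]
        exact e2_zero u _
      · refine e2_mono (hterm l _ _ (ih (π l f) (hL.stab l f hf) hl)) ?_
        have h1 := hL.orth f hf hf0 l hl
        have h2 : δ ≤ p • δ := by
          have : 1 • δ ≤ p • δ := nsmul_le_nsmul_left hL.pos.le (Nat.Prime.one_le Fact.out)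
          rwa [one_nsmul] at this
        rw [smul_add]
        calc wt u (ex f) + δ ≤ (p • wt u (ex (π l f)) + wt u (exl l)) + p • δ := add_le_add h1 h2
          _ = p • wt u (ex (π l f)) + p • δ + wt u (exl l) := by abel
  have hmain : ∀ M f, Abs π (V : Set K) M f → ∀ c, UGe u c (ap y ex ac π M f) → ∀ N, M ≤ N →
      UGe u (c + p ^ M • δ) (ap y ex ac π N f - ap y ex ac π M f) := by
    intro M
    induction M with
    | zero =>
      intro f hf c hc N _
      have hfV : f ∈ V := hf [] rfl
      by_cases hf0 : f = 0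
      · rw [hf0, hap0, hap0, sub_zero]
        exact e2_zero u _
      · refine e2_mono (h0 N f hfV hf0) ?_
        rw [pow_zero, one_nsmul]
        have : c ≤ wt u (ex f) := by
          apply hc
          change (AddMonoidAlgebra.single (ex f) (ac f)).coeff (ex f) ≠ 0
          rw [AddMonoidAlgebra.coeff_single, Finsupp.single_eq_same]
          exact hFA.ac_ne f hf0
        exact add_le_add this le_rfl
    | succ M ih =>
      intro f hf c hc N hN
      obtain ⟨N', rfl⟩ : ∃ N', N = N' + 1 := ⟨N - 1, by omega⟩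
      have hN' : M ≤ N' := by omega
      rw [hdiff]
      refine e2_sum _ fun l _ => ?_
      by_cases hl : π l f = 0
      · rw [hl, hap0, hap0, sub_zero, zero_pow (Nat.Prime.ne_zero Fact.out), zero_mul]
        exact e2_zero u _
      · obtain ⟨cl, hcl⟩ := hD3c M (π l f) hl
        have hle := (hD3a M f c).1 hc l cl hcl
        have hAbs : Abs π (V : Set K) M (π l f) := by
          intro w hw
          exact hf (l :: w) (by rw [List.length_cons, hw])
        refine e2_mono (hterm l _ _ (ih (π l f) hAbs cl hcl.1 N' hN')) ?_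
        rw [smul_add, pow_succ', mul_smul]
        calc c + p • p ^ M • δ ≤ (p • cl + wt u (exl l)) + p • p ^ M • δ :=
              add_le_add hle le_rfl
          _ = p • cl + p • p ^ M • δ + wt u (exl l) := by abel
  refine ⟨hmain, ?_⟩
  intro M f hf c hc N hN
  have hE := hmain M f hf c hc.1 N hN
  set E := ap y ex ac π N f - ap y ex ac π M f with hEdef
  have hsum : ap y ex ac π N f = ap y ex ac π M f + E := by rw [hEdef]; abel
  have hlt : c < c + p ^ M • δ :=
    lt_add_of_pos_right c (nsmul_pos hL.pos (pow_ne_zero _ (Nat.Prime.ne_zero Fact.out)))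
  have hE0 : ∀ m, wt u m = c → E.coeff m = 0 := by
    intro m hm
    by_contra h
    have := hE m h
    rw [hm] at this
    exact absurd hlt (not_lt.2 this)
  rw [hsum]
  refine ⟨⟨e2_add hc.1 (e2_mono hE hlt.le), ?_⟩, ?_⟩
  · obtain ⟨m, hm, hcm⟩ := hc.2
    refine ⟨m, ?_, hcm⟩
    rw [AddMonoidAlgebra.coeff_add, Finsupp.add_apply, hE0 m hcm.symm, add_zero]
    exact hm
  · unfold part
    congr 1
    ext m
    by_cases hm : wt u m = c
    · rw [Finsupp.filter_apply_pos (fun m => wt u m = c) _ hm,
        Finsupp.filter_apply_pos (fun m => wt u m = c) _ hm,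
        AddMonoidAlgebra.coeff_add, Finsupp.add_apply, hE0 m hm, add_zero]
    · rw [Finsupp.filter_apply_neg (fun m => wt u m = c) _ hm,
        Finsupp.filter_apply_neg (fun m => wt u m = c) _ hm]

end Pool.Agent.F2Ch
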