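import Pool.Agent.Lib.MP_305fdd_al.F2.ChStmG

/-!
# MP_305fdd_al, F_2 project, section C: piece [F2C E3]
-/

set_option autoImplicit false
set_option linter.unusedSectionVars false

namespace Pool.Agent.F2Ch

open MvPolynomial

section
variable {κ : Type} [Field κ] {r : ℕ} {Γ : Type} [AddCommGroup Γ] [LinearOrder Γ]
  [IsOrderedAddMonoid Γ] (u : Fin r → Γ)

private theorem e3_wt_add (m n : Fin r → ℤ) : wt u (m + n) = wt u m + wt u n := by
  simp [wt, add_smul, Finset.sum_add_distrib]

private theorem e3_zero (c : Γ) : UGe u c (0 : AddMonoidAlgebra κ (Fin r → ℤ)) := by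
  intro m hm
  simp at hm

private theorem e3_add {c : Γ} {P Q : AddMonoidAlgebra κ (Fin r → ℤ)} (hP : UGe u c P)
    (hQ : UGe u c Q) : UGe u c (P + Q) := by
  intro m hm
  by_cases h : P.coeff m = 0
  · refine hQ m ?_
    intro h'
    apply hm
    simp [h, h']
  · exact hP m h

private theorem e3_mono {c c' : Γ} (h : c' ≤ c) {P : AddMonoidAlgebra κ (Fin r → ℤ)}
    (hP : UGe u c P) : UGe u c' P := fun m hm => h.trans (hP m hm)

private theorem e3_mul {c d : Γ} {P Q : AddMonoidAlgebra κ (Fin r → ℤ)} (hP : UGe u c P)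
    (hQ : UGe u d Q) : UGe u (c + d) (P * Q) := by
  classical
  intro m hm
  have h := AddMonoidAlgebra.support_coeff_mul_subset P Q (Finsupp.mem_support_iff.mpr hm)
  obtain ⟨a, ha, b, hb, rfl⟩ := Finset.mem_add.mp h
  rw [e3_wt_add]
  exact add_le_add (hP a (Finsupp.mem_support_iff.mp ha)) (hQ b (Finsupp.mem_support_iff.mp hb))

private theorem e3_single (m : Fin r → ℤ) (a : κ) :
    UGe u (wt u m) (AddMonoidAlgebra.single m a) := by
  intro n hn
  by_cases h : n = m
  · rw [h]
  · exfalso
    apply hn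
    rw [AddMonoidAlgebra.coeff_single, Finsupp.single_eq_of_ne (by simpa using h)]

private theorem e3_pow {c : Γ} {P : AddMonoidAlgebra κ (Fin r → ℤ)} (hP : UGe u c P) (n : ℕ) :
    UGe u (n • c) (P ^ n) := by
  induction n with
  | zero =>
    have h := e3_single (κ := κ) u 0 1
    rw [pow_zero, zero_nsmul, AddMonoidAlgebra.one_def]
    have h0 : wt u (0 : Fin r → ℤ) = 0 := by simp [wt]
    rwa [h0] at h
  | succ n ih =>
    rw [pow_succ, succ_nsmul]
    exact e3_mul u ih hP

private theorem e3_sum {ι : Type} (S : Finset ι) {c : Γ}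
    (P : ι → AddMonoidAlgebra κ (Fin r → ℤ)) (hP : ∀ i ∈ S, UGe u c (P i)) :
    UGe u c (∑ i ∈ S, P i) := by
  classical
  induction S using Finset.induction_on with
  | empty => simpa using e3_zero u c
  | insert a S ha ih =>
    rw [Finset.sum_insert ha]
    exact e3_add u (hP a (Finset.mem_insert_self a S))
      (ih fun i hi => hP i (Finset.mem_insert_of_mem hi))

end

section
variable {p : ℕ} [Fact p.Prime] {K ι : Type} [Field K] [CharP K p] [Fintype ι] {w : ι → K}
  {π : ι → K → K}

private theorem e3_pi_add (h : IsPB p w π) (i : ι) (f g : K) :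
    π i (f + g) = π i f + π i g := by
  have h1 : ∑ j, (π j f + π j g) ^ p * w j = f + g := by
    simp only [add_pow_char, add_mul, Finset.sum_add_distrib]
    rw [h.repr f, h.repr g]
  calc π i (f + g) = π i (∑ j, (π j f + π j g) ^ p * w j) := by rw [h1]
    _ = _ := h.uniq (fun j => π j f + π j g) i

private theorem e3_pi_zero (h : IsPB p w π) (i : ι) : π i 0 = 0 := by
  have := e3_pi_add h i 0 0
  simpa using this

private theorem e3_wd_add (h : IsPB p w π) (l : List ι) (f g : K) :
    wd π l (f + g) = wd π l f + wd π l g := by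
  induction l generalizing f g with
  | nil => simp [wd]
  | cons i l ih =>
    have := ih (π i f) (π i g)
    rw [← e3_pi_add h] at this
    simpa [wd] using this

private theorem e3_wd_zero (h : IsPB p w π) (l : List ι) : wd π l 0 = 0 := by
  have := e3_wd_add h l 0 0
  simpa using this

end

private theorem e3_two {p : ℕ} [Fact p.Prime] {k K κ : Type} [Field k] [CharP k p]
    [PerfectRing k p] [Field K] [Algebra k K] [Field κ] [Algebra k κ] {r s : ℕ} {x : Fin r → K}
    {y : Fin s → K} {ex : K → Fin r → ℤ} {ac : K → κ} {π : Ix p r s → K → K}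
    {ρ : (Fin s → Fin p) → κ → κ} (hD2 : S_D2) (hD3 : S_D3) [CharP K p] [CharP κ p]
    (hF : FA k p x y ex ac π ρ) {Γ' : Type} [AddCommGroup Γ'] [LinearOrder Γ']
    [IsOrderedAddMonoid Γ'] (u : Fin r → Γ') (V : Submodule k K) (δ : Γ')
    (hL : Loc y ex ac π V u δ) (M : ℕ) : ∀ f g : K, Abs π (V : Set K) M f →
    Abs π (V : Set K) M g → ∀ c, UGe u c (ap y ex ac π M f) → UGe u c (ap y ex ac π M g) →
    UGe u (c + p ^ M • δ) (ap y ex ac π M (f + g) - ap y ex ac π M f - ap y ex ac π M g) := by
  have hap0 : ∀ N, ap y ex ac π N 0 = 0 := fun N =>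
    (((hD2 p k K κ r s x y ex ac π ρ hF).2.2) N 0).mpr rfl
  have : CharP (AddMonoidAlgebra κ (Fin r → ℤ)) p :=
    charP_of_injective_algebraMap (algebraMap κ (AddMonoidAlgebra κ (Fin r → ℤ))).injective p
  obtain ⟨h3a, -, h3c⟩ := hD3 p k K κ r s x y ex ac π ρ hF Γ' u
  induction M with
  | zero =>
    intro f g hf hg c hcf hcg
    have hfV : f ∈ V := by simpa [wd] using hf [] rfl
    have hgV : g ∈ V := by simpa [wd] using hg [] rfl
    have h := hL.add f hfV g hgV c ?_ ?_
    · simpa [ap] using h
    · intro hf0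
      refine hcf (ex f) ?_
      simp [ap, lead, AddMonoidAlgebra.coeff_single, hF.ac_ne f hf0]
    · intro hg0
      refine hcg (ex g) ?_
      simp [ap, lead, AddMonoidAlgebra.coeff_single, hF.ac_ne g hg0]
  | succ M ih =>
    intro f g hf hg c hcf hcg
    have hdiff : ap y ex ac π (M + 1) (f + g) - ap y ex ac π (M + 1) f - ap y ex ac π (M + 1) g =
        ∑ l, (ap y ex ac π M (π l f + π l g) - ap y ex ac π M (π l f) -
          ap y ex ac π M (π l g)) ^ p * om y ac l := by
      simp only [ap, ← Finset.sum_sub_distrib]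
      refine Finset.sum_congr rfl fun l _ => ?_
      rw [e3_pi_add hF.pb, sub_pow_char, sub_pow_char]
      ring
    rw [hdiff]
    refine e3_sum u _ _ fun l _ => ?_
    have hfl : Abs π (V : Set K) M (π l f) := fun w hw => hf (l :: w) (by simp [hw])
    have hgl : Abs π (V : Set K) M (π l g) := fun w hw => hg (l :: w) (by simp [hw])
    -- the key estimate for a common lower bound
    have key : ∀ cl, UGe u cl (ap y ex ac π M (π l f)) → UGe u cl (ap y ex ac π M (π l g)) →
        c ≤ p • cl + wt u (exl l) →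
        UGe u (c + p ^ (M + 1) • δ) ((ap y ex ac π M (π l f + π l g) - ap y ex ac π M (π l f) -
          ap y ex ac π M (π l g)) ^ p * om y ac l) := by
      intro cl h1 h2 h3
      have h4 := ih (π l f) (π l g) hfl hgl cl h1 h2
      have h5 := e3_mul u (e3_pow u h4 p) (e3_single (κ := κ) u (exl l) (monY (fun j => ac (y j)) l.2))
      refine e3_mono u ?_ h5
      have e : p • (cl + p ^ M • δ) + wt u (exl l) =
          (p • cl + wt u (exl l)) + p ^ (M + 1) • δ := by
        rw [nsmul_add, ← mul_nsmul', ← pow_succ']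
        abel
      rw [e]
      exact add_le_add_left h3 _
    by_cases hf0 : π l f = 0
    · by_cases hg0 : π l g = 0
      · rw [hf0, hg0]
        simp only [add_zero, hap0, sub_zero]
        rw [zero_pow (Fact.out : p.Prime).ne_zero, zero_mul]
        exact e3_zero u _
      · obtain ⟨cl, hcl⟩ := h3c M (π l g) hg0
        refine key cl ?_ hcl.1 ((h3a M g c).mp hcg l cl hcl)
        rw [hf0, hap0]
        exact e3_zero u _
    · obtain ⟨cf, hcf'⟩ := h3c M (π l f) hf0
      by_cases hg0 : π l g = 0
      · refine key cf hcf'.1 ?_ ((h3a M f c).mp hcf l cf hcf')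
        rw [hg0, hap0]
        exact e3_zero u _
      · obtain ⟨cg, hcg'⟩ := h3c M (π l g) hg0
        have h6 := (h3a M f c).mp hcf l cf hcf'
        have h7 := (h3a M g c).mp hcg l cg hcg'
        rcases le_total cf cg with h | h
        · exact key cf hcf'.1 (e3_mono u h hcg'.1) h6
        · exact key cg (e3_mono u h hcf'.1) hcg'.1 h7

theorem p_E3 (hD2 : S_D2) (hD3 : S_D3) : S_E3 := by
  classical
  intro p _ k K κ _ _ _ _ _ _ _ r s x y ex ac π ρ hF Γ' _ _ _ u V δ hL M ι _ h hh c hc
  have : CharP K p := charP_of_injective_algebraMap (algebraMap k K).injective p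
  have : CharP κ p := charP_of_injective_algebraMap (algebraMap k κ).injective p
  have hap0 : ∀ N, ap y ex ac π N 0 = 0 := fun N =>
    (((hD2 p k K κ r s x y ex ac π ρ hF).2.2) N 0).mpr rfl
  have hδ : (0 : Γ') ≤ p ^ M • δ := nsmul_nonneg hL.pos.le _
  have main : ∀ S : Finset ι, Abs π (V : Set K) M (∑ i ∈ S, h i) ∧
      UGe u (c + p ^ M • δ) (ap y ex ac π M (∑ i ∈ S, h i) - ∑ i ∈ S, ap y ex ac π M (h i)) := by
    intro S
    induction S using Finset.induction_on with
    | empty =>
      refine ⟨fun l _ => ?_, ?_⟩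
      · rw [Finset.sum_empty, e3_wd_zero hF.pb]
        exact V.zero_mem
      · rw [Finset.sum_empty, Finset.sum_empty, hap0, sub_zero]
        exact e3_zero u _
    | insert a S ha ih =>
      obtain ⟨ih1, ih2⟩ := ih
      have h1 : UGe u c (ap y ex ac π M (∑ i ∈ S, h i)) := by
        have h2 := e3_add u (e3_mono u (le_add_of_nonneg_right hδ) ih2)
          (e3_sum u S (fun i => ap y ex ac π M (h i)) fun i _ => hc i)
        simpa using h2
      have h3 := e3_two hD2 hD3 hF u V δ hL M (h a) (∑ i ∈ S, h i) (hh a) ih1 c (hc a) h1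
      rw [Finset.sum_insert ha, Finset.sum_insert ha]
      refine ⟨fun l hl => ?_, ?_⟩
      · rw [e3_wd_add hF.pb]
        exact V.add_mem (hh a l hl) (ih1 l hl)
      · have h4 := e3_add u h3 ih2
        have e : ap y ex ac π M (h a + ∑ i ∈ S, h i) - ap y ex ac π M (h a) -
            ap y ex ac π M (∑ i ∈ S, h i) +
            (ap y ex ac π M (∑ i ∈ S, h i) - ∑ i ∈ S, ap y ex ac π M (h i)) =
            ap y ex ac π M (h a + ∑ i ∈ S, h i) -
            (ap y ex ac π M (h a) + ∑ i ∈ S, ap y ex ac π M (h i)) := by abel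
        rwa [e] at h4
  exact (main Finset.univ).2

end Pool.Agent.F2Ch
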