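import Pool.Agent.Lib.MP_305fdd_al.F2.ChStmG

set_option autoImplicit false
set_option linter.unusedSectionVars false

namespace Pool.Agent.F2Ch

open MvPolynomial

section
variable {Γ : Type} [AddCommGroup Γ] [LinearOrder Γ] [IsOrderedAddMonoid Γ] {r : ℕ} {κ : Type}
  [Field κ]

theorem e4_wt_add (u : Fin r → Γ) (m n : Fin r → ℤ) : wt u (m + n) = wt u m + wt u n := by
  simp [wt, add_smul, Finset.sum_add_distrib]

theorem e4_wt_smul (u : Fin r → Γ) (k : ℤ) (m : Fin r → ℤ) : wt u (k • m) = k • wt u m := by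
  simp [wt, mul_smul, Finset.smul_sum]

theorem e4_wt_zero (u : Fin r → Γ) : wt u 0 = 0 := by simp [wt]

theorem e4_mono {u : Fin r → Γ} {c c' : Γ} {P : AddMonoidAlgebra κ (Fin r → ℤ)}
    (h : UGe u c P) (hc : c' ≤ c) : UGe u c' P := fun m hm => hc.trans (h m hm)

theorem e4_zero (u : Fin r → Γ) (c : Γ) : UGe u c (0 : AddMonoidAlgebra κ (Fin r → ℤ)) := by
  intro m hm; simp at hm

theorem e4_add {u : Fin r → Γ} {c : Γ} {P Q : AddMonoidAlgebra κ (Fin r → ℤ)}
    (hP : UGe u c P) (hQ : UGe u c Q) : UGe u c (P + Q) := by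
  intro m hm
  by_cases h1 : P.coeff m = 0
  · by_cases h2 : Q.coeff m = 0
    · exact absurd (by simp [h1, h2]) hm
    · exact hQ m h2
  · exact hP m h1

theorem e4_neg {u : Fin r → Γ} {c : Γ} {P : AddMonoidAlgebra κ (Fin r → ℤ)}
    (hP : UGe u c P) : UGe u c (-P) := by
  intro m hm
  exact hP m (by simpa using hm)

theorem e4_sub {u : Fin r → Γ} {c : Γ} {P Q : AddMonoidAlgebra κ (Fin r → ℤ)}
    (hP : UGe u c P) (hQ : UGe u c Q) : UGe u c (P - Q) := by
  rw [sub_eq_add_neg]; exact e4_add hP (e4_neg hQ)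

theorem e4_sum {ι : Type} {u : Fin r → Γ} {c : Γ} (s : Finset ι)
    (P : ι → AddMonoidAlgebra κ (Fin r → ℤ)) (hP : ∀ i ∈ s, UGe u c (P i)) :
    UGe u c (∑ i ∈ s, P i) := by
  classical
  induction s using Finset.induction_on with
  | empty => simpa using e4_zero u c
  | insert a s ha ih =>
    rw [Finset.sum_insert ha]
    exact e4_add (hP a (Finset.mem_insert_self a s))
      (ih fun i hi => hP i (Finset.mem_insert_of_mem hi))

theorem e4_single (u : Fin r → Γ) (m : Fin r → ℤ) (c : κ) :
    UGe u (wt u m) (AddMonoidAlgebra.single m c) := by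
  intro n hn
  by_cases h : m = n
  · subst h; exact le_rfl
  · exact absurd (by simp [h]) hn

theorem e4_pow (h5 : S_D5) {u : Fin r → Γ} {c : Γ} {P : AddMonoidAlgebra κ (Fin r → ℤ)}
    (hP : UGe u c P) (n : ℕ) : UGe u (n • c) (P ^ n) := by
  induction n with
  | zero =>
    have := e4_single u 0 (1 : κ)
    rw [e4_wt_zero] at this
    simpa [AddMonoidAlgebra.one_def] using this
  | succ n ih =>
    rw [pow_succ, succ_nsmul]
    exact ((h5 κ r Γ u).2.2.1 _ _ _ _ ih hP).1

end

theorem e4_cq {p r s : ℕ} [NeZero p] (l l' : Ix p r s) (θ : Ix 2 r s) :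
    exl l + exl l' + exl θ = (p : ℤ) • exl (cq l l' θ) + exl (cr l l' θ) := by
  funext i
  have hp : 0 < p := NeZero.pos p
  have h1 := (l.1 i).isLt
  have h2 := (l'.1 i).isLt
  have h3 := (θ.1 i).isLt
  have hlt : ((l.1 i : ℕ) + (l'.1 i : ℕ) + (θ.1 i : ℕ)) / p < 2 := by
    rw [Nat.div_lt_iff_lt_mul hp]; omega
  have h4 := Nat.div_add_mod ((l.1 i : ℕ) + (l'.1 i : ℕ) + (θ.1 i : ℕ)) p
  simp only [exl, cq, cr, Pi.add_apply, Pi.smul_apply, smul_eq_mul, Nat.mod_eq_of_lt hlt]
  exact_mod_cast h4.symm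

section
variable {p : ℕ} [Fact p.Prime] {k K κ : Type} [Field k] [Field K] [Algebra k K] [Field κ]
  [Algebra k κ] {r s : ℕ} {x : Fin r → K} {y : Fin s → K} {ex : K → Fin r → ℤ} {ac : K → κ}
  {π : Ix p r s → K → K} {ρ : (Fin s → Fin p) → κ → κ}

theorem e4_ac_one (h : FA k p x y ex ac π ρ) : ac 1 = 1 := by
  have h1 := h.ac_mul 1 1
  have h2 := h.ac_ne 1 one_ne_zero
  rw [mul_one] at h1
  exact mul_left_cancel₀ h2 (by rw [← h1, mul_one])

theorem e4_ac_pow (h : FA k p x y ex ac π ρ) (f : K) (n : ℕ) : ac (f ^ n) = ac f ^ n := by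
  induction n with
  | zero => simpa using e4_ac_one h
  | succ n ih => rw [pow_succ, pow_succ, h.ac_mul, ih]

theorem e4_ac_prod (h : FA k p x y ex ac π ρ) {ι : Type} (s' : Finset ι) (g : ι → K) :
    ac (∏ i ∈ s', g i) = ∏ i ∈ s', ac (g i) := by
  classical
  induction s' using Finset.induction_on with
  | empty => simpa using e4_ac_one h
  | insert a s' ha ih => rw [Finset.prod_insert ha, Finset.prod_insert ha, h.ac_mul, ih]

theorem e4_ex_one (h : FA k p x y ex ac π ρ) : ex 1 = 0 := by
  have := h.ex_alg 1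
  simpa using this

theorem e4_ex_pow (h : FA k p x y ex ac π ρ) (f : K) (hf : f ≠ 0) (n : ℕ) :
    ex (f ^ n) = n • ex f := by
  induction n with
  | zero => simpa using e4_ex_one h
  | succ n ih => rw [pow_succ, h.ex_mul _ _ (pow_ne_zero n hf) hf, ih, succ_nsmul]

theorem e4_ex_prod (h : FA k p x y ex ac π ρ) {ι : Type} (s' : Finset ι) (g : ι → K)
    (hg : ∀ i ∈ s', g i ≠ 0) : ex (∏ i ∈ s', g i) = ∑ i ∈ s', ex (g i) := by
  classical
  induction s' using Finset.induction_on with
  | empty => simpa using e4_ex_one h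
  | insert a s' ha ih =>
    rw [Finset.prod_insert ha, Finset.sum_insert ha,
      h.ex_mul _ _ (hg a (Finset.mem_insert_self a s'))
        (Finset.prod_ne_zero_iff.2 fun i hi => hg i (Finset.mem_insert_of_mem hi)),
      ih fun i hi => hg i (Finset.mem_insert_of_mem hi)]

theorem e4_mon_ne (h : FA k p x y ex ac π ρ) {q : ℕ} (θ : Ix q r s) : mon x y θ ≠ 0 :=
  mul_ne_zero (Finset.prod_ne_zero_iff.2 fun i _ => pow_ne_zero _ (h.x_ne i))
    (Finset.prod_ne_zero_iff.2 fun i _ => pow_ne_zero _ (h.y_ne i))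

theorem e4_ac_mon (h : FA k p x y ex ac π ρ) {q : ℕ} (θ : Ix q r s) :
    ac (mon x y θ) = monY (fun j => ac (y j)) θ.2 := by
  simp only [mon, monY, h.ac_mul, e4_ac_prod h, e4_ac_pow h, h.ac_x, one_pow,
    Finset.prod_const_one, one_mul]

theorem e4_ex_mon (h : FA k p x y ex ac π ρ) {q : ℕ} (θ : Ix q r s) :
    ex (mon x y θ) = exl θ := by
  rw [mon, h.ex_mul _ _ (Finset.prod_ne_zero_iff.2 fun i _ => pow_ne_zero _ (h.x_ne i))
    (Finset.prod_ne_zero_iff.2 fun i _ => pow_ne_zero _ (h.y_ne i)),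
    e4_ex_prod h _ _ fun i _ => pow_ne_zero _ (h.x_ne i),
    e4_ex_prod h _ _ fun i _ => pow_ne_zero _ (h.y_ne i)]
  simp only [e4_ex_pow h _ (h.x_ne _), e4_ex_pow h _ (h.y_ne _), h.ex_x, h.ex_y, smul_zero,
    Finset.sum_const_zero, add_zero]
  funext i
  simp [exl, Finset.sum_apply, Pi.single_apply]

theorem e4_lead_mul (h : FA k p x y ex ac π ρ) (f g : K) (θ : Ix 2 r s) :
    lead ex ac (f * g * mon x y θ) = lead ex ac f * lead ex ac g * om y ac θ := by
  by_cases hf : f = 0
  · subst hf; simp [lead, h.ac_zero]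
  by_cases hg : g = 0
  · subst hg; simp [lead, h.ac_zero]
  rw [lead, lead, lead, om, h.ac_mul, h.ac_mul, h.ex_mul _ _ (mul_ne_zero hf hg) (e4_mon_ne h θ),
    h.ex_mul _ _ hf hg, e4_ac_mon h, e4_ex_mon h, AddMonoidAlgebra.single_mul_single,
    AddMonoidAlgebra.single_mul_single]

theorem e4_pi_zero (h : FA k p x y ex ac π ρ) (l : Ix p r s) : π l 0 = 0 := by
  have := h.pb.uniq (fun _ => 0) l
  simpa [zero_pow (Fact.out : p.Prime).ne_zero] using this

theorem e4_wd_zero (h : FA k p x y ex ac π ρ) (l : List (Ix p r s)) : wd π l 0 = 0 := by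
  induction l with
  | nil => rfl
  | cons a l ih =>
    change wd π l (π a 0) = 0
    rw [e4_pi_zero h, ih]

theorem e4_abs (V : Set K) (M : ℕ) (f : K) (hf : Abs π V (M + 1) f) (l : Ix p r s) :
    Abs π V M (π l f) := by
  intro w hw
  exact hf (l :: w) (by simp [hw])

end

theorem p_E4 (hD2 : S_D2) (hD3 : S_D3) (hD4 : S_D4) (hD5 : S_D5) (hE3 : S_E3) : S_E4 := by
  intro p _ k K κ _ _ _ _ _ _ _ r s x y ex ac π ρ hFA Γ' _ _ _ u V0 δ hfd hst hLoc M
  have : CharP κ p := charP_of_injective_algebraMap (algebraMap k κ).injective p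
  have : CharP (AddMonoidAlgebra κ (Fin r → ℤ)) p :=
    charP_of_injective_algebraMap (algebraMap κ (AddMonoidAlgebra κ (Fin r → ℤ))).injective p
  have : ExpChar (AddMonoidAlgebra κ (Fin r → ℤ)) p := ExpChar.prime Fact.out
  have D2 := hD2 p k K κ r s x y ex ac π ρ hFA
  have D3 := hD3 p k K κ r s x y ex ac π ρ hFA Γ' u
  have D4 := hD4 p k K κ r s x y ex ac π ρ hFA
  have D5 := hD5 κ r Γ' u
  have E3 := hE3 p k K κ r s x y ex ac π ρ hFA Γ' u (prodSp x y V0) δ hLoc
  have ap0 : ∀ N, ap y ex ac π N 0 = 0 := fun N => (D2.2.2 N 0).2 rfl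
  induction M with
  | zero =>
    intro f g θ _ _ c c' _ _
    simp only [ap]
    rw [e4_lead_mul hFA, sub_self]
    exact e4_zero _ _
  | succ M ih =>
    intro f g θ hf hg c c' hc hc'
    have hf' := e4_abs (V0 : Set K) M f hf
    have hg' := e4_abs (V0 : Set K) M g hg
    -- the minimal weights
    have ex1 : ∀ l, ∃ a, π l f ≠ 0 → IsMinW u (ap y ex ac π M (π l f)) a := fun l => by
      by_cases h0 : π l f = 0
      · exact ⟨0, fun h => absurd h0 h⟩
      · obtain ⟨a, ha⟩ := D3.2.2 M (π l f) h0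
        exact ⟨a, fun _ => ha⟩
    have ex2 : ∀ l, ∃ a, π l g ≠ 0 → IsMinW u (ap y ex ac π M (π l g)) a := fun l => by
      by_cases h0 : π l g = 0
      · exact ⟨0, fun h => absurd h0 h⟩
      · obtain ⟨a, ha⟩ := D3.2.2 M (π l g) h0
        exact ⟨a, fun _ => ha⟩
    choose a ha using ex1
    choose b hb using ex2
    have hca : ∀ l, π l f ≠ 0 → c ≤ p • a l + wt u (exl l) := fun l h0 =>
      (D3.1 M f c).1 hc l (a l) (ha l h0)
    have hcb : ∀ l, π l g ≠ 0 → c' ≤ p • b l + wt u (exl l) := fun l h0 =>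
      (D3.1 M g c').1 hc' l (b l) (hb l h0)
    set X : Ix p r s → Ix p r s → AddMonoidAlgebra κ (Fin r → ℤ) := fun l l' =>
      ap y ex ac π M (π l f) * ap y ex ac π M (π l' g) * om y ac (cq l l' θ) with hX
    set B : Ix p r s → AddMonoidAlgebra κ (Fin r → ℤ) := fun l'' =>
      ap y ex ac π M (π l'' (f * g * mon x y θ)) -
        ∑ q : Ix p r s × Ix p r s, if cr q.1 q.2 θ = l'' then X q.1 q.2 else 0 with hB
    have key : ap y ex ac π (M + 1) (f * g * mon x y θ) -
        ap y ex ac π (M + 1) f * ap y ex ac π (M + 1) g * om y ac θ =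
        ∑ l'', (B l'') ^ p * om y ac l'' := by
      have e1 : ap y ex ac π (M + 1) f * ap y ex ac π (M + 1) g * om y ac θ =
          ∑ q : Ix p r s × Ix p r s, (X q.1 q.2) ^ p * om y ac (cr q.1 q.2 θ) := by
        refine Eq.trans ?_ (Fintype.sum_prod_type'
          (fun l l' => (X l l') ^ p * om y ac (cr l l' θ))).symm
        simp only [ap]
        rw [Finset.sum_mul_sum, Finset.sum_mul]
        refine Finset.sum_congr rfl fun l _ => ?_
        rw [Finset.sum_mul]
        refine Finset.sum_congr rfl fun l' _ => ?_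
        simp only [hX]
        rw [mul_pow, mul_pow, mul_assoc _ _ (om y ac (cr l l' θ)), ← D4.2.1 l l' θ]
        ring
      have e2 : ∀ l'', (∑ q : Ix p r s × Ix p r s,
          if cr q.1 q.2 θ = l'' then X q.1 q.2 else 0) ^ p * om y ac l'' =
          ∑ q : Ix p r s × Ix p r s,
            if cr q.1 q.2 θ = l'' then (X q.1 q.2) ^ p * om y ac (cr q.1 q.2 θ) else 0 := by
        intro l''
        rw [sum_pow_char, Finset.sum_mul]
        refine Finset.sum_congr rfl fun q _ => ?_
        split_ifs with hq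
        · rw [hq]
        · rw [zero_pow (Fact.out : p.Prime).ne_zero, zero_mul]
      have e3 : ∑ l'', (∑ q : Ix p r s × Ix p r s,
          if cr q.1 q.2 θ = l'' then X q.1 q.2 else 0) ^ p * om y ac l'' =
          ∑ q : Ix p r s × Ix p r s, (X q.1 q.2) ^ p * om y ac (cr q.1 q.2 θ) := by
        refine (Finset.sum_congr rfl fun l'' _ => e2 l'').trans ?_
        rw [Finset.sum_comm]
        refine Finset.sum_congr rfl fun q _ => ?_
        rw [Finset.sum_ite_eq]
        simp
      rw [e1, ← e3]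
      simp only [ap, hB]
      rw [← Finset.sum_sub_distrib]
      refine Finset.sum_congr rfl fun l'' _ => ?_
      rw [sub_pow_char, sub_mul]
    rw [key]
    refine e4_sum _ _ fun l'' _ => ?_
    -- bound of the bracket
    have hpi : π l'' (f * g * mon x y θ) = ∑ q : Ix p r s × Ix p r s,
        if cr q.1 q.2 θ = l'' then π q.1 f * π q.2 g * mon x y (cq q.1 q.2 θ) else 0 := by
      rw [D4.1]
      exact (Fintype.sum_prod_type' (fun l l' =>
        if cr l l' θ = l'' then π l f * π l' g * mon x y (cq l l' θ) else 0)).symm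
    classical
    set S : Finset (Ix p r s × Ix p r s) := Finset.univ.filter fun q =>
      cr q.1 q.2 θ = l'' ∧ π q.1 f ≠ 0 ∧ π q.2 g ≠ 0 with hS
    by_cases hne : S.Nonempty
    · obtain ⟨q0, hq0, hmin⟩ := Finset.exists_min_image S
        (fun q => a q.1 + b q.2 + wt u (exl (cq q.1 q.2 θ))) hne
      set C := a q0.1 + b q0.2 + wt u (exl (cq q0.1 q0.2 θ)) with hC
      have hδ : 0 < p ^ M • δ := nsmul_pos hLoc.pos (pow_ne_zero M (Fact.out : p.Prime).ne_zero)
      have herr : ∀ q ∈ S, UGe u (C + p ^ M • δ)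
          (ap y ex ac π M (π q.1 f * π q.2 g * mon x y (cq q.1 q.2 θ)) - X q.1 q.2) := by
        intro q hq
        have hq' := (Finset.mem_filter.1 hq).2
        refine e4_mono (ih (π q.1 f) (π q.2 g) (cq q.1 q.2 θ) (hf' q.1) (hg' q.2) (a q.1) (b q.2)
          (ha q.1 hq'.2.1).1 (hb q.2 hq'.2.2).1) ?_
        exact add_le_add_left (hmin q hq) _
      have hXge : ∀ q ∈ S, UGe u C (X q.1 q.2) := by
        intro q hq
        have hq' := (Finset.mem_filter.1 hq).2
        have h1 := (D5.2.2.1 _ _ _ _ (ha q.1 hq'.2.1).1 (hb q.2 hq'.2.2).1).1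
        have h2 := (D5.2.2.1 _ _ _ _ h1
          (e4_single u (exl (cq q.1 q.2 θ)) (monY (fun j => ac (y j)) (cq q.1 q.2 θ).2))).1
        exact e4_mono h2 (hmin q hq)
      have hapge : ∀ q ∈ S, UGe u C
          (ap y ex ac π M (π q.1 f * π q.2 g * mon x y (cq q.1 q.2 θ))) := by
        intro q hq
        have h1 := e4_add (hXge q hq) (e4_mono (herr q hq) (le_add_of_nonneg_right hδ.le))
        rwa [add_sub_cancel] at h1
      have hzero : ∀ q : Ix p r s × Ix p r s, q ∉ S → cr q.1 q.2 θ = l'' →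
          π q.1 f * π q.2 g * mon x y (cq q.1 q.2 θ) = 0 ∧ X q.1 q.2 = 0 := by
        intro q hq hcr
        have : ¬ (π q.1 f ≠ 0 ∧ π q.2 g ≠ 0) := fun h =>
          hq (Finset.mem_filter.2 ⟨Finset.mem_univ _, hcr, h⟩)
        by_cases h0 : π q.1 f = 0
        · exact ⟨by rw [h0, zero_mul, zero_mul], by simp only [hX, h0, ap0, zero_mul]⟩
        · have h1 : π q.2 g = 0 := by by_contra h1; exact this ⟨h0, h1⟩
          exact ⟨by rw [h1, mul_zero, zero_mul], by simp only [hX, h1, ap0, mul_zero, zero_mul]⟩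
      have hBge : UGe u (C + p ^ M • δ) (B l'') := by
        have h3 := E3 M (Ix p r s × Ix p r s)
          (fun q => if cr q.1 q.2 θ = l'' then π q.1 f * π q.2 g * mon x y (cq q.1 q.2 θ) else 0)
          (by
            intro q
            by_cases hcr : cr q.1 q.2 θ = l''
            · simp only [hcr, if_true]
              exact (D4.2.2 V0 hfd hst).2.2.1 M _ _ _ (hf' q.1) (hg' q.2)
            · simp only [hcr, if_false]
              intro w _
              rw [e4_wd_zero hFA]
              exact Submodule.zero_mem _) C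
          (by
            intro q
            by_cases hcr : cr q.1 q.2 θ = l''
            · simp only [hcr, if_true]
              by_cases hq : q ∈ S
              · exact hapge q hq
              · rw [(hzero q hq hcr).1, ap0]; exact e4_zero _ _
            · simp only [hcr, if_false]
              rw [ap0]; exact e4_zero _ _)
        rw [← hpi] at h3
        have h4 : UGe u (C + p ^ M • δ) (∑ q : Ix p r s × Ix p r s,
            (ap y ex ac π M (if cr q.1 q.2 θ = l'' then
              π q.1 f * π q.2 g * mon x y (cq q.1 q.2 θ) else 0) -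
              if cr q.1 q.2 θ = l'' then X q.1 q.2 else 0)) := by
          refine e4_sum _ _ fun q _ => ?_
          by_cases hcr : cr q.1 q.2 θ = l''
          · simp only [hcr, if_true]
            by_cases hq : q ∈ S
            · exact herr q hq
            · rw [(hzero q hq hcr).1, (hzero q hq hcr).2, ap0, sub_zero]; exact e4_zero _ _
          · simp only [hcr, if_false]
            rw [ap0, sub_zero]; exact e4_zero _ _
        have h5 := e4_add h3 h4
        rw [Finset.sum_sub_distrib] at h5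
        have h6 : B l'' = ap y ex ac π M (π l'' (f * g * mon x y θ)) -
            ∑ q : Ix p r s × Ix p r s, ap y ex ac π M (if cr q.1 q.2 θ = l'' then
              π q.1 f * π q.2 g * mon x y (cq q.1 q.2 θ) else 0) +
            (∑ q : Ix p r s × Ix p r s, ap y ex ac π M (if cr q.1 q.2 θ = l'' then
              π q.1 f * π q.2 g * mon x y (cq q.1 q.2 θ) else 0) -
              ∑ q : Ix p r s × Ix p r s, if cr q.1 q.2 θ = l'' then X q.1 q.2 else 0) := by
          simp only [hB]; abel
        rw [h6]; exact h5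
      have h7 := (D5.2.2.1 _ _ _ _ (e4_pow hD5 hBge p)
        (e4_single u (exl l'') (monY (fun j => ac (y j)) l''.2))).1
      refine e4_mono h7 ?_
      have hq0' := (Finset.mem_filter.1 hq0).2
      have h8 := hca q0.1 hq0'.2.1
      have h9 := hcb q0.2 hq0'.2.2
      have h10 : wt u (exl q0.1) + wt u (exl q0.2) + wt u (exl θ) =
          p • wt u (exl (cq q0.1 q0.2 θ)) + wt u (exl l'') := by
        rw [← hq0'.1, ← e4_wt_add, ← e4_wt_add, e4_cq, e4_wt_add, e4_wt_smul, natCast_zsmul]
      have h11 : p • (C + p ^ M • δ) + wt u (exl l'') =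
          (p • a q0.1 + wt u (exl q0.1)) + (p • b q0.2 + wt u (exl q0.2)) + wt u (exl θ) +
            p ^ (M + 1) • δ := by
        have : p • (C + p ^ M • δ) + wt u (exl l'') =
          p • a q0.1 + p • b q0.2 + (p • wt u (exl (cq q0.1 q0.2 θ)) + wt u (exl l'')) +
            p ^ (M + 1) • δ := by
          rw [hC, pow_succ', mul_nsmul']
          simp only [nsmul_add]
          abel
        rw [this, ← h10]
        abel
      rw [h11]
      have := add_le_add h8 h9
      exact add_le_add_left (add_le_add_left this _) _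
    · have hB0 : B l'' = 0 := by
        have hz : ∀ q : Ix p r s × Ix p r s, cr q.1 q.2 θ = l'' →
            π q.1 f * π q.2 g * mon x y (cq q.1 q.2 θ) = 0 ∧ X q.1 q.2 = 0 := by
          intro q hcr
          have : ¬ (π q.1 f ≠ 0 ∧ π q.2 g ≠ 0) := fun h =>
            hne ⟨q, Finset.mem_filter.2 ⟨Finset.mem_univ _, hcr, h⟩⟩
          by_cases h0 : π q.1 f = 0
          · exact ⟨by rw [h0, zero_mul, zero_mul], by simp only [hX, h0, ap0, zero_mul]⟩
          · have h1 : π q.2 g = 0 := by by_contra h1; exact this ⟨h0, h1⟩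
            exact ⟨by rw [h1, mul_zero, zero_mul], by simp only [hX, h1, ap0, mul_zero, zero_mul]⟩
        simp only [hB]
        rw [hpi, Finset.sum_eq_zero, Finset.sum_eq_zero, ap0, sub_zero]
        · intro q _
          by_cases hcr : cr q.1 q.2 θ = l''
          · simp only [hcr, if_true]; exact (hz q hcr).2
          · simp only [hcr, if_false]
        · intro q _
          by_cases hcr : cr q.1 q.2 θ = l''
          · simp only [hcr, if_true]; exact (hz q hcr).1
          · simp only [hcr, if_false]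
      rw [hB0, zero_pow (Fact.out : p.Prime).ne_zero, zero_mul]
      exact e4_zero _ _

end Pool.Agent.F2Ch
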