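import Pool.Agent.Lib.MP_305fdd_al.F2.ChStmG

set_option autoImplicit false
set_option linter.unusedSectionVars false

namespace Pool.Agent.F2Ch

open MvPolynomial

section
variable {K : Type} [Field K] {p r s : ℕ}

theorem f1_wd_append (π : Ix p r s → K → K) (l l' : List (Ix p r s)) (f : K) :
    wd π (l ++ l') f = wd π l' (wd π l f) := by
  simp [wd, List.foldl_append]

theorem f1_wd_mem (π : Ix p r s → K → K) (V : Set K) (hst : ∀ l, ∀ f ∈ V, π l f ∈ V)
    (l : List (Ix p r s)) (f : K) (hf : f ∈ V) : wd π l f ∈ V := by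
  induction l generalizing f with
  | nil => exact hf
  | cons a l ih => exact ih (π a f) (hst a f hf)

theorem f1_abs_mono (π : Ix p r s → K → K) (V : Set K) (hst : ∀ l, ∀ f ∈ V, π l f ∈ V)
    {M N : ℕ} (hMN : M ≤ N) (f : K) (hf : Abs π V M f) : Abs π V N f := by
  intro l hl
  have h1 : wd π l f = wd π (l.drop M) (wd π (l.take M) f) := by
    rw [← f1_wd_append, List.take_append_drop]
  rw [h1]
  refine f1_wd_mem π V hst _ _ (hf _ ?_)
  rw [List.length_take, hl, min_eq_left hMN]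

end

theorem p_F1 (hD1 : S_D1) (hD3 : S_D3) (hD4 : S_D4) (hD5 : S_D5) (hE2 : S_E2) (hE3 : S_E3)
    (hE4 : S_E4) : S_F1 := by
  intro p _ k K κ _ _ _ _ _ _ _ r s x y ex ac π ρ hFA n t h V0 hFG hN Γ' _ _ _ u δ hLoc
  have D1 := hD1 p k K κ r s x y ex ac π ρ hFA
  have D3 := hD3 p k K κ r s x y ex ac π ρ hFA Γ' u
  have D4 := (hD4 p k K κ r s x y ex ac π ρ hFA).2.2 V0 hN.fin hN.stab
  have D5 := hD5 κ r Γ' u
  have E2 := (hE2 p k K κ r s x y ex ac π ρ hFA Γ' u (prodSp x y V0) δ hLoc).2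
  have E3 := hE3 p k K κ r s x y ex ac π ρ hFA Γ' u (prodSp x y V0) δ hLoc
  have E4 := hE4 p k K κ r s x y ex ac π ρ hFA Γ' u V0 δ hN.fin hN.stab hLoc
  have hle : V0 ≤ prodSp x y V0 := D4.2.2.2 hN.one
  have mono : ∀ {M N : ℕ}, M ≤ N → ∀ f, Abs π (V0 : Set K) M f → Abs π (V0 : Set K) N f :=
    fun hMN f hf => f1_abs_mono π (V0 : Set K) hN.stab hMN f hf
  have up : ∀ M f, Abs π (V0 : Set K) M f → Abs π (prodSp x y V0 : Set K) M f :=
    fun M f hf l hl => hle (hf l hl)
  have hδ : ∀ M, 0 < p ^ M • δ := fun M =>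
    nsmul_pos hLoc.pos (pow_ne_zero M (Fact.out : p.Prime).ne_zero)
  have exν : ∀ f, ∃ c, f ≠ 0 → ∀ M, Abs π (V0 : Set K) M f → IsMinW u (ap y ex ac π M f) c := by
    intro f
    by_cases hf : f = 0
    · exact ⟨0, fun h => absurd hf h⟩
    by_cases hR : ∃ M, Abs π (V0 : Set K) M f
    · obtain ⟨M0, hM0⟩ := hR
      obtain ⟨c0, hc0⟩ := D3.2.2 M0 f hf
      refine ⟨c0, fun _ M hM => ?_⟩
      obtain ⟨c1, hc1⟩ := D3.2.2 M f hf
      have h1 := (E2 M0 f (up _ _ hM0) c0 hc0 (max M M0) (le_max_right _ _)).1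
      have h2 := (E2 M f (up _ _ hM) c1 hc1 (max M M0) (le_max_left _ _)).1
      rw [D5.2.1 _ _ _ h1 h2]
      exact hc1
    · exact ⟨0, fun _ M hM => absurd ⟨M, hM⟩ hR⟩
  choose ν hν using exν
  -- products
  have hmon : mon x y ((fun _ => 0, fun _ => 0) : Ix 2 r s) = 1 := by simp [mon]
  have hom : om y ac ((fun _ => 0, fun _ => 0) : Ix 2 r s) = 1 := by
    rw [AddMonoidAlgebra.one_def]
    simp only [om, monY, exl]
    congr 1
    simp
  have hexl : wt u (exl ((fun _ => 0, fun _ => 0) : Ix 2 r s)) = 0 := by simp [wt, exl]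
  have prod : ∀ M f g, f ≠ 0 → g ≠ 0 → Abs π (V0 : Set K) M f → Abs π (V0 : Set K) M g →
      IsMinW u (ap y ex ac π M (f * g)) (ν f + ν g) := by
    intro M f g hf hg hMf hMg
    have h1 := hν f hf M hMf
    have h2 := hν g hg M hMg
    have h3 := E4 M f g (fun _ => 0, fun _ => 0) hMf hMg _ _ h1.1 h2.1
    rw [hmon, hom, hexl, mul_one, mul_one, add_zero] at h3
    have h4 := D5.2.2.2.1 _ _ _ _ h1 h2
    have h5 := (D5.2.2.2.2.1 _ _ _ _ h4 h3 (lt_add_of_pos_right _ (hδ M))).1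
    rwa [add_sub_cancel] at h5
  have prod' : ∀ f g f' g' : K, f ≠ 0 → g ≠ 0 → f' ≠ 0 → g' ≠ 0 →
      (∃ M, Abs π (V0 : Set K) M f) → (∃ M, Abs π (V0 : Set K) M g) →
      (∃ M, Abs π (V0 : Set K) M f') → (∃ M, Abs π (V0 : Set K) M g') → f * g = f' * g' →
      ν f + ν g = ν f' + ν g' := by
    rintro f g f' g' hf hg hf' hg' ⟨M1, h1⟩ ⟨M2, h2⟩ ⟨M3, h3⟩ ⟨M4, h4⟩ he
    have a1 := prod (max (max M1 M2) (max M3 M4)) f g hf hg
      (mono ((le_max_left _ _).trans (le_max_left _ _)) _ h1)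
      (mono ((le_max_right _ _).trans (le_max_left _ _)) _ h2)
    have a2 := prod (max (max M1 M2) (max M3 M4)) f' g' hf' hg'
      (mono ((le_max_left _ _).trans (le_max_right _ _)) _ h3)
      (mono ((le_max_right _ _).trans (le_max_right _ _)) _ h4)
    rw [← he] at a2
    exact D5.2.1 _ _ _ a1 a2
  -- sums
  have add' : ∀ f g : K, f ≠ 0 → g ≠ 0 → f + g ≠ 0 →
      (∃ M, Abs π (V0 : Set K) M f) → (∃ M, Abs π (V0 : Set K) M g) →
      (∃ M, Abs π (V0 : Set K) M (f + g)) → min (ν f) (ν g) ≤ ν (f + g) := by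
    rintro f g hf hg hfg ⟨M1, h1⟩ ⟨M2, h2⟩ ⟨M3, h3⟩
    set M := max (max M1 M2) M3 with hM
    have a1 := mono ((le_max_left M1 M2).trans (le_max_left _ M3)) _ h1
    have a2 := mono ((le_max_right M1 M2).trans (le_max_left _ M3)) _ h2
    have a3 := mono (le_max_right (max M1 M2) M3) _ h3
    have b1 := hν f hf M a1
    have b2 := hν g hg M a2
    have b3 := hν (f + g) hfg M a3
    have c1 : UGe u (min (ν f) (ν g)) (ap y ex ac π M f) := fun m hm =>
      (min_le_left _ _).trans (b1.1 m hm)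
    have c2 : UGe u (min (ν f) (ν g)) (ap y ex ac π M g) := fun m hm =>
      (min_le_right _ _).trans (b2.1 m hm)
    have e3 := E3 M (Fin 2) ![f, g]
      (by intro i; fin_cases i; exacts [up _ _ a1, up _ _ a2]) (min (ν f) (ν g))
      (by intro i; fin_cases i; exacts [c1, c2])
    rw [Fin.sum_univ_two, Fin.sum_univ_two] at e3
    simp only [Matrix.cons_val_zero, Matrix.cons_val_one] at e3
    obtain ⟨m, hm, hm'⟩ := b3.2
    rw [hm']
    by_contra hlt
    rw [not_le] at hlt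
    have z1 : (ap y ex ac π M f).coeff m = 0 := by
      by_contra h0; exact absurd (c1 m h0) (not_le.2 hlt)
    have z2 : (ap y ex ac π M g).coeff m = 0 := by
      by_contra h0; exact absurd (c2 m h0) (not_le.2 hlt)
    have z3 := e3 m (by simpa [z1, z2] using hm)
    exact absurd (z3.trans_lt hlt) (not_lt.2 (le_add_of_nonneg_right (hδ M).le))
  -- representation
  have exR : ∀ f : K, ∃ a b : MvPolynomial (Fin n) k, aeval t b ≠ 0 ∧ f * aeval t b = aeval t a :=
    hFG
  choose A B hB hAB using exR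
  have hA : ∀ f, f ≠ 0 → aeval t (A f) ≠ 0 := fun f hf => by
    rw [← hAB f]; exact mul_ne_zero hf (hB f)
  have Rt : ∀ q : MvPolynomial (Fin n) k, ∃ M, Abs π (V0 : Set K) M (aeval t q) := fun q => by
    obtain ⟨N0, h0⟩ := hN.absorb q
    exact ⟨N0, h0 N0 le_rfl⟩
  have R0 : ∀ f ∈ V0, ∃ M, Abs π (V0 : Set K) M f := fun f hf => ⟨0, by
    intro l hl
    rw [List.length_eq_zero_iff] at hl
    subst hl
    exact hf⟩
  have min1 : ∀ (m : Fin r → ℤ) (c : κ), c ≠ 0 → IsMinW u (AddMonoidAlgebra.single m c) (wt u m) := by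
    intro m c hc
    refine ⟨?_, m, by simpa using hc, rfl⟩
    intro m' hm'
    by_cases he : m = m'
    · subst he; exact le_rfl
    · exact absurd (by simp [he]) hm'
  have hwt0 : wt u (0 : Fin r → ℤ) = 0 := by simp [wt]
  have ν1 : ν 1 = 0 := by
    have h1 := hν 1 one_ne_zero 0 (by
      intro l hl
      rw [List.length_eq_zero_iff] at hl
      subst hl
      exact hN.one)
    rw [D1.2.2.2.1 0, AddMonoidAlgebra.one_def] at h1
    have h2 := min1 0 1 one_ne_zero
    rw [hwt0] at h2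
    exact D5.2.1 _ _ _ h1 h2
  classical
  set w : K → Γ' := fun f => if f = 0 then 0 else ν (aeval t (A f)) - ν (aeval t (B f)) with hw
  have key : ∀ f a b : K, f ≠ 0 → a ≠ 0 → b ≠ 0 → (∃ M, Abs π (V0 : Set K) M a) →
      (∃ M, Abs π (V0 : Set K) M b) → f * b = a → w f = ν a - ν b := by
    intro f a b hf ha hb hRa hRb he
    have h1 := prod' (aeval t (A f)) b (aeval t (B f)) a (hA f hf) hb (hB f) ha (Rt _) hRb (Rt _) hRa
      (by rw [← hAB f, ← he]; ring)
    simp only [hw, if_neg hf]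
    rw [sub_eq_sub_iff_add_eq_add, h1, add_comm]
  have wR : ∀ f, f ≠ 0 → (∃ M, Abs π (V0 : Set K) M f) → w f = ν f := by
    intro f hf hR
    rw [key f f 1 hf hf one_ne_zero hR (R0 1 hN.one) (mul_one f), ν1, sub_zero]
  have νmul : ∀ a b : MvPolynomial (Fin n) k, aeval t a ≠ 0 → aeval t b ≠ 0 →
      ν (aeval t a * aeval t b) = ν (aeval t a) + ν (aeval t b) := by
    intro a b ha hb
    have h1 := prod' (aeval t a * aeval t b) 1 (aeval t a) (aeval t b) (mul_ne_zero ha hb)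
      one_ne_zero ha hb (by rw [← map_mul]; exact Rt _) (R0 1 hN.one) (Rt _) (Rt _) (mul_one _)
    rw [ν1, add_zero] at h1
    exact h1
  refine ⟨w, ⟨by simp [hw], ?_, ?_⟩, ?_, ?_⟩
  · intro f g hf hg
    have hA' := hA f hf
    have hA'' := hA g hg
    rw [key (f * g) (aeval t (A f) * aeval t (A g)) (aeval t (B f) * aeval t (B g))
      (mul_ne_zero hf hg) (mul_ne_zero hA' hA'') (mul_ne_zero (hB f) (hB g))
      (by rw [← map_mul]; exact Rt _) (by rw [← map_mul]; exact Rt _)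
      (by rw [← hAB f, ← hAB g]; ring), νmul _ _ hA' hA'', νmul _ _ (hB f) (hB g)]
    simp only [hw, if_neg hf, if_neg hg]
    abel
  · intro f g hf hg hfg
    have hb : aeval t (B f) * aeval t (B g) ≠ 0 := mul_ne_zero (hB f) (hB g)
    have h1 : f * (aeval t (B f) * aeval t (B g)) = aeval t (A f) * aeval t (B g) := by
      rw [← hAB f]; ring
    have h2 : g * (aeval t (B f) * aeval t (B g)) = aeval t (A g) * aeval t (B f) := by
      rw [← hAB g]; ring
    have n1 : aeval t (A f) * aeval t (B g) ≠ 0 := mul_ne_zero (hA f hf) (hB g)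
    have n2 : aeval t (A g) * aeval t (B f) ≠ 0 := mul_ne_zero (hA g hg) (hB f)
    have h3 : (f + g) * (aeval t (B f) * aeval t (B g)) =
        aeval t (A f) * aeval t (B g) + aeval t (A g) * aeval t (B f) := by
      rw [add_mul, h1, h2]
    have n3 : aeval t (A f) * aeval t (B g) + aeval t (A g) * aeval t (B f) ≠ 0 := by
      rw [← h3]; exact mul_ne_zero hfg hb
    have Rb : ∃ M, Abs π (V0 : Set K) M (aeval t (B f) * aeval t (B g)) := by
      rw [← map_mul]; exact Rt _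
    have r1 : ∃ M, Abs π (V0 : Set K) M (aeval t (A f) * aeval t (B g)) := by
      rw [← map_mul]; exact Rt _
    have r2 : ∃ M, Abs π (V0 : Set K) M (aeval t (A g) * aeval t (B f)) := by
      rw [← map_mul]; exact Rt _
    have r3 : ∃ M, Abs π (V0 : Set K) M
        (aeval t (A f) * aeval t (B g) + aeval t (A g) * aeval t (B f)) := by
      rw [← map_mul, ← map_mul, ← map_add]; exact Rt _
    rw [key f _ _ hf n1 hb r1 Rb h1, key g _ _ hg n2 hb r2 Rb h2, key (f + g) _ _ hfg n3 hb r3 Rb h3,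
      min_sub_sub_right]
    exact sub_le_sub_right (add' _ _ n1 n2 n3 r1 r2 r3) _
  · intro c
    by_cases hc : c = 0
    · subst hc; simp [hw]
    have hc' : algebraMap k K c ≠ 0 := (map_ne_zero _).2 hc
    have hmem : algebraMap k K c ∈ V0 := by
      rw [Algebra.algebraMap_eq_smul_one]; exact V0.smul_mem _ hN.one
    rw [wR _ hc' (R0 _ hmem)]
    have h1 := hν _ hc' 0 (by
      intro l hl
      rw [List.length_eq_zero_iff] at hl
      subst hl
      exact hmem)
    have h2 := min1 0 (algebraMap k κ c) ((map_ne_zero _).2 hc)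
    rw [hwt0] at h2
    have h3 : ap y ex ac π 0 (algebraMap k K c) = AddMonoidAlgebra.single 0 (algebraMap k κ c) := by
      simp only [ap, lead]
      rw [hFA.ex_alg, hFA.ac_alg]
    rw [h3] at h1
    exact D5.2.1 _ _ _ h1 h2
  · intro M f hf hM
    rw [wR f hf ⟨M, hM⟩]
    exact hν f hf M hM

end Pool.Agent.F2Ch
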