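import Pool.Agent.Lib.MP_305fdd_al.F2.ChStmG

set_option autoImplicit false

namespace Pool.Agent.F2Ch

open MvPolynomial

section
variable {K Γ : Type} [Field K] [AddCommGroup Γ] [LinearOrder Γ] [IsOrderedAddMonoid Γ]

private theorem f2_one {w : K → Γ} (hw : IsV w) : w 1 = 0 := by
  have h := hw.mul 1 1 one_ne_zero one_ne_zero
  rw [mul_one] at h
  simpa using h

private theorem f2_pow {w : K → Γ} (hw : IsV w) {a : K} (ha : a ≠ 0) (n : ℕ) :
    w (a ^ n) = n • w a := by
  induction n with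
  | zero => rw [pow_zero, f2_one hw, zero_smul]
  | succ n ih => rw [pow_succ, hw.mul _ _ (pow_ne_zero n ha) ha, ih, succ_nsmul]

private theorem f2_prod {w : K → Γ} (hw : IsV w) {ι : Type} (s : Finset ι) (a : ι → K)
    (ha : ∀ i, a i ≠ 0) : w (∏ i ∈ s, a i) = ∑ i ∈ s, w (a i) := by
  classical
  induction s using Finset.induction_on with
  | empty => rw [Finset.prod_empty, Finset.sum_empty, f2_one hw]
  | insert i s hi ih =>
    rw [Finset.prod_insert hi, Finset.sum_insert hi,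
      hw.mul _ _ (ha i) (Finset.prod_ne_zero_iff.2 fun j _ => ha j), ih]

private theorem f2_mon {w : K → Γ} (hw : IsV w) {p r s : ℕ} {x : Fin r → K} {y : Fin s → K}
    (hx : ∀ i, x i ≠ 0) (hy : ∀ j, y j ≠ 0) {u : Fin r → Γ} (hu : ∀ i, w (x i) = u i)
    (hy0 : ∀ j, w (y j) = 0) (l : Ix p r s) : w (mon x y l) = wt u (exl l) := by
  unfold mon
  rw [hw.mul _ _ (Finset.prod_ne_zero_iff.2 fun i _ => pow_ne_zero _ (hx i))
    (Finset.prod_ne_zero_iff.2 fun i _ => pow_ne_zero _ (hy i)),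
    f2_prod hw _ _ (fun i => pow_ne_zero _ (hx i)), f2_prod hw _ _ (fun i => pow_ne_zero _ (hy i))]
  have h1 : ∀ i, w (x i ^ (l.1 i : ℕ)) = (exl l i) • u i := by
    intro i
    rw [f2_pow hw (hx i), hu]
    simp only [exl, natCast_zsmul]
  have h2 : ∀ i, w (y i ^ (l.2 i : ℕ)) = 0 := by
    intro i
    rw [f2_pow hw (hy i), hy0, smul_zero]
  simp only [h1, h2, Finset.sum_const_zero, add_zero, wt]

end

private theorem f2_single {Γ : Type} [AddCommGroup Γ] [LinearOrder Γ] [IsOrderedAddMonoid Γ]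
    {κ : Type} [Field κ] {r : ℕ} (u : Fin r → Γ) (m : Fin r → ℤ) {c : κ} {γ : Γ}
    (h : IsMinW u (AddMonoidAlgebra.single m c) γ) : γ = wt u m := by
  obtain ⟨-, m', hm', rfl⟩ := h
  by_cases hm : m' = m
  · rw [hm]
  · exfalso
    apply hm'
    classical
    rw [AddMonoidAlgebra.coeff_single, Finsupp.single_apply, if_neg (fun h => hm h.symm)]

private theorem f2_wt_single {Γ : Type} [AddCommGroup Γ] {r : ℕ} (u : Fin r → Γ) (i : Fin r) :
    wt u (Pi.single i 1) = u i := by
  unfold wt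
  rw [Finset.sum_eq_single i]
  · rw [Pi.single_eq_same, one_smul]
  · intro j _ hj
    rw [Pi.single_eq_of_ne hj, zero_smul]
  · intro h
    exact absurd (Finset.mem_univ i) h

private theorem f2_wt_zero {Γ : Type} [AddCommGroup Γ] {r : ℕ} (u : Fin r → Γ) :
    wt u 0 = 0 := by
  unfold wt
  simp

theorem p_F2 (hD3 : S_D3) (_hD5 : S_D5) : S_F2 := by
  intro p _ k K κ _ _ _ _ _ _ _ r s x y ex ac π ρ hFA n t h V0 hFG hN Γ' _ _ _ u w hw hw2 hw3
  haveI : CharP K p := charP_of_injective_algebraMap (algebraMap k K).injective p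
  have habs0 : ∀ f ∈ V0, Abs π (V0 : Set K) 0 f := by
    intro f hf l hl
    rw [List.length_eq_zero_iff] at hl
    subst hl
    exact hf
  have hlead : ∀ f ∈ V0, f ≠ 0 → w f = wt u (ex f) := by
    intro f hf hf0
    exact f2_single u _ (hw3 0 f hf0 (habs0 f hf))
  have hx : ∀ i, w (x i) = u i := by
    intro i
    rw [hlead _ (hN.x_mem i) (hFA.x_ne i), hFA.ex_x, f2_wt_single]
  have hy : ∀ j, w (y j) = 0 := by
    intro j
    rw [hlead _ (hN.y_mem j) (hFA.y_ne j), hFA.ex_y, f2_wt_zero]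
  have hmon : ∀ l : Ix p r s, w (mon x y l) = wt u (exl l) := f2_mon hw hFA.x_ne hFA.y_ne hx hy
  have hpi : ∀ l a b, π l (a ^ p * b) = a * π l b := by
    intro l a b
    have h1 : a ^ p * b = ∑ j, (a * π j b) ^ p * mon x y j := by
      conv_lhs => rw [← hFA.pb.repr b]
      rw [Finset.mul_sum]
      refine Finset.sum_congr rfl fun j _ => ?_
      rw [mul_pow, mul_assoc]
    rw [h1, hFA.pb.uniq (fun j => a * π j b) l]
  have hpi0 : ∀ l, π l 0 = 0 := by
    intro l
    have := hpi l 0 0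
    rw [mul_zero, zero_mul] at this
    exact this
  -- first case
  have hB : ∀ M f, Abs π (V0 : Set K) (M + 1) f → ∀ l, π l f ≠ 0 →
      w f ≤ p • w (π l f) + w (mon x y l) := by
    intro M f hf l hl
    have hf0 : f ≠ 0 := by
      rintro rfl
      exact hl (hpi0 l)
    have h1 := hw3 (M + 1) f hf0 hf
    have h2 : Abs π (V0 : Set K) M (π l f) := by
      intro l' hl'
      exact hf (l :: l') (by rw [List.length_cons, hl'])
    have h3 := hw3 M (π l f) hl h2
    have h4 := (((hD3 p k K κ r s x y ex ac π ρ hFA Γ' u).2.1 M f (w f)).1 h1).1 l _ h3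
    rw [hmon]
    exact h4
  have hC : ∀ l f, π l f ≠ 0 → w f ≤ p • w (π l f) + w (mon x y l) := by
    intro l f hl
    obtain ⟨a, b, hb, hab⟩ := hFG f
    have hp1 : 1 ≤ p := (Fact.out : p.Prime).one_le
    obtain ⟨N0, hN0⟩ := hN.absorb (a * b ^ (p - 1))
    have hf0 : f ≠ 0 := by
      rintro rfl
      exact hl (hpi0 l)
    have ha : aeval t a ≠ 0 := by
      rw [← hab]
      exact mul_ne_zero hf0 hb
    set A := aeval t a with hA
    set B := aeval t b with hBd
    have h1 : aeval t (a * b ^ (p - 1)) = A * B ^ (p - 1) := by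
      rw [map_mul, map_pow]
    have h2 : A * B ^ (p - 1) = B ^ p * f := by
      rw [← hab, mul_assoc, ← pow_succ', Nat.sub_add_cancel hp1, mul_comm]
    have h3 : π l (A * B ^ (p - 1)) = B * π l f := by
      rw [h2, hpi]
    have h4 := hB N0 (A * B ^ (p - 1)) (by
      rw [← h1]
      exact hN0 (N0 + 1) (by omega)) l (by
      rw [h3]
      exact mul_ne_zero hb hl)
    rw [h3, h2, hw.mul _ _ (pow_ne_zero p hb) hf0, hw.mul _ _ hb hl, f2_pow hw hb, smul_add,
      add_assoc] at h4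
    exact le_of_add_le_add_left h4
  refine ⟨hx, hy, hC, ?_⟩
  intro φ hh hex hφ f hf
  have h1 := hC ix0 (h * f) (by rw [← hφ]; exact hf)
  have hf0 : f ≠ 0 := by
    rintro rfl
    rw [hφ, mul_zero, hpi0] at hf
    exact hf rfl
  have h2 : w h = 0 := by
    rw [hlead h hN.h_mem hh, hex, f2_wt_zero]
  have h3 : w (mon x y (ix0 : Ix p r s)) = 0 := by
    rw [hmon]
    have : (exl (ix0 : Ix p r s)) = 0 := by
      funext i
      simp [exl, ix0]
    rw [this, f2_wt_zero]
  rw [hw.mul _ _ hh hf0, h2, zero_add, ← hφ, h3, add_zero] at h1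
  exact h1

end Pool.Agent.F2Ch
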