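import Pool.Agent.Lib.MP_305fdd_al.F2.ChStm
import Pool.Agent.Lib.MP_305fdd_al.F2.ChStmG

set_option autoImplicit false

namespace Pool.Agent.F2Ch

open MvPolynomial

private theorem f4_pinv {p : ℕ} [Fact p.Prime] {K ι : Type} [Field K] [CharP K p] [Fintype ι]
    {w : ι → K} {π : ι → K → K} (pb : IsPB p w π) (i : ι) : IsPinv p (π i) := by
  constructor
  · intro a b
    have h1 : a + b = ∑ j, (π j a + π j b) ^ p * w j := by
      conv_lhs => rw [← pb.repr a, ← pb.repr b]
      rw [← Finset.sum_add_distrib]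
      refine Finset.sum_congr rfl fun j _ => ?_
      rw [add_pow_char, add_mul]
    rw [h1, pb.uniq (fun j => π j a + π j b) i]
  · intro a b
    have h1 : a ^ p * b = ∑ j, (a * π j b) ^ p * w j := by
      conv_lhs => rw [← pb.repr b]
      rw [Finset.mul_sum]
      refine Finset.sum_congr rfl fun j _ => ?_
      rw [mul_pow, mul_assoc]
    rw [h1, pb.uniq (fun j => a * π j b) i]

theorem p_F4 (hA3 : S_A3) : S_F4 := by
  intro p _ k K κ _ _ _ _ _ _ _ Γ _ _ _ v r s x y ex ac π ρ hfr n t h hFG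
  haveI : CharP K p := charP_of_injective_algebraMap (algebraMap k K).injective p
  let σ := Fin n ⊕ (Fin r ⊕ (Fin s ⊕ Unit))
  let T : σ → K := Sum.elim t (Sum.elim x (Sum.elim y (fun _ => h)))
  let e : σ ≃ Fin (Fintype.card σ) := Fintype.equivFin σ
  let t' : Fin (Fintype.card σ) → K := T ∘ e.symm
  have hT : ∀ a : σ, t' (e a) = T a := fun a => by
    simp only [t', Function.comp_apply, Equiv.symm_apply_apply]
  have hren : ∀ q : MvPolynomial (Fin n) k,
      aeval t' (rename (fun i => e (Sum.inl i)) q) = aeval t q := by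
    intro q
    rw [aeval_rename]
    congr 2
    funext i
    exact hT (Sum.inl i)
  have hFG' : FracGen k t' := by
    intro z
    obtain ⟨a, b, hb, hab⟩ := hFG z
    exact ⟨rename (fun i => e (Sum.inl i)) a, rename (fun i => e (Sum.inl i)) b, by
      rw [hren]; exact hb, by rw [hren, hren]; exact hab⟩
  obtain ⟨V, hV1, hV2, hV3, hV4⟩ := hA3 p k K (Fintype.card σ) t' hFG' (Ix p r s) π
    (fun l => f4_pinv hfr.pb l) ({1, h} ∪ (Set.range x ∪ Set.range y))
    ((Set.toFinite _).union ((Set.finite_range x).union (Set.finite_range y)))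
  refine ⟨Fintype.card σ, t', V, fun q => ⟨_, hren q⟩, hFG', ?_⟩
  exact
    { fin := hV1
      stab := hV3
      absorb := hV4
      one := hV2 _ (Or.inl (Or.inl rfl))
      x_mem := fun i => hV2 _ (Or.inr (Or.inl ⟨i, rfl⟩))
      y_mem := fun j => hV2 _ (Or.inr (Or.inr ⟨j, rfl⟩))
      h_mem := hV2 _ (Or.inl (Or.inr rfl))
      x_t := fun i => ⟨X (e (Sum.inr (Sum.inl i))), by rw [aeval_X]; exact hT _⟩
      y_t := fun j => ⟨X (e (Sum.inr (Sum.inr (Sum.inl j)))), by rw [aeval_X]; exact hT _⟩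
      h_t := ⟨X (e (Sum.inr (Sum.inr (Sum.inr ())))), by rw [aeval_X]; exact hT _⟩ }

end Pool.Agent.F2Ch
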