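import Pool.Agent.Lib.MP_305fdd_al.F2.ChStmG

/-!
# MP_305fdd_al, F_2 project, section C: piece F5
-/

set_option autoImplicit false

namespace Pool.Agent.F2Ch

open MvPolynomial

private theorem f5_uniq {κ : Type} [Field κ] {r : ℕ} {Γ : Type} [AddCommGroup Γ] [LinearOrder Γ]
    [IsOrderedAddMonoid Γ] {u : Fin r → Γ} {P : AddMonoidAlgebra κ (Fin r → ℤ)} {c c' : Γ}
    (h : IsMinW u P c) (h' : IsMinW u P c') : c = c' := by
  obtain ⟨h1, m, hm, hc⟩ := h
  obtain ⟨h1', m', hm', hc'⟩ := h'
  refine le_antisymm ?_ ?_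
  · rw [hc']
    exact h1 m' hm'
  · rw [hc]
    exact h1' m hm

section
variable {K Γ : Type} [Field K] [AddCommGroup Γ] [LinearOrder Γ] [IsOrderedAddMonoid Γ]
  {v : K → Γ}

private theorem f5_one (hv : IsV v) : v 1 = 0 := by
  have h := hv.mul 1 1 one_ne_zero one_ne_zero
  rw [mul_one] at h
  exact left_eq_add.1 h

private theorem f5_pow (hv : IsV v) {a : K} (ha : a ≠ 0) (n : ℕ) : v (a ^ n) = n • v a := by
  induction n with
  | zero => rw [pow_zero, zero_smul, f5_one hv]
  | succ n ih => rw [pow_succ, hv.mul _ _ (pow_ne_zero _ ha) ha, ih, succ_nsmul]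

private theorem f5_prod (hv : IsV v) {ι : Type} (s : Finset ι) (g : ι → K)
    (hg : ∀ i ∈ s, g i ≠ 0) : v (∏ i ∈ s, g i) = ∑ i ∈ s, v (g i) := by
  classical
  induction s using Finset.induction_on with
  | empty => rw [Finset.prod_empty, Finset.sum_empty, f5_one hv]
  | insert a s ha ih =>
    rw [Finset.prod_insert ha, Finset.sum_insert ha,
      hv.mul _ _ (hg a (Finset.mem_insert_self a s))
        (Finset.prod_ne_zero_iff.2 fun i hi => hg i (Finset.mem_insert_of_mem hi)),
      ih fun i hi => hg i (Finset.mem_insert_of_mem hi)]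

private theorem f5_sum (hv : IsV v) {ι : Type} (s : Finset ι) (g : ι → K)
    (hg : ∑ i ∈ s, g i ≠ 0) : ∃ i ∈ s, g i ≠ 0 ∧ v (g i) ≤ v (∑ i ∈ s, g i) := by
  classical
  induction s using Finset.induction_on with
  | empty => exact absurd Finset.sum_empty hg
  | insert a s ha ih =>
    rw [Finset.sum_insert ha] at hg ⊢
    by_cases h0 : g a = 0
    · rw [h0, zero_add] at hg ⊢
      obtain ⟨i, hi, h1, h2⟩ := ih hg
      exact ⟨i, Finset.mem_insert_of_mem hi, h1, h2⟩
    · by_cases h1 : ∑ i ∈ s, g i = 0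
      · rw [h1, add_zero]
        exact ⟨a, Finset.mem_insert_self a s, h0, le_rfl⟩
      · have h2 := hv.add _ _ h0 h1 hg
        rcases min_le_iff.1 h2 with h3 | h3
        · exact ⟨a, Finset.mem_insert_self a s, h0, h3⟩
        · obtain ⟨i, hi, h4, h5⟩ := ih h1
          exact ⟨i, Finset.mem_insert_of_mem hi, h4, h5.trans h3⟩

private theorem f5_mon (hv : IsV v) {p r s : ℕ} (x : Fin r → K) (y : Fin s → K)
    (hx : ∀ i, x i ≠ 0) (hy : ∀ j, y j ≠ 0) (hy0 : ∀ j, v (y j) = 0) (l : Ix p r s) :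
    mon x y l ≠ 0 ∧ v (mon x y l) = wt (fun i => v (x i)) (exl l) := by
  have h1 : ∏ i, x i ^ (l.1 i : ℕ) ≠ 0 := Finset.prod_ne_zero_iff.2 fun i _ => pow_ne_zero _ (hx i)
  have h2 : ∏ j, y j ^ (l.2 j : ℕ) ≠ 0 := Finset.prod_ne_zero_iff.2 fun j _ => pow_ne_zero _ (hy j)
  refine ⟨mul_ne_zero h1 h2, ?_⟩
  unfold mon wt exl
  rw [hv.mul _ _ h1 h2, f5_prod hv _ _ (fun i _ => pow_ne_zero _ (hx i)),
    f5_prod hv _ _ (fun j _ => pow_ne_zero _ (hy j))]
  have h3 : ∑ j, v (y j ^ (l.2 j : ℕ)) = 0 :=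
    Finset.sum_eq_zero fun j _ => by rw [f5_pow hv (hy j), hy0 j, smul_zero]
  rw [h3, add_zero]
  refine Finset.sum_congr rfl fun i _ => ?_
  rw [f5_pow hv (hx i), natCast_zsmul]

end

theorem p_F5 (hD3 : S_D3) : S_F5 := by
  intro p _ k K κ _ _ _ _ _ _ _ r s x y ex ac π ρ hFA n t h V0 hF hN φ Γ' _ _ _
  refine ⟨?_, ?_⟩
  · intro u w w' hw hw'
    have key : ∀ q : MvPolynomial (Fin n) k, aeval t q ≠ 0 → w (aeval t q) = w' (aeval t q) := by
      intro q hq
      obtain ⟨N0, hN0⟩ := hN.absorb q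
      have h1 := hN0 N0 le_rfl
      exact f5_uniq (hw.min N0 _ hq h1) (hw'.min N0 _ hq h1)
    funext f
    by_cases hf : f = 0
    · rw [hf, hw.isv.zero, hw'.isv.zero]
    · obtain ⟨a, b, hb, hab⟩ := hF f
      have ha : aeval t a ≠ 0 := by
        rw [← hab]
        exact mul_ne_zero hf hb
      have h1 := hw.isv.mul f _ hf hb
      have h2 := hw'.isv.mul f _ hf hb
      rw [hab] at h1 h2
      rw [key a ha, h2, key b hb] at h1
      exact (add_right_cancel h1).symm
  · intro v hv
    have hap0 : ∀ M, ap y ex ac π M 0 = 0 := by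
      intro M
      induction M with
      | zero =>
        show lead ex ac 0 = 0
        unfold lead
        rw [hFA.ac_zero]
        exact AddMonoidAlgebra.single_zero _
      | succ M ih =>
        show ∑ l, (ap y ex ac π M (π l 0)) ^ p * om y ac l = 0
        refine Finset.sum_eq_zero fun l _ => ?_
        have h1 : π l 0 = 0 := by
          have h2 := hFA.pb.uniq (fun _ => 0) l
          rw [Finset.sum_eq_zero] at h2
          · exact h2
          · intro j _
            rw [zero_pow (Fact.out : p.Prime).ne_zero, zero_mul]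
        rw [h1, ih, zero_pow (Fact.out : p.Prime).ne_zero, zero_mul]
    intro M
    induction M with
    | zero =>
      intro f hf
      have hex := hv.vb.gen f hf
      show IsMinW _ (lead ex ac f) _
      unfold lead
      refine ⟨?_, ex f, ?_, hex⟩
      · intro m hm
        rw [AddMonoidAlgebra.coeff_single, Finsupp.single_apply] at hm
        by_cases hm' : ex f = m
        · rw [← hm', ← hex]
        · rw [if_neg hm'] at hm
          exact absurd rfl hm
      · rw [AddMonoidAlgebra.coeff_single, Finsupp.single_apply, if_pos rfl]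
        exact hFA.ac_ne f hf
    | succ M ih =>
      intro f hf
      obtain ⟨-, hD, -⟩ := hD3 p k K κ r s x y ex ac π ρ hFA Γ' (fun i => v (x i))
      rw [hD M f (v f)]
      have hmon := f5_mon hv.isv (p := p) x y hFA.x_ne hFA.y_ne hv.y_val
      refine ⟨?_, ?_⟩
      · intro l c' hc'
        by_cases h0 : π l f = 0
        · rw [h0, hap0] at hc'
          obtain ⟨-, m, hm, -⟩ := hc'
          exact absurd rfl hm
        · rw [f5_uniq hc' (ih _ h0), ← (hmon l).2]
          exact hv.orth l f h0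
      · have hrep := hFA.pb.repr f
        have hne : ∑ l, (π l f) ^ p * mon x y l ≠ 0 := by rw [hrep]; exact hf
        obtain ⟨l, -, h1, h2⟩ := f5_sum hv.isv _ _ hne
        rw [hrep] at h2
        have h0 : π l f ≠ 0 := by
          intro h0
          rw [h0, zero_pow (Fact.out : p.Prime).ne_zero, zero_mul] at h1
          exact h1 rfl
        refine ⟨l, v (π l f), ih _ h0, ?_⟩
        rw [hv.isv.mul _ _ (pow_ne_zero _ h0) (hmon l).1, f5_pow hv.isv h0] at h2
        rw [← (hmon l).2]
        exact le_antisymm (hv.orth l f h0) h2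

end Pool.Agent.F2Ch
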