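import Pool.Agent.Lib.MP_305fdd_al.F2.ChStmG

/-!
# MP_305fdd_al, F_2 project, section C: piece K1 (composites)
-/

set_option autoImplicit false

namespace Pool.Agent.F2Ch

open MvPolynomial

section
variable {K Γ : Type} [Field K] [AddCommGroup Γ] [LinearOrder Γ] [IsOrderedAddMonoid Γ]

theorem k1_one {v : K → Γ} (h : IsV v) : v 1 = 0 := by
  have := h.mul 1 1 one_ne_zero one_ne_zero
  rw [mul_one] at this
  simpa using this

theorem k1_inv {v : K → Γ} (h : IsV v) {x : K} (hx : x ≠ 0) : v x⁻¹ = - v x := by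
  have := h.mul x x⁻¹ hx (inv_ne_zero hx)
  rw [mul_inv_cancel₀ hx, k1_one h] at this
  exact eq_neg_of_add_eq_zero_right this.symm

theorem k1_pow {v : K → Γ} (h : IsV v) {x : K} (hx : x ≠ 0) (n : ℕ) : v (x ^ n) = n • v x := by
  induction n with
  | zero => simp [k1_one h]
  | succ n ih => rw [pow_succ, h.mul _ _ (pow_ne_zero n hx) hx, ih, succ_nsmul]

theorem k1_zpow {v : K → Γ} (h : IsV v) {x : K} (hx : x ≠ 0) (n : ℤ) : v (x ^ n) = n • v x := by
  cases n with
  | ofNat n =>
    simp only [Int.ofNat_eq_natCast, zpow_natCast, natCast_zsmul]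
    exact k1_pow h hx n
  | negSucc n =>
    rw [zpow_negSucc, k1_inv h (pow_ne_zero _ hx), k1_pow h hx, negSucc_zsmul]

theorem k1_prod {v : K → Γ} (h : IsV v) {r : ℕ} (x : Fin r → K) (hx : ∀ i, x i ≠ 0)
    (m : Fin r → ℤ) : v (∏ i, x i ^ m i) = wt (fun i => v (x i)) m := by
  unfold wt
  have key : ∀ s : Finset (Fin r), v (∏ i ∈ s, x i ^ m i) = ∑ i ∈ s, m i • v (x i) := by
    classical
    intro s
    induction s using Finset.induction_on with
    | empty => simp [k1_one h]
    | insert i s hi ih =>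
      rw [Finset.prod_insert hi, Finset.sum_insert hi,
        h.mul _ _ (zpow_ne_zero _ (hx i)) (Finset.prod_ne_zero_iff.2 fun j _ => zpow_ne_zero _ (hx j)),
        ih, k1_zpow h (hx i)]
  exact key Finset.univ

end

theorem p_K1 : S_K1 := by
  intro p hp k K κ _ _ _ _ _ _ _ Γ _ _ _ v r s x y ex ac π ρ hF φ hφ hc φb hb Γ' _ _ _ Q hQ hQT hQC
  have hp0 : (p : ℕ) ≠ 0 := hp.out.ne_zero
  have hv := hF.isv
  have ha := hF.isac
  have hacz : ∀ f g, f ≠ 0 → g ≠ 0 → f + g ≠ 0 → v f ≤ v g →
      (toLex (v f, Q (ac f)) : Γ ×ₗ Γ') ≤ toLex (v (f + g), Q (ac (f + g))) ∨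
      (toLex (v g, Q (ac g)) : Γ ×ₗ Γ') ≤ toLex (v (f + g), Q (ac (f + g))) := by
    intro f g hf hg hfg hle
    have h1 : v f ≤ v (f + g) := by
      have := hv.add f g hf hg hfg
      rwa [min_eq_left hle] at this
    rcases h1.lt_or_eq with h2 | h2
    · exact Or.inl ((Prod.Lex.toLex_le_toLex).2 (Or.inl h2))
    · have h3 := ha.add (v f) f g (Or.inr le_rfl) (Or.inr hle)
      unfold lc at h3
      rw [if_pos ⟨hfg, h2.symm⟩, if_pos ⟨hf, rfl⟩] at h3
      by_cases h4 : v g = v f
      · rw [if_pos ⟨hg, h4⟩] at h3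
        have h5 := hQ.add (ac f) (ac g) (ha.ne f hf) (ha.ne g hg) (by
          rw [← h3]; exact ha.ne _ hfg)
        rw [← h3] at h5
        rcases min_le_iff.1 h5 with h6 | h6
        · exact Or.inl ((Prod.Lex.toLex_le_toLex).2 (Or.inr ⟨h2, h6⟩))
        · exact Or.inr ((Prod.Lex.toLex_le_toLex).2 (Or.inr ⟨h4.trans h2, h6⟩))
      · rw [if_neg (fun h => h4 h.2), add_zero] at h3
        refine Or.inl ((Prod.Lex.toLex_le_toLex).2 (Or.inr ⟨h2, ?_⟩))
        simp only [h3]
        exact le_rfl
  refine ⟨⟨?_, ?_, ?_⟩, ?_, ?_⟩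
  · simp only [hv.zero, ha.zero, hQ.zero]
    rfl
  · intro f g hf hg
    simp only [hv.mul f g hf hg, ha.mul, hQ.mul _ _ (ha.ne f hf) (ha.ne g hg)]
    rfl
  · intro f g hf hg hfg
    rw [min_le_iff]
    rcases le_total (v f) (v g) with h | h
    · exact hacz f g hf hg hfg h
    · have := hacz g f hg hf (by rwa [add_comm]) h
      rw [add_comm g f] at this
      exact this.symm
  · intro c
    simp only [hF.triv c, ha.alg, hQT c]
    rfl
  · intro f hf
    have h1 := hc f hf
    show (toLex (v f, Q (ac f)) : Γ ×ₗ Γ') ≤ toLex (p • v (φ f), p • Q (ac (φ f)))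
    rcases h1.lt_or_eq with h2 | h2
    · exact (Prod.Lex.toLex_le_toLex).2 (Or.inl h2)
    · refine (Prod.Lex.toLex_le_toLex).2 (Or.inr ⟨h2, ?_⟩)
      have hf0 : f ≠ 0 := by
        rintro rfl
        apply hf
        have h := hφ.add 0 0
        rw [add_zero] at h
        simpa using h
      set z : K := ∏ i, x i ^ ex (φ f) i with hz
      have hz0 : z ≠ 0 := Finset.prod_ne_zero_iff.2 fun j _ => zpow_ne_zero _ (hF.vb.ne j)
      have hvz : v z = v (φ f) := by
        rw [hz, k1_prod hv x hF.vb.ne, ← hF.vb.gen _ hf]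
      have hac1 : ac 1 = 1 := by simpa using ha.alg 1
      have hacpow : ∀ (a : K) (n : ℕ), ac (a ^ n) = ac a ^ n := by
        intro a n
        induction n with
        | zero => simp [hac1]
        | succ n ih => rw [pow_succ, pow_succ, ha.mul, ih]
      have hacinv : ∀ a : K, a ≠ 0 → ac a⁻¹ = (ac a)⁻¹ := by
        intro a h0
        have := ha.mul a a⁻¹
        rw [mul_inv_cancel₀ h0, hac1] at this
        exact eq_inv_of_mul_eq_one_right this.symm
      have haczpow : ∀ (i : Fin r) (n : ℤ), ac (x i ^ n) = 1 := by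
        intro i n
        cases n with
        | ofNat n =>
          simp only [Int.ofNat_eq_natCast, zpow_natCast]
          rw [hacpow, ha.x_one, one_pow]
        | negSucc n =>
          rw [zpow_negSucc, hacinv _ (pow_ne_zero _ (hF.vb.ne i)), hacpow, ha.x_one, one_pow, inv_one]
      have hacprod : ∀ s : Finset (Fin r), ac (∏ i ∈ s, x i ^ ex (φ f) i) = 1 := by
        classical
        intro s
        induction s using Finset.induction_on with
        | empty => simp [hac1]
        | insert i s hi ih => rw [Finset.prod_insert hi, ha.mul, ih, haczpow, one_mul]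
      have hacz1 : ac z = 1 := hacprod Finset.univ
      have hzp : z ^ p ≠ 0 := pow_ne_zero _ hz0
      set g : K := f * (z ^ p)⁻¹ with hg
      have hg0 : g ≠ 0 := mul_ne_zero hf0 (inv_ne_zero hzp)
      have hvg : v g = 0 := by
        rw [hg, hv.mul _ _ hf0 (inv_ne_zero hzp), k1_inv hv hzp, k1_pow hv hz0, hvz, h2]
        simp
      have hacg : ac g = ac f := by
        rw [hg, ha.mul, hacinv _ hzp, hacpow, hacz1, one_pow, inv_one, mul_one]
      have hφg : φ f = z * φ g := by
        rw [← hφ.pow_mul]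
        congr 1
        rw [hg]
        field_simp
      have hφg0 : φ g ≠ 0 := by
        intro h
        rw [h, mul_zero] at hφg
        exact hf hφg
      have hvφg : v (φ g) = 0 := by
        have h3 : v (φ f) = v z + v (φ g) := by
          rw [hφg]
          exact hv.mul _ _ hz0 hφg0
        rw [hvz] at h3
        simpa using h3
      have hacφg : ac (φ g) = ac (φ f) := by
        rw [hφg, ha.mul, hacz1, one_mul]
      have h4 := (hb g (Or.inr hvg.ge)).2
      unfold lc at h4
      rw [if_pos ⟨hφg0, hvφg⟩, if_pos ⟨hg0, hvg⟩, hacφg, hacg] at h4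
      have h5 := hQC (ac f) (by rw [← h4]; exact ha.ne _ hf)
      rwa [← h4] at h5

end Pool.Agent.F2Ch
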