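import Pool.Agent.Lib.MP_305fdd_al.F2.ChStmG

/-!
# MP_305fdd_al, F_2 project, section C: piece K3
-/

set_option autoImplicit false

namespace Pool.Agent.F2Ch

private theorem k3_fst_le {Γ Γ' : Type} [LinearOrder Γ] [LinearOrder Γ'] {a b : Γ ×ₗ Γ'} (h : a ≤ b) :
    (ofLex a).1 ≤ (ofLex b).1 := by
  rcases Prod.Lex.le_iff.1 h with h | h
  · exact h.le
  · exact h.1.le

private theorem k3_add {Γ Γ' : Type} [AddCommGroup Γ] [AddCommGroup Γ'] (a b : Γ ×ₗ Γ') :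
    (ofLex (a + b)).1 = (ofLex a).1 + (ofLex b).1 := rfl

private theorem k3_nsmul {Γ Γ' : Type} [AddCommGroup Γ] [AddCommGroup Γ'] (n : ℕ) (a : Γ ×ₗ Γ') :
    (ofLex (n • a)).1 = n • (ofLex a).1 := rfl

theorem p_K3 : S_K3 := by
  intro p k K _ _ _ Γ _ _ _ Γ' _ _ _ φ V hV hT hC
  refine ⟨⟨?_, ?_, ?_⟩, ?_, ?_⟩
  · show (ofLex (V 0)).1 = 0
    rw [hV.zero]
    rfl
  · intro x y hx hy
    show (ofLex (V (x * y))).1 = (ofLex (V x)).1 + (ofLex (V y)).1
    rw [hV.mul x y hx hy, k3_add]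
  · intro x y hx hy hxy
    show min (ofLex (V x)).1 (ofLex (V y)).1 ≤ (ofLex (V (x + y))).1
    have h := hV.add x y hx hy hxy
    rcases min_le_iff.1 h with h | h
    · exact (min_le_left _ _).trans (k3_fst_le h)
    · exact (min_le_right _ _).trans (k3_fst_le h)
  · intro c
    show (ofLex (V (algebraMap k K c))).1 = 0
    rw [hT c]
    rfl
  · intro f hf
    show (ofLex (V f)).1 ≤ p • (ofLex (V (φ f))).1
    have h := k3_fst_le (hC f hf)
    rwa [k3_nsmul] at h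

end Pool.Agent.F2Ch
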