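import Pool.Agent.Lib.MP_305fdd_al.F2.ChStmG

/-!
# MP_305fdd_al, F_2 project, section C: piece K4 (lexicographic and real positivity)
-/

set_option autoImplicit false

namespace Pool.Agent.F2Ch

open MvPolynomial

/-- the weight for lexicographic weights -/
theorem k4_wt_lex {r : ℕ} (a b : Fin r → ℝ) (n : Fin r → ℤ) :
    wt (fun i => (toLex (a i, b i) : ℝ ×ₗ ℝ)) n = toLex (wt a n, wt b n) := by
  unfold wt
  have h : ∀ s : Finset (Fin r), ∑ i ∈ s, n i • (toLex (a i, b i) : ℝ ×ₗ ℝ) =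
      toLex (∑ i ∈ s, n i • a i, ∑ i ∈ s, n i • b i) := by
    classical
    intro s
    induction s using Finset.induction_on with
    | empty => rfl
    | insert i s hi ih =>
      rw [Finset.sum_insert hi, Finset.sum_insert hi, Finset.sum_insert hi, ih]
      rfl
  exact h Finset.univ

/-- the weight is affine in the weights -/
theorem k4_wt_add {r : ℕ} (a b : Fin r → ℝ) (ε : ℝ) (n : Fin r → ℤ) :
    wt (fun i => a i + ε * b i) n = wt a n + ε * wt b n := by
  unfold wt
  rw [Finset.mul_sum, ← Finset.sum_add_distrib]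
  refine Finset.sum_congr rfl fun i _ => ?_
  simp only [zsmul_eq_mul]
  ring

theorem p_K4 : S_K4 := by
  intro r N a b hN hG
  have key : ∀ n ∈ N, ∀ᶠ ε in nhdsWithin (0 : ℝ) (Set.Ioi 0), 0 < wt (fun i => a i + ε * b i) n := by
    intro n hn
    have h := hG n hn
    rw [k4_wt_lex] at h
    have h' : (0 : ℝ) < wt a n ∨ (0 : ℝ) = wt a n ∧ (0 : ℝ) < wt b n := by
      have := (Prod.Lex.toLex_lt_toLex (x := ((0 : ℝ), (0 : ℝ))) (y := (wt a n, wt b n))).1 h
      exact this
    simp only [k4_wt_add]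
    rcases h' with h1 | ⟨h1, h2⟩
    · have hc : ContinuousAt (fun ε : ℝ => wt a n + ε * wt b n) 0 := by fun_prop
      have h0 : (0 : ℝ) < (fun ε : ℝ => wt a n + ε * wt b n) 0 := by
        simpa using h1
      have : ∀ᶠ ε in nhds (0 : ℝ), 0 < wt a n + ε * wt b n :=
        hc.tendsto.eventually (lt_mem_nhds h0)
      exact nhdsWithin_le_nhds this
    · filter_upwards [self_mem_nhdsWithin] with ε hε
      rw [← h1, zero_add]
      exact mul_pos hε h2
  have hall : ∀ᶠ ε in nhdsWithin (0 : ℝ) (Set.Ioi 0), ∀ n ∈ N, 0 < wt (fun i => a i + ε * b i) n :=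
    (Filter.eventually_all_finite hN).2 key
  obtain ⟨ε0, h0, h1⟩ := mem_nhdsGT_iff_exists_Ioo_subset.1 hall
  exact ⟨ε0, h0, fun ε he he' n hn => h1 ⟨he, he'⟩ n hn⟩

end Pool.Agent.F2Ch
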