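import Pool.Agent.Lib.MP_305fdd_al.F2.ChStmG

set_option autoImplicit false

namespace Pool.Agent.F2Ch

open MvPolynomial

theorem k5_wt {r : ℕ} (A : Fin r → ℝ ×ₗ ℝ) (m : Fin r → ℤ) :
    wt A m = toLex (wt (fun i => (ofLex (A i)).1) m, wt (fun i => (ofLex (A i)).2) m) := by
  have h : ∀ s : Finset (Fin r), ∑ i ∈ s, m i • A i =
      toLex (∑ i ∈ s, m i • (ofLex (A i)).1, ∑ i ∈ s, m i • (ofLex (A i)).2) := by
    intro s
    induction s using Finset.induction_on with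
    | empty => rfl
    | insert i s hi ih =>
      rw [Finset.sum_insert hi, Finset.sum_insert hi, Finset.sum_insert hi, ih]
      rfl
  exact h Finset.univ

theorem k5_lin {r : ℕ} (a b : Fin r → ℝ) (ε : ℝ) (m : Fin r → ℤ) :
    wt (fun i => a i + ε * b i) m = wt a m + ε * wt b m := by
  simp only [wt, smul_add, Finset.sum_add_distrib, Finset.mul_sum, mul_smul_comm]

theorem k5_small (S : Finset (ℝ × ℝ)) (A0 B0 : ℝ)
    (h : ∀ q ∈ S, A0 < q.1 ∨ (A0 = q.1 ∧ B0 ≤ q.2)) :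
    ∃ ε1 > 0, ∀ ε : ℝ, 0 < ε → ε < ε1 → ∀ q ∈ S, A0 + ε * B0 ≤ q.1 + ε * q.2 := by
  induction S using Finset.induction_on with
  | empty => exact ⟨1, one_pos, fun ε _ _ q hq => absurd hq (Finset.notMem_empty q)⟩
  | insert q S _ ih =>
    obtain ⟨ε1, hε1, h1⟩ := ih fun q' hq' => h q' (Finset.mem_insert_of_mem hq')
    have h2 : ∃ ε2 > 0, ∀ ε : ℝ, 0 < ε → ε < ε2 → A0 + ε * B0 ≤ q.1 + ε * q.2 := by
      rcases h q (Finset.mem_insert_self q S) with h3 | ⟨h3, h4⟩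
      · refine ⟨(q.1 - A0) / (|B0 - q.2| + 1), div_pos (sub_pos.2 h3) (by positivity), ?_⟩
        intro ε he he2
        rw [lt_div_iff₀ (by positivity)] at he2
        have h5 : B0 - q.2 ≤ |B0 - q.2| := le_abs_self _
        nlinarith [abs_nonneg (B0 - q.2)]
      · refine ⟨1, one_pos, ?_⟩
        intro ε he _
        rw [h3]
        have := mul_le_mul_of_nonneg_left h4 he.le
        linarith
    obtain ⟨ε2, hε2, h2⟩ := h2
    refine ⟨min ε1 ε2, lt_min hε1 hε2, ?_⟩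
    intro ε he he2 q' hq'
    rcases Finset.mem_insert.1 hq' with h3 | h3
    · rw [h3]
      exact h2 ε he (lt_of_lt_of_le he2 (min_le_right _ _))
    · exact h1 ε he (lt_of_lt_of_le he2 (min_le_left _ _)) q' h3

theorem p_K5 (hD0 : S_D0) (hF3 : S_F3) (hF5 : S_F5) (hK4 : S_K4) : S_K5 := by
  intro p _ k K κ _ _ _ _ _ _ _ V r s x y ex ac π ρ F n t h V0 hfg hN hh hVh φ hφ
  have hFA := hD0 p k K κ (ℝ ×ₗ ℝ) V r s x y ex ac π ρ F
  obtain ⟨hfin, hcell⟩ := hF3 p k K κ (ℝ ×ₗ ℝ) V r s x y ex ac π ρ F n t h V0 hfg hN hh hVh φ hφ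
  have hmin5 := (hF5 p k K κ r s x y ex ac π ρ hFA n t h V0 hfg hN φ (ℝ ×ₗ ℝ)).2 V F
  obtain ⟨ε0, hε0, hgood⟩ := hK4 r (Cmp V x ex π (prodSp x y V0 : Set K))
    (fun i => (ofLex (V (x i))).1) (fun i => (ofLex (V (x i))).2) hfin (fun m hm => hm.1)
  have hw : ∀ ε : ℝ, ∃ w : K → ℝ, 0 < ε → ε < ε0 →
      At k p φ y ex ac π V0 (fun i => (ofLex (V (x i))).1 + ε * (ofLex (V (x i))).2) w := by
    intro ε
    by_cases he : 0 < ε ∧ ε < ε0
    · obtain ⟨w, hw, _⟩ := hcell ℝ (fun i => (ofLex (V (x i))).1 + ε * (ofLex (V (x i))).2)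
        (hgood ε he.1 he.2)
      exact ⟨w, fun _ _ => hw⟩
    · exact ⟨fun _ => 0, fun h1 h2 => absurd ⟨h1, h2⟩ he⟩
  choose w hw using hw
  refine ⟨ε0, w, hε0, fun ε h1 h2 => ⟨(hw ε h1 h2).isv, (hw ε h1 h2).triv, (hw ε h1 h2).compat⟩, ?_⟩
  rintro f hf ⟨q, hq⟩
  obtain ⟨M, hM⟩ := hN.absorb q
  have hM1 : Abs π (V0 : Set K) M f := by
    rw [← hq]
    exact hM M le_rfl
  have hmin : ∀ ε, 0 < ε → ε < ε0 → IsMinW
      (fun i => (ofLex (V (x i))).1 + ε * (ofLex (V (x i))).2) (ap y ex ac π M f) (w ε f) :=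
    fun ε h1 h2 => (hw ε h1 h2).min M f hf hM1
  have hle : ∀ ε, 0 < ε → ε < ε0 → ∀ m, (ap y ex ac π M f).coeff m ≠ 0 →
      w ε f ≤ wt (fun i => (ofLex (V (x i))).1) m + ε * wt (fun i => (ofLex (V (x i))).2) m := by
    intro ε h1 h2 m hm
    have h3 := (hmin ε h1 h2).1 m hm
    rwa [k5_lin] at h3
  have hex : ∀ ε, 0 < ε → ε < ε0 → ∃ m, (ap y ex ac π M f).coeff m ≠ 0 ∧
      w ε f = wt (fun i => (ofLex (V (x i))).1) m + ε * wt (fun i => (ofLex (V (x i))).2) m := by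
    intro ε h1 h2
    obtain ⟨m, hm, h3⟩ := (hmin ε h1 h2).2
    exact ⟨m, hm, by rw [h3, k5_lin]⟩
  obtain ⟨hVle, m0, hm0, hVf⟩ := hmin5 M f hf
  rw [k5_wt] at hVf
  have hV1 : (ofLex (V f)).1 = wt (fun i => (ofLex (V (x i))).1) m0 := by rw [hVf]; rfl
  have hV2 : (ofLex (V f)).2 = wt (fun i => (ofLex (V (x i))).2) m0 := by rw [hVf]; rfl
  refine ⟨⟨convex_Ioo 0 ε0, ?_⟩, ?_, ?_⟩
  · intro e1 h1 e2 h2 α β hα hβ hαβ
    have h3 : α • e1 + β • e2 ∈ Set.Ioo 0 ε0 := convex_Ioo 0 ε0 h1 h2 hα hβ hαβ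
    obtain ⟨m, hm, h4⟩ := hex _ h3.1 h3.2
    have h5 := hle e1 h1.1 h1.2 m hm
    have h6 := hle e2 h2.1 h2.2 m hm
    show α • w e1 f + β • w e2 f ≤ w (α • e1 + β • e2) f
    rw [h4]
    simp only [smul_eq_mul]
    have h7 := mul_le_mul_of_nonneg_left h5 hα
    have h8 := mul_le_mul_of_nonneg_left h6 hβ
    calc α * w e1 f + β * w e2 f ≤ α * (wt (fun i => (ofLex (V (x i))).1) m +
          e1 * wt (fun i => (ofLex (V (x i))).2) m) + β * (wt (fun i => (ofLex (V (x i))).1) m +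
          e2 * wt (fun i => (ofLex (V (x i))).2) m) := add_le_add h7 h8
      _ = (α + β) * wt (fun i => (ofLex (V (x i))).1) m +
          (α * e1 + β * e2) * wt (fun i => (ofLex (V (x i))).2) m := by ring
      _ = _ := by rw [hαβ, one_mul]
  · intro ε h1 h2
    rw [hV1, hV2]
    exact hle ε h1 h2 m0 hm0
  · classical
    obtain ⟨ε1, hε1, h1⟩ := k5_small ((ap y ex ac π M f).coeff.support.image fun m =>
      (wt (fun i => (ofLex (V (x i))).1) m, wt (fun i => (ofLex (V (x i))).2) m))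
      (ofLex (V f)).1 (ofLex (V f)).2 (by
        intro q hq
        obtain ⟨m, hm, rfl⟩ := Finset.mem_image.1 hq
        have h2 := hVle m (Finsupp.mem_support_iff.1 hm)
        rw [k5_wt, Prod.Lex.le_iff] at h2
        exact h2)
    refine ⟨min ε1 ε0, lt_min hε1 hε0, ?_⟩
    intro ε he he1
    have he0 : ε < ε0 := lt_of_lt_of_le he1 (min_le_right _ _)
    refine ⟨he0, le_antisymm ?_ ?_⟩
    · rw [hV1, hV2]
      exact hle ε he he0 m0 hm0
    · obtain ⟨m, hm, h4⟩ := hex ε he he0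
      rw [h4]
      exact h1 ε he (lt_of_lt_of_le he1 (min_le_left _ _)) _
        (Finset.mem_image_of_mem _ (Finsupp.mem_support_iff.2 hm))

end Pool.Agent.F2Ch

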