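import Pool.Agent.Lib.MP_305fdd_al.F2.ChStmG

/-!
# MP_305fdd_al, F_2 project, section C: piece K6 (germs of real valuations)
-/

set_option autoImplicit false

namespace Pool.Agent.F2Ch

open MvPolynomial

theorem p_K6 : S_K6 := by
  intro p k K I _ _ _ U φ w hV hT hC
  refine ⟨⟨?_, ?_, ?_⟩, ?_, ?_, ?_, ?_⟩
  · exact Filter.Germ.coe_eq.2 (Filter.Eventually.of_forall fun i => (hV i).zero)
  · intro x y hx hy
    exact Filter.Germ.coe_eq.2 (Filter.Eventually.of_forall fun i => (hV i).mul x y hx hy)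
  · intro x y hx hy hxy
    rw [min_le_iff]
    have h : ∀ i, w i x ≤ w i (x + y) ∨ w i y ≤ w i (x + y) := fun i =>
      min_le_iff.1 ((hV i).add x y hx hy hxy)
    have h2 : ∀ᶠ i in (U : Filter I), w i x ≤ w i (x + y) ∨ w i y ≤ w i (x + y) :=
      Filter.Eventually.of_forall h
    rcases Ultrafilter.eventually_or.1 h2 with h3 | h3
    · exact Or.inl (Filter.Germ.coe_le.2 h3)
    · exact Or.inr (Filter.Germ.coe_le.2 h3)
  · intro c
    exact Filter.Germ.coe_eq.2 (Filter.Eventually.of_forall fun i => hT i c)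
  · intro f hf
    exact Filter.Germ.coe_le.2 (Filter.Eventually.of_forall fun i => hC i f hf)
  · intro f
    exact Filter.Germ.coe_lt
  · intro f
    exact Filter.Germ.coe_eq

end Pool.Agent.F2Ch
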