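import Pool.Agent.Lib.MP_305fdd_al.F2.ChStmG

/-!
# MP_305fdd_al, F_2 project, section C: piece [F2C R1]
-/

set_option autoImplicit false

namespace Pool.Agent.F2Ch

open MvPolynomial

section
variable {p : ℕ} {κ : Type} [Field κ] {r : ℕ}

private theorem r1_inj (hp : p ≠ 0) : Function.Injective fun m : Fin r → ℤ => (p : ℤ) • m := by
  intro m m' h
  funext i
  have h1 := congrFun h i
  simp only [Pi.smul_apply, smul_eq_mul] at h1
  exact mul_left_cancel₀ (by exact_mod_cast hp) h1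

private theorem r1_zero {φb : κ → κ} (hφ : IsPinv p φb) : φb 0 = 0 := by
  have h := hφ.add 0 0
  rw [add_zero] at h
  exact left_eq_add.1 h

/-- the map `Φ0` -/
private noncomputable def r1_Phi0 (hp : p ≠ 0) {φb : κ → κ} (hφ : IsPinv p φb)
    (P : AddMonoidAlgebra κ (Fin r → ℤ)) : AddMonoidAlgebra κ (Fin r → ℤ) :=
  AddMonoidAlgebra.ofCoeff
    ((P.coeff.comapDomain _ (r1_inj hp).injOn).mapRange φb (r1_zero hφ))

private theorem r1_coeff (hp : p ≠ 0) {φb : κ → κ} (hφ : IsPinv p φb)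
    (P : AddMonoidAlgebra κ (Fin r → ℤ)) (m : Fin r → ℤ) :
    (r1_Phi0 hp hφ P).coeff m = φb (P.coeff ((p : ℤ) • m)) := by
  unfold r1_Phi0
  rw [AddMonoidAlgebra.coeff_ofCoeff, Finsupp.mapRange_apply, Finsupp.comapDomain_apply]

private theorem r1_add (hp : p ≠ 0) {φb : κ → κ} (hφ : IsPinv p φb)
    (P P' : AddMonoidAlgebra κ (Fin r → ℤ)) :
    r1_Phi0 hp hφ (P + P') = r1_Phi0 hp hφ P + r1_Phi0 hp hφ P' := by
  ext m
  rw [r1_coeff, AddMonoidAlgebra.coeff_add, AddMonoidAlgebra.coeff_add, Finsupp.add_apply,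
    Finsupp.add_apply, r1_coeff, r1_coeff, hφ.add]

private theorem r1_single_mul (m : Fin r → ℤ) (c : κ) (P : AddMonoidAlgebra κ (Fin r → ℤ))
    (m' : Fin r → ℤ) : (AddMonoidAlgebra.single m c * P).coeff m' = c * P.coeff (m' - m) :=
  AddMonoidAlgebra.coeff_single_mul_eq_mul_coeff _ fun d _ => by
    rw [eq_sub_iff_add_eq, add_comm]

private theorem r1_pow [Fact p.Prime] [CharP κ p] (hp : p ≠ 0) {φb : κ → κ} (hφ : IsPinv p φb)
    (Q P : AddMonoidAlgebra κ (Fin r → ℤ)) :
    r1_Phi0 hp hφ (Q ^ p * P) = Q * r1_Phi0 hp hφ P := by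
  have hch : CharP (AddMonoidAlgebra κ (Fin r → ℤ)) p :=
    charP_of_injective_algebraMap (FaithfulSMul.algebraMap_injective κ _) p
  induction Q using AddMonoidAlgebra.induction_linear with
  | zero =>
    rw [zero_pow hp, zero_mul, zero_mul]
    ext m
    rw [r1_coeff, AddMonoidAlgebra.coeff_zero, Finsupp.zero_apply, r1_zero hφ]
    rfl
  | add Q Q' h h' =>
    rw [add_pow_char, add_mul, r1_add, h, h', add_mul]
  | single m c =>
    ext m'
    rw [AddMonoidAlgebra.single_pow, r1_coeff, r1_single_mul, r1_single_mul, r1_coeff,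
      hφ.pow_mul, smul_sub]
    simp only [natCast_zsmul]

private theorem r1_single (hp : p ≠ 0) {φb : κ → κ} (hφ : IsPinv p φb) (m : Fin r → ℤ) (c : κ) :
    r1_Phi0 hp hφ (AddMonoidAlgebra.single ((p : ℤ) • m) c) =
      AddMonoidAlgebra.single m (φb c) := by
  classical
  ext m'
  rw [r1_coeff, AddMonoidAlgebra.coeff_single, AddMonoidAlgebra.coeff_single,
    Finsupp.single_apply, Finsupp.single_apply]
  by_cases h : m = m'
  · rw [h, if_pos rfl, if_pos rfl]
  · rw [if_neg h, if_neg fun h' => h (r1_inj hp h'), r1_zero hφ]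

private theorem r1_single' (hp : p ≠ 0) {φb : κ → κ} (hφ : IsPinv p φb) (m : Fin r → ℤ) (c : κ)
    (hm : ¬ ∃ m', m = (p : ℤ) • m') :
    r1_Phi0 hp hφ (AddMonoidAlgebra.single m c) = 0 := by
  classical
  ext m'
  rw [r1_coeff, AddMonoidAlgebra.coeff_single, Finsupp.single_apply,
    if_neg fun h' => hm ⟨m', h'⟩, r1_zero hφ]
  rfl

/-- extension of a `p⁻¹`-linear map of a domain to the fraction field -/
private theorem r1_ext {A L : Type} [CommRing A] [IsDomain A] [Field L] [Algebra A L]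
    [IsFractionRing A L] {p : ℕ} (hp : p ≠ 0) (F : A → A) (hadd : ∀ x y, F (x + y) = F x + F y)
    (hpow : ∀ Q P, F (Q ^ p * P) = Q * F P) :
    ∃ Φ : L → L, IsPinv p Φ ∧ ∀ P, Φ (algebraMap A L P) = algebraMap A L (F P) := by
  classical
  have hex : ∀ z : L, ∃ P Q : A, Q ≠ 0 ∧ z * algebraMap A L Q = algebraMap A L P := by
    intro z
    obtain ⟨P, Q, hQ, hz⟩ := IsFractionRing.div_surjective (A := A) z
    have hQ0 : Q ≠ 0 := nonZeroDivisors.ne_zero hQ
    have hQL : algebraMap A L Q ≠ 0 := by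
      rw [Ne, IsFractionRing.to_map_eq_zero_iff]
      exact hQ0
    exact ⟨P, Q, hQ0, by rw [← hz, div_mul_cancel₀ _ hQL]⟩
  choose N D hD hND using hex
  have hinj : Function.Injective (algebraMap A L) := IsFractionRing.injective A L
  have hne : ∀ Q : A, Q ≠ 0 → algebraMap A L Q ≠ 0 := fun Q hQ => by
    rw [Ne, IsFractionRing.to_map_eq_zero_iff]
    exact hQ
  obtain ⟨q, rfl⟩ : ∃ q, p = q + 1 := ⟨p - 1, by omega⟩
  let Φ : L → L := fun z => algebraMap A L (F (N z * D z ^ q)) / algebraMap A L (D z)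
  have key : ∀ z P Q, Q ≠ 0 → z * algebraMap A L Q = algebraMap A L P →
      Φ z = algebraMap A L (F (P * Q ^ q)) / algebraMap A L Q := by
    intro z P Q hQ hz
    have h1 : N z * Q = P * D z := by
      apply hinj
      rw [map_mul, map_mul, ← hz, ← hND]
      ring
    change algebraMap A L (F (N z * D z ^ q)) / algebraMap A L (D z) = _
    rw [div_eq_div_iff (hne _ (hD z)) (hne Q hQ), ← map_mul, ← map_mul]
    congr 1
    rw [mul_comm _ Q, ← hpow, mul_comm _ (D z), ← hpow]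
    congr 1
    calc Q ^ (q + 1) * (N z * D z ^ q) = (N z * Q) * (Q ^ q * D z ^ q) := by ring
      _ = D z ^ (q + 1) * (P * Q ^ q) := by rw [h1]; ring
  refine ⟨Φ, ⟨?_, ?_⟩, ?_⟩
  · intro x y
    have hx := hND x
    have hy := hND y
    have hDD : D x * D y ≠ 0 := mul_ne_zero (hD x) (hD y)
    rw [key x (N x * D y) (D x * D y) hDD (by rw [map_mul, map_mul, ← hx]; ring),
      key y (N y * D x) (D x * D y) hDD (by rw [map_mul, map_mul, ← hy]; ring),
      key (x + y) (N x * D y + N y * D x) (D x * D y) hDD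
        (by rw [map_add, map_mul, map_mul, map_mul, ← hx, ← hy]; ring),
      ← add_div, ← map_add, ← hadd]
    congr 3
    ring
  · intro a b
    have ha := hND a
    have hb := hND b
    have hDD : D a ^ (q + 1) * D b ≠ 0 := mul_ne_zero (pow_ne_zero _ (hD a)) (hD b)
    rw [key (a ^ (q + 1) * b) (N a ^ (q + 1) * N b) (D a ^ (q + 1) * D b) hDD
        (by rw [map_mul, map_mul, map_pow, map_pow, ← ha, ← hb]; ring),
      key b (N b) (D b) (hD b) hb]
    have e : N a ^ (q + 1) * N b * (D a ^ (q + 1) * D b) ^ q =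
        (N a * D a ^ q) ^ (q + 1) * (N b * D b ^ q) := by ring
    rw [e, hpow, map_mul, map_mul, map_mul, map_pow, map_pow, ← ha]
    have h3 := hne _ (hD a)
    have h4 := hne _ (hD b)
    generalize algebraMap A L (D a) = δ at h3 ⊢
    generalize algebraMap A L (D b) = β at h4 ⊢
    generalize algebraMap A L (F (N b * D b ^ q)) = X
    rw [mul_div_assoc', div_eq_div_iff (mul_ne_zero (pow_ne_zero _ h3) h4) h4]
    ring
  · intro P
    rw [key (algebraMap A L P) P 1 one_ne_zero (by rw [map_one, mul_one]), one_pow, mul_one,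
      map_one, div_one]

end

theorem p_R1 : S_R1 := by
  intro p _ κ _ _ r φb hφ
  have hp : p ≠ 0 := (Fact.out : p.Prime).ne_zero
  obtain ⟨Φ, h1, h2⟩ := r1_ext (A := AddMonoidAlgebra κ (Fin r → ℤ))
    (L := FractionRing (AddMonoidAlgebra κ (Fin r → ℤ))) hp (r1_Phi0 hp hφ) (r1_add hp hφ)
    (r1_pow hp hφ)
  refine ⟨Φ, h1, ?_, ?_⟩
  · intro m c
    rw [h2, r1_single]
  · intro m c hm
    rw [h2, r1_single' hp hφ m c hm, map_zero]

end Pool.Agent.F2Ch
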