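import Pool.Agent.Lib.MP_305fdd_al.F2.Ch.R2

set_option autoImplicit false

namespace Pool.Agent.F2Ch

open MvPolynomial

theorem r3_pinv {p : ℕ} [Fact p.Prime] {K ι : Type} [Field K] [CharP K p] [Fintype ι] {b : ι → K}
    {π : ι → K → K} (h : IsPB p b π) (i : ι) : IsPinv p (π i) := by
  constructor
  · intro x y
    have : x + y = ∑ j, (π j x + π j y) ^ p * b j := by
      simp_rw [add_pow_char, add_mul, Finset.sum_add_distrib]
      rw [h.repr x, h.repr y]
    conv_lhs => rw [this]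
    exact h.uniq (fun j => π j x + π j y) i
  · intro a z
    have : a ^ p * z = ∑ j, (a * π j z) ^ p * b j := by
      simp_rw [mul_pow, mul_assoc]
      rw [← Finset.mul_sum, h.repr z]
    conv_lhs => rw [this]
    exact h.uniq (fun j => a * π j z) i

theorem r3_pinv_zero {p : ℕ} {K : Type} [Field K] {π : K → K} (h : IsPinv p π) : π 0 = 0 := by
  have := h.add 0 0
  rw [add_zero] at this
  exact left_eq_add.mp this

theorem r3_wt_smul {Γ : Type} [AddCommGroup Γ] {r : ℕ} (u : Fin r → Γ) (p : ℕ) (m : Fin r → ℤ) :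
    wt u ((p : ℤ) • m) = p • wt u m := by
  simp [wt, mul_smul, Finset.smul_sum]

theorem r3_inj (p : ℕ) (hp : p ≠ 0) (r : ℕ) :
    Function.Injective (fun m : Fin r → ℤ => (p : ℤ) • m) := by
  intro m m' h
  funext i
  have := congrFun h i
  simp only [Pi.smul_apply, smul_eq_mul] at this
  exact mul_left_cancel₀ (by exact_mod_cast hp) this

/-- The map on Laurent polynomials induced by `φb`. -/
noncomputable def r3Q {κ : Type} [Field κ] {r : ℕ} (p : ℕ) (hp : p ≠ 0) (φb : κ → κ)
    (h0 : φb 0 = 0) (P : AddMonoidAlgebra κ (Fin r → ℤ)) : AddMonoidAlgebra κ (Fin r → ℤ) :=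
  AddMonoidAlgebra.ofCoeff (Finsupp.mapRange φb h0
    (Finsupp.comapDomain (fun m : Fin r → ℤ => (p : ℤ) • m) P.coeff (r3_inj p hp r).injOn))

theorem r3Q_coeff {κ : Type} [Field κ] {r : ℕ} (p : ℕ) (hp : p ≠ 0) (φb : κ → κ)
    (h0 : φb 0 = 0) (P : AddMonoidAlgebra κ (Fin r → ℤ)) (m : Fin r → ℤ) :
    (r3Q p hp φb h0 P).coeff m = φb (P.coeff ((p : ℤ) • m)) := by
  simp [r3Q]

theorem r3_Phi {κ : Type} [Field κ] {r : ℕ} (p : ℕ) (hp : p ≠ 0) (φb : κ → κ)
    (h0 : φb 0 = 0) (hadd : ∀ a b, φb (a + b) = φb a + φb b)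
    (Φ : FractionRing (AddMonoidAlgebra κ (Fin r → ℤ)) →
        FractionRing (AddMonoidAlgebra κ (Fin r → ℤ))) (hΦ : IsPinv p Φ)
    (h1 : ∀ (m : Fin r → ℤ) (c : κ),
        Φ (algebraMap _ _ (AddMonoidAlgebra.single ((p : ℤ) • m) c)) =
          algebraMap _ _ (AddMonoidAlgebra.single m (φb c)))
    (h2 : ∀ (m : Fin r → ℤ) (c : κ), (¬ ∃ m', m = (p : ℤ) • m') →
        Φ (algebraMap _ _ (AddMonoidAlgebra.single m c)) = 0)
    (P : AddMonoidAlgebra κ (Fin r → ℤ)) :
    Φ (algebraMap _ _ P) = algebraMap _ _ (r3Q p hp φb h0 P) := by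
  induction P using AddMonoidAlgebra.induction_linear with
  | zero =>
    have : r3Q p hp φb h0 (0 : AddMonoidAlgebra κ (Fin r → ℤ)) = 0 := by
      apply AddMonoidAlgebra.ext
      ext m
      rw [r3Q_coeff]
      simp [h0]
    rw [this, map_zero, r3_pinv_zero hΦ]
  | add P P' hP hP' =>
    have : r3Q p hp φb h0 (P + P') = r3Q p hp φb h0 P + r3Q p hp φb h0 P' := by
      apply AddMonoidAlgebra.ext
      ext m
      rw [AddMonoidAlgebra.coeff_add, Finsupp.add_apply, r3Q_coeff, r3Q_coeff, r3Q_coeff,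
        AddMonoidAlgebra.coeff_add, Finsupp.add_apply, hadd]
    rw [this, map_add, hΦ.add, hP, hP', map_add]
  | single m c =>
    by_cases hm : ∃ m', m = (p : ℤ) • m'
    · obtain ⟨m', rfl⟩ := hm
      rw [h1]
      congr 1
      apply AddMonoidAlgebra.ext
      ext m''
      rw [r3Q_coeff, AddMonoidAlgebra.coeff_single, AddMonoidAlgebra.coeff_single]
      by_cases he : m' = m''
      · subst he; simp
      · rw [Finsupp.single_apply, if_neg he, Finsupp.single_apply,
          if_neg (fun h => he (r3_inj p hp r h)), h0]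
    · rw [h2 m c hm]
      have : r3Q p hp φb h0 (AddMonoidAlgebra.single m c) = 0 := by
        apply AddMonoidAlgebra.ext
        ext m''
        rw [r3Q_coeff, AddMonoidAlgebra.coeff_single, Finsupp.single_apply,
          if_neg (fun h => hm ⟨m'', h⟩), h0]
        simp
      rw [this, map_zero]

theorem r3_lc_mul {K L Γ : Type} [Field K] [Field L] [AddCommGroup Γ] [LinearOrder Γ]
    [IsOrderedAddMonoid Γ] {w : K → Γ} (hw : IsV w) {AC : K → L}
    (hmul : ∀ f g, AC (f * g) = AC f * AC g) (γ : Γ) (z b : K) (hb : b ≠ 0) :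
    lc w AC (γ + w b) (z * b) = lc w AC γ z * AC b := by
  classical
  unfold lc
  by_cases hz : z = 0
  · subst hz; simp
  · by_cases hg : w z = γ
    · rw [if_pos ⟨mul_ne_zero hz hb, by rw [hw.mul _ _ hz hb, hg]⟩, if_pos ⟨hz, hg⟩, hmul]
    · rw [if_neg, if_neg (fun h => hg h.2), zero_mul]
      intro h
      apply hg
      have := h.2
      rw [hw.mul _ _ hz hb] at this
      exact add_right_cancel this

theorem r3_v_pow {K Γ : Type} [Field K] [AddCommGroup Γ] [LinearOrder Γ]
    [IsOrderedAddMonoid Γ] {w : K → Γ} (hw : IsV w) (b : K) (hb : b ≠ 0) (n : ℕ) :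
    w (b ^ n) = n • w b := by
  induction n with
  | zero => simp [r2_v_one hw]
  | succ n ih => rw [pow_succ, hw.mul _ _ (pow_ne_zero _ hb) hb, ih, succ_nsmul]

theorem p_R3 (_hD0 : S_D0) (hD1 : S_D1) (hD2 : S_D2) (_hD3 : S_D3) (hD4 : S_D4) (hD5 : S_D5)
    (hE1 : S_E1) (hE2 : S_E2) (hE3 : S_E3) (hE4 : S_E4) (_hF2 : S_F2) (_hF5 : S_F5) : S_R3 := by
  classical
  intro p _ k K κ _ _ _ _ _ _ _ Γ _ _ _ v r s x y ex ac π ρ hFr n t h V0 hFG hN hh0 hvh φ φb hφ
    hφb Γ' _ _ _ _ u w hG hAt AC hA0 hAne hAmul hAadd hAR Φ hΦ hΦ1 hΦ2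
  have hFA := _hD0 p k K κ Γ v r s x y ex ac π ρ hFr
  obtain ⟨hmono, hind, hprod, hsum⟩ := r2_facts hD4 hD5 hE1 hE2 hE3 hE4 p k K κ Γ v r s x y ex ac π
    ρ hFr hFA n t h V0 hN Γ' u hG
  obtain ⟨-, -, -, hap1, hap0⟩ := hD1 p k K κ r s x y ex ac π ρ hFA
  have hw := hAt.isv
  have hp : p.Prime := Fact.out
  have : CharP K p := charP_of_injective_algebraMap (algebraMap k K).injective p
  have : CharP κ p := charP_of_injective_algebraMap (algebraMap k κ).injective p
  have hπ : ∀ l, IsPinv p (π l) := fun l => r3_pinv hFA.pb l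
  have hρ : ∀ j, IsPinv p (ρ j) := fun j => r3_pinv hFA.rb j
  have hφadd : ∀ a b, φ (a + b) = φ a + φ b := by
    intro a b; rw [hφ, hφ, hφ, mul_add, (hπ _).add]
  have hφpow : ∀ a b, φ (a ^ p * b) = a * φ b := by
    intro a b; rw [hφ, hφ, mul_left_comm, (hπ _).pow_mul]
  have hφ0 : φ 0 = 0 := by rw [hφ, mul_zero, r3_pinv_zero (hπ _)]
  have hφb0 : φb 0 = 0 := by rw [hφb, mul_zero, r3_pinv_zero (hρ _)]
  have hφbadd : ∀ a b, φb (a + b) = φb a + φb b := by
    intro a b; rw [hφb, hφb, hφb, mul_add, (hρ _).add]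
  -- the first assertion
  have hge : ∀ γ f, Ge w (p • γ) f → Ge w γ (φ f) := by
    intro γ f hf
    by_cases hφf : φ f = 0
    · exact Or.inl hφf
    · right
      have h1 := hAt.compat f hφf
      rcases hf with hf | hf
      · subst hf; exact absurd hφ0 hφf
      · exact (nsmul_le_nsmul_iff_right hp.pos.ne').1 (hf.trans h1)
  refine fun γ f hf => ⟨hge γ f hf, ?_⟩
  -- leading coefficients from approximations
  have hug : ∀ γ M a, Abs π (V0 : Set K) M a → Ge w γ a → UGe u γ (ap y ex ac π M a) := by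
    intro γ M a hM hge
    by_cases ha : a = 0
    · subst ha
      rw [hap0]
      intro m hm
      exact absurd rfl hm
    · intro m hm
      have := (hAt.min M a ha hM).1 m hm
      rcases hge with h | h
      · exact absurd h ha
      · exact h.trans this
  have hL : ∀ γ M a, Abs π (V0 : Set K) M a → Ge w γ a →
      lc w AC γ a = algebraMap _ _ (part u γ (ap y ex ac π M a)) := by
    intro γ M a hM hge
    unfold lc
    by_cases ha : a = 0
    · subst ha
      rw [hap0, if_neg (fun h => h.1 rfl)]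
      have : part u γ (0 : AddMonoidAlgebra κ (Fin r → ℤ)) = 0 := by
        apply AddMonoidAlgebra.ext
        ext m
        rw [r2_part_coeff]
        simp
      rw [this, map_zero]
    · by_cases hg : w a = γ
      · rw [if_pos ⟨ha, hg⟩, hAR M a ha hM, hg]
      · rw [if_neg (fun h => hg h.2)]
        rcases hge with h | h
        · exact absurd h ha
        · rw [r2_part_zero u γ (w a) (lt_of_le_of_ne h (fun h' => hg h'.symm)) _
            (hAt.min M a ha hM).1, map_zero]
  have hAbsh : ∀ M, Abs π (V0 : Set K) M h := by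
    intro M l _
    exact r2_wd_mem π _ hN.stab l h hN.h_mem
  have hexh : ex h = 0 := by
    apply hFr.vb.indep
    rw [← hFr.vb.gen h hh0, hvh]
  have hmin0 : IsMinW u (ap y ex ac π 0 h) 0 := by
    have h1 : ap y ex ac π 0 h = AddMonoidAlgebra.single (ex h) (ac h) := rfl
    rw [h1, hexh]
    constructor
    · intro m hm
      by_cases hm0 : m = 0
      · subst hm0; rw [r2_wt_zero]
      · exfalso; apply hm
        rw [AddMonoidAlgebra.coeff_single, Finsupp.single_apply, if_neg (fun h => hm0 h.symm)]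
    · refine ⟨0, ?_, (r2_wt_zero u).symm⟩
      rw [AddMonoidAlgebra.coeff_single, Finsupp.single_eq_same]
      exact hFA.ac_ne h hh0
  have hparth : ∀ M, UGe u 0 (ap y ex ac π M h) ∧
      part u 0 (ap y ex ac π M h) = AddMonoidAlgebra.single 0 (ac h) := by
    intro M
    obtain ⟨h1, h2⟩ := hind 0 M h 0 (hAbsh 0) (Nat.zero_le _) hmin0
    refine ⟨h1.1, ?_⟩
    rw [h2]
    have h3 : ap y ex ac π 0 h = AddMonoidAlgebra.single (ex h) (ac h) := rfl
    rw [h3, hexh]
    apply AddMonoidAlgebra.ext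
    ext m
    rw [r2_part_coeff, AddMonoidAlgebra.coeff_single]
    by_cases hm : m = 0
    · subst hm; simp [r2_wt_zero]
    · have h0 : (Finsupp.single (0 : Fin r → ℤ) (ac h)) m = 0 := by
        rw [Finsupp.single_apply, if_neg (fun h => hm h.symm)]
      rw [h0]; simp
  -- Step 1: polynomials in `t`
  have step1 : ∀ (q : MvPolynomial (Fin n) k) γ, Ge w (p • γ) (aeval t q) →
      lc w AC γ (φ (aeval t q)) = Φ (lc w AC (p • γ) (aeval t q)) := by
    intro q γ hq
    set a := aeval t q with ha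
    obtain ⟨qh, hqh⟩ := hN.h_t
    obtain ⟨N1, hN1⟩ := hN.absorb (qh * q)
    obtain ⟨N2, hN2⟩ := hN.absorb q
    let M := N1 + N2
    have b1 : Abs π (V0 : Set K) (M + 1) (h * a) := by
      have := hN1 (M + 1) (by omega)
      rwa [map_mul, hqh] at this
    have b2 : Abs π (V0 : Set K) (M + 1) a := hN2 (M + 1) (by omega)
    have b3 : Abs π (V0 : Set K) M (φ a) := by
      intro l hl
      have := b1 (ix0 :: l) (by simp [hl])
      rw [hφ]
      exact this
    rw [hL γ M (φ a) b3 (hge γ a hq), hL (p • γ) (M + 1) a b2 hq,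
      r3_Phi p hp.ne_zero φb hφb0 hφbadd Φ hΦ hΦ1 hΦ2]
    congr 1
    apply AddMonoidAlgebra.ext
    ext m
    rw [r3Q_coeff, r2_part_coeff, r2_part_coeff, r3_wt_smul]
    have e1 : (ap y ex ac π M (φ a)).coeff m =
        ρ j0 ((ap y ex ac π (M + 1) (h * a)).coeff ((p : ℤ) • m)) := by
      have := (hD2 p k K κ r s x y ex ac π ρ hFA).1 M (h * a) (fun _ => ⟨0, hp.pos⟩) m
      have hpm : (fun i => (p : ℤ) * m i + (((fun _ => ⟨0, hp.pos⟩ : Fin r → Fin p) i : ℕ) : ℤ)) =
          (p : ℤ) • m := by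
        funext i; simp
      rw [hpm] at this
      rw [this, hFA.rb.uniq (fun j => (ap y ex ac π M (π ((fun _ => ⟨0, hp.pos⟩), j)
        (h * a))).coeff m) j0, hφ]
      rfl
    by_cases hm : wt u m = γ
    · rw [if_pos hm, if_pos (by rw [hm]), e1]
      have e2 := (hprod (M + 1) h a 0 (p • γ) (hAbsh _) b2 (hparth _).1 (hug _ _ _ b2 hq)).2
      rw [zero_add, (hparth _).2] at e2
      have e3 := congrArg (fun P => AddMonoidAlgebra.coeff P ((p : ℤ) • m)) e2
      rw [r2_part_coeff, r3_wt_smul, hm, if_pos rfl] at e3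
      rw [e3, hφb]
      congr 1
      rw [AddMonoidAlgebra.coeff_single_zero_mul, r2_part_coeff, r3_wt_smul, hm, if_pos rfl]
    · rw [if_neg hm, if_neg, hφb0]
      intro h
      exact hm (nsmul_right_injective hp.ne_zero h)
  -- Step 2: the general case
  obtain ⟨a, b, hb, hab⟩ := hFG f
  set B := aeval t b with hB
  have e1 : f * B ^ p = aeval t (a * b ^ (p - 1)) := by
    rw [map_mul, map_pow, ← hab, ← hB]
    have : B ^ p = B * B ^ (p - 1) := by
      rw [← pow_succ', Nat.sub_add_cancel hp.one_lt.le]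
    rw [this]; ring
  have hBp : B ^ p ≠ 0 := pow_ne_zero _ hb
  have e2 : φ (aeval t (a * b ^ (p - 1))) = φ f * B := by
    rw [← e1, mul_comm f, hφpow, mul_comm]
  have hwB : w (B ^ p) = p • w B := r3_v_pow hw B hb p
  have e3 := r3_lc_mul hw hAmul γ (φ f) B hb
  have e4 := r3_lc_mul hw hAmul (p • γ) f (B ^ p) hBp
  have hACp : AC (B ^ p) = AC B ^ p := by
    have hone : AC 1 = 1 := by
      have := hAmul 1 1
      rw [mul_one] at this
      exact (mul_eq_left₀ (hAne 1 one_ne_zero)).mp this.symm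
    have : ∀ n : ℕ, AC (B ^ n) = AC B ^ n := by
      intro n
      induction n with
      | zero => simp [hone]
      | succ n ih => rw [pow_succ, hAmul, ih, pow_succ]
    exact this p
  have hgeB : Ge w (p • (γ + w B)) (aeval t (a * b ^ (p - 1))) := by
    by_cases hf0 : f = 0
    · left; rw [← e1, hf0, zero_mul]
    · right
      rcases hf with hf | hf
      · exact absurd hf hf0
      · rw [← e1, hw.mul _ _ hf0 hBp, hwB, smul_add]
        exact add_le_add_left hf _
  have e5 := step1 _ (γ + w B) hgeB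
  rw [e2, e3, ← e1, smul_add, ← hwB, e4, hACp, mul_comm (lc w AC (p • γ) f), hΦ.pow_mul,
    mul_comm] at e5
  exact mul_left_cancel₀ (hAne B hb) e5

end Pool.Agent.F2Ch
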