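import Pool.Agent.Lib.MP_305fdd_al.F2.ChStm
import Pool.Agent.Lib.MP_305fdd_al.F2.ChStmG

/-!
# MP_305fdd_al, F_2 project, section C: piece R4 (helper4)
-/

set_option autoImplicit false

namespace Pool.Agent.F2Ch

open MvPolynomial

/-- the images of the monomials -/
private noncomputable def r4_E (κ : Type) [Field κ] (r : ℕ) :
    Multiplicative (Fin r → ℤ) →* FractionRing (AddMonoidAlgebra κ (Fin r → ℤ)) where
  toFun m := algebraMap _ _ (AddMonoidAlgebra.single m.toAdd (1 : κ))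
  map_one' := by
    show algebraMap _ _ (AddMonoidAlgebra.single (0 : Fin r → ℤ) (1 : κ)) = 1
    rw [← AddMonoidAlgebra.one_def, map_one]
  map_mul' m n := by
    show algebraMap _ _ (AddMonoidAlgebra.single (m.toAdd + n.toAdd) (1 : κ)) = _
    rw [← map_mul, AddMonoidAlgebra.single_mul_single, mul_one]

private theorem r4_E_apply (κ : Type) [Field κ] (r : ℕ) (m : Fin r → ℤ) :
    r4_E κ r (Multiplicative.ofAdd m) =
      algebraMap _ _ (AddMonoidAlgebra.single m (1 : κ)) := rfl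

private theorem r4_sum {r : ℕ} (m : Fin r → ℤ) :
    (Multiplicative.ofAdd m : Multiplicative (Fin r → ℤ)) =
      ∏ i, (Multiplicative.ofAdd (Pi.single i (1 : ℤ) : Fin r → ℤ)) ^ (m i) := by
  apply Multiplicative.toAdd.injective
  rw [toAdd_prod]
  simp only [toAdd_zpow, toAdd_ofAdd]
  funext j
  rw [Finset.sum_apply]
  simp [Pi.single_apply]

private theorem r4_single_ne {κ : Type} [Field κ] {r : ℕ} (m : Fin r → ℤ) {z : κ} (hz : z ≠ 0) :
    algebraMap (AddMonoidAlgebra κ (Fin r → ℤ)) (FractionRing (AddMonoidAlgebra κ (Fin r → ℤ)))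
      (AddMonoidAlgebra.single m z) ≠ 0 := by
  intro h
  rw [map_eq_zero_iff _ (IsFractionRing.injective (AddMonoidAlgebra κ (Fin r → ℤ))
    (FractionRing (AddMonoidAlgebra κ (Fin r → ℤ))))] at h
  exact hz (by simpa using h)

theorem p_R4 (hC8 : S_C8) (hD0 : S_D0) (hD3 : S_D3) (hF2 : S_F2) : S_R4 := by
  intro p _ k K κ _ _ _ _ _ _ _ Γ _ _ _ v r s x y ex ac π ρ F n t h V0 hfr hN φ Γ' _ _ _ u w hAt
    AC hAC0 hACne hACm hACa hACV z hz
  have hFA := hD0 p k K κ Γ v r s x y ex ac π ρ F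
  have hcK : CharP K p := charP_of_injective_algebraMap (algebraMap k K).injective p
  obtain ⟨hwx, hwy, -, -⟩ := hF2 p k K κ r s x y ex ac π ρ hFA n t h V0 hfr hN Γ' u w hAt.isv
    hAt.triv hAt.min
  -- `AC` as a homomorphism
  have hAC1 : AC 1 = 1 := by
    have h1 := hACm 1 1
    rw [mul_one] at h1
    have h2 := hACne 1 one_ne_zero
    field_simp at h1
    exact h1.symm
  let ACh : K →*₀ FractionRing (AddMonoidAlgebra κ (Fin r → ℤ)) := { toFun := AC, map_zero' := hAC0, map_one' := hAC1, map_mul' := hACm }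
  have hACh : ∀ f, ACh f = AC f := fun f => rfl
  -- values
  have hw1 : w 1 = 0 := by
    have := hAt.isv.mul 1 1 one_ne_zero one_ne_zero
    rw [mul_one] at this
    exact left_eq_add.mp this
  have hwinv : ∀ f, f ≠ 0 → w f⁻¹ = - w f := by
    intro f hf
    have := hAt.isv.mul f f⁻¹ hf (inv_ne_zero hf)
    rw [mul_inv_cancel₀ hf, hw1] at this
    exact eq_neg_of_add_eq_zero_right this.symm
  have hwpow : ∀ (f : K) (_ : f ≠ 0) (m : ℕ), w (f ^ m) = m • w f := by
    intro f hf m
    induction m with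
    | zero => rw [pow_zero, hw1, zero_smul]
    | succ m ih => rw [pow_succ, hAt.isv.mul _ _ (pow_ne_zero _ hf) hf, ih, succ_nsmul]
  have hwzpow : ∀ (f : K) (_ : f ≠ 0) (m : ℤ), w (f ^ m) = m • w f := by
    intro f hf m
    cases m with
    | ofNat m =>
      rw [Int.ofNat_eq_natCast, zpow_natCast, hwpow f hf, natCast_zsmul]
    | negSucc m =>
      rw [zpow_negSucc, hwinv _ (pow_ne_zero _ hf), hwpow f hf, negSucc_zsmul]
  have hwprod : ∀ (S : Finset (Fin r)) (m : Fin r → ℤ), w (∏ i ∈ S, x i ^ m i) =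
      ∑ i ∈ S, m i • u i := by
    intro S m
    classical
    induction S using Finset.induction_on with
    | empty => rw [Finset.prod_empty, Finset.sum_empty, hw1]
    | insert i S hi ih =>
      rw [Finset.prod_insert hi, Finset.sum_insert hi, hAt.isv.mul _ _
        (zpow_ne_zero _ (hFA.x_ne i)) (Finset.prod_ne_zero_iff.2 fun j _ =>
          zpow_ne_zero _ (hFA.x_ne j)), ih, hwzpow _ (hFA.x_ne i), hwx]
  -- `AC` of monomials
  have hACx : ∀ i, AC (x i) = r4_E κ r (Multiplicative.ofAdd (Pi.single i 1)) := by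
    intro i
    rw [hACV (x i) (hN.x_mem i), hFA.ex_x, hFA.ac_x]
    rfl
  have hACmon : ∀ m : Fin r → ℤ, AC (∏ i, x i ^ m i) =
      algebraMap _ _ (AddMonoidAlgebra.single m (1 : κ)) := by
    intro m
    rw [← hACh, map_prod, ← r4_E_apply, r4_sum m, map_prod]
    refine Finset.prod_congr rfl fun i _ => ?_
    rw [map_zpow₀, map_zpow, hACh, hACx]
  -- the subfield
  let R : κ → Prop := fun z => z = 0 ∨ ∃ f, f ≠ 0 ∧ w f = 0 ∧
    AC f = algebraMap _ (FractionRing (AddMonoidAlgebra κ (Fin r → ℤ))) (AddMonoidAlgebra.single (0 : Fin r → ℤ) z)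
  have hRmul : ∀ a b, R a → R b → R (a * b) := by
    rintro a b (rfl | ⟨f, hf, hwf, hAf⟩) hb
    · left; rw [zero_mul]
    rcases hb with rfl | ⟨g, hg, hwg, hAg⟩
    · left; rw [mul_zero]
    right
    refine ⟨f * g, mul_ne_zero hf hg, by rw [hAt.isv.mul f g hf hg, hwf, hwg, add_zero], ?_⟩
    rw [hACm, hAf, hAg, ← map_mul, AddMonoidAlgebra.single_mul_single, add_zero]
  have hRadd : ∀ a b, R a → R b → R (a + b) := by
    rintro a b (rfl | ⟨f, hf, hwf, hAf⟩) hb
    · rwa [zero_add]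
    rcases hb with rfl | ⟨g, hg, hwg, hAg⟩
    · rw [add_zero]; exact Or.inr ⟨f, hf, hwf, hAf⟩
    by_cases hab : a + b = 0
    · left; exact hab
    right
    have h1 := hACa 0 f g (Or.inr hwf.ge) (Or.inr hwg.ge)
    have h2 : lc w AC 0 f = AC f := by
      unfold lc; rw [if_pos ⟨hf, hwf⟩]
    have h3 : lc w AC 0 g = AC g := by
      unfold lc; rw [if_pos ⟨hg, hwg⟩]
    have h4 : AC f + AC g = algebraMap _ (FractionRing (AddMonoidAlgebra κ (Fin r → ℤ))) (AddMonoidAlgebra.single (0 : Fin r → ℤ) (a + b)) := by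
      rw [hAf, hAg, ← map_add, AddMonoidAlgebra.single_add]
    rw [h2, h3, h4] at h1
    have h5 := r4_single_ne (0 : Fin r → ℤ) hab
    rw [← h1] at h5
    have h6 : f + g ≠ 0 ∧ w (f + g) = 0 := by
      by_contra hcon
      apply h5
      unfold lc
      rw [if_neg hcon]
    refine ⟨f + g, h6.1, h6.2, ?_⟩
    rw [← h1]
    unfold lc
    rw [if_pos h6]
  have hRinv : ∀ a, R a → R a⁻¹ := by
    rintro a (rfl | ⟨f, hf, hwf, hAf⟩)
    · left; rw [inv_zero]
    by_cases ha : a = 0
    · left; rw [ha, inv_zero]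
    right
    refine ⟨f⁻¹, inv_ne_zero hf, by rw [hwinv f hf, hwf, neg_zero], ?_⟩
    rw [← hACh, map_inv₀, hACh, hAf]
    apply inv_eq_of_mul_eq_one_right
    rw [← map_mul, AddMonoidAlgebra.single_mul_single, add_zero, mul_inv_cancel₀ ha,
      ← AddMonoidAlgebra.one_def, map_one]
  have hRone : R 1 := by
    right
    refine ⟨1, one_ne_zero, hw1, ?_⟩
    rw [hAC1, ← AddMonoidAlgebra.one_def, map_one]
  have hRpow : ∀ a, R a → ∀ m : ℕ, R (a ^ m) := by
    intro a ha m
    induction m with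
    | zero => rw [pow_zero]; exact hRone
    | succ m ih => rw [pow_succ]; exact hRmul _ _ ih ha
  have hRprod : ∀ (ι : Type) (S : Finset ι) (g : ι → κ), (∀ i ∈ S, R (g i)) → R (∏ i ∈ S, g i) :=
    fun ι S g hg => Finset.prod_induction g R hRmul hRone hg
  have hRsum : ∀ (ι : Type) (S : Finset ι) (g : ι → κ), (∀ i ∈ S, R (g i)) → R (∑ i ∈ S, g i) :=
    fun ι S g hg => Finset.sum_induction g R hRadd (Or.inl rfl) hg
  have hRy : ∀ j, R (ac (y j)) := by
    intro j
    right
    refine ⟨y j, hFA.y_ne j, hwy j, ?_⟩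
    rw [hACV (y j) (hN.y_mem j), hFA.ex_y]
  have hRV : ∀ f ∈ V0, f ≠ 0 → R (ac f) := by
    intro f hf hf0
    right
    have hp0 : ∏ i, x i ^ (-(ex f)) i ≠ 0 :=
      Finset.prod_ne_zero_iff.2 fun j _ => zpow_ne_zero _ (hFA.x_ne j)
    refine ⟨f * ∏ i, x i ^ (-(ex f)) i, mul_ne_zero hf0 hp0, ?_, ?_⟩
    · rw [hAt.isv.mul _ _ hf0 hp0, hwprod]
      have hmin := hAt.min 0 f hf0 (by
        intro l hl
        rw [List.length_eq_zero_iff] at hl
        subst hl
        exact hf)
      obtain ⟨m, hm, hwm⟩ := hmin.2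
      have hm' : m = ex f := by
        by_contra hne
        apply hm
        show (AddMonoidAlgebra.single (ex f) (ac f)).coeff m = 0
        rw [AddMonoidAlgebra.coeff_single, Finsupp.single_apply, if_neg (Ne.symm hne)]
      rw [hwm, hm']
      unfold wt
      rw [← Finset.sum_add_distrib]
      refine Finset.sum_eq_zero fun i _ => ?_
      rw [Pi.neg_apply, neg_smul, add_neg_cancel]
    · rw [hACm, hACV f hf, hACmon, ← map_mul, AddMonoidAlgebra.single_mul_single, mul_one,
        add_neg_cancel]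
  -- the claim
  have hclaim : ∀ M f, f ≠ 0 → Abs π (V0 : Set K) M f → R (ac f) := by
    intro M
    induction M with
    | zero =>
      intro f hf hA
      exact hRV f (hA [] rfl) hf
    | succ M ih =>
      intro f hf hA
      obtain ⟨-, -, h3⟩ := hC8 p k K Γ κ v r s x y ex ac π ρ F f hf
      rw [h3]
      refine hRsum _ _ _ fun l _ => ?_
      split_ifs with hl
      · refine hRmul _ _ (hRpow _ (ih (π l f) hl.1 ?_) p) ?_
        · intro l' hl'
          exact hA (l :: l') (by rw [List.length_cons, hl'])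
        · unfold monY
          exact hRprod _ _ _ fun i _ => hRpow _ (hRy i) _
      · left; rfl
  have hRt : ∀ q : MvPolynomial (Fin n) k, aeval t q ≠ 0 → R (ac (aeval t q)) := by
    intro q hq
    obtain ⟨N0, hN0⟩ := hN.absorb q
    exact hclaim N0 _ hq (hN0 N0 le_rfl)
  -- conclusion
  obtain ⟨f, hf, -, hacf⟩ := F.isac.surj z hz
  obtain ⟨a, b, hb, hab⟩ := hfr f
  have ha : aeval t a ≠ 0 := by
    rw [← hab]
    exact mul_ne_zero hf hb
  have h1 : ac f = ac (aeval t a) * (ac (aeval t b))⁻¹ := by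
    have h2 := hFA.ac_ne _ hb
    rw [← hab, hFA.ac_mul, mul_assoc, mul_inv_cancel₀ h2, mul_one]
  have h2 : R z := by
    rw [← hacf, h1]
    exact hRmul _ _ (hRt a ha) (hRinv _ (hRt b hb))
  rcases h2 with h2 | h2
  · exact absurd h2 hz
  · exact h2

end Pool.Agent.F2Ch
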