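import Pool.Agent.Lib.MP_305fdd_al.F2.ChStmG

/-!
# MP_305fdd_al, F_2 project, section C: piece R6 (helper4)
-/

set_option autoImplicit false

namespace Pool.Agent.F2Ch

open MvPolynomial

theorem p_R6 : S_R6 := by
  intro k K κ' L _ _ _ _ _ _ Γ' _ _ _ w hw r' x' ac' hac AC hAC0 hACne hACm hACa
  classical
  have hac1 : ac' 1 = 1 := by
    have := hac.alg 1
    rwa [map_one, map_one] at this
  have hacneg : ∀ g, ac' (-g) = - ac' g := by
    intro g
    have h1 := hac.alg (-1)
    rw [map_neg, map_one, map_neg, map_one] at h1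
    have h2 := hac.mul (-1) g
    rw [h1, neg_one_mul, neg_one_mul] at h2
    exact h2
  have hAC1 : AC 1 = 1 := by
    have h1 := hACm 1 1
    rw [mul_one] at h1
    have h2 := hACne 1 one_ne_zero
    field_simp at h1
    exact h1.symm
  have hw1 : w 1 = 0 := by
    have := hw.mul 1 1 one_ne_zero one_ne_zero
    rw [mul_one] at this
    exact left_eq_add.mp this
  have hwn1 : w (-1) = 0 := by
    have := hw.mul (-1) (-1) (by simp) (by simp)
    rw [neg_one_mul, neg_neg, hw1, ← two_nsmul] at this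
    rcases nsmul_eq_zero_iff.1 this.symm with h | h
    · exact h
    · exact absurd h two_ne_zero
  have hwneg : ∀ g, g ≠ 0 → w (-g) = w g := by
    intro g hg
    have := hw.mul (-1) g (by simp) hg
    rw [neg_one_mul, hwn1, zero_add] at this
    exact this
  have lcp : ∀ {M : Type} [Field M] (A : K → M) (f : K), f ≠ 0 → w f = 0 →
      lc w A 0 f = A f := by
    intro M _ A f h1 h2
    unfold lc
    rw [if_pos ⟨h1, h2⟩]
  have key : ∀ f g, f ≠ 0 → g ≠ 0 → w f = 0 → w g = 0 → ac' f = ac' g → AC f = AC g := by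
    intro f g hf hg hwf hwg hfg
    have hng : -g ≠ 0 := neg_ne_zero.2 hg
    have hwng : w (-g) = 0 := by rw [hwneg g hg, hwg]
    have h1 := hac.add 0 f (-g) (Or.inr hwf.ge) (Or.inr hwng.ge)
    rw [lcp ac' f hf hwf, lcp ac' (-g) hng hwng, hacneg, hfg, add_neg_cancel] at h1
    have h2 : ¬ (f + -g ≠ 0 ∧ w (f + -g) = 0) := by
      intro hcon
      rw [lcp ac' _ hcon.1 hcon.2] at h1
      exact hac.ne _ hcon.1 h1
    have h3 : lc w AC 0 (f + -g) = 0 := by
      unfold lc
      rw [if_neg h2]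
    have h4 : Ge w 0 (f + -g) := by
      by_cases h0 : f + -g = 0
      · exact Or.inl h0
      · right
        have := hw.add f (-g) hf hng h0
        rwa [hwf, hwng, min_self] at this
    have h5 := hACa (f + -g) g h4 (Or.inr hwg.ge)
    rw [neg_add_cancel_right, h3, zero_add, lcp AC f hf hwf, lcp AC g hg hwg] at h5
    exact h5
  choose F hF0 hFw hFa using hac.surj
  let σf : κ' → L := fun c => if h : c = 0 then 0 else AC (F c h)
  have σ0 : σf 0 = 0 := dif_pos rfl
  have σn : ∀ f, f ≠ 0 → w f = 0 → σf (ac' f) = AC f := by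
    intro f hf hwf
    have h1 : ac' f ≠ 0 := hac.ne f hf
    show (if h : ac' f = 0 then 0 else AC (F (ac' f) h)) = AC f
    rw [dif_neg h1]
    exact key _ _ (hF0 _ h1) hf (hFw _ h1) hwf (hFa _ h1)
  have σ1 : σf 1 = 1 := by
    rw [← hac1, σn 1 one_ne_zero hw1, hAC1]
  have σm : ∀ a b, σf (a * b) = σf a * σf b := by
    intro a b
    by_cases ha : a = 0
    · rw [ha, zero_mul, σ0, zero_mul]
    by_cases hb : b = 0
    · rw [hb, mul_zero, σ0, mul_zero]
    obtain ⟨f, hf, hwf, rfl⟩ := hac.surj a ha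
    obtain ⟨g, hg, hwg, rfl⟩ := hac.surj b hb
    rw [← hac.mul, σn f hf hwf, σn g hg hwg, σn (f * g) (mul_ne_zero hf hg)
      (by rw [hw.mul f g hf hg, hwf, hwg, add_zero]), hACm]
  have σa : ∀ a b, σf (a + b) = σf a + σf b := by
    intro a b
    by_cases ha : a = 0
    · rw [ha, zero_add, σ0, zero_add]
    by_cases hb : b = 0
    · rw [hb, add_zero, σ0, add_zero]
    obtain ⟨f, hf, hwf, rfl⟩ := hac.surj a ha
    obtain ⟨g, hg, hwg, rfl⟩ := hac.surj b hb
    have h1 := hac.add 0 f g (Or.inr hwf.ge) (Or.inr hwg.ge)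
    have h2 := hACa f g (Or.inr hwf.ge) (Or.inr hwg.ge)
    rw [lcp ac' f hf hwf, lcp ac' g hg hwg] at h1
    rw [lcp AC f hf hwf, lcp AC g hg hwg] at h2
    rw [σn f hf hwf, σn g hg hwg, ← h2, ← h1]
    by_cases h3 : f + g ≠ 0 ∧ w (f + g) = 0
    · rw [lcp ac' _ h3.1 h3.2, lcp AC _ h3.1 h3.2, σn _ h3.1 h3.2]
    · unfold lc
      rw [if_neg h3, if_neg h3, σ0]
  exact ⟨{ toFun := σf, map_one' := σ1, map_mul' := σm, map_zero' := σ0, map_add' := σa }, σn⟩

end Pool.Agent.F2Ch
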