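import Pool.Agent.Lib.MP_305fdd_al.F2.ChStmG

/-!
# MP_305fdd_al, F_2 project, section C: piece R7 (helper4)
-/

set_option autoImplicit false

namespace Pool.Agent.F2Ch

open MvPolynomial

/-- the images of the monomials -/
private noncomputable def r7_E (κ : Type) [Field κ] (r : ℕ) :
    Multiplicative (Fin r → ℤ) →* FractionRing (AddMonoidAlgebra κ (Fin r → ℤ)) where
  toFun m := algebraMap _ _ (AddMonoidAlgebra.single m.toAdd (1 : κ))
  map_one' := by
    show algebraMap _ _ (AddMonoidAlgebra.single (0 : Fin r → ℤ) (1 : κ)) = 1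
    rw [← AddMonoidAlgebra.one_def, map_one]
  map_mul' m n := by
    show algebraMap _ _ (AddMonoidAlgebra.single (m.toAdd + n.toAdd) (1 : κ)) = _
    rw [← map_mul, AddMonoidAlgebra.single_mul_single, mul_one]

private theorem r7_E_apply (κ : Type) [Field κ] (r : ℕ) (m : Fin r → ℤ) :
    r7_E κ r (Multiplicative.ofAdd m) =
      algebraMap _ _ (AddMonoidAlgebra.single m (1 : κ)) := rfl

private theorem r7_sum {r : ℕ} (m : Fin r → ℤ) :
    (Multiplicative.ofAdd m : Multiplicative (Fin r → ℤ)) =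
      ∏ i, (Multiplicative.ofAdd (Pi.single i (1 : ℤ) : Fin r → ℤ)) ^ (m i) := by
  apply Multiplicative.toAdd.injective
  rw [toAdd_prod]
  simp only [toAdd_zpow, toAdd_ofAdd]
  funext j
  rw [Finset.sum_apply]
  simp [Pi.single_apply]

private theorem r7_inj {κ : Type} [Field κ] {r : ℕ} {a : AddMonoidAlgebra κ (Fin r → ℤ)} :
    algebraMap (AddMonoidAlgebra κ (Fin r → ℤ)) (FractionRing (AddMonoidAlgebra κ (Fin r → ℤ)))
      a = 0 ↔ a = 0 :=
  map_eq_zero_iff _ (IsFractionRing.injective (AddMonoidAlgebra κ (Fin r → ℤ))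
    (FractionRing (AddMonoidAlgebra κ (Fin r → ℤ))))

/-- shifting by a monomial of the weight of all the exponents -/
private theorem r7_shift {κ : Type} [Field κ] {r : ℕ} {Γ' : Type} [AddCommGroup Γ']
    [LinearOrder Γ'] [IsOrderedAddMonoid Γ'] (u : Fin r → Γ') (c : Γ') (m0 : Fin r → ℤ)
    (h0 : wt u m0 = c) (P : AddMonoidAlgebra κ (Fin r → ℤ)) (m : Fin r → ℤ)
    (hm : (AddMonoidAlgebra.single (-m0) (1 : κ) * part u c P).coeff m ≠ 0) : wt u m = 0 := by
  classical
  rw [AddMonoidAlgebra.coeff_single_mul_apply, one_mul, neg_neg] at hm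
  unfold part at hm
  have h2 : wt u (m0 + m) = c := by
    by_contra h3
    apply hm
    show (Finsupp.filter (fun m => wt u m = c) P.coeff) (m0 + m) = 0
    exact Finsupp.filter_apply_neg _ _ h3
  have h3 : wt u (m0 + m) = wt u m0 + wt u m := by
    unfold wt
    rw [← Finset.sum_add_distrib]
    exact Finset.sum_congr rfl fun i _ => by rw [Pi.add_apply, add_smul]
  rw [h3, h0] at h2
  exact add_eq_left.1 h2

private theorem r7_part_exists {κ : Type} [Field κ] {r : ℕ} {Γ' : Type} [AddCommGroup Γ']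
    [LinearOrder Γ'] [IsOrderedAddMonoid Γ'] (u : Fin r → Γ') (c : Γ')
    (P : AddMonoidAlgebra κ (Fin r → ℤ)) (hP : part u c P ≠ 0) : ∃ m0, wt u m0 = c := by
  classical
  by_contra hcon
  push Not at hcon
  apply hP
  unfold part
  rw [← AddMonoidAlgebra.coeff_inj]
  show Finsupp.filter (fun m => wt u m = c) P.coeff = 0
  ext m
  exact Finsupp.filter_apply_neg (fun m => wt u m = c) _ (hcon m)

theorem p_R7 (hD0 : S_D0) (hD5 : S_D5) (hF2 : S_F2) (hR4 : S_R4) : S_R7 := by
  intro p _ k K κ _ _ _ _ _ _ _ Γ _ _ _ v r s x y ex ac π ρ F n t h V0 hfr hN φ Γ' _ _ _ u w hAt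
    AC hAC0 hACne hACm hACa hACP hACV z
  classical
  have hFA := hD0 p k K κ Γ v r s x y ex ac π ρ F
  obtain ⟨hwx, hwy, -, -⟩ := hF2 p k K κ r s x y ex ac π ρ hFA n t h V0 hfr hN Γ' u w hAt.isv
    hAt.triv hAt.min
  -- `AC` as a homomorphism
  have hAC1 : AC 1 = 1 := by
    have h1 := hACm 1 1
    rw [mul_one] at h1
    have h2 := hACne 1 one_ne_zero
    field_simp at h1
    exact h1.symm
  let ACh : K →*₀ FractionRing (AddMonoidAlgebra κ (Fin r → ℤ)) :=
    { toFun := AC, map_zero' := hAC0, map_one' := hAC1, map_mul' := hACm }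
  have hACh : ∀ f, ACh f = AC f := fun f => rfl
  -- values
  have hw1 : w 1 = 0 := by
    have := hAt.isv.mul 1 1 one_ne_zero one_ne_zero
    rw [mul_one] at this
    exact left_eq_add.mp this
  have hwinv : ∀ f, f ≠ 0 → w f⁻¹ = - w f := by
    intro f hf
    have := hAt.isv.mul f f⁻¹ hf (inv_ne_zero hf)
    rw [mul_inv_cancel₀ hf, hw1] at this
    exact eq_neg_of_add_eq_zero_right this.symm
  have hwpow : ∀ (f : K) (_ : f ≠ 0) (m : ℕ), w (f ^ m) = m • w f := by
    intro f hf m
    induction m with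
    | zero => rw [pow_zero, hw1, zero_smul]
    | succ m ih => rw [pow_succ, hAt.isv.mul _ _ (pow_ne_zero _ hf) hf, ih, succ_nsmul]
  have hwzpow : ∀ (f : K) (_ : f ≠ 0) (m : ℤ), w (f ^ m) = m • w f := by
    intro f hf m
    cases m with
    | ofNat m =>
      rw [Int.ofNat_eq_natCast, zpow_natCast, hwpow f hf, natCast_zsmul]
    | negSucc m =>
      rw [zpow_negSucc, hwinv _ (pow_ne_zero _ hf), hwpow f hf, negSucc_zsmul]
  have hwprod : ∀ (S : Finset (Fin r)) (m : Fin r → ℤ), w (∏ i ∈ S, x i ^ m i) =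
      ∑ i ∈ S, m i • u i := by
    intro S m
    induction S using Finset.induction_on with
    | empty => rw [Finset.prod_empty, Finset.sum_empty, hw1]
    | insert i S hi ih =>
      rw [Finset.prod_insert hi, Finset.sum_insert hi, hAt.isv.mul _ _
        (zpow_ne_zero _ (hFA.x_ne i)) (Finset.prod_ne_zero_iff.2 fun j _ =>
          zpow_ne_zero _ (hFA.x_ne j)), ih, hwzpow _ (hFA.x_ne i), hwx]
  -- `AC` of monomials
  have hACx : ∀ i, AC (x i) = r7_E κ r (Multiplicative.ofAdd (Pi.single i 1)) := by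
    intro i
    rw [hACV (x i) (hN.x_mem i), hFA.ex_x, hFA.ac_x]
    rfl
  have hACmon : ∀ m : Fin r → ℤ, AC (∏ i, x i ^ m i) =
      algebraMap _ _ (AddMonoidAlgebra.single m (1 : κ)) := by
    intro m
    rw [← hACh, map_prod, ← r7_E_apply, r7_sum m, map_prod]
    refine Finset.prod_congr rfl fun i _ => ?_
    rw [map_zpow₀, map_zpow, hACh, hACx]
  have hmon0 : ∀ m : Fin r → ℤ, ∏ i, x i ^ m i ≠ 0 := fun m =>
    Finset.prod_ne_zero_iff.2 fun j _ => zpow_ne_zero _ (hFA.x_ne j)
  constructor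
  · -- homogeneous fractions
    rintro ⟨f, hf, hwf, rfl⟩
    refine ⟨hACne f hf, ?_⟩
    obtain ⟨a, b, hb, hab⟩ := hfr f
    have ha : aeval t a ≠ 0 := by
      rw [← hab]
      exact mul_ne_zero hf hb
    obtain ⟨Na, hNa⟩ := hN.absorb a
    obtain ⟨Nb, hNb⟩ := hN.absorb b
    have hwab : w (aeval t a) = w (aeval t b) := by
      rw [← hab, hAt.isv.mul _ _ hf hb, hwf, zero_add]
    have hAa := hACP (max Na Nb) _ ha (hNa _ (le_max_left _ _))
    have hAb := hACP (max Na Nb) _ hb (hNb _ (le_max_right _ _))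
    rw [hwab] at hAa
    have hPb : part u (w (aeval t b)) (ap y ex ac π (max Na Nb) (aeval t b)) ≠ 0 := by
      intro h0
      rw [h0, map_zero] at hAb
      exact hACne _ hb hAb
    obtain ⟨m0, hm0⟩ := r7_part_exists u _ _ hPb
    have hs1 : AddMonoidAlgebra.single (-m0) (1 : κ) ≠ (0 : AddMonoidAlgebra κ (Fin r → ℤ)) := by
      simp
    refine ⟨AddMonoidAlgebra.single (-m0) 1 *
      part u (w (aeval t b)) (ap y ex ac π (max Na Nb) (aeval t a)),
      AddMonoidAlgebra.single (-m0) 1 *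
      part u (w (aeval t b)) (ap y ex ac π (max Na Nb) (aeval t b)), mul_ne_zero hs1 hPb,
      fun m hm => r7_shift u _ m0 hm0 _ m hm, fun m hm => r7_shift u _ m0 hm0 _ m hm, ?_⟩
    rw [map_mul, map_mul, ← hAa, ← hAb, ← hab, hACm]
    ring
  · rintro ⟨hz, a, b, hb, ha0, hb0, hab⟩
    -- `Ge` is stable
    have hge : ∀ f g, Ge w 0 f → Ge w 0 g → Ge w 0 (f + g) := by
      intro f g hf hg
      rcases eq_or_ne f 0 with rfl | hf0
      · rwa [zero_add]
      rcases eq_or_ne g 0 with rfl | hg0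
      · rwa [add_zero]
      rcases eq_or_ne (f + g) 0 with h0 | h0
      · exact Or.inl h0
      · right
        have h1 := hf.resolve_left hf0
        have h2 := hg.resolve_left hg0
        exact (le_min h1 h2).trans (hAt.isv.add f g hf0 hg0 h0)
    have hcl : ∀ A : AddMonoidAlgebra κ (Fin r → ℤ), A ≠ 0 → (∀ m, A.coeff m ≠ 0 → wt u m = 0) →
        ∃ f, f ≠ 0 ∧ w f = 0 ∧ AC f = algebraMap _ _ A := by
      intro A hA hA0
      have h1 : ∀ m : Fin r → ℤ, ∃ f : K, m ∈ A.coeff.support → f ≠ 0 ∧ w f = 0 ∧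
          AC f = algebraMap _ _ (AddMonoidAlgebra.single m (A.coeff m)) := by
        intro m
        by_cases hm : m ∈ A.coeff.support
        · have hm' : A.coeff m ≠ 0 := Finsupp.mem_support_iff.1 hm
          obtain ⟨f, hf, hwf, hAf⟩ := hR4 p k K κ Γ v r s x y ex ac π ρ F n t h V0 hfr hN φ Γ' u w
            hAt AC hAC0 hACne hACm hACa hACV (A.coeff m) hm'
          refine ⟨f * ∏ i, x i ^ m i, fun _ => ⟨mul_ne_zero hf (hmon0 m), ?_, ?_⟩⟩
          · rw [hAt.isv.mul _ _ hf (hmon0 m), hwf, hwprod, zero_add]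
            exact hA0 m hm'
          · rw [hACm, hAf, hACmon, ← map_mul, AddMonoidAlgebra.single_mul_single, zero_add,
              mul_one]
        · exact ⟨0, fun h => absurd h hm⟩
      choose f hf using h1
      have h2 : ∀ S : Finset (Fin r → ℤ), S ⊆ A.coeff.support → Ge w 0 (∑ m ∈ S, f m) ∧
          lc w AC 0 (∑ m ∈ S, f m) =
            algebraMap _ _ (∑ m ∈ S, AddMonoidAlgebra.single m (A.coeff m)) := by
        intro S
        induction S using Finset.induction_on with
        | empty =>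
          intro _
          refine ⟨Or.inl Finset.sum_empty, ?_⟩
          rw [Finset.sum_empty, Finset.sum_empty, map_zero]
          unfold lc
          rw [if_neg (fun h => h.1 rfl)]
        | insert m S hm ih =>
          intro hS
          obtain ⟨ih1, ih2⟩ := ih ((Finset.subset_insert _ _).trans hS)
          obtain ⟨g1, g2, g3⟩ := hf m (hS (Finset.mem_insert_self _ _))
          have g4 : Ge w 0 (f m) := Or.inr g2.ge
          rw [Finset.sum_insert hm, Finset.sum_insert hm]
          refine ⟨hge _ _ g4 ih1, ?_⟩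
          rw [hACa 0 _ _ g4 ih1, ih2, map_add]
          congr 1
          unfold lc
          rw [if_pos ⟨g1, g2⟩, g3]
      obtain ⟨-, h3⟩ := h2 _ (Finset.Subset.refl _)
      have h4 : ∑ m ∈ A.coeff.support, AddMonoidAlgebra.single m (A.coeff m) = A :=
        AddMonoidAlgebra.sum_coeff_single A
      rw [h4] at h3
      have h5 : (∑ m ∈ A.coeff.support, f m) ≠ 0 ∧ w (∑ m ∈ A.coeff.support, f m) = 0 := by
        by_contra hcon
        unfold lc at h3
        rw [if_neg hcon] at h3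
        exact hA (r7_inj.1 h3.symm)
      refine ⟨_, h5.1, h5.2, ?_⟩
      unfold lc at h3
      rwa [if_pos h5] at h3
    have hbL := mt r7_inj.1 hb
    have ha : a ≠ 0 := by
      rintro rfl
      rw [map_zero] at hab
      exact (mul_ne_zero hz hbL) hab
    obtain ⟨f, hf, hwf, hAf⟩ := hcl a ha ha0
    obtain ⟨g, hg, hwg, hAg⟩ := hcl b hb hb0
    refine ⟨f * g⁻¹, mul_ne_zero hf (inv_ne_zero hg), ?_, ?_⟩
    · rw [hAt.isv.mul _ _ hf (inv_ne_zero hg), hwinv g hg, hwf, hwg, neg_zero, add_zero]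
    · have h1 : AC g⁻¹ = (AC g)⁻¹ := by
        rw [← hACh, map_inv₀, hACh]
      rw [hACm, h1, hAf, hAg, ← hab, mul_assoc, mul_inv_cancel₀ hbL, mul_one]

end Pool.Agent.F2Ch
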