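import Pool.Agent.Lib.MP_305fdd_al.F2.ChStmG

/-!
# Orthogonality of the monomials at compatible valuations
-/

set_option autoImplicit false

namespace Pool.Agent.F2Ch

open MvPolynomial

private lemma u1_coord {p : ℕ} [NeZero p] {K : Type} [Field K] (z : K) (hz : z ≠ 0)
    (a' a : Fin p) :
    z ^ (a' : ℕ) = (if a' < a then z⁻¹ else 1) ^ p * z ^ ((a' - a : Fin p) : ℕ) * z ^ (a : ℕ) := by
  by_cases h : a' < a
  · rw [if_pos h, Fin.coe_sub_iff_lt.2 h, inv_pow, mul_assoc, ← pow_add]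
    have h1 : p + (a' : ℕ) - a + a = p + a' := by
      have := a.2
      omega
    rw [h1, pow_add, ← mul_assoc, inv_mul_cancel₀ (pow_ne_zero p hz), one_mul]
  · rw [if_neg h, one_pow, one_mul, Fin.coe_sub_iff_le.2 (not_lt.1 h), ← pow_add]
    congr 1
    have := Fin.le_def.1 (not_lt.1 h)
    omega

private lemma u1_shift {p : ℕ} [NeZero p] {K : Type} [Field K] {r s : ℕ}
    (x : Fin r → K) (y : Fin s → K) (π : Ix p r s → K → K)
    (hx : ∀ i, x i ≠ 0) (hy : ∀ j, y j ≠ 0) (hpb : IsPB p (mon x y) π) (l : Ix p r s) (f : K) :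
    π l f = π ix0 (f / mon x y l) := by
  classical
  set c : Ix p r s → K := fun l' => (∏ i, (if l'.1 i < l.1 i then (x i)⁻¹ else 1)) *
    ∏ j, (if l'.2 j < l.2 j then (y j)⁻¹ else 1) with hc
  have hmon : ∀ l' : Ix p r s, mon x y l' = c l' ^ p * mon x y (l' - l) * mon x y l := by
    intro l'
    simp only [mon, hc, mul_pow, ← Finset.prod_pow]
    have h1 : (∏ i, x i ^ (l'.1 i : ℕ)) =
        (∏ i, (if l'.1 i < l.1 i then (x i)⁻¹ else 1) ^ p) *
        (∏ i, x i ^ ((l' - l).1 i : ℕ)) * ∏ i, x i ^ (l.1 i : ℕ) := by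
      rw [← Finset.prod_mul_distrib, ← Finset.prod_mul_distrib]
      exact Finset.prod_congr rfl fun i _ => u1_coord (x i) (hx i) (l'.1 i) (l.1 i)
    have h2 : (∏ i, y i ^ (l'.2 i : ℕ)) =
        (∏ i, (if l'.2 i < l.2 i then (y i)⁻¹ else 1) ^ p) *
        (∏ i, y i ^ ((l' - l).2 i : ℕ)) * ∏ i, y i ^ (l.2 i : ℕ) := by
      rw [← Finset.prod_mul_distrib, ← Finset.prod_mul_distrib]
      exact Finset.prod_congr rfl fun i _ => u1_coord (y i) (hy i) (l'.2 i) (l.2 i)
    rw [h1, h2]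
    ring
  have hml : mon x y l ≠ 0 := by
    simp only [mon]
    exact mul_ne_zero (Finset.prod_ne_zero_iff.2 fun i _ => pow_ne_zero _ (hx i))
      (Finset.prod_ne_zero_iff.2 fun i _ => pow_ne_zero _ (hy i))
  have hsum : f / mon x y l = ∑ l'' : Ix p r s,
      ((π (l'' + l) f * c (l'' + l)) ^ p) * mon x y l'' := by
    rw [div_eq_iff hml]
    conv_lhs => rw [← hpb.repr f]
    rw [Finset.sum_mul]
    rw [← Equiv.sum_comp (Equiv.addRight l) (fun l' => π l' f ^ p * mon x y l')]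
    refine Finset.sum_congr rfl fun l'' _ => ?_
    simp only [Equiv.coe_addRight]
    conv_lhs => rw [hmon (l'' + l)]
    rw [add_sub_cancel_right, mul_pow]
    ring
  rw [hsum, hpb.uniq (fun l'' => π (l'' + l) f * c (l'' + l)) ix0]
  have h0 : (ix0 : Ix p r s) = 0 := by
    refine Prod.ext (funext fun i => ?_) (funext fun i => ?_)
    · exact Fin.ext (by simp [ix0])
    · exact Fin.ext (by simp [ix0])
  rw [h0, zero_add]
  have hcl : c l = 1 := by simp [hc]
  rw [hcl, mul_one]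

theorem p_U1 : S_U1 := by
  intro p _ k K κ _ _ _ _ _ _ _ r s x y ex ac π ρ hFA h φ hh hφ Γ' _ _ _ w hw hcomp hwh l f hl
  have hml : mon x y l ≠ 0 := by
    simp only [mon]
    exact mul_ne_zero (Finset.prod_ne_zero_iff.2 fun i _ => pow_ne_zero _ (hFA.x_ne i))
      (Finset.prod_ne_zero_iff.2 fun i _ => pow_ne_zero _ (hFA.y_ne i))
  have hp0 : p ≠ 0 := (Fact.out : p.Prime).ne_zero
  have hf : f ≠ 0 := by
    rintro rfl
    apply hl
    have := hFA.pb.uniq (fun _ => (0 : K)) l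
    simpa [hp0] using this
  have hshift := u1_shift x y π hFA.x_ne hFA.y_ne hFA.pb l f
  set g := f / (h * mon x y l) with hg
  have hg0 : g ≠ 0 := div_ne_zero hf (mul_ne_zero hh hml)
  have hφg : φ g = π l f := by
    rw [hφ, hshift, hg]
    congr 1
    field_simp
  have h1 : w g ≤ p • w (π l f) := by
    rw [← hφg]
    exact hcomp g (by rw [hφg]; exact hl)
  have h2 : w f = w g + w (mon x y l) := by
    have : f = g * (h * mon x y l) := by
      rw [hg, div_mul_cancel₀]
      exact mul_ne_zero hh hml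
    conv_lhs => rw [this]
    rw [hw.mul _ _ hg0 (mul_ne_zero hh hml), hw.mul _ _ hh hml, hwh, zero_add]
  rw [h2]
  exact add_le_add_left h1 _

end Pool.Agent.F2Ch
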