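import Pool.Agent.Lib.MP_305fdd_al.F2.ChStmG

set_option autoImplicit false

namespace Pool.Agent.F2Ch

open MvPolynomial

section
variable {K Γ : Type} [Field K] [AddCommGroup Γ] [LinearOrder Γ] [IsOrderedAddMonoid Γ]

private theorem u2_one {w : K → Γ} (hw : IsV w) : w 1 = 0 := by
  have h := hw.mul 1 1 one_ne_zero one_ne_zero
  rw [mul_one] at h
  exact (add_eq_left.1 h.symm)

private theorem u2_pow {w : K → Γ} (hw : IsV w) {x : K} (hx : x ≠ 0) (n : ℕ) :
    w (x ^ n) = n • w x := by
  induction n with
  | zero => simp [u2_one hw]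
  | succ n ih => rw [pow_succ, hw.mul _ _ (pow_ne_zero _ hx) hx, ih, succ_nsmul]

private theorem u2_prod {w : K → Γ} (hw : IsV w) {ι : Type} (s : Finset ι) (f : ι → K)
    (hf : ∀ i ∈ s, f i ≠ 0) : w (∏ i ∈ s, f i) = ∑ i ∈ s, w (f i) := by
  classical
  induction s using Finset.induction_on with
  | empty => simp [u2_one hw]
  | insert a s ha ih =>
    rw [Finset.prod_insert ha, Finset.sum_insert ha, hw.mul _ _ (hf a (Finset.mem_insert_self _ _))
      (Finset.prod_ne_zero_iff.2 fun i hi => hf i (Finset.mem_insert_of_mem hi)),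
      ih fun i hi => hf i (Finset.mem_insert_of_mem hi)]

private theorem u2_sum {w : K → Γ} (hw : IsV w) {ι : Type} (s : Finset ι) (f : ι → K)
    (hf : ∀ i ∈ s, Ge w 0 (f i)) : Ge w 0 (∑ i ∈ s, f i) := by
  classical
  induction s using Finset.induction_on with
  | empty => exact Or.inl rfl
  | insert a s ha ih =>
    rw [Finset.sum_insert ha]
    have h1 := hf a (Finset.mem_insert_self _ _)
    have h2 := ih fun i hi => hf i (Finset.mem_insert_of_mem hi)
    by_cases hs : f a + ∑ i ∈ s, f i = 0
    · exact Or.inl hs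
    rcases h1 with h1 | h1
    · rw [h1, zero_add]; exact h2
    rcases h2 with h2 | h2
    · rw [h2, add_zero]; exact Or.inr h1
    by_cases ha0 : f a = 0
    · rw [ha0, zero_add]; exact Or.inr h2
    by_cases hs0 : ∑ i ∈ s, f i = 0
    · rw [hs0, add_zero]; exact Or.inr h1
    · exact Or.inr ((le_min h1 h2).trans (hw.add _ _ ha0 hs0 hs))

end

/-- the exponents divided by `p` -/
private noncomputable def u2q (p : ℕ) {s : ℕ} (m : Fin s →₀ ℕ) : Fin s →₀ ℕ :=
  Finsupp.equivFunOnFinite.symm fun i => m i / p

private theorem u2_dec (p : ℕ) [hp : Fact p.Prime] {k : Type} [Field k] [CharP k p]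
    [PerfectRing k p] {s : ℕ} (P : MvPolynomial (Fin s) k) :
    ∃ Q : (Fin s → Fin p) → MvPolynomial (Fin s) k,
      P = ∑ j, Q j ^ p * ∏ i, X i ^ (j i : ℕ) ∧
      ∀ j, Q j ≠ 0 → 0 < P.totalDegree → (Q j).totalDegree < P.totalDegree := by
  classical
  have hpos : 0 < p := hp.out.pos
  set rt : k → k := fun c => (frobeniusEquiv k p).symm c with hrt
  have hrtp : ∀ c, rt c ^ p = c := fun c => frobeniusEquiv_symm_pow_p k p c
  set md : (Fin s →₀ ℕ) → Fin s → Fin p := fun m i => ⟨m i % p, Nat.mod_lt _ hpos⟩ with hmd
  refine ⟨fun j => ∑ m ∈ P.support with md m = j, monomial (u2q p m) (rt (coeff m P)), ?_, ?_⟩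
  · have hmon : ∀ m : Fin s →₀ ℕ, monomial m (coeff m P) =
        (monomial (u2q p m) (rt (coeff m P))) ^ p *
          ∏ i, (X i : MvPolynomial (Fin s) k) ^ (md m i : ℕ) := by
      intro m
      have h1 : ∏ i, (X i : MvPolynomial (Fin s) k) ^ (md m i : ℕ) =
          monomial (Finsupp.equivFunOnFinite.symm fun i => m i % p) 1 := by
        rw [monomial_eq, C_1, one_mul, Finsupp.prod_fintype _ _ (fun i => pow_zero _)]
        rfl
      have h2 : p • u2q p m + (Finsupp.equivFunOnFinite.symm fun i => m i % p : Fin s →₀ ℕ) =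
          m := by
        ext i
        simp only [u2q, Finsupp.coe_add, Finsupp.coe_smul, Pi.add_apply, Pi.smul_apply,
          Finsupp.equivFunOnFinite_symm_apply_apply, smul_eq_mul]
        exact Nat.div_add_mod (m i) p
      rw [h1, monomial_pow, monomial_mul, hrtp, mul_one, h2]
    conv_lhs => rw [P.as_sum]
    rw [← Finset.sum_fiberwise_of_maps_to (s := P.support) (t := Finset.univ) (g := md)
      (fun m _ => Finset.mem_univ _)]
    refine Finset.sum_congr rfl fun j _ => ?_
    rw [sum_pow_char, Finset.sum_mul]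
    refine Finset.sum_congr rfl fun m hm => ?_
    rw [← (Finset.mem_filter.1 hm).2]
    exact hmon m
  · intro j _ hdeg
    refine lt_of_le_of_lt (totalDegree_finsetSum _ _) ?_
    rw [Finset.sup_lt_iff (by simpa using hdeg)]
    intro m hm
    have hms := (Finset.mem_filter.1 hm).1
    refine lt_of_le_of_lt (totalDegree_monomial_le _ _) ?_
    have hm2 := le_totalDegree hms
    rw [Finsupp.sum_fintype _ _ (fun _ => rfl)] at hm2 ⊢
    simp only [id_eq] at hm2 ⊢
    by_cases hz : ∑ i, m i = 0
    · have : ∑ i, (u2q p m) i ≤ ∑ i, m i := Finset.sum_le_sum fun i _ => Nat.div_le_self _ _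
      omega
    · refine lt_of_lt_of_le ?_ hm2
      refine Finset.sum_lt_sum (fun i _ => Nat.div_le_self _ _) ?_
      obtain ⟨i, _, hi⟩ : ∃ i ∈ Finset.univ, m i ≠ 0 := by
        by_contra hcon
        push Not at hcon
        exact hz (Finset.sum_eq_zero hcon)
      exact ⟨i, Finset.mem_univ _, Nat.div_lt_self (Nat.pos_of_ne_zero hi) hp.out.one_lt⟩

theorem p_U2 : S_U2 := by
  intro p hp k K κ _ _ _ _ _ _ _ r s x y ex ac π ρ hF Γ' _ _ _ w hw htriv horth hy
  classical
  have hpos : 0 < p := hp.out.pos
  have : CharP K p := charP_of_injective_algebraMap (algebraMap k K).injective p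
  have hmain : ∀ N : ℕ, ∀ P : MvPolynomial (Fin s) k, P ≠ 0 → P.totalDegree < N →
      aeval y P ≠ 0 ∧ w (aeval y P) = 0 := by
    intro N
    induction N with
    | zero => intro P _ h; exact absurd h (Nat.not_lt_zero _)
    | succ N ih =>
      intro P hP hdeg
      rcases Nat.eq_zero_or_pos P.totalDegree with h0 | h0
      · rw [totalDegree_eq_zero_iff_eq_C] at h0
        rw [h0, aeval_C]
        refine ⟨?_, htriv _⟩
        rw [Ne, map_eq_zero_iff _ (algebraMap k K).injective]
        intro hc
        rw [hc, C_0] at h0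
        exact hP h0
      obtain ⟨Q, hQ, hQd⟩ := u2_dec p P
      have hQl : ∀ j, Q j ≠ 0 → aeval y (Q j) ≠ 0 ∧ w (aeval y (Q j)) = 0 := fun j hj =>
        ih (Q j) hj (by have := hQd j hj h0; omega)
      have hex : ∃ j, Q j ≠ 0 := by
        by_contra hcon
        push Not at hcon
        apply hP
        rw [hQ]
        refine Finset.sum_eq_zero fun j _ => ?_
        rw [hcon j, zero_pow hp.out.ne_zero, zero_mul]
      set z : Fin r → Fin p := fun _ => ⟨0, hpos⟩ with hz
      have hmon : ∀ j : Fin s → Fin p, mon x y (z, j) = ∏ i, y i ^ (j i : ℕ) := by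
        intro j
        simp [mon, hz]
      have hsum : aeval y P = ∑ l : Ix p r s,
          (if l.1 = z then aeval y (Q l.2) else 0) ^ p * mon x y l := by
        rw [Fintype.sum_prod_type, Finset.sum_eq_single z]
        · conv_lhs => rw [hQ]
          rw [map_sum]
          refine Finset.sum_congr rfl fun j _ => ?_
          rw [if_pos rfl, hmon, map_mul, map_pow, map_prod]
          simp only [map_pow, aeval_X]
        · intro a _ ha
          refine Finset.sum_eq_zero fun j _ => ?_
          rw [if_neg ha, zero_pow hp.out.ne_zero, zero_mul]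
        · intro h
          exact absurd (Finset.mem_univ _) h
      have hpi : ∀ j, π (z, j) (aeval y P) = aeval y (Q j) := by
        intro j
        have := hF.pb.uniq (fun l : Ix p r s => if l.1 = z then aeval y (Q l.2) else 0) (z, j)
        rw [← hsum] at this
        rw [this, if_pos rfl]
      have hpi0 : ∀ l, π l (0 : K) = 0 := by
        intro l
        have := hF.pb.uniq (fun _ => 0) l
        have h2 : ∑ j : Ix p r s, (0 : K) ^ p * mon x y j = 0 :=
          Finset.sum_eq_zero fun j _ => by rw [zero_pow hp.out.ne_zero, zero_mul]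
        rw [h2] at this
        exact this
      have hwy : ∀ j : Fin s → Fin p, w (mon x y (z, j)) = 0 := by
        intro j
        rw [hmon, u2_prod hw _ _ fun i _ => pow_ne_zero _ (hF.y_ne i)]
        refine Finset.sum_eq_zero fun i _ => ?_
        rw [u2_pow hw (hF.y_ne i), hy, smul_zero]
      have hmonne : ∀ j : Fin s → Fin p, mon x y (z, j) ≠ 0 := by
        intro j
        rw [hmon]
        exact Finset.prod_ne_zero_iff.2 fun i _ => pow_ne_zero _ (hF.y_ne i)
      obtain ⟨j, hj⟩ := hex
      obtain ⟨hj1, hj2⟩ := hQl j hj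
      have hne : aeval y P ≠ 0 := by
        intro h
        have := hpi j
        rw [h, hpi0] at this
        exact hj1 this.symm
      refine ⟨hne, le_antisymm ?_ ?_⟩
      · have h1 := horth (z, j) (aeval y P) (by rw [hpi]; exact hj1)
        rw [hpi, hj2, hwy, smul_zero, add_zero] at h1
        exact h1
      · have h2 : Ge w 0 (aeval y P) := by
          rw [hsum]
          refine u2_sum hw _ _ fun l _ => ?_
          obtain ⟨a, i⟩ := l
          by_cases ha : a = z
          · subst ha
            by_cases hi : Q i = 0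
            · left
              simp only [if_true]
              rw [hi, map_zero, zero_pow hp.out.ne_zero, zero_mul]
            · right
              simp only [if_true]
              obtain ⟨h3, h4⟩ := hQl i hi
              rw [hw.mul _ _ (pow_ne_zero _ h3) (hmonne i), u2_pow hw h3, h4, hwy, smul_zero,
                add_zero]
          · left
            simp only [if_neg ha]
            rw [zero_pow hp.out.ne_zero, zero_mul]
        rcases h2 with h2 | h2
        · exact absurd h2 hne
        · exact h2
  intro P hP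
  exact hmain (P.totalDegree + 1) P hP (Nat.lt_succ_self _)

end Pool.Agent.F2Ch
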