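import Pool.Agent.Lib.MP_305fdd_al.F2.ChStm
import Pool.Agent.Lib.MP_305fdd_al.F2.ChStmG

set_option autoImplicit false

namespace Pool.Agent.F2Ch

open MvPolynomial

private theorem u3_decomp (p : ℕ) [hp : Fact p.Prime] (k : Type) [Field k] [CharP k p]
    [PerfectRing k p] (s : ℕ) (P : MvPolynomial (Fin s) k) :
    ∃ Q : (Fin s → Fin p) → MvPolynomial (Fin s) k,
      P = ∑ j, Q j ^ p * monY (fun i => (X i : MvPolynomial (Fin s) k)) j ∧
      ∀ j, (Q j).totalDegree ≤ P.totalDegree / p := by
  classical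
  have hp0 : 0 < p := hp.out.pos
  set r : (Fin s →₀ ℕ) → (Fin s → Fin p) := fun m i => ⟨m i % p, Nat.mod_lt _ hp0⟩ with hr
  set q : (Fin s →₀ ℕ) → (Fin s →₀ ℕ) := fun m => Finsupp.equivFunOnFinite.symm fun i => m i / p
    with hq
  have hmon : ∀ (m : Fin s →₀ ℕ) (c : k), (monomial m c : MvPolynomial (Fin s) k) =
      C c * ∏ i, X i ^ m i := by
    intro m c
    rw [monomial_eq, Finsupp.prod_fintype]
    intro i
    exact pow_zero _
  refine ⟨fun j => ∑ m ∈ P.support.filter (fun m => r m = j),
    monomial (q m) ((frobeniusEquiv k p).symm (coeff m P)), ?_, ?_⟩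
  · have h1 : ∀ j : Fin s → Fin p, (∑ m ∈ P.support.filter (fun m => r m = j),
        (monomial (q m) ((frobeniusEquiv k p).symm (coeff m P)) : MvPolynomial (Fin s) k)) ^ p *
          monY (fun i => (X i : MvPolynomial (Fin s) k)) j =
        ∑ m ∈ P.support.filter (fun m => r m = j), (monomial m (coeff m P) :
          MvPolynomial (Fin s) k) := by
      intro j
      rw [sum_pow_char, Finset.sum_mul]
      refine Finset.sum_congr rfl fun m hm => ?_
      rw [Finset.mem_filter] at hm
      rw [← hm.2, hmon, hmon, mul_pow, ← Finset.prod_pow, mul_assoc, monY, ← Finset.prod_mul_distrib,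
        ← C_pow]
      congr 1
      · congr 1
        exact frobenius_apply_frobeniusEquiv_symm k p _
      · refine Finset.prod_congr rfl fun i _ => ?_
        rw [← pow_mul, ← pow_add]
        congr 1
        simp only [hq, hr, Finsupp.equivFunOnFinite_symm_apply_apply]
        exact Nat.div_add_mod' (m i) p
    rw [Finset.sum_congr rfl fun j _ => h1 j, Finset.sum_fiberwise]
    exact P.as_sum
  · intro j
    refine totalDegree_finsetSum_le fun m hm => ?_
    rw [Finset.mem_filter] at hm
    refine (totalDegree_monomial_le _ _).trans ?_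
    rw [Nat.le_div_iff_mul_le hp0, Finsupp.sum_fintype _ _ (fun i => rfl), Finset.sum_mul]
    refine le_trans ?_ (le_totalDegree hm.1)
    rw [Finsupp.sum_fintype _ _ (fun i => rfl)]
    refine Finset.sum_le_sum fun i _ => ?_
    simp only [hq, id, Finsupp.equivFunOnFinite_symm_apply_apply]
    exact Nat.div_mul_le_self _ _

private theorem u3_indep (p : ℕ) [hp : Fact p.Prime] (k : Type) [Field k] [CharP k p]
    [PerfectRing k p] (κ : Type) [Field κ] [Algebra k κ] (s : ℕ) (y : Fin s → κ)
    (ρ : (Fin s → Fin p) → κ → κ) (hrb : IsPB p (monY (p := p) y) ρ) :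
    ∀ (N : ℕ) (P : MvPolynomial (Fin s) k), P.totalDegree = N → aeval y P = 0 → P = 0 := by
  have hp0 : 0 < p := hp.out.pos
  have hρ0 : ∀ j, ρ j 0 = 0 := by
    intro j
    have h := hrb.uniq (fun _ => 0) j
    rw [Finset.sum_eq_zero fun i _ => by rw [zero_pow hp0.ne', zero_mul]] at h
    exact h
  intro N
  induction N using Nat.strong_induction_on with
  | _ N ih =>
    intro P hN hP
    rcases Nat.eq_zero_or_pos N with h0 | h0
    · rw [h0] at hN
      rw [totalDegree_eq_zero_iff_eq_C] at hN
      rw [hN, aeval_C] at hP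
      rw [hN, (map_eq_zero _).1 hP, C_0]
    · obtain ⟨Q, hQ, hdeg⟩ := u3_decomp p k s P
      have h1 : ∑ j, (aeval y (Q j)) ^ p * monY y j = 0 := by
        rw [← hP, hQ, map_sum]
        refine Finset.sum_congr rfl fun j _ => ?_
        rw [map_mul, map_pow, monY, monY, map_prod]
        congr 1
        refine Finset.prod_congr rfl fun i _ => ?_
        rw [map_pow, aeval_X]
      have h2 : ∀ j, Q j = 0 := by
        intro j
        have h3 := hrb.uniq (fun j => aeval y (Q j)) j
        rw [h1, hρ0] at h3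
        refine ih (Q j).totalDegree ?_ (Q j) rfl h3.symm
        refine lt_of_le_of_lt (hdeg j) ?_
        rw [hN]
        exact Nat.div_lt_self h0 hp.out.one_lt
      rw [hQ]
      refine Finset.sum_eq_zero fun j _ => ?_
      rw [h2 j, zero_pow hp0.ne', zero_mul]

theorem p_U3 (hB1 : S_B1) (hB4 : S_B4) (hC7 : S_C7) : S_U3 := by
  intro p hp k K κ _ _ _ _ _ _ _ Γ _ _ _ v r s x y ex ac π ρ hF n t ht
  obtain ⟨n', t', ht'⟩ := hC7 p k K Γ κ n t ht v r s x y ex ac π ρ hF
  obtain ⟨d, b, ρ', hd, hb⟩ := hB4 p k κ n' t' ht'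
  have hp0 : 0 < p := hp.out.pos
  have : CharP κ p := charP_of_injective_algebraMap (algebraMap k κ).injective p
  have hind : ∀ {ι : Type} [Fintype ι] (w : ι → κ) (π' : ι → κ → κ), IsPB p w π' →
      ∀ a : ι → κ, ∑ j, a j ^ p * w j = 0 → a = 0 := by
    intro ι _ w π' hw a ha
    funext i
    have h1 := hw.uniq a i
    have h2 := hw.uniq (fun _ => 0) i
    rw [Finset.sum_eq_zero fun i _ => by rw [zero_pow hp0.ne', zero_mul]] at h2
    rw [ha, h2] at h1
    exact h1.symm
  have h1 := (hB1 p κ _ b ρ' hb _ (monY (p := p) fun j => ac (y j)) (hind _ _ hF.rb)).1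
  have h2 := (hB1 p κ _ (monY (p := p) fun j => ac (y j)) ρ hF.rb _ b (hind _ _ hb)).1
  have h3 : d = s := by
    have h4 : p ^ d = p ^ s := by
      refine le_antisymm ?_ ?_
      · simpa using h2
      · simpa using h1
    exact Nat.pow_right_injective hp.out.two_le h4
  have hI : ∀ P : MvPolynomial (Fin s) k, P ≠ 0 → aeval (fun j => ac (y j)) P ≠ 0 := by
    intro P hP h
    exact hP (u3_indep p k κ s _ ρ hF.rb _ P rfl h)
  refine ⟨by rw [hd, h3], hI, ?_⟩
  intro c hc
  have hai : AlgebraicIndependent k (fun j => ac (y j)) := by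
    rw [algebraicIndependent_iff]
    intro P hP
    by_contra hne
    exact hI P hne hP
  have htb : IsTranscendenceBasis k (fun j => ac (y j)) := by
    refine hai.isTranscendenceBasis_of_trdeg_le_of_finite ?_
    rw [hd, h3]
    simp
  have halg := htb.isAlgebraic
  obtain ⟨q, hq0, hq⟩ := (halg.isAlgebraic c).exists_nonzero_coeff_and_aeval_eq_zero
    (mem_nonZeroDivisors_of_ne_zero hc)
  have hlift : ∀ z : Algebra.adjoin k (Set.range fun j => ac (y j)),
      ∃ P : MvPolynomial (Fin s) k, aeval (fun j => ac (y j)) P = (z : κ) := by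
    rintro ⟨z, hz⟩
    rw [Algebra.adjoin_range_eq_range_aeval] at hz
    exact hz
  choose F hFF using hlift
  refine ⟨q.natDegree, fun i => F (q.coeff i), ?_, ?_⟩
  · intro h
    have h4 := hFF (q.coeff 0)
    simp only at h
    rw [h, map_zero] at h4
    exact hq0 (Subtype.ext h4.symm)
  · rw [Polynomial.aeval_eq_sum_range] at hq
    rw [← hq]
    refine Finset.sum_congr rfl fun i _ => ?_
    rw [hFF, Algebra.smul_def]
    rfl

end Pool.Agent.F2Ch
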