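import Pool.Agent.Lib.MP_305fdd_al.F2.ChStm
import Pool.Agent.Lib.MP_305fdd_al.F2.ChStmG

/-!
# MP_305fdd_al, F_2 project, section C: piece [F2C U5]
-/

set_option autoImplicit false

namespace Pool.Agent.F2Ch

open MvPolynomial

section
variable {k K Γ : Type} [Field k] [Field K] [Algebra k K] [AddCommGroup Γ] [LinearOrder Γ]
  [IsOrderedAddMonoid Γ] {v : K → Γ}

omit [LinearOrder Γ] [IsOrderedAddMonoid Γ] in
private theorem u5_wt_sub {r : ℕ} (u : Fin r → Γ) (m n : Fin r → ℤ) :
    wt u (m - n) = wt u m - wt u n := by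
  unfold wt
  rw [← Finset.sum_sub_distrib]
  exact Finset.sum_congr rfl fun i _ => by rw [Pi.sub_apply, sub_smul]

private theorem u5_one (hv : IsV v) : v 1 = 0 := by
  have h := hv.mul 1 1 one_ne_zero one_ne_zero
  rw [mul_one] at h
  exact left_eq_add.1 h

private theorem u5_inv (hv : IsV v) {a : K} (ha : a ≠ 0) : v a⁻¹ = - v a := by
  have h := hv.mul a a⁻¹ ha (inv_ne_zero ha)
  rw [mul_inv_cancel₀ ha, u5_one hv] at h
  exact (neg_eq_of_add_eq_zero_right h.symm).symm

private theorem u5_pow (hv : IsV v) {a : K} (ha : a ≠ 0) (n : ℕ) : v (a ^ n) = n • v a := by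
  induction n with
  | zero => rw [pow_zero, u5_one hv, zero_smul]
  | succ n ih => rw [pow_succ, hv.mul _ _ (pow_ne_zero n ha) ha, ih, succ_nsmul]

private theorem u5_zpow (hv : IsV v) {a : K} (ha : a ≠ 0) (n : ℤ) : v (a ^ n) = n • v a := by
  cases n with
  | ofNat n =>
    rw [Int.ofNat_eq_natCast, zpow_natCast, u5_pow hv ha, natCast_zsmul]
  | negSucc n =>
    rw [zpow_negSucc, u5_inv hv (pow_ne_zero _ ha), u5_pow hv ha, negSucc_zsmul]

private theorem u5_prod (hv : IsV v) {r : ℕ} {x : Fin r → K} (hx : ∀ i, x i ≠ 0)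
    (m : Fin r → ℤ) : v (∏ i, x i ^ (m i)) = wt (fun i => v (x i)) m := by
  classical
  have key : ∀ s : Finset (Fin r), v (∏ i ∈ s, x i ^ (m i)) = ∑ i ∈ s, m i • v (x i) := by
    intro s
    induction s using Finset.induction_on with
    | empty => rw [Finset.prod_empty, Finset.sum_empty, u5_one hv]
    | insert a s ha ih =>
      rw [Finset.prod_insert ha, Finset.sum_insert ha, hv.mul _ _ (zpow_ne_zero _ (hx a))
        (Finset.prod_ne_zero_iff.2 fun i _ => zpow_ne_zero _ (hx i)), ih, u5_zpow hv (hx a)]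
  exact key Finset.univ

omit [IsOrderedAddMonoid Γ] in
private theorem u5_smul (hv : IsV v) (ht : Triv k v) {c : k}
    {x : K} (hc : c ≠ 0) (hx : x ≠ 0) : v (c • x) = v x := by
  rw [Algebra.smul_def, hv.mul _ _ ((map_ne_zero (algebraMap k K)).2 hc) hx, ht c, zero_add]

omit [IsOrderedAddMonoid Γ] in
private theorem u5_gt_add (hv : IsV v) {c : Γ} {x y : K} (hx : Gt v c x)
    (hy : Gt v c y) : Gt v c (x + y) := by
  by_cases h0 : x + y = 0
  · exact Or.inl h0
  · rcases hx with hx | hx
    · rw [hx, zero_add]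
      exact hy
    · rcases hy with hy | hy
      · rw [hy, add_zero]
        exact Or.inr hx
      · by_cases hx0 : x = 0
        · rw [hx0, zero_add]
          exact Or.inr hy
        · by_cases hy0 : y = 0
          · rw [hy0, add_zero]
            exact Or.inr hx
          · exact Or.inr (lt_of_lt_of_le (lt_min hx hy) (hv.add x y hx0 hy0 h0))

omit [IsOrderedAddMonoid Γ] in
private theorem u5_gt_smul (hv : IsV v) (ht : Triv k v) {c : Γ} (a : k) {x : K}
    (hx : Gt v c x) : Gt v c (a • x) := by
  by_cases ha : a = 0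
  · left
    rw [ha, zero_smul]
  · rcases hx with hx | hx
    · left
      rw [hx, smul_zero]
    · by_cases hx0 : x = 0
      · left
        rw [hx0, smul_zero]
      · right
        rw [u5_smul hv ht ha hx0]
        exact hx

/-- the subspace of all elements of value greater than `γ` -/
private def u5_sub (hv : IsV v) (ht : Triv k v) (γ : Γ) (V : Submodule k K) : Submodule k K where
  carrier := {f | f ∈ V ∧ Gt v γ f}
  zero_mem' := ⟨V.zero_mem, Or.inl rfl⟩
  add_mem' := fun ha hb => ⟨V.add_mem ha.1 hb.1, u5_gt_add hv ha.2 hb.2⟩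
  smul_mem' := fun c _ hx => ⟨V.smul_mem c hx.1, u5_gt_smul hv ht c hx.2⟩

private theorem u5_adapt (hC0 : S_C0) (hv : IsV v) (ht : Triv k v) (n : ℕ) :
    ∀ V : Submodule k K, FiniteDimensional k V → Module.finrank k V ≤ n →
    ∃ (ι : Type) (_ : Fintype ι) (b : ι → K), (∀ i, b i ≠ 0 ∧ b i ∈ V) ∧
      ∀ f ∈ V, f ≠ 0 → ∃ c : ι → k, f = ∑ i, c i • b i ∧ ∀ i, c i ≠ 0 → v f ≤ v (b i) := by
  classical
  induction n with
  | zero =>
    intro V hV hn
    refine ⟨Empty, inferInstance, fun i => i.elim, fun i => i.elim, fun f hf hf0 => ?_⟩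
    have h0 : V = ⊥ := Submodule.finrank_eq_zero.1 (Nat.le_zero.1 hn)
    rw [h0, Submodule.mem_bot] at hf
    exact absurd hf hf0
  | succ n ih =>
    intro V hV hn
    by_cases hb : V = ⊥
    · refine ⟨Empty, inferInstance, fun i => i.elim, fun i => i.elim, fun f hf hf0 => ?_⟩
      rw [hb, Submodule.mem_bot] at hf
      exact absurd hf hf0
    · have hfin := hC0 k K Γ v hv ht V hV
      have hne : {γ : Γ | ∃ f ∈ V, f ≠ 0 ∧ v f = γ}.Nonempty := by
        obtain ⟨f, hf, hf0⟩ := Submodule.exists_mem_ne_zero_of_ne_bot hb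
        exact ⟨v f, f, hf, hf0, rfl⟩
      obtain ⟨γ, ⟨f1, hf1, hf10, hf1v⟩, hmin⟩ :=
        Set.exists_min_image _ (fun γ : Γ => γ) hfin hne
      have hmin' : ∀ f ∈ V, f ≠ 0 → γ ≤ v f := fun f hf hf0 => hmin _ ⟨f, hf, hf0, rfl⟩
      set V' := u5_sub hv ht γ V with hV'
      have hle : V' ≤ V := fun f hf => hf.1
      have hlt : V' < V := by
        refine lt_of_le_of_ne hle fun h => ?_
        have h1 : f1 ∈ V' := by
          rw [h]
          exact hf1
        rcases h1.2 with h2 | h2
        · exact hf10 h2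
        · rw [hf1v] at h2
          exact lt_irrefl _ h2
      have hfr : Module.finrank k V' ≤ n := by
        have := Submodule.finrank_lt_finrank_of_lt hlt
        omega
      have hV'fin : FiniteDimensional k V' := Submodule.finiteDimensional_of_le hle
      obtain ⟨ι, _, b, hb1, hb2⟩ := ih V' hV'fin hfr
      obtain ⟨W, hW⟩ := Submodule.exists_isCompl (V'.comap V.subtype)
      have hWfin : FiniteDimensional k W := inferInstance
      have hWfree : Module.Free k W := Module.Free.of_divisionRing k W
      let w := Module.finBasis k W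
      refine ⟨Fin (Module.finrank k W) ⊕ ι, inferInstance,
        Sum.elim (fun i => ((w i : V) : K)) b, ?_, ?_⟩
      · rintro (i | i)
        · refine ⟨?_, (w i : V).2⟩
          intro h
          exact w.ne_zero i (Subtype.ext (Subtype.ext h))
        · exact ⟨(hb1 i).1, hle (hb1 i).2⟩
      · intro f hf hf0
        have htop : (⟨f, hf⟩ : V) ∈ (V'.comap V.subtype) ⊔ W := by
          rw [hW.sup_eq_top]
          exact Submodule.mem_top
        obtain ⟨a, ha, z, hz, haz⟩ := Submodule.mem_sup.1 htop
        have ha' : (a : K) ∈ V' := ha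
        have haz' : (a : K) + (z : K) = f := congrArg Subtype.val haz
        have hsum : (z : K) = ∑ i, w.repr ⟨z, hz⟩ i • ((w i : V) : K) := by
          have h1 := congrArg (fun q : W => ((q : V) : K)) (w.sum_repr ⟨z, hz⟩)
          simp only at h1
          rw [← h1]
          push_cast
          rfl
        have hc' : ∃ c' : ι → k, (a : K) = ∑ i, c' i • b i ∧
            ∀ i, c' i ≠ 0 → (a : K) ≠ 0 ∧ v (a : K) ≤ v (b i) := by
          by_cases ha0 : (a : K) = 0
          · refine ⟨fun _ => 0, ?_, fun i hi => absurd rfl hi⟩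
            rw [ha0]
            exact (Finset.sum_eq_zero fun i _ => by rw [zero_smul]).symm
          · obtain ⟨c', hc1, hc2⟩ := hb2 _ ha' ha0
            exact ⟨c', hc1, fun i hi => ⟨ha0, hc2 i hi⟩⟩
        obtain ⟨c', hc1, hc2⟩ := hc'
        refine ⟨Sum.elim (fun i => w.repr ⟨z, hz⟩ i) c', ?_, ?_⟩
        · rw [Fintype.sum_sum_type]
          simp only [Sum.elim_inl, Sum.elim_inr]
          rw [← hsum, ← hc1, add_comm, haz']
        · by_cases hz0 : z = 0
          · have hfa : (a : K) = f := by
              rw [← haz', hz0]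
              simp
            rintro (i | i) hi
            · exfalso
              apply hi
              have : (⟨z, hz⟩ : W) = 0 := Subtype.ext hz0
              simp only [Sum.elim_inl]
              rw [this, map_zero]
              rfl
            · rw [← hfa]
              exact (hc2 i hi).2
          · have hvf : v f ≤ γ := by
              by_contra hcon
              push Not at hcon
              have h1 : f ∈ V' := ⟨hf, Or.inr hcon⟩
              have h2 : (z : K) ∈ V' := by
                have : (z : K) = f - a := by rw [← haz', add_sub_cancel_left]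
                rw [this]
                exact V'.sub_mem h1 ha'
              have h3 : z ∈ (V'.comap V.subtype) ⊓ W := ⟨h2, hz⟩
              rw [hW.inf_eq_bot, Submodule.mem_bot] at h3
              exact hz0 h3
            rintro (i | i) _
            · refine hvf.trans (hmin' _ (w i : V).2 ?_)
              intro h
              exact w.ne_zero i (Subtype.ext (Subtype.ext h))
            · exact hvf.trans (hmin' _ (hle (hb1 i).2) (hb1 i).1)

end

theorem p_U5 (hC0 : S_C0) : S_U5 := by
  classical
  intro k K _ _ _ Γ _ _ _ v hv ht r x ex hx V hV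
  obtain ⟨ι, _, b, hb1, hb2⟩ := u5_adapt hC0 hv ht _ V hV le_rfl
  let q := Fintype.equivFin ι
  refine ⟨Fintype.card ι, fun i => b (q.symm i) * ∏ j, x j ^ (- ex (b (q.symm i)) j),
    fun i => ex (b (q.symm i)), ?_, ?_⟩
  · intro i
    have h1 : ∏ j, x j ^ (- ex (b (q.symm i)) j) ≠ 0 :=
      Finset.prod_ne_zero_iff.2 fun j _ => zpow_ne_zero _ (hx.ne j)
    have h2 : b (q.symm i) ≠ 0 := (hb1 _).1
    refine ⟨mul_ne_zero h2 h1, ?_⟩
    have h3 : v (∏ j, x j ^ (- ex (b (q.symm i)) j)) =
        wt (fun i => v (x i)) (0 - ex (b (q.symm i))) := by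
      rw [zero_sub]
      exact u5_prod hv hx.ne (- ex (b (q.symm i)))
    rw [hv.mul _ _ h2 h1, h3, u5_wt_sub, hx.gen _ h2]
    have h4 : wt (fun i => v (x i)) 0 = 0 := by
      unfold wt
      exact Finset.sum_eq_zero fun i _ => by rw [Pi.zero_apply, zero_smul]
    rw [h4]
    abel
  · intro f hf hf0
    obtain ⟨c, hc1, hc2⟩ := hb2 f hf hf0
    refine ⟨fun i => c (q.symm i), ?_, ?_⟩
    · rw [hc1, ← q.symm.sum_comp fun i => c i • b i]
      refine Finset.sum_congr rfl fun i _ => ?_
      have h1 : (∏ j, x j ^ (- ex (b (q.symm i)) j)) * ∏ j, x j ^ (ex (b (q.symm i)) j) = 1 := by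
        rw [← Finset.prod_mul_distrib]
        refine Finset.prod_eq_one fun j _ => ?_
        rw [← zpow_add₀ (hx.ne j), neg_add_cancel, zpow_zero]
      calc c (q.symm i) • b (q.symm i)
          = algebraMap k K (c (q.symm i)) * b (q.symm i) *
            ((∏ j, x j ^ (- ex (b (q.symm i)) j)) * ∏ j, x j ^ (ex (b (q.symm i)) j)) := by
              rw [h1, mul_one, Algebra.smul_def]
        _ = _ := by ring
    · intro i hi
      have h1 := hc2 _ hi
      rw [hx.gen f hf0, hx.gen _ (hb1 (q.symm i)).1] at h1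
      rcases h1.eq_or_lt with h2 | h2
      · left
        have h3 : wt (fun i => v (x i)) (ex (b (q.symm i)) - ex f) = 0 := by
          rw [u5_wt_sub, h2, sub_self]
        exact sub_eq_zero.1 (hx.indep _ h3)
      · exact Or.inr h2

end Pool.Agent.F2Ch
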