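import Pool.Agent.Lib.MP_305fdd_al.F2.ChStmG

/-!
# MP_305fdd_al, F_2 project, section C: piece [F2C U7]
-/

set_option autoImplicit false

namespace Pool.Agent.F2Ch

open MvPolynomial

section
variable {k K Γ : Type} [Field k] [Field K] [Algebra k K] [AddCommGroup Γ] [LinearOrder Γ]
  [IsOrderedAddMonoid Γ] {v : K → Γ}

omit [LinearOrder Γ] [IsOrderedAddMonoid Γ] in
private theorem u7_wt_sub {r : ℕ} (u : Fin r → Γ) (m n : Fin r → ℤ) :
    wt u (m - n) = wt u m - wt u n := by
  unfold wt
  rw [← Finset.sum_sub_distrib]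
  exact Finset.sum_congr rfl fun i _ => by rw [Pi.sub_apply, sub_smul]

private theorem u7_one (hv : IsV v) : v 1 = 0 := by
  have h := hv.mul 1 1 one_ne_zero one_ne_zero
  rw [mul_one] at h
  exact left_eq_add.1 h

private theorem u7_inv (hv : IsV v) {a : K} (ha : a ≠ 0) : v a⁻¹ = - v a := by
  have h := hv.mul a a⁻¹ ha (inv_ne_zero ha)
  rw [mul_inv_cancel₀ ha, u7_one hv] at h
  exact (neg_eq_of_add_eq_zero_right h.symm).symm

private theorem u7_pow (hv : IsV v) {a : K} (ha : a ≠ 0) (n : ℕ) : v (a ^ n) = n • v a := by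
  induction n with
  | zero => rw [pow_zero, u7_one hv, zero_smul]
  | succ n ih => rw [pow_succ, hv.mul _ _ (pow_ne_zero n ha) ha, ih, succ_nsmul]

private theorem u7_zpow (hv : IsV v) {a : K} (ha : a ≠ 0) (n : ℤ) : v (a ^ n) = n • v a := by
  cases n with
  | ofNat n =>
    rw [Int.ofNat_eq_natCast, zpow_natCast, u7_pow hv ha, natCast_zsmul]
  | negSucc n =>
    rw [zpow_negSucc, u7_inv hv (pow_ne_zero _ ha), u7_pow hv ha, negSucc_zsmul]

private theorem u7_prod (hv : IsV v) {r : ℕ} {x : Fin r → K} (hx : ∀ i, x i ≠ 0)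
    (m : Fin r → ℤ) : v (∏ i, x i ^ (m i)) = wt (fun i => v (x i)) m := by
  classical
  have key : ∀ s : Finset (Fin r), v (∏ i ∈ s, x i ^ (m i)) = ∑ i ∈ s, m i • v (x i) := by
    intro s
    induction s using Finset.induction_on with
    | empty => rw [Finset.prod_empty, Finset.sum_empty, u7_one hv]
    | insert a s ha ih =>
      rw [Finset.prod_insert ha, Finset.sum_insert ha, hv.mul _ _ (zpow_ne_zero _ (hx a))
        (Finset.prod_ne_zero_iff.2 fun i _ => zpow_ne_zero _ (hx i)), ih, u7_zpow hv (hx a)]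
  exact key Finset.univ

private theorem u7_neg (hv : IsV v) (a : K) : v (-a) = v a := by
  have h1 : v (-1) = 0 := by
    have h := hv.mul (-1) (-1) (neg_ne_zero.2 one_ne_zero) (neg_ne_zero.2 one_ne_zero)
    rw [neg_mul_neg, one_mul, u7_one hv] at h
    rcases lt_trichotomy (v (-1)) 0 with h2 | h2 | h2
    · exact absurd h.symm (add_neg h2 h2).ne
    · exact h2
    · exact absurd h (add_pos h2 h2).ne
  by_cases ha : a = 0
  · rw [ha, neg_zero]
  · rw [← neg_one_mul, hv.mul _ _ (neg_ne_zero.2 one_ne_zero) ha, h1, zero_add]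

omit [IsOrderedAddMonoid Γ] in
private theorem u7_gt_add (hv : IsV v) {c : Γ} {x y : K} (hx : Gt v c x)
    (hy : Gt v c y) : Gt v c (x + y) := by
  by_cases h0 : x + y = 0
  · exact Or.inl h0
  · rcases hx with hx | hx
    · rw [hx, zero_add]
      exact hy
    · rcases hy with hy | hy
      · rw [hy, add_zero]
        exact Or.inr hx
      · by_cases hx0 : x = 0
        · rw [hx0, zero_add]
          exact Or.inr hy
        · by_cases hy0 : y = 0
          · rw [hy0, add_zero]
            exact Or.inr hx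
          · exact Or.inr (lt_of_lt_of_le (lt_min hx hy) (hv.add x y hx0 hy0 h0))

omit [IsOrderedAddMonoid Γ] in
private theorem u7_gt_sum {ι : Type} (hv : IsV v) {c : Γ} (s : Finset ι) (x : ι → K)
    (hx : ∀ i ∈ s, Gt v c (x i)) : Gt v c (∑ i ∈ s, x i) := by
  classical
  induction s using Finset.induction_on with
  | empty => exact Or.inl Finset.sum_empty
  | insert a s ha ih =>
    rw [Finset.sum_insert ha]
    exact u7_gt_add hv (hx a (Finset.mem_insert_self a s))
      (ih fun i hi => hx i (Finset.mem_insert_of_mem hi))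

end

private theorem u7_minW_single {κ Γ : Type} [Field κ] [AddCommGroup Γ] [LinearOrder Γ]
    {r : ℕ} (u : Fin r → Γ) (m : Fin r → ℤ) {c : κ} (hc : c ≠ 0) :
    IsMinW u (AddMonoidAlgebra.single m c : AddMonoidAlgebra κ (Fin r → ℤ)) (wt u m) := by
  classical
  refine ⟨fun m' hm' => ?_, m, ?_, rfl⟩
  · rw [AddMonoidAlgebra.coeff_single, Finsupp.single_apply] at hm'
    by_cases h : m = m'
    · rw [h]
    · rw [if_neg h] at hm'
      exact absurd rfl hm'
  · rw [AddMonoidAlgebra.coeff_single, Finsupp.single_apply, if_pos rfl]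
    exact hc

private theorem u7_minW_unique {κ Γ : Type} [Field κ] [AddCommGroup Γ] [LinearOrder Γ]
    {r : ℕ} {u : Fin r → Γ} {P : AddMonoidAlgebra κ (Fin r → ℤ)} {c c' : Γ}
    (h : IsMinW u P c) (h' : IsMinW u P c') : c = c' := by
  obtain ⟨h1, m, hm, rfl⟩ := h
  obtain ⟨h1', m', hm', rfl⟩ := h'
  exact le_antisymm (h1 m' hm') (h1' m hm)

private theorem u7_ap_zero {p : ℕ} [Fact p.Prime] {k K κ : Type} [Field k] [Field K] [Algebra k K]
    [Field κ] [Algebra k κ] {r s : ℕ} {x : Fin r → K} {y : Fin s → K} {ex : K → Fin r → ℤ}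
    {ac : K → κ} {π : Ix p r s → K → K} {ρ : (Fin s → Fin p) → κ → κ}
    (hFA : FA k p x y ex ac π ρ) (N : ℕ) : ap y ex ac π N 0 = 0 := by
  have hp : p ≠ 0 := (Fact.out : p.Prime).ne_zero
  have hπ : ∀ l, π l 0 = 0 := by
    intro l
    have h := hFA.pb.uniq (fun _ => 0) l
    simp only [zero_pow hp, zero_mul, Finset.sum_const_zero] at h
    exact h
  induction N with
  | zero =>
    change AddMonoidAlgebra.single (ex 0) (ac 0) = 0
    rw [hFA.ac_zero, AddMonoidAlgebra.single_zero]
  | succ N ih =>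
    change ∑ l, (ap y ex ac π N (π l 0)) ^ p * om y ac l = 0
    refine Finset.sum_eq_zero fun l _ => ?_
    rw [hπ, ih, zero_pow hp, zero_mul]

theorem p_U7 (hD0 : S_D0) (hD3 : S_D3) (hD4 : S_D4) (hE1 : S_E1) (hU1 : S_U1) (hU6 : S_U6) :
    S_U7 := by
  classical
  intro p _ k K κ _ _ _ _ _ _ _ Γ _ _ _ v r s x y ex ac π ρ hF n t h V0 ht hN hh hvh φ hφ
  have hFA : FA k p x y ex ac π ρ := hD0 p k K κ Γ v r s x y ex ac π ρ hF
  obtain ⟨G0, G1, hG0, hG1, hG0v, hG1v, hG⟩ := hU6 p k K κ Γ v r s x y ex ac π ρ hF n t ht h φ hh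
    hvh hφ V0 hN.fin
  obtain ⟨hpf, hps, -, -⟩ := (hD4 p k K κ r s x y ex ac π ρ hFA).2.2 V0 hN.fin hN.stab
  have hfin := (hE1 p k K κ Γ v r s x y ex ac π ρ hF (prodSp x y V0) hpf hps).1
  have hxn : ∀ i, x i ≠ 0 := hF.vb.ne
  have hprodne : ∀ q : Fin r → ℤ, ∏ j, x j ^ (q j) ≠ 0 := fun q =>
    Finset.prod_ne_zero_iff.2 fun j _ => zpow_ne_zero _ (hxn j)
  have hp0 : 0 < p := (Fact.out : p.Prime).pos
  refine ⟨G0 ∪ ({h} ∪ Set.range y), G1 ∪ (fun n : Fin r → ℤ => ∏ j, x j ^ (n j)) ''
    (Cmp v x ex π (prodSp x y V0 : Set K)), hG0.union ((Set.finite_singleton h).union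
      (Set.finite_range y)), hG1.union (hfin.image _), ?_, ?_, ?_⟩
  · rintro z (hz | hz | ⟨j, rfl⟩)
    · exact hG0v z hz
    · rw [Set.mem_singleton_iff] at hz
      rw [hz]
      exact ⟨hh, hvh⟩
    · exact ⟨hF.y_ne j, hF.y_val j⟩
  · rintro z (hz | ⟨n, hn, rfl⟩)
    · exact hG1v z hz
    · refine ⟨hprodne n, ?_⟩
      simp only
      rw [u7_prod hF.isv hxn]
      exact hn.1
  · intro Γ' _ _ _ w hw htw hcw hw0 hw1
    have hwh : w h = 0 := hw0 h (Or.inr (Or.inl rfl))
    have hwy : ∀ j, w (y j) = 0 := fun j => hw0 _ (Or.inr (Or.inr ⟨j, rfl⟩))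
    have hU6w := hG Γ' w hw htw hcw (fun g hg => hw0 g (Or.inl hg)) (fun g hg => hw1 g (Or.inl hg))
    refine ⟨?_, hwy, hw, htw, hcw, ?_⟩
    · intro n hn
      have h1 := hw1 _ (Or.inr ⟨n, hn, rfl⟩)
      simp only at h1
      rwa [u7_prod hw hxn] at h1
    · have hmonne : ∀ l : Ix p r s, mon x y l ≠ 0 := fun l =>
        mul_ne_zero (Finset.prod_ne_zero_iff.2 fun i _ => pow_ne_zero _ (hxn i))
          (Finset.prod_ne_zero_iff.2 fun j _ => pow_ne_zero _ (hF.y_ne j))
      have hmon : ∀ l : Ix p r s, w (mon x y l) = wt (fun i => w (x i)) (exl l) := by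
        intro l
        have h1 : w (∏ j, y j ^ (l.2 j : ℕ)) = 0 := by
          have h2 := u7_prod hw hF.y_ne (fun j => ((l.2 j : ℕ) : ℤ))
          simp only [zpow_natCast] at h2
          rw [h2]
          unfold wt
          exact Finset.sum_eq_zero fun j _ => by
            simp only [hwy, smul_zero]
        have h3 : w (∏ i, x i ^ (l.1 i : ℕ)) = wt (fun i => w (x i)) (exl l) := by
          have h2 := u7_prod hw hxn (exl l)
          unfold exl at h2
          simp only [zpow_natCast] at h2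
          exact h2
        unfold mon
        rw [hw.mul _ _ (Finset.prod_ne_zero_iff.2 fun i _ => pow_ne_zero _ (hxn i))
          (Finset.prod_ne_zero_iff.2 fun j _ => pow_ne_zero _ (hF.y_ne j)), h1, h3, add_zero]
      intro M
      induction M with
      | zero =>
        intro f hf0 hfA
        have hfV : f ∈ V0 := hfA [] rfl
        rw [hU6w f hfV hf0]
        exact u7_minW_single _ _ (hFA.ac_ne f hf0)
      | succ M ih =>
        intro f hf0 hfA
        have hl : ∀ l, π l f ≠ 0 → IsMinW (fun i => w (x i)) (ap y ex ac π M (π l f))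
            (w (π l f)) := by
          intro l hl0
          refine ih (π l f) hl0 fun L hL => ?_
          exact hfA (l :: L) (by rw [List.length_cons, hL])
        have hD3' := (hD3 p k K κ r s x y ex ac π ρ hFA Γ' (fun i => w (x i))).2.1 M f (w f)
        rw [hD3']
        have hne : ∀ l c', IsMinW (fun i => w (x i)) (ap y ex ac π M (π l f)) c' →
            π l f ≠ 0 := by
          rintro l c' ⟨-, m, hm, -⟩ h0
          rw [h0, u7_ap_zero hFA] at hm
          exact hm rfl
        refine ⟨?_, ?_⟩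
        · intro l c' hc'
          have hl0 := hne l c' hc'
          rw [u7_minW_unique hc' (hl l hl0), ← hmon]
          exact hU1 p k K κ r s x y ex ac π ρ hFA h φ hh hφ Γ' w hw hcw hwh l f hl0
        · by_contra hcon
          push Not at hcon
          have hgt : Gt w (w f) (∑ l, (π l f) ^ p * mon x y l) := by
            refine u7_gt_sum hw _ _ fun l _ => ?_
            by_cases hl0 : π l f = 0
            · left
              rw [hl0, zero_pow hp0.ne', zero_mul]
            · right
              rw [hw.mul _ _ (pow_ne_zero p hl0) (hmonne l), u7_pow hw hl0, hmon]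
              refine lt_of_le_of_ne ?_ (hcon l _ (hl l hl0))
              rw [← hmon]
              exact hU1 p k K κ r s x y ex ac π ρ hFA h φ hh hφ Γ' w hw hcw hwh l f hl0
          rw [hFA.pb.repr f] at hgt
          rcases hgt with hgt | hgt
          · exact hf0 hgt
          · exact lt_irrefl _ hgt

end Pool.Agent.F2Ch
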