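import Pool.Agent.Lib.MP_305fdd_al.F2.ChStm
import Pool.Agent.Lib.MP_305fdd_al.F2.ChStmG
import Pool.Agent.Lib.MP_305fdd_al.F2.Ch.E4

set_option autoImplicit false
set_option linter.unusedSectionVars false

namespace Pool.Agent.F2Ch

open MvPolynomial

theorem x0_div {p r : ℕ} [Fact p.Prime] (m m' : Fin r → ℤ) (a a' : Fin r → Fin p)
    (h : (fun i => (p : ℤ) * m i + ((a i : ℕ) : ℤ)) = fun i => (p : ℤ) * m' i + ((a' i : ℕ) : ℤ)) :
    m = m' ∧ a = a' := by
  have hp : (0 : ℤ) < p := by exact_mod_cast (Fact.out : p.Prime).pos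
  have key : ∀ i, m i = m' i ∧ (a i : ℕ) = (a' i : ℕ) := by
    intro i
    have h1 := congrFun h i
    have e1 : ((p : ℤ) * m i + ((a i : ℕ) : ℤ)) % p = ((a i : ℕ) : ℤ) := by
      rw [Int.mul_add_emod_self_left]
      exact Int.emod_eq_of_lt (by positivity) (by exact_mod_cast (a i).isLt)
    have e2 : ((p : ℤ) * m' i + ((a' i : ℕ) : ℤ)) % p = ((a' i : ℕ) : ℤ) := by
      rw [Int.mul_add_emod_self_left]
      exact Int.emod_eq_of_lt (by positivity) (by exact_mod_cast (a' i).isLt)
    have e3 : ((a i : ℕ) : ℤ) = ((a' i : ℕ) : ℤ) := by rw [← e1, ← e2, h1]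
    refine ⟨?_, by exact_mod_cast e3⟩
    rw [e3] at h1
    exact mul_left_cancel₀ hp.ne' (add_right_cancel h1)
  exact ⟨funext fun i => (key i).1, funext fun i => Fin.ext (key i).2⟩

/-- the coefficient of the leading exponent -/
theorem x0_coeff (hC8 : S_C8) (hD0 : S_D0) (hD2 : S_D2) (p : ℕ) [Fact p.Prime] (k K κ : Type)
    [Field k] [CharP k p] [PerfectRing k p] [Field K] [Algebra k K] [Field κ] [Algebra k κ]
    (Γ : Type) [AddCommGroup Γ] [LinearOrder Γ] [IsOrderedAddMonoid Γ] (v : K → Γ)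
    (r s : ℕ) (x : Fin r → K) (y : Fin s → K) (ex : K → Fin r → ℤ) (ac : K → κ)
    (π : Ix p r s → K → K) (ρ : (Fin s → Fin p) → κ → κ) (F : Frame k p v x y ex ac π ρ)
    (hmin : ∀ M f, f ≠ 0 → IsMinW (fun i => v (x i)) (ap y ex ac π M f) (v f)) :
    ∀ M f, f ≠ 0 → (ap y ex ac π M f).coeff (ex f) = ac f := by
  have : CharP K p := charP_of_injective_algebraMap (algebraMap k K).injective p
  have hFA := hD0 p k K κ Γ v r s x y ex ac π ρ F
  have D2 := hD2 p k K κ r s x y ex ac π ρ hFA
  intro M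
  induction M with
  | zero => intro f _; simp [ap, lead]
  | succ M ih =>
    intro f hf
    obtain ⟨c1, ⟨l0, hl0, hex⟩, c3⟩ := hC8 p k K Γ κ v r s x y ex ac π ρ F f hf
    have hex' : ex f = fun i => (p : ℤ) * ex (π l0 f) i + ((l0.1 i : ℕ) : ℤ) := by
      rw [hex]; funext i; simp [exl]
    have hform : ∀ l, ((p : ℤ) • ex (π l f) + exl l) =
        fun i => (p : ℤ) * ex (π l f) i + ((l.1 i : ℕ) : ℤ) := by
      intro l; funext i; simp [exl]
    conv_lhs => rw [hex']
    rw [D2.1 M f l0.1 (ex (π l0 f)), c3, Fintype.sum_prod_type,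
      Finset.sum_eq_single_of_mem l0.1 (Finset.mem_univ _)]
    · refine Finset.sum_congr rfl fun j _ => ?_
      by_cases hg : π (l0.1, j) f = 0
      · rw [hg, (D2.2.2 M 0).2 rfl, if_neg (fun h => h.1 rfl)]
        simp [(Fact.out : p.Prime).ne_zero]
      · by_cases he : ex f = (p : ℤ) • ex (π (l0.1, j) f) + exl (l0.1, j)
        · rw [if_pos ⟨hg, he⟩]
          have h1 : ex (π l0 f) = ex (π (l0.1, j) f) := by
            rw [hex', hform] at he
            exact (x0_div _ _ _ _ he).1
          rw [h1, ih _ hg]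
        · rw [if_neg (fun h => he h.2)]
          have h2 := (c1 (l0.1, j) hg).resolve_left he
          have hz : (ap y ex ac π M (π (l0.1, j) f)).coeff (ex (π l0 f)) = 0 := by
            by_contra h0
            have h3 := (hmin M _ hg).1 _ h0
            rw [F.vb.gen _ hg] at h3
            have h4 : ∀ m : Fin r → ℤ, wt (fun i => v (x i)) ((p : ℤ) • m + exl (l0.1, j)) =
                p • wt (fun i => v (x i)) m + wt (fun i => v (x i)) (exl (l0.1, j)) := by
              intro m
              rw [e4_wt_add, e4_wt_smul, natCast_zsmul]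
            have h5 : ex f = (p : ℤ) • ex (π l0 f) + exl (l0.1, j) := by
              rw [hex]; funext i; simp [exl]
            rw [h5, h4, h4] at h2
            have h6 := lt_of_add_lt_add_right h2
            exact absurd (nsmul_le_nsmul_right h3 p) (not_le.2 h6)
          rw [hz, zero_pow (Fact.out : p.Prime).ne_zero, zero_mul]
    · intro a _ ha
      refine Finset.sum_eq_zero fun j _ => ?_
      rw [if_neg]
      rintro ⟨_, he⟩
      rw [hex', hform] at he
      exact ha (x0_div _ _ _ _ he).2.symm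

end Pool.Agent.F2Ch
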