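import Pool.Agent.Lib.MP_305fdd_al.F2.ChApi
import Pool.Agent.Lib.MP_305fdd_al.F2.Ch.X0

set_option autoImplicit false
set_option linter.unusedSectionVars false

namespace Pool.Agent.F2Ch

open MvPolynomial

theorem p_X1 (hR1 : S_R1) : S_X1 := by
  intro p _ κ _ _ r φb hφb
  obtain ⟨Φ, h1, h2, h3⟩ := hR1 p κ r φb hφb
  exact ⟨Φ, h1, h2, h3⟩

theorem x2_part_single {κ : Type} [Field κ] {r : ℕ} {Γ : Type} [AddCommGroup Γ] [LinearOrder Γ]
    [IsOrderedAddMonoid Γ] (u : Fin r → Γ) (c : Γ) (P : AddMonoidAlgebra κ (Fin r → ℤ))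
    (e : Fin r → ℤ) (he : c = wt u e) (hinj : ∀ m, wt u m = c → m = e) :
    part u c P = AddMonoidAlgebra.single e (P.coeff e) := by
  classical
  apply AddMonoidAlgebra.coeff_injective
  ext m
  simp only [part, AddMonoidAlgebra.coeff_ofCoeff, AddMonoidAlgebra.coeff_single]
  rw [Finsupp.filter_apply]
  by_cases hm : wt u m = c
  · rw [if_pos hm, hinj m hm, Finsupp.single_eq_same]
  · rw [if_neg hm, Finsupp.single_eq_of_ne]
    rintro rfl
    exact hm he.symm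

theorem p_X2 (hC6 : S_C6) (hC7 : S_C7) (hC8 : S_C8) (hC9 : S_C9) (hD0 : S_D0) (hD2 : S_D2)
    (hD5 : S_D5) (hF3 : S_F3) (hF4 : S_F4) (hF5 : S_F5) (hU3 : S_U3) (hU7 : S_U7) (hR2 : S_R2) (hR3 : S_R3) (hR4 : S_R4)
    (hR7 : S_R7) : S_X2 := by
  intro p _ k K Γ _ _ _ _ _ _ _ _ n t hFG d b ρ0 hb φ hφ hφ1 V hV
  have : CharP K p := charP_of_injective_algebraMap (algebraMap k K).injective p
  obtain ⟨r, s, κ, _, _, x, y, ex, ac, π, ρ, F, hrs⟩ :=
    hC6 p k K Γ n t hFG V hV.isv hV.triv φ hφ hφ1 hV.compat d b ρ0 hb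
  have : CharP κ p := charP_of_injective_algebraMap (algebraMap k κ).injective p
  obtain ⟨h, hh, hφh, hcompat⟩ := hC9 p k K Γ κ V r s x y ex ac π ρ F φ hφ hφ1
  obtain ⟨hVh, φb, hφb, hφb1, hφbρ, hres⟩ := hcompat hV.compat
  obtain ⟨n', t', V0, ht', hFG', hN⟩ := hF4 p k K κ Γ V r s x y ex ac π ρ F n t h hFG
  have hFA := hD0 p k K κ Γ V r s x y ex ac π ρ F
  have F5 := hF5 p k K κ r s x y ex ac π ρ hFA n' t' h V0 hFG' hN φ
  have F3 := hF3 p k K κ Γ V r s x y ex ac π ρ F n' t' h V0 hFG' hN hh hVh φ hφh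
  have hU := hU3 p k K κ Γ V r s x y ex ac π ρ F n t hFG
  classical
  set L : K → AddMonoidAlgebra κ (Fin r → ℤ) := fun f =>
    if hf : ∃ M, Abs π (V0 : Set K) M f then ap y ex ac π (Nat.find hf) f else 0 with hL
  have hLq : ∀ q : MvPolynomial (Fin n) k, ∃ M, Abs π (V0 : Set K) M (aeval t q) ∧
      L (aeval t q) = ap y ex ac π M (aeval t q) := by
    intro q
    obtain ⟨q', hq'⟩ := ht' q
    obtain ⟨N0, hN0⟩ := hN.absorb q'
    have hf : ∃ M, Abs π (V0 : Set K) M (aeval t q) := ⟨N0, by rw [← hq']; exact hN0 N0 le_rfl⟩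
    refine ⟨Nat.find hf, Nat.find_spec hf, ?_⟩
    simp only [hL]
    rw [dif_pos hf]
  have At2On : ∀ (Γ' : Type) [AddCommGroup Γ'] [LinearOrder Γ'] [IsOrderedAddMonoid Γ']
      (u : Fin r → Γ') (w : K → Γ'), At k p φ y ex ac π V0 u w → OnCh k p φ t L u w := by
    intro Γ' _ _ _ u w hw
    refine ⟨⟨hw.isv, hw.triv, hw.compat⟩, fun q hq => ?_⟩
    obtain ⟨M, hM, hLM⟩ := hLq q
    rw [hLM]
    exact hw.min M _ hq hM
  have uniq : ∀ (Γ' : Type) [AddCommGroup Γ'] [LinearOrder Γ'] [IsOrderedAddMonoid Γ']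
      (u : Fin r → Γ') (w w' : K → Γ'), OnCh k p φ t L u w → OnCh k p φ t L u w' → w = w' := by
    intro Γ' _ _ _ u w w' hw hw'
    funext f
    by_cases hf : f = 0
    · rw [hf, hw.inz.isv.zero, hw'.inz.isv.zero]
    obtain ⟨a, b', hb', hab⟩ := hFG f
    have ha : aeval t a ≠ 0 := by rw [← hab]; exact mul_ne_zero hf hb'
    have e1 := (hD5 κ r Γ' u).2.1 _ _ _ (hw.min a ha) (hw'.min a ha)
    have e2 := (hD5 κ r Γ' u).2.1 _ _ _ (hw.min b' hb') (hw'.min b' hb')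
    have e3 := hw.inz.isv.mul f (aeval t b') hf hb'
    have e4 := hw'.inz.isv.mul f (aeval t b') hf hb'
    rw [hab] at e3 e4
    rw [e1, e4, e2] at e3
    exact (add_right_cancel e3).symm
  have hgoodV : Good (Cmp V x ex π (prodSp x y V0 : Set K)) (fun i => V (x i)) :=
    fun m hm => hm.1
  have On2At : ∀ (Γ' : Type) [AddCommGroup Γ'] [LinearOrder Γ'] [IsOrderedAddMonoid Γ']
      [Nontrivial Γ'] (u : Fin r → Γ') (w : K → Γ'),
      Good (Cmp V x ex π (prodSp x y V0 : Set K)) u → OnCh k p φ t L u w →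
      At k p φ y ex ac π V0 u w ∧ ∀ i, w (x i) = u i := by
    intro Γ' _ _ _ _ u w hu hw
    obtain ⟨w0, h0, h1, _⟩ := F3.2 Γ' u hu
    have := uniq Γ' u w0 w (At2On Γ' u w0 h0) hw
    subst this
    exact ⟨h0, h1⟩
  have hminV : ∀ M f, f ≠ 0 → IsMinW (fun i => V (x i)) (ap y ex ac π M f) (V f) :=
    (F5 Γ).2 V F
  have hcoeff := x0_coeff hC8 hD0 hD2 p k K κ Γ V r s x y ex ac π ρ F hminV
  refine ⟨r, s, κ, inferInstance, inferInstance, x, ex, ac, φb,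
    Cmp V x ex π (prodSp x y V0 : Set K), L, ?_, hrs, hU.1, hC7 p k K Γ κ n t hFG V r s x y ex ac π ρ F, ?_⟩
  · refine ⟨F.vb, F.isac, hφb, hφb1, hres, F3.1, hgoodV, ⟨hV, ?_⟩, ?_, ?_, uniq, ?_, ?_⟩
    · intro q hq
      obtain ⟨M, hM, hLM⟩ := hLq q
      rw [hLM]
      exact hminV M _ hq
    · intro q hq
      obtain ⟨M, hM, hLM⟩ := hLq q
      rw [hLM, x2_part_single _ _ _ (ex (aeval t q)) (F.vb.gen _ hq), hcoeff M _ hq]
      intro m hm
      rw [F.vb.gen _ hq] at hm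
      have : wt (fun i => V (x i)) (m - ex (aeval t q)) = 0 := by
        rw [sub_eq_add_neg, e4_wt_add, hm, ← neg_one_zsmul, e4_wt_smul, neg_one_zsmul,
          add_neg_cancel]
      exact sub_eq_zero.1 (F.vb.indep _ this)
    · intro Γ' _ _ _ _ u hu
      obtain ⟨w, hw, hx, _⟩ := F3.2 Γ' u hu
      exact ⟨w, At2On Γ' u w hw, hx⟩
    · intro Γ' _ _ _ _ u w Φ hΦ hu hw
      obtain ⟨hAt, hwx⟩ := On2At Γ' u w hu hw
      obtain ⟨AC, a0, a1, a2, a3, a4, a5⟩ :=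
        hR2 p k K κ Γ V r s x y ex ac π ρ F n' t' h V0 hFG' hN φ Γ' u w hu hAt
      refine ⟨AC, a0, a1, a2, a3, ?_, ?_, ?_, ?_, ?_, ?_⟩
      · intro q hq
        obtain ⟨M, hM, hLM⟩ := hLq q
        rw [hLM]
        exact a4 M _ hq hM
      · intro i
        rw [a5 _ (hN.x_mem i), hFA.ex_x, hFA.ac_x]
      · intro c
        have hmem : algebraMap k K c ∈ V0 := by
          rw [Algebra.algebraMap_eq_smul_one]; exact V0.smul_mem _ hN.one
        rw [a5 _ hmem, hFA.ex_alg, hFA.ac_alg]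
      · exact hR3 p k K κ Γ V r s x y ex ac π ρ F n' t' h V0 hFG' hN hh hVh φ φb hφh hφbρ Γ' u w hu
          hAt AC a0 a1 a2 a3 a4 Φ hΦ.pinv hΦ.mul hΦ.zero
      · exact hR4 p k K κ Γ V r s x y ex ac π ρ F n' t' h V0 hFG' hN φ Γ' u w hAt AC a0 a1 a2 a3 a5
      · exact hR7 p k K κ Γ V r s x y ex ac π ρ F n' t' h V0 hFG' hN φ Γ' u w hAt AC a0 a1 a2 a3 a4 a5
    · obtain ⟨G0, G1, f0, f1, g0, g1, hU7'⟩ :=
        hU7 p k K κ Γ V r s x y ex ac π ρ F n' t' h V0 hFG' hN hh hVh φ hφh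
      refine ⟨G0, G1, f0, f1, g0, g1, ?_⟩
      intro Γ' _ _ _ w hw h0 h1
      obtain ⟨q1, _, q3⟩ := hU7' Γ' w hw.isv hw.triv hw.compat h0 h1
      exact ⟨q1, At2On Γ' _ w q3⟩
  · have hcard : Fintype.card (Fin s → Fin p) = p ^ s := by simp
    let e : Fin (p ^ s) ≃ (Fin s → Fin p) := (Fintype.equivFinOfCardEq hcard).symm
    refine ⟨fun i => monY (fun j => ac (y j)) (e i), fun i => ρ (e i), ?_, ?_⟩
    · intro f
      refine Eq.trans ?_ (F.rb.repr f)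
      exact Equiv.sum_comp e (fun j => (ρ j f) ^ p * monY (fun j => ac (y j)) j)
    · intro a i
      have h1 := F.rb.uniq (fun j => a (e.symm j)) (e i)
      rw [Equiv.symm_apply_apply] at h1
      rw [← h1]
      congr 1
      rw [← Equiv.sum_comp e (fun j => (a (e.symm j)) ^ p * monY (fun j => ac (y j)) j)]
      simp only [Equiv.symm_apply_apply]

end Pool.Agent.F2Ch
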