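import Pool.Agent.Lib.MP_305fdd_al.F2.ChApi
import Pool.Agent.Lib.MP_305fdd_al.F2.Ch.K5

set_option autoImplicit false
set_option linter.unusedSectionVars false

namespace Pool.Agent.F2Ch

open MvPolynomial

theorem x3_wt_sum {r : ℕ} {Γ ι : Type} [AddCommGroup Γ] [Fintype ι] (u : ι → Fin r → Γ)
    (m : Fin r → ℤ) : wt (fun j => ∑ i, u i j) m = ∑ i, wt (u i) m := by
  simp only [wt, Finset.smul_sum]
  exact Finset.sum_comm

theorem x3_pow {K Γ : Type} [Field K] [AddCommGroup Γ] [LinearOrder Γ] [IsOrderedAddMonoid Γ]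
    (p : ℕ) (φ : K → K) (w : K → Γ) (hw : Compat p φ w) (h0 : φ 0 = 0) (M : ℕ) :
    ∀ f, φ^[M] f ≠ 0 → w f ≤ p ^ M • w (φ^[M] f) := by
  induction M with
  | zero => intro f _; simp
  | succ M ih =>
    intro f hf
    rw [Function.iterate_succ_apply] at hf ⊢
    have h1 := ih (φ f) hf
    have h2 : φ f ≠ 0 := by
      intro h
      apply hf
      rw [h]
      exact Function.iterate_fixed h0 M
    calc w f ≤ p • w (φ f) := hw f h2
      _ ≤ p • (p ^ M • w (φ^[M] (φ f))) := nsmul_le_nsmul_right h1 p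
      _ = p ^ (M + 1) • w (φ^[M] (φ f)) := by rw [pow_succ', mul_nsmul']

theorem p_X3 (hX1 : S_X1) (hD5 : S_D5) : S_X3 := by
  intro p _ k K Γ _ _ _ _ _ _ _ _ n t hFG φ hφ hφ1 κ _ _ V hV r x ex ac φb N L hC hκ Γ' _ _ _ _ ι _ _
    u w hu hw q M c hge hM0 hc hM2
  have : CharP κ p := charP_of_injective_algebraMap (algebraMap k κ).injective p
  have hp : p.Prime := Fact.out
  have hφ0 : φ 0 = 0 := by
    have := hφ.add 0 0
    simpa using this
  set f := aeval t q with hf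
  have hf0 : f ≠ 0 := by
    intro h
    rw [h, zero_pow two_ne_zero, Function.iterate_fixed hφ0] at hM2
    exact hc ((map_eq_zero _).1 hM2.symm)
  by_contra hcon
  have hcon' : ∀ m : Fin r → ℤ, (∀ i, wt (u i) m = 0) → m = 0 := by
    intro m hm
    by_contra h
    exact hcon ⟨m, h, hm⟩
  -- the sum of the weights
  set u' : Fin r → Γ' := fun j => ∑ i, u i j with hu'
  have hgood : Good N u' := by
    intro m hm
    rw [hu', x3_wt_sum]
    exact Finset.sum_pos (fun i _ => hu i m hm) Finset.univ_nonempty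
  obtain ⟨w', hw', _⟩ := hC.cell Γ' u' hgood
  obtain ⟨Φ, hΦ⟩ := hX1 p κ r φb hC.pinv
  obtain ⟨AC, hAC⟩ := hC.lform Γ' u' w' Φ hΦ hgood hw'
  have hpos : ∀ m, (L f).coeff m ≠ 0 → m ≠ 0 → 0 < wt u' m := by
    intro m hm hm0
    have h1 : ∀ i, 0 ≤ wt (u i) m := by
      intro i
      have h2 := ((hw i).min q hf0).1 m hm
      rcases hge i with h3 | h3
      · exact absurd h3 hf0
      · exact h3.trans h2
    rw [hu', x3_wt_sum]
    rcases (Finset.sum_nonneg fun i (_ : i ∈ Finset.univ) => h1 i).lt_or_eq with h2 | h2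
    · exact h2
    · exact absurd (hcon' m fun i => (Finset.sum_eq_zero_iff_of_nonneg fun i _ => h1 i).1 h2.symm i
        (Finset.mem_univ i)) hm0
  have hmin := hw'.min q hf0
  have hwt0 : wt u' 0 = 0 := by simp [wt]
  have hV' := hw'.inz
  have hpow2 : w' (f ^ 2) = w' f + w' f := by rw [pow_two, hV'.isv.mul _ _ hf0 hf0]
  by_cases h0 : (L f).coeff 0 = 0
  · -- positive value
    have h1 : 0 < w' f := by
      obtain ⟨m, hm, h2⟩ := hmin.2
      rw [h2]
      refine hpos m hm ?_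
      rintro rfl
      exact hm h0
    have h2 := x3_pow p φ w' hV'.compat hφ0 M (f ^ 2) (by
      rw [hM2]; exact (map_ne_zero _).2 hc)
    rw [hM2, hV'.triv, smul_zero, hpow2] at h2
    exact absurd (add_pos h1 h1) (not_lt.2 h2)
  · have h1 : w' f = 0 := by
      apply le_antisymm
      · have := hmin.1 0 h0
        rwa [hwt0] at this
      · obtain ⟨m, hm, h2⟩ := hmin.2
        rw [h2]
        by_cases hm0 : m = 0
        · rw [hm0, hwt0]
        · exact (hpos m hm hm0).le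
    have hpart : part u' 0 (L f) = AddMonoidAlgebra.single 0 ((L f).coeff 0) := by
      classical
      apply AddMonoidAlgebra.coeff_injective
      ext m
      simp only [part, AddMonoidAlgebra.coeff_ofCoeff, AddMonoidAlgebra.coeff_single]
      rw [Finsupp.filter_apply]
      by_cases hm : m = 0
      · subst hm
        rw [if_pos hwt0, Finsupp.single_eq_same]
      · rw [Finsupp.single_eq_of_ne hm]
        by_cases hz : (L f).coeff m = 0
        · rw [hz, ite_self]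
        · rw [if_neg (hpos m hz hm).ne']
    have hACf : AC f = toLF (AddMonoidAlgebra.single 0 ((L f).coeff 0)) := by
      have := hAC.eq q hf0
      rw [← hf] at this
      rw [this, h1, hpart]
    have hφb : ∀ c : κ, c ≠ 0 → φb c ≠ 0 := by
      intro c hc
      obtain ⟨c', rfl⟩ := hκ c
      have h2 := hC.pinv.pow_mul c' 1
      rw [mul_one, hC.one, mul_one] at h2
      rw [h2]
      rintro rfl
      exact hc (zero_pow hp.ne_zero)
    have hiter : ∀ j : ℕ, Ge w' 0 (φ^[j] f) ∧ ∃ c : κ, c ≠ 0 ∧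
        lc w' AC 0 (φ^[j] f) = toLF (AddMonoidAlgebra.single 0 c) := by
      intro j
      induction j with
      | zero =>
        refine ⟨Or.inr h1.ge, (L f).coeff 0, h0, ?_⟩
        rw [Function.iterate_zero, id_eq, lc, if_pos ⟨hf0, h1⟩, hACf]
      | succ j ih =>
        obtain ⟨h2, c, hc, h3⟩ := ih
        rw [Function.iterate_succ_apply']
        have h4 := hAC.phi 0 (φ^[j] f) (by rwa [smul_zero])
        rw [smul_zero, h3] at h4
        refine ⟨h4.1, φb c, hφb c hc, ?_⟩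
        rw [h4.2]
        have h5 := hΦ.mul 0 c
        rwa [smul_zero] at h5
    obtain ⟨_, c', hc', h2⟩ := hiter M
    rw [hM0, lc, if_neg (fun h => h.1 rfl)] at h2
    have h3 : (AddMonoidAlgebra.single (0 : Fin r → ℤ) c') = 0 := by
      apply (FaithfulSMul.algebraMap_injective (AddMonoidAlgebra κ (Fin r → ℤ))
        (FractionRing (AddMonoidAlgebra κ (Fin r → ℤ))))
      rw [map_zero]
      exact h2.symm
    exact hc' (by simpa using h3)

theorem p_X4 (hC6 : S_C6) (hC9 : S_C9) (hU4 : S_U4) : S_X4 := by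
  intro p _ k K Γ _ _ _ _ _ _ _ _ n t hFG d b ρ0 hb φ hφ hφ1 V hV m f hf
  have : CharP K p := charP_of_injective_algebraMap (algebraMap k K).injective p
  obtain ⟨r, s, κ, _, _, x, y, ex, ac, π, ρ, F, hrs⟩ :=
    hC6 p k K Γ n t hFG V hV.isv hV.triv φ hφ hφ1 hV.compat d b ρ0 hb
  have : CharP κ p := charP_of_injective_algebraMap (algebraMap k κ).injective p
  obtain ⟨h, hh, hφh, hcompat⟩ := hC9 p k K Γ κ V r s x y ex ac π ρ F φ hφ hφ1
  obtain ⟨hVh, -⟩ := hcompat hV.compat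
  obtain ⟨G0, G1, f0, f1, g0, g1, hU⟩ :=
    hU4 p k K κ Γ V r s x y ex ac π ρ F n t hFG h φ hh hVh hφh m f hf
  exact ⟨G0, G1, f0, f1, g0, g1, fun Γ' _ _ _ w hw h0 h1 =>
    hU Γ' w hw.isv hw.triv hw.compat h0 h1⟩

theorem p_X5 (hK6 : S_K6) : S_X5 := by
  intro p _ k K I _ _ _ _ _ U φ w hw
  obtain ⟨k1, k2, k3, k4, k5⟩ := hK6 p k K I U φ w (fun i => (hw i).isv) (fun i => (hw i).triv)
    (fun i => (hw i).compat)
  refine ⟨⟨k1, k2, k3⟩, ?_⟩
  intro κ _ _ n t r x ex ac φb N L hC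
  obtain ⟨G0, G1, f0, f1, g0, g1, hun⟩ := hC.unif
  have h0 : ∀ᶠ i in (U : Filter I), ∀ g ∈ G0, w i g = 0 := by
    rw [Filter.eventually_all_finite f0]
    intro g hg
    exact (k5 g).1 (g0 g hg).2
  have h1 : ∀ᶠ i in (U : Filter I), ∀ g ∈ G1, 0 < w i g := by
    rw [Filter.eventually_all_finite f1]
    intro g hg
    exact (k4 g).1 (g1 g hg).2
  filter_upwards [h0, h1] with i a0 a1
  exact hun ℝ (w i) (hw i) a0 a1

theorem p_X6 (hK4 : S_K4) : S_X6 := by
  intro p _ k K _ _ _ _ _ n t φ κ _ _ V r x ex ac φb N L hC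
  obtain ⟨ε0, hε0, hgood⟩ := hK4 r N
    (fun i => (ofLex (V (x i))).1) (fun i => (ofLex (V (x i))).2) hC.fin hC.good
  have hw : ∀ ε : ℝ, ∃ w : K → ℝ, 0 < ε → ε < ε0 →
      OnCh k p φ t L (fun i => (ofLex (V (x i))).1 + ε * (ofLex (V (x i))).2) w := by
    intro ε
    by_cases he : 0 < ε ∧ ε < ε0
    · obtain ⟨w, hw, _⟩ := hC.cell ℝ (fun i => (ofLex (V (x i))).1 + ε * (ofLex (V (x i))).2)
        (hgood ε he.1 he.2)
      exact ⟨w, fun _ _ => hw⟩
    · exact ⟨fun _ => 0, fun h1 h2 => absurd ⟨h1, h2⟩ he⟩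
  choose w hw using hw
  refine ⟨ε0, w, hε0, fun ε h1 h2 => ⟨hgood ε h1 h2, hw ε h1 h2⟩, ?_⟩
  rintro f hf ⟨q, hq⟩
  subst hq
  have hmin : ∀ ε, 0 < ε → ε < ε0 → IsMinW
      (fun i => (ofLex (V (x i))).1 + ε * (ofLex (V (x i))).2) (L (aeval t q)) (w ε (aeval t q)) :=
    fun ε h1 h2 => (hw ε h1 h2).min q hf
  have hle : ∀ ε, 0 < ε → ε < ε0 → ∀ m, (L (aeval t q)).coeff m ≠ 0 →
      w ε (aeval t q) ≤ wt (fun i => (ofLex (V (x i))).1) m +
        ε * wt (fun i => (ofLex (V (x i))).2) m := by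
    intro ε h1 h2 m hm
    have h3 := (hmin ε h1 h2).1 m hm
    rwa [k5_lin] at h3
  have hex : ∀ ε, 0 < ε → ε < ε0 → ∃ m, (L (aeval t q)).coeff m ≠ 0 ∧
      w ε (aeval t q) = wt (fun i => (ofLex (V (x i))).1) m +
        ε * wt (fun i => (ofLex (V (x i))).2) m := by
    intro ε h1 h2
    obtain ⟨m, hm, h3⟩ := (hmin ε h1 h2).2
    exact ⟨m, hm, by rw [h3, k5_lin]⟩
  obtain ⟨hVle, m0, hm0, hVf⟩ := hC.onch.min q hf
  rw [k5_wt] at hVf
  have hV1 : (ofLex (V (aeval t q))).1 = wt (fun i => (ofLex (V (x i))).1) m0 := by rw [hVf]; rfl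
  have hV2 : (ofLex (V (aeval t q))).2 = wt (fun i => (ofLex (V (x i))).2) m0 := by rw [hVf]; rfl
  refine ⟨⟨convex_Ioo 0 ε0, ?_⟩, ?_, ?_⟩
  · intro e1 h1 e2 h2 α β hα hβ hαβ
    have h3 : α • e1 + β • e2 ∈ Set.Ioo 0 ε0 := convex_Ioo 0 ε0 h1 h2 hα hβ hαβ
    obtain ⟨m, hm, h4⟩ := hex _ h3.1 h3.2
    have h5 := hle e1 h1.1 h1.2 m hm
    have h6 := hle e2 h2.1 h2.2 m hm
    show α • w e1 _ + β • w e2 _ ≤ w (α • e1 + β • e2) _
    rw [h4]
    simp only [smul_eq_mul]
    have h7 := mul_le_mul_of_nonneg_left h5 hα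
    have h8 := mul_le_mul_of_nonneg_left h6 hβ
    calc α * w e1 (aeval t q) + β * w e2 (aeval t q) ≤
          α * (wt (fun i => (ofLex (V (x i))).1) m +
          e1 * wt (fun i => (ofLex (V (x i))).2) m) + β * (wt (fun i => (ofLex (V (x i))).1) m +
          e2 * wt (fun i => (ofLex (V (x i))).2) m) := add_le_add h7 h8
      _ = (α + β) * wt (fun i => (ofLex (V (x i))).1) m +
          (α * e1 + β * e2) * wt (fun i => (ofLex (V (x i))).2) m := by ring
      _ = _ := by rw [hαβ, one_mul]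
  · intro ε h1 h2
    rw [hV1, hV2]
    exact hle ε h1 h2 m0 hm0
  · classical
    obtain ⟨ε1, hε1, h1⟩ := k5_small ((L (aeval t q)).coeff.support.image fun m =>
      (wt (fun i => (ofLex (V (x i))).1) m, wt (fun i => (ofLex (V (x i))).2) m))
      (ofLex (V (aeval t q))).1 (ofLex (V (aeval t q))).2 (by
        intro z hz
        obtain ⟨m, hm, rfl⟩ := Finset.mem_image.1 hz
        have h2 := hVle m (Finsupp.mem_support_iff.1 hm)
        rw [k5_wt, Prod.Lex.le_iff] at h2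
        exact h2)
    refine ⟨min ε1 ε0, lt_min hε1 hε0, ?_⟩
    intro ε he he1
    have he0 : ε < ε0 := lt_of_lt_of_le he1 (min_le_right _ _)
    refine ⟨he0, le_antisymm ?_ ?_⟩
    · rw [hV1, hV2]
      exact hle ε he he0 m0 hm0
    · obtain ⟨m, hm, h4⟩ := hex ε he he0
      rw [h4]
      exact h1 ε he (lt_of_lt_of_le he1 (min_le_left _ _)) _
        (Finset.mem_image_of_mem _ (Finsupp.mem_support_iff.2 hm))

end Pool.Agent.F2Ch
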