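import Pool.Agent.Lib.MP_305fdd_al.F2.ChStm

/-!
# MP_305fdd_al, F_2 project, section C: the piece A1 (contraction)
-/

set_option autoImplicit false

namespace Pool.Agent.F2Ch

open MvPolynomial

/-- finite sums -/
theorem a1_sum {p : ℕ} {K : Type} [Field K] {π : K → K} (hπ : IsPinv p π) {β : Type}
    (s : Finset β) (f : β → K) : π (∑ b ∈ s, f b) = ∑ b ∈ s, π (f b) :=
  map_sum (AddMonoidHom.mk' π hπ.add) f s

/-- monomials are a `p`-th power times a reduced monomial -/
theorem a1_mon {K : Type} [Field K] (p : ℕ) {n : ℕ} (t : Fin n → K) (b : Fin n → ℕ) :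
    ∏ i, t i ^ b i = (∏ i, t i ^ (b i / p)) ^ p * ∏ i, t i ^ (b i % p) := by
  rw [← Finset.prod_pow, ← Finset.prod_mul_distrib]
  refine Finset.prod_congr rfl fun i _ => ?_
  rw [← pow_mul, ← pow_add]
  congr 1
  rw [mul_comm]
  exact (Nat.div_add_mod (b i) p).symm

theorem a1_aeval {k K : Type} [Field k] [Field K] [Algebra k K] {n : ℕ} (t : Fin n → K)
    (b : Fin n →₀ ℕ) (c : k) :
    aeval t (monomial b c) = algebraMap k K c * ∏ i, t i ^ b i := by
  rw [aeval_monomial, Finsupp.prod_fintype]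
  intro i
  exact pow_zero _

/-- the quotients of the exponents -/
noncomputable def a1_div {n : ℕ} (p : ℕ) (b : Fin n →₀ ℕ) : Fin n →₀ ℕ :=
  b.mapRange (fun x => x / p) (Nat.zero_div p)

theorem a1_div_apply {n : ℕ} (p : ℕ) (b : Fin n →₀ ℕ) (i : Fin n) : a1_div p b i = b i / p := rfl

/-- the remainders of the exponents -/
def a1_mod {n : ℕ} (p : ℕ) [NeZero p] (b : Fin n →₀ ℕ) : Fin n → Fin p :=
  fun i => ⟨b i % p, Nat.mod_lt _ (NeZero.pos p)⟩

theorem a1_sum_div {n p : ℕ} (hp : 2 ≤ p) (b : Fin n →₀ ℕ) (d e : ℕ)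
    (hb : ∑ i, b i ≤ d + (p - 2) * e) : ∑ i, a1_div p b i ≤ d / 2 + e := by
  have hp0 : 0 < p := by omega
  have h1 : p * ∑ i, a1_div p b i ≤ ∑ i, b i := by
    rw [Finset.mul_sum]
    exact Finset.sum_le_sum fun i _ => Nat.mul_div_le _ _
  have h2 : ∑ i, a1_div p b i ≤ (d + p * e) / p := by
    rw [Nat.le_div_iff_mul_le hp0, mul_comm]
    refine h1.trans (hb.trans ?_)
    exact Nat.add_le_add_left (Nat.mul_le_mul_right e (by omega)) d
  rw [Nat.add_mul_div_left _ _ hp0] at h2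
  exact h2.trans (Nat.add_le_add_right (Nat.div_le_div_left hp two_pos) e)

/-- common denominator -/
theorem a1_den {k K : Type} [Field k] [Field K] [Algebra k K] {n : ℕ} {t : Fin n → K}
    (ht : FracGen k t) {S : Type} [Fintype S] (x : S → K) :
    ∃ (H : MvPolynomial (Fin n) k) (g : S → MvPolynomial (Fin n) k), aeval t H ≠ 0 ∧
      ∀ s, x s * aeval t H = aeval t (g s) := by
  classical
  choose a b hb hab using fun s => ht (x s)
  refine ⟨∏ s, b s, fun s => a s * ∏ s' ∈ Finset.univ.erase s, b s', ?_, fun s => ?_⟩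
  · rw [map_prod]
    exact Finset.prod_ne_zero_iff.2 fun s _ => hb s
  · rw [map_mul, ← hab s, mul_assoc, ← map_mul, Finset.mul_prod_erase Finset.univ b
      (Finset.mem_univ s)]

/-- the contraction of one monomial -/
theorem a1_term {p : ℕ} [hp : Fact p.Prime] {k K : Type} [Field k] [CharP k p] [PerfectRing k p]
    [Field K] [Algebra k K] {n : ℕ} (t : Fin n → K) {π : K → K} (hπ : IsPinv p π)
    (H : MvPolynomial (Fin n) k) (g : (Fin n → Fin p) → MvPolynomial (Fin n) k)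
    (hH : aeval t H ≠ 0)
    (hg : ∀ a : Fin n → Fin p, π (∏ i, t i ^ (a i : ℕ)) * aeval t H = aeval t (g a))
    (b : Fin n →₀ ℕ) (c : k) :
    π (aeval t (monomial b c)) = (aeval t H)⁻¹ *
      aeval t (monomial (a1_div p b) ((frobeniusEquiv k p).symm c) * g (a1_mod p b)) := by
  have h1 : aeval t (monomial b c) =
      (aeval t (monomial (a1_div p b) ((frobeniusEquiv k p).symm c))) ^ p *
        ∏ i, t i ^ ((a1_mod p b i : Fin p) : ℕ) := by
    rw [a1_aeval, a1_aeval, a1_mon p t b, mul_pow, ← map_pow, frobeniusEquiv_symm_pow_p, mul_assoc]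
    rfl
  rw [h1, hπ.pow_mul, map_mul, ← hg]
  field_simp

theorem p_A1 : S_A1 := by
  intro p hp k K _ _ _ _ _ n t ht ι _ π hπ
  have hp2 : 2 ≤ p := hp.out.two_le
  have : Fintype ι := Fintype.ofFinite ι
  obtain ⟨H, g, hH, hg⟩ := a1_den ht (S := ι × (Fin n → Fin p))
    (fun s => π s.1 (∏ i, t i ^ (s.2 i : ℕ)))
  obtain ⟨D0, hD0⟩ : ∃ D0, ∀ s, (g s).totalDegree ≤ D0 :=
    ⟨Finset.univ.sup fun s => (g s).totalDegree, fun s =>
      Finset.le_sup (f := fun s => (g s).totalDegree) (Finset.mem_univ s)⟩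
  let L : MvPolynomial (Fin n) k →ₗ[k] K :=
    (LinearMap.mulLeft k ((aeval t H)⁻¹ ^ 2)).comp (aeval t).toLinearMap
  have hL : ∀ q, L q = (aeval t H)⁻¹ ^ 2 * aeval t q := fun q => rfl
  refine ⟨fun d => (restrictTotalDegree (Fin n) k d).map L, H.totalDegree + D0, ?_, ?_, ?_, ?_⟩
  · intro d
    infer_instance
  · intro d
    apply Submodule.map_mono
    intro q hq
    rw [mem_restrictTotalDegree] at hq ⊢
    omega
  · intro q
    refine ⟨(H ^ 2 * q).totalDegree, H ^ 2 * q, ?_, ?_⟩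
    · rw [SetLike.mem_coe, mem_restrictTotalDegree]
    · rw [hL, map_mul, map_pow]
      field_simp
  · rintro i d _ ⟨q, hq, rfl⟩
    rw [SetLike.mem_coe, mem_restrictTotalDegree] at hq
    obtain ⟨Q, hQ⟩ : ∃ Q, Q = q * H ^ (p - 2) := ⟨_, rfl⟩
    have hQd : Q.totalDegree ≤ d + (p - 2) * H.totalDegree := by
      rw [hQ]
      refine (totalDegree_mul _ _).trans ?_
      exact Nat.add_le_add hq (totalDegree_pow _ _)
    have h1 : L q = (aeval t H)⁻¹ ^ p * aeval t Q := by
      have e : (aeval t H)⁻¹ ^ p = (aeval t H)⁻¹ ^ (p - 2) * (aeval t H)⁻¹ ^ 2 := by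
        rw [← pow_add]
        congr 1
        omega
      rw [hL, hQ, map_mul, map_pow, e, inv_pow (aeval t H) (p - 2)]
      have h0 : (aeval t H) ^ (p - 2) ≠ 0 := pow_ne_zero _ hH
      field_simp
    have h2 : π i (L q) = L (∑ b ∈ Q.support,
        monomial (a1_div p b) ((frobeniusEquiv k p).symm (coeff b Q)) * g (i, a1_mod p b)) := by
      rw [h1, (hπ i).pow_mul, hL, map_sum, Finset.mul_sum]
      conv_lhs => rw [Q.as_sum, map_sum, a1_sum (hπ i), Finset.mul_sum]
      refine Finset.sum_congr rfl fun b _ => ?_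
      rw [a1_term t (hπ i) H (fun a => g (i, a)) hH (fun a => hg (i, a)), ← mul_assoc, sq]
    rw [h2]
    refine ⟨_, ?_, rfl⟩
    refine Submodule.sum_mem _ fun b hb => ?_
    rw [mem_restrictTotalDegree]
    refine (totalDegree_mul _ _).trans ?_
    rw [← Nat.add_assoc]
    refine Nat.add_le_add ?_ (hD0 _)
    refine (totalDegree_monomial_le _ _).trans ?_
    rw [Finsupp.sum_fintype _ _ (fun _ => rfl)]
    refine a1_sum_div hp2 b d H.totalDegree ?_
    have h3 := le_totalDegree hb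
    rw [Finsupp.sum_fintype _ _ (fun _ => rfl)] at h3
    exact h3.trans hQd

end Pool.Agent.F2Ch
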