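import Pool.Agent.Lib.MP_305fdd_al.F2.ChStm

/-!
# MP_305fdd_al, F_2 project, section C: piece C3 (residue field and angular component)
-/

set_option autoImplicit false
set_option linter.unusedSectionVars false

namespace Pool.Agent.F2Ch

open MvPolynomial

section c3
variable {K Γ : Type} [Field K] [AddCommGroup Γ] [LinearOrder Γ] [IsOrderedAddMonoid Γ]
  {v : K → Γ}

theorem c3_one (hv : IsV v) : v 1 = 0 := by
  have h := hv.mul 1 1 one_ne_zero one_ne_zero
  rw [mul_one] at h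
  exact left_eq_add.1 h

theorem c3_neg_one (hv : IsV v) : v (-1) = 0 := by
  have hne : (-1 : K) ≠ 0 := neg_ne_zero.2 one_ne_zero
  have h := hv.mul (-1) (-1) hne hne
  rw [neg_mul_neg, mul_one, c3_one hv] at h
  have h2 : (2 : ℕ) • v (-1 : K) = 0 := by rw [two_nsmul, ← h]
  exact (smul_eq_zero.1 h2).resolve_left two_ne_zero

theorem c3_neg (hv : IsV v) (f : K) (hf : f ≠ 0) : v (-f) = v f := by
  rw [← neg_one_mul, hv.mul _ _ (neg_ne_zero.2 one_ne_zero) hf, c3_neg_one hv, zero_add]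

theorem c3_inv (hv : IsV v) (f : K) (hf : f ≠ 0) : v f⁻¹ = -v f := by
  have h := hv.mul f f⁻¹ hf (inv_ne_zero hf)
  rw [mul_inv_cancel₀ hf, c3_one hv] at h
  exact (neg_eq_of_add_eq_zero_right h.symm).symm

theorem c3_ge_add (hv : IsV v) {γ : Γ} {f g : K} (hf : Ge v γ f) (hg : Ge v γ g) :
    Ge v γ (f + g) := by
  by_cases h0 : f + g = 0
  · exact Or.inl h0
  rcases hf with rfl | hf
  · rw [zero_add]; exact hg
  rcases hg with rfl | hg
  · rw [add_zero]; exact Or.inr hf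
  by_cases hf0 : f = 0
  · rw [hf0, zero_add]; exact Or.inr hg
  by_cases hg0 : g = 0
  · rw [hg0, add_zero]; exact Or.inr hf
  exact Or.inr ((le_min hf hg).trans (hv.add f g hf0 hg0 h0))

theorem c3_ge_mul (hv : IsV v) {γ δ : Γ} {f g : K} (hf : Ge v γ f) (hg : Ge v δ g) :
    Ge v (γ + δ) (f * g) := by
  rcases hf with rfl | hf
  · exact Or.inl (zero_mul _)
  rcases hg with rfl | hg
  · exact Or.inl (mul_zero _)
  by_cases hf0 : f = 0
  · exact Or.inl (by rw [hf0, zero_mul])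
  by_cases hg0 : g = 0
  · exact Or.inl (by rw [hg0, mul_zero])
  exact Or.inr (by rw [hv.mul f g hf0 hg0]; exact add_le_add hf hg)

/-- The valuation ring. -/
def c3_O (hv : IsV v) : ValuationSubring K where
  carrier := {f | Ge v 0 f}
  mul_mem' := fun {a b} ha hb => by
    have h := c3_ge_mul hv ha hb
    rwa [add_zero] at h
  one_mem' := Or.inr (c3_one hv).ge
  add_mem' := fun {a b} ha hb => c3_ge_add hv ha hb
  zero_mem' := Or.inl rfl
  neg_mem' := fun {a} ha => by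
    rcases ha with rfl | ha
    · exact Or.inl neg_zero
    · by_cases h0 : a = 0
      · exact Or.inl (by rw [h0, neg_zero])
      · exact Or.inr (by rw [c3_neg hv a h0]; exact ha)
  mem_or_inv_mem' := fun a => by
    by_cases h0 : a = 0
    · exact Or.inl (Or.inl h0)
    rcases le_total 0 (v a) with h | h
    · exact Or.inl (Or.inr h)
    · exact Or.inr (Or.inr (by rw [c3_inv hv a h0]; exact neg_nonneg.2 h))

theorem c3_mem (hv : IsV v) (f : K) : f ∈ c3_O hv ↔ Ge v 0 f := Iff.rfl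

/-- The residue field. -/
abbrev c3_k (hv : IsV v) : Type := IsLocalRing.ResidueField (c3_O hv)

open Classical in
/-- The residue. -/
noncomputable def c3_res (hv : IsV v) (f : K) : c3_k hv :=
  if h : f ∈ c3_O hv then IsLocalRing.residue (c3_O hv) ⟨f, h⟩ else 0

theorem c3_res_of (hv : IsV v) (f : K) (h : f ∈ c3_O hv) :
    c3_res hv f = IsLocalRing.residue (c3_O hv) ⟨f, h⟩ := dif_pos h

theorem c3_res_add (hv : IsV v) (f g : K) (hf : Ge v 0 f) (hg : Ge v 0 g) :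
    c3_res hv (f + g) = c3_res hv f + c3_res hv g := by
  rw [c3_res_of hv f hf, c3_res_of hv g hg, c3_res_of hv (f + g) (c3_ge_add hv hf hg), ← map_add]
  rfl

theorem c3_res_mul (hv : IsV v) (f g : K) (hf : Ge v 0 f) (hg : Ge v 0 g) :
    c3_res hv (f * g) = c3_res hv f * c3_res hv g := by
  rw [c3_res_of hv f hf, c3_res_of hv g hg, c3_res_of hv (f * g) ((c3_O hv).mul_mem _ _ hf hg),
    ← map_mul]
  rfl

theorem c3_res_one (hv : IsV v) : c3_res hv (1 : K) = 1 := by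
  rw [c3_res_of hv 1 (c3_O hv).one_mem, ← map_one (IsLocalRing.residue (c3_O hv))]
  rfl

theorem c3_res_ne (hv : IsV v) (f : K) (hf : f ≠ 0) (hf0 : v f = 0) : c3_res hv f ≠ 0 := by
  have h1 : Ge v 0 f := Or.inr hf0.ge
  have h2 : Ge v 0 f⁻¹ := Or.inr (by rw [c3_inv hv f hf, hf0, neg_zero])
  intro h
  have h3 := c3_res_mul hv f f⁻¹ h1 h2
  rw [mul_inv_cancel₀ hf, c3_res_one, h, zero_mul] at h3
  exact one_ne_zero h3

theorem c3_res_zero (hv : IsV v) (f : K) (hf : f = 0 ∨ 0 < v f) : c3_res hv f = 0 := by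
  have h1 : f ∈ c3_O hv := hf.elim (fun h => Or.inl h) (fun h => Or.inr h.le)
  rw [c3_res_of hv f h1, IsLocalRing.residue_eq_zero_iff, IsLocalRing.mem_maximalIdeal,
    mem_nonunits_iff]
  intro hu
  obtain ⟨⟨b, hb⟩, hb1⟩ := hu.exists_right_inv
  have h2 : f * b = 1 := congrArg Subtype.val hb1
  have hf0 : f ≠ 0 := fun h => by rw [h, zero_mul] at h2; exact zero_ne_one h2
  have hb0 : b ≠ 0 := fun h => by rw [h, mul_zero] at h2; exact zero_ne_one h2
  have h3 := hv.mul f b hf0 hb0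
  rw [h2, c3_one hv] at h3
  have h4 : 0 ≤ v b := hb.resolve_left hb0
  have h5 : 0 < v f := hf.resolve_left hf0
  exact absurd h3 (add_pos_of_pos_of_nonneg h5 h4).ne

theorem c3_res_surj (hv : IsV v) (c : c3_k hv) (hc : c ≠ 0) :
    ∃ f, f ≠ 0 ∧ v f = 0 ∧ c3_res hv f = c := by
  obtain ⟨⟨f, hf⟩, rfl⟩ := IsLocalRing.residue_surjective c
  rw [← c3_res_of hv f hf] at hc ⊢
  have h0 : f ≠ 0 := fun h => hc (c3_res_zero hv f (Or.inl h))
  have h1 : 0 ≤ v f := hf.resolve_left h0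
  refine ⟨f, h0, ?_, rfl⟩
  rcases h1.eq_or_lt with h | h
  · exact h.symm
  · exact absurd (c3_res_zero hv f (Or.inr h)) hc

/-! ### monomials -/

variable {r : ℕ} {x : Fin r → K} {ex : K → Fin r → ℤ}

/-- The monomial with exponent `m`. -/
def c3_M (x : Fin r → K) (m : Fin r → ℤ) : K := ∏ i, x i ^ m i

theorem c3_M_ne (hx : ∀ i, x i ≠ 0) (m : Fin r → ℤ) : c3_M x m ≠ 0 :=
  Finset.prod_ne_zero_iff.2 fun i _ => zpow_ne_zero _ (hx i)

theorem c3_M_add (hx : ∀ i, x i ≠ 0) (m n : Fin r → ℤ) :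
    c3_M x (m + n) = c3_M x m * c3_M x n := by
  unfold c3_M
  rw [← Finset.prod_mul_distrib]
  exact Finset.prod_congr rfl fun i _ => by rw [Pi.add_apply, zpow_add₀ (hx i)]

theorem c3_M_zero : c3_M x 0 = 1 := by
  unfold c3_M
  exact Finset.prod_eq_one fun i _ => by rw [Pi.zero_apply, zpow_zero]

theorem c3_M_single (i : Fin r) (n : ℤ) : c3_M x (Pi.single i n) = x i ^ n := by
  unfold c3_M
  rw [Finset.prod_eq_single i]
  · rw [Pi.single_eq_same]
  · intro j _ hj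
    rw [Pi.single_eq_of_ne hj, zpow_zero]
  · intro h
    exact absurd (Finset.mem_univ i) h

theorem c3_npow (hv : IsV v) (f : K) (hf : f ≠ 0) (n : ℕ) : v (f ^ n) = n • v f := by
  induction n with
  | zero => rw [pow_zero, zero_smul, c3_one hv]
  | succ n ih => rw [pow_succ, hv.mul _ _ (pow_ne_zero n hf) hf, ih, succ_nsmul]

theorem c3_zpow (hv : IsV v) (f : K) (hf : f ≠ 0) (n : ℤ) : v (f ^ n) = n • v f := by
  obtain ⟨m, rfl | rfl⟩ := n.eq_nat_or_neg
  · rw [zpow_natCast, c3_npow hv f hf, natCast_zsmul]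
  · rw [zpow_neg, zpow_natCast, c3_inv hv _ (pow_ne_zero m hf), c3_npow hv f hf, neg_smul,
      natCast_zsmul]

theorem c3_prod (hv : IsV v) {ι : Type} (s : Finset ι) (g : ι → K) (hg : ∀ i, g i ≠ 0) :
    v (∏ i ∈ s, g i) = ∑ i ∈ s, v (g i) := by
  classical
  induction s using Finset.induction_on with
  | empty => rw [Finset.prod_empty, Finset.sum_empty, c3_one hv]
  | insert a s ha ih =>
    rw [Finset.prod_insert ha, Finset.sum_insert ha,
      hv.mul _ _ (hg a) (Finset.prod_ne_zero_iff.2 fun i _ => hg i), ih]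

theorem c3_M_val (hv : IsV v) (hx : ∀ i, x i ≠ 0) (m : Fin r → ℤ) :
    v (c3_M x m) = wt (fun i => v (x i)) m := by
  unfold c3_M wt
  rw [c3_prod hv _ _ (fun i => zpow_ne_zero _ (hx i))]
  exact Finset.sum_congr rfl fun i _ => c3_zpow hv (x i) (hx i) (m i)

theorem c3_wt_add (u : Fin r → Γ) (m n : Fin r → ℤ) : wt u (m + n) = wt u m + wt u n := by
  unfold wt
  rw [← Finset.sum_add_distrib]
  exact Finset.sum_congr rfl fun i _ => by rw [Pi.add_apply, add_smul]

theorem c3_wt_neg (u : Fin r → Γ) (m : Fin r → ℤ) : wt u (-m) = -wt u m := by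
  unfold wt
  rw [← Finset.sum_neg_distrib]
  exact Finset.sum_congr rfl fun i _ => by rw [Pi.neg_apply, neg_smul]

theorem c3_inj (hb : IsVB v x ex) {m n : Fin r → ℤ}
    (h : wt (fun i => v (x i)) m = wt (fun i => v (x i)) n) : m = n := by
  have h1 := hb.indep (m + -n) (by rw [c3_wt_add, c3_wt_neg, h, add_neg_cancel])
  exact add_neg_eq_zero.1 h1

theorem c3_ex_mul (hv : IsV v) (hb : IsVB v x ex) (f g : K) (hf : f ≠ 0) (hg : g ≠ 0) :
    ex (f * g) = ex f + ex g := by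
  apply c3_inj hb
  rw [c3_wt_add, ← hb.gen _ (mul_ne_zero hf hg), ← hb.gen f hf, ← hb.gen g hg, hv.mul f g hf hg]

theorem c3_ex_of (hb : IsVB v x ex) (f : K) (hf : f ≠ 0) (h0 : v f = 0) : ex f = 0 := by
  apply hb.indep
  rw [← hb.gen f hf, h0]

/-- The angular component. -/
noncomputable def c3_ac (hv : IsV v) (x : Fin r → K) (ex : K → Fin r → ℤ) (f : K) : c3_k hv :=
  c3_res hv (f * c3_M x (-ex f))

theorem c3_val (hv : IsV v) (hb : IsVB v x ex) (f : K) (hf : f ≠ 0) (m : Fin r → ℤ) :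
    v (f * c3_M x (-m)) = v f - wt (fun i => v (x i)) m := by
  rw [hv.mul _ _ hf (c3_M_ne hb.ne _), c3_M_val hv hb.ne, c3_wt_neg, sub_eq_add_neg]

theorem c3_val0 (hv : IsV v) (hb : IsVB v x ex) (f : K) (hf : f ≠ 0) :
    v (f * c3_M x (-ex f)) = 0 := by
  rw [c3_val hv hb f hf, hb.gen f hf, sub_self]

theorem c3_ac_zero (hv : IsV v) : c3_ac hv x ex 0 = 0 := by
  unfold c3_ac
  rw [zero_mul]
  exact c3_res_zero hv 0 (Or.inl rfl)

theorem c3_lc (hv : IsV v) (hb : IsVB v x ex) {γ : Γ} {f0 : K} (hf0 : f0 ≠ 0) (hγ : v f0 = γ)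
    (f : K) (hf : Ge v γ f) : lc v (c3_ac hv x ex) γ f = c3_res hv (f * c3_M x (-ex f0)) := by
  unfold lc
  by_cases h0 : f = 0
  · rw [if_neg (fun h => h.1 h0), h0, zero_mul]
    exact (c3_res_zero hv 0 (Or.inl rfl)).symm
  have hge : γ ≤ v f := hf.resolve_left h0
  by_cases h1 : v f = γ
  · rw [if_pos ⟨h0, h1⟩]
    have h2 : ex f = ex f0 := by
      apply c3_inj hb
      rw [← hb.gen f h0, ← hb.gen f0 hf0, h1, hγ]
    unfold c3_ac
    rw [h2]
  · rw [if_neg (fun h => h1 h.2)]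
    symm
    apply c3_res_zero hv
    right
    rw [c3_val hv hb f h0, ← hb.gen f0 hf0, hγ]
    exact sub_pos.2 (lt_of_le_of_ne hge (fun h => h1 h.symm))

theorem c3_ge (hv : IsV v) (hb : IsVB v x ex) {γ : Γ} {f0 : K} (hf0 : f0 ≠ 0) (hγ : v f0 = γ)
    (f : K) (hf : Ge v γ f) : Ge v 0 (f * c3_M x (-ex f0)) := by
  by_cases h0 : f = 0
  · exact Or.inl (by rw [h0, zero_mul])
  · right
    rw [c3_val hv hb f h0, ← hb.gen f0 hf0, hγ]
    exact sub_nonneg.2 (hf.resolve_left h0)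

end c3

theorem p_C3 : S_C3 := by
  intro k K Γ _ _ _ _ _ _ v hv ht r x ex hb
  have hk : ∀ c : k, algebraMap k K c ∈ (c3_O hv).toSubring := fun c => Or.inr (ht c).ge
  let φ : k →+* c3_k hv :=
    (IsLocalRing.residue (c3_O hv)).comp ((algebraMap k K).codRestrict (c3_O hv).toSubring hk)
  have hφ : ∀ c : k, φ c = c3_res hv (algebraMap k K c) := fun c =>
    (c3_res_of hv (algebraMap k K c) (hk c)).symm
  refine ⟨c3_k hv, inferInstance, φ.toAlgebra, c3_ac hv x ex, ?_⟩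
  let _ : Algebra k (c3_k hv) := φ.toAlgebra
  refine
    { zero := c3_ac_zero hv
      ne := fun f hf => ?_
      mul := fun f g => ?_
      alg := fun c => ?_
      x_one := fun i => ?_
      surj := fun c hc => ?_
      add := fun γ f g hf hg => ?_ }
  · exact c3_res_ne hv _ (mul_ne_zero hf (c3_M_ne hb.ne _)) (c3_val0 hv hb f hf)
  · by_cases hf : f = 0
    · rw [hf, zero_mul, c3_ac_zero, zero_mul]
    by_cases hg : g = 0
    · rw [hg, mul_zero, c3_ac_zero, mul_zero]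
    unfold c3_ac
    rw [c3_ex_mul hv hb f g hf hg, neg_add, c3_M_add hb.ne,
      ← c3_res_mul hv _ _ (Or.inr (c3_val0 hv hb f hf).ge) (Or.inr (c3_val0 hv hb g hg).ge)]
    congr 1
    ring
  · show c3_ac hv x ex (algebraMap k K c) = φ c
    rw [hφ]
    by_cases hc : algebraMap k K c = 0
    · rw [hc, c3_ac_zero]
      exact (c3_res_zero hv 0 (Or.inl rfl)).symm
    · unfold c3_ac
      rw [c3_ex_of hb _ hc (ht c), neg_zero, c3_M_zero, mul_one]
  · have h1 : ex (x i) = Pi.single i 1 := by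
      apply c3_inj hb
      rw [← hb.gen _ (hb.ne i), ← c3_M_val hv hb.ne, c3_M_single, zpow_one]
    unfold c3_ac
    have h2 : x i * c3_M x (-ex (x i)) = 1 := by
      rw [h1, ← Pi.single_neg, c3_M_single, zpow_neg_one, mul_inv_cancel₀ (hb.ne i)]
    rw [h2, c3_res_one]
  · obtain ⟨f, hf, hf0, hfc⟩ := c3_res_surj hv c hc
    refine ⟨f, hf, hf0, ?_⟩
    unfold c3_ac
    rw [c3_ex_of hb f hf hf0, neg_zero, c3_M_zero, mul_one, hfc]
  · by_cases hγ : ∃ f0 : K, f0 ≠ 0 ∧ v f0 = γ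
    · obtain ⟨f0, hf0, hγ⟩ := hγ
      rw [c3_lc hv hb hf0 hγ f hf, c3_lc hv hb hf0 hγ g hg,
        c3_lc hv hb hf0 hγ (f + g) (c3_ge_add hv hf hg), add_mul,
        c3_res_add hv _ _ (c3_ge hv hb hf0 hγ f hf) (c3_ge hv hb hf0 hγ g hg)]
    · have h0 : ∀ f : K, lc v (c3_ac hv x ex) γ f = 0 := fun f =>
        if_neg fun h => hγ ⟨f, h.1, h.2⟩
      rw [h0, h0, h0, add_zero]

end Pool.Agent.F2Ch
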