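import Pool.Agent.Lib.MP_305fdd_al.F2.ChStmG

set_option autoImplicit false

namespace Pool.Agent.F2Ch

open MvPolynomial

section
variable {p r s : ℕ} {K κ : Type} [Field K] [Field κ]

theorem d2_charP [CharP κ p] : CharP (AddMonoidAlgebra κ (Fin r → ℤ)) p := by
  have h : Function.Injective
      (AddMonoidAlgebra.singleZeroRingHom : κ →+* AddMonoidAlgebra κ (Fin r → ℤ)) := by
    intro a b hab
    have h1 := congrArg (fun P : AddMonoidAlgebra κ (Fin r → ℤ) => P.coeff 0) hab
    simpa [AddMonoidAlgebra.singleZeroRingHom] using h1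
  exact charP_of_injective_ringHom h p

theorem d2_pow_coeff [Fact p.Prime] [CharP κ p] (P : AddMonoidAlgebra κ (Fin r → ℤ)) :
    (∀ m, (P ^ p).coeff ((p : ℤ) • m) = P.coeff m ^ p) ∧
      ∀ n, (P ^ p).coeff n ≠ 0 → ∃ m, n = (p : ℤ) • m := by
  have hp0 : p ≠ 0 := (Fact.out : p.Prime).ne_zero
  have := d2_charP (p := p) (r := r) (κ := κ)
  induction P using AddMonoidAlgebra.induction_linear with
  | zero =>
    refine ⟨fun m => ?_, fun n hn => ?_⟩
    · rw [zero_pow hp0]; simp [hp0]
    · rw [zero_pow hp0] at hn; simp at hn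
  | add P Q hP hQ =>
    rw [add_pow_char]
    refine ⟨fun m => ?_, fun n hn => ?_⟩
    · rw [AddMonoidAlgebra.coeff_add, AddMonoidAlgebra.coeff_add, Finsupp.add_apply,
        Finsupp.add_apply, hP.1, hQ.1, add_pow_char]
    · rw [AddMonoidAlgebra.coeff_add, Finsupp.add_apply] at hn
      by_cases h : (P ^ p).coeff n = 0
      · rw [h, zero_add] at hn
        exact hQ.2 n hn
      · exact hP.2 n h
  | single e c =>
    rw [AddMonoidAlgebra.single_pow]
    refine ⟨fun m => ?_, fun n hn => ?_⟩
    · rw [AddMonoidAlgebra.coeff_single, AddMonoidAlgebra.coeff_single, Finsupp.single_apply,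
        Finsupp.single_apply]
      have h1 : (p • e = (p : ℤ) • m) ↔ e = m := by
        constructor
        · intro h
          funext i
          have h2 := congrFun h i
          simp only [Pi.smul_apply, nsmul_eq_mul, smul_eq_mul] at h2
          exact mul_left_cancel₀ (by exact_mod_cast hp0) h2
        · rintro rfl
          funext i
          simp
      by_cases h : e = m
      · rw [if_pos h, if_pos (h1.mpr h)]
      · rw [if_neg h, if_neg (fun h' => h (h1.mp h')), zero_pow hp0]
    · rw [AddMonoidAlgebra.coeff_single, Finsupp.single_apply] at hn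
      have h2 : p • e = n := by
        by_contra h
        exact hn (if_neg h)
      refine ⟨e, ?_⟩
      rw [← h2]
      funext i
      simp

theorem d2_mul_coeff (Q : AddMonoidAlgebra κ (Fin r → ℤ)) (e : Fin r → ℤ) (c : κ) (n : Fin r → ℤ) :
    (Q * AddMonoidAlgebra.single e c).coeff n = Q.coeff (n - e) * c := by
  refine AddMonoidAlgebra.coeff_mul_single_eq_coeff_mul _ fun m' _ => ?_
  constructor
  · intro h; rw [← h, add_sub_cancel_right]
  · intro h; rw [h, sub_add_cancel]

theorem d2_exp (hp : 0 < p) (a b : Fin r → Fin p) (m m' : Fin r → ℤ)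
    (h : (fun i => (p : ℤ) * m i + ((a i : ℕ) : ℤ)) - (fun i => ((b i : ℕ) : ℤ)) = (p : ℤ) • m') :
    a = b ∧ m = m' := by
  have key : ∀ i, a i = b i ∧ m i = m' i := by
    intro i
    have h1 := congrFun h i
    simp only [Pi.sub_apply, Pi.smul_apply, smul_eq_mul] at h1
    have ha := (a i).2
    have hb := (b i).2
    have ha' : ((a i : ℕ) : ℤ) < p := by exact_mod_cast ha
    have hb' : ((b i : ℕ) : ℤ) < p := by exact_mod_cast hb
    have ha0 : (0 : ℤ) ≤ ((a i : ℕ) : ℤ) := Int.natCast_nonneg _
    have hb0 : (0 : ℤ) ≤ ((b i : ℕ) : ℤ) := Int.natCast_nonneg _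
    have hp' : (0 : ℤ) < p := by exact_mod_cast hp
    have h2 : (p : ℤ) * (m' i - m i) = ((a i : ℕ) : ℤ) - ((b i : ℕ) : ℤ) := by linarith
    have h3 : m' i - m i = 0 := by
      by_contra hne
      rcases lt_or_gt_of_ne hne with h4 | h4
      · have : (p : ℤ) * (m' i - m i) ≤ (p : ℤ) * (-1) :=
          mul_le_mul_of_nonneg_left (by omega) hp'.le
        linarith
      · have : (p : ℤ) * 1 ≤ (p : ℤ) * (m' i - m i) :=
          mul_le_mul_of_nonneg_left (by omega) hp'.le
        linarith
    rw [h3, mul_zero] at h2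
    refine ⟨Fin.ext ?_, by linarith⟩
    have : ((a i : ℕ) : ℤ) = ((b i : ℕ) : ℤ) := by linarith
    exact_mod_cast this
  exact ⟨funext fun i => (key i).1, funext fun i => (key i).2⟩

end

theorem p_D2 : S_D2 := by
  intro p _ k K κ _ _ _ _ _ _ _ r s x y ex ac π ρ hF
  have hpp : p.Prime := Fact.out
  have hp0 : p ≠ 0 := hpp.ne_zero
  have hpos : 0 < p := hpp.pos
  have : NeZero p := ⟨hp0⟩
  have hκ : CharP κ p := charP_of_injective_algebraMap (algebraMap k κ).injective p
  have ha : ∀ N f (a : Fin r → Fin p) (m : Fin r → ℤ),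
      (ap y ex ac π (N + 1) f).coeff (fun i => (p : ℤ) * m i + ((a i : ℕ) : ℤ)) =
        ∑ j, (ap y ex ac π N (π (a, j) f)).coeff m ^ p * monY (fun i => ac (y i)) j := by
    intro N f a m
    rw [ap, AddMonoidAlgebra.coeff_sum, Finsupp.finsetSum_apply, Fintype.sum_prod_type,
      Finset.sum_eq_single a]
    · refine Finset.sum_congr rfl fun j _ => ?_
      rw [om, d2_mul_coeff]
      have h1 : (fun i => (p : ℤ) * m i + ((a i : ℕ) : ℤ)) - exl (p := p) (r := r) (s := s) (a, j)
          = (p : ℤ) • m := by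
        funext i
        simp [exl]
      rw [h1, (d2_pow_coeff _).1]
    · intro b _ hb
      refine Finset.sum_eq_zero fun j _ => ?_
      rw [om, d2_mul_coeff]
      by_contra hne
      have h2 := left_ne_zero_of_mul hne
      obtain ⟨m', hm'⟩ := (d2_pow_coeff _).2 _ h2
      exact hb (d2_exp hpos a b m m' hm').1.symm
    · intro h; exact absurd (Finset.mem_univ _) h
  have hmono : ∀ n : Fin r → ℤ, ∃ (a : Fin r → Fin p) (m : Fin r → ℤ),
      n = fun i => (p : ℤ) * m i + ((a i : ℕ) : ℤ) := by
    intro n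
    have hp' : (0 : ℤ) < p := by exact_mod_cast hpos
    refine ⟨fun i => ⟨(n i % p).toNat, ?_⟩, fun i => n i / p, ?_⟩
    · have h1 := Int.emod_lt_of_pos (n i) hp'
      have h2 := Int.emod_nonneg (n i) hp'.ne'
      omega
    · funext i
      have h2 := Int.emod_nonneg (n i) hp'.ne'
      have h3 := Int.mul_ediv_add_emod (n i) p
      simp only [Int.toNat_of_nonneg h2]
      exact h3.symm
  have hρ0 : ∀ j, ρ j 0 = 0 := by
    intro j
    have h1 := hF.rb.uniq (fun _ => (0 : κ)) j
    simpa [zero_pow hp0] using h1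
  have hexl : ∀ (a : Fin r → Fin p) (j : Fin s → Fin p) (m : Fin r → ℤ),
      (p : ℤ) • m + exl (p := p) (r := r) (s := s) (a, j) =
        fun i => (p : ℤ) * m i + ((a i : ℕ) : ℤ) := by
    intro a j m
    funext i
    simp [exl]
  have hb : ∀ N f (n : Fin r → ℤ), (ap y ex ac π (N + 1) f).coeff n ≠ 0 ↔
      ∃ l m, (ap y ex ac π N (π l f)).coeff m ≠ 0 ∧ n = (p : ℤ) • m + exl l := by
    intro N f n
    constructor
    · intro hn
      obtain ⟨a, m, rfl⟩ := hmono n
      rw [ha] at hn
      obtain ⟨j, _, hj⟩ := Finset.exists_ne_zero_of_sum_ne_zero hn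
      refine ⟨(a, j), m, ?_, (hexl a j m).symm⟩
      intro h0
      rw [h0, zero_pow hp0, zero_mul] at hj
      exact hj rfl
    · rintro ⟨⟨a, j⟩, m, hm, rfl⟩ h0
      rw [hexl, ha] at h0
      have h1 := hF.rb.uniq (fun j => (ap y ex ac π N (π (a, j) f)).coeff m) j
      rw [h0, hρ0] at h1
      exact hm h1.symm
  refine ⟨ha, hb, ?_⟩
  intro N
  induction N with
  | zero =>
    intro f
    rw [ap, lead, AddMonoidAlgebra.single_eq_zero]
    constructor
    · intro h
      by_contra hf
      exact hF.ac_ne f hf h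
    · rintro rfl
      exact hF.ac_zero
  | succ N ih =>
    intro f
    constructor
    · intro h
      have h1 : ∀ l, π l f = 0 := by
        intro l
        rw [← ih]
        by_contra hne
        have h2 : ∃ m, (ap y ex ac π N (π l f)).coeff m ≠ 0 := by
          by_contra hc
          push Not at hc
          apply hne
          rw [← AddMonoidAlgebra.coeff_eq_zero]
          exact Finsupp.ext hc
        obtain ⟨m, hm⟩ := h2
        have h3 := (hb N f ((p : ℤ) • m + exl l)).mpr ⟨l, m, hm, rfl⟩
        rw [h] at h3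
        exact h3 rfl
      rw [← hF.pb.repr f]
      refine Finset.sum_eq_zero fun l _ => ?_
      rw [h1, zero_pow hp0, zero_mul]
    · rintro rfl
      have hzero : ∀ l, π l 0 = 0 := by
        intro l
        have h1 := hF.pb.uniq (fun _ => (0 : K)) l
        simpa [zero_pow hp0] using h1
      rw [ap]
      refine Finset.sum_eq_zero fun l _ => ?_
      rw [hzero, (ih 0).mpr rfl, zero_pow hp0, zero_mul]

end Pool.Agent.F2Ch
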