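import Pool.Agent.Lib.MP_305fdd_al.F2.ChStmG

set_option autoImplicit false

namespace Pool.Agent.F2Ch

open MvPolynomial

theorem p_F3 (hD0 : S_D0) (hD4 : S_D4) (hE1 : S_E1) (hF1 : S_F1) (hF2 : S_F2) : S_F3 := by
  intro p _ k K κ _ _ _ _ _ _ _ Γ _ _ _ v r s x y ex ac π ρ hfr n t h V0 hFG hN hh hv φ hφ
  have hFA := hD0 p k K κ Γ v r s x y ex ac π ρ hfr
  obtain ⟨-, -, h4⟩ := hD4 p k K κ r s x y ex ac π ρ hFA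
  obtain ⟨h4a, h4b, -, -⟩ := h4 V0 hN.fin hN.stab
  obtain ⟨hfin, hloc⟩ := hE1 p k K κ Γ v r s x y ex ac π ρ hfr (prodSp x y V0) h4a h4b
  refine ⟨hfin, ?_⟩
  intro Γ' _ _ _ _ u hu
  obtain ⟨δ, hδ⟩ := hloc Γ' u hu
  obtain ⟨w, hw1, hw2, hw3⟩ := hF1 p k K κ r s x y ex ac π ρ hFA n t h V0 hFG hN Γ' u δ hδ
  obtain ⟨g1, g2, -, g4⟩ := hF2 p k K κ r s x y ex ac π ρ hFA n t h V0 hFG hN Γ' u w hw1 hw2 hw3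
  have hex : ex h = 0 := by
    refine hfr.vb.indep _ ?_
    rw [← hfr.vb.gen h hh, hv]
  exact ⟨w, ⟨hw1, hw2, g4 φ hh hex hφ, hw3⟩, g1, g2⟩

end Pool.Agent.F2Ch
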