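import Pool.Agent.Lib.MP_305fdd_al.F2.ChStmG

set_option autoImplicit false

namespace Pool.Agent.F2Ch

open MvPolynomial

open Classical in
/-- The abstract part: extension of the leading forms from a subring to its fraction field. -/
theorem r2_core {K A Γ : Type} [Field K] [CommRing A] [IsDomain A] [AddCommGroup Γ] [LinearOrder Γ]
    [IsOrderedAddMonoid Γ] (w : K → Γ) (hw : IsV w) (T : Subring K) (R : Set K)
    (hTR : ∀ a ∈ T, a ∈ R)
    (hfr : ∀ z : K, ∃ a ∈ T, ∃ b ∈ T, b ≠ 0 ∧ z * b = a) (inn : K → A)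
    (h1 : inn 1 = 1) (hne : ∀ a ∈ R, a ≠ 0 → inn a ≠ 0)
    (hmul : ∀ f ∈ R, ∀ g ∈ R, ∀ f' ∈ R, ∀ g' ∈ R, f ≠ 0 → g ≠ 0 → f' ≠ 0 → g' ≠ 0 →
      f * g = f' * g' → inn f * inn g = inn f' * inn g')
    (hadd : ∀ γ, ∀ a ∈ T, ∀ b ∈ T, Ge w γ a → Ge w γ b →
      (if a + b ≠ 0 ∧ w (a + b) = γ then inn (a + b) else 0) =
        (if a ≠ 0 ∧ w a = γ then inn a else 0) + (if b ≠ 0 ∧ w b = γ then inn b else 0)) :
    ∃ AC : K → FractionRing A, AC 0 = 0 ∧ (∀ f, f ≠ 0 → AC f ≠ 0) ∧
      (∀ f g, AC (f * g) = AC f * AC g) ∧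
      (∀ γ f g, Ge w γ f → Ge w γ g → lc w AC γ (f + g) = lc w AC γ f + lc w AC γ g) ∧
      (∀ f ∈ R, f ≠ 0 → AC f = algebraMap _ _ (inn f)) := by
  choose a ha b hb hb0 hab using hfr
  have hinj : Function.Injective (algebraMap A (FractionRing A)) :=
    IsFractionRing.injective A (FractionRing A)
  have hne' : ∀ z ∈ R, z ≠ 0 → algebraMap A (FractionRing A) (inn z) ≠ 0 := by
    intro z hz hz0 h
    exact hne z hz hz0 (hinj (by rw [h, map_zero]))
  let AC : K → FractionRing A := fun z =>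
    if z = 0 then 0 else algebraMap A (FractionRing A) (inn (a z)) /
      algebraMap A (FractionRing A) (inn (b z))
  have hAC0 : AC 0 = 0 := by simp [AC]
  have ha0 : ∀ z, z ≠ 0 → a z ≠ 0 := by
    intro z hz h
    have := hab z
    rw [h] at this
    exact (mul_ne_zero hz (hb0 z)) this
  have hmulT : ∀ c ∈ T, ∀ d ∈ T, c ≠ 0 → d ≠ 0 → inn (c * d) = inn c * inn d := by
    intro c hc d hd hc0 hd0
    have := hmul (c * d) (hTR _ (T.mul_mem hc hd)) 1 (hTR _ T.one_mem) c (hTR _ hc) d (hTR _ hd)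
      (mul_ne_zero hc0 hd0) one_ne_zero hc0 hd0 (mul_one _)
    rw [h1, mul_one] at this
    exact this
  have key : ∀ z, z ≠ 0 → ∀ c ∈ R, ∀ d ∈ R, d ≠ 0 → z * d = c →
      AC z = algebraMap A (FractionRing A) (inn c) / algebraMap A (FractionRing A) (inn d) := by
    intro z hz c hc d hd hd0 hzd
    have hc0 : c ≠ 0 := by rw [← hzd]; exact mul_ne_zero hz hd0
    have e1 : a z * d = c * b z := by
      rw [← hab z, ← hzd]; ring
    have e2 := hmul (a z) (hTR _ (ha z)) d hd c hc (b z) (hTR _ (hb z)) (ha0 z hz) hd0 hc0 (hb0 z) e1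
    have : AC z = algebraMap A (FractionRing A) (inn (a z)) /
      algebraMap A (FractionRing A) (inn (b z)) := by simp [AC, hz]
    rw [this, div_eq_div_iff (hne' _ (hTR _ (hb z)) (hb0 z)) (hne' _ hd hd0), ← map_mul, ← map_mul, e2]
  have hwneg : ∀ z, z ≠ 0 → ∀ c d, d ≠ 0 → z * d = c → w c = w z + w d := by
    intro z hz c d hd h
    rw [← h, hw.mul _ _ hz hd]
  have hlc : ∀ γ z c d, c ∈ T → d ∈ T → d ≠ 0 → z * d = c →
      lc w AC γ z = algebraMap A (FractionRing A) (if c ≠ 0 ∧ w c = γ + w d then inn c else 0) /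
        algebraMap A (FractionRing A) (inn d) := by
    intro γ z c d hc hd hd0 hzd
    by_cases hz : z = 0
    · subst hz
      have : c = 0 := by rw [← hzd, zero_mul]
      simp [lc, this]
    · have hc0 : c ≠ 0 := by rw [← hzd]; exact mul_ne_zero hz hd0
      have hwc := hwneg z hz c d hd0 hzd
      unfold lc
      by_cases hg : w z = γ
      · rw [if_pos ⟨hz, hg⟩, if_pos ⟨hc0, by rw [hwc, hg]⟩]
        exact key z hz c (hTR _ hc) d (hTR _ hd) hd0 hzd
      · rw [if_neg (fun h => hg h.2), if_neg, map_zero, zero_div]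
        intro h
        apply hg
        have := h.2
        rw [hwc] at this
        exact add_right_cancel this
  refine ⟨AC, hAC0, ?_, ?_, ?_, ?_⟩
  · intro f hf
    rw [key f hf (a f) (hTR _ (ha f)) (b f) (hTR _ (hb f)) (hb0 f) (hab f)]
    exact div_ne_zero (hne' _ (hTR _ (ha f)) (ha0 f hf)) (hne' _ (hTR _ (hb f)) (hb0 f))
  · intro f g
    by_cases hf : f = 0
    · subst hf; simp [hAC0]
    by_cases hg : g = 0
    · subst hg; simp [hAC0]
    rw [key f hf (a f) (hTR _ (ha f)) (b f) (hTR _ (hb f)) (hb0 f) (hab f),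
      key g hg (a g) (hTR _ (ha g)) (b g) (hTR _ (hb g)) (hb0 g) (hab g),
      key (f * g) (mul_ne_zero hf hg) (a f * a g) (hTR _ (T.mul_mem (ha f) (ha g))) (b f * b g)
        (hTR _ (T.mul_mem (hb f) (hb g))) (mul_ne_zero (hb0 f) (hb0 g))
        (by rw [← hab f, ← hab g]; ring),
      hmulT _ (ha f) _ (ha g) (ha0 f hf) (ha0 g hg), hmulT _ (hb f) _ (hb g) (hb0 f) (hb0 g),
      map_mul, map_mul, div_mul_div_comm]
  · intro γ f g hf hg
    have hB : b f * b g ∈ T := T.mul_mem (hb f) (hb g)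
    have hB0 : b f * b g ≠ 0 := mul_ne_zero (hb0 f) (hb0 g)
    have hf' : f * (b f * b g) = a f * b g := by rw [← hab f]; ring
    have hg' : g * (b f * b g) = a g * b f := by rw [← hab g]; ring
    have hfT : a f * b g ∈ T := T.mul_mem (ha f) (hb g)
    have hgT : a g * b f ∈ T := T.mul_mem (ha g) (hb f)
    have hge : ∀ z c, Ge w γ z → z * (b f * b g) = c → Ge w (γ + w (b f * b g)) c := by
      intro z c hz hc
      rcases hz with hz | hz
      · left; rw [← hc, hz, zero_mul]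
      · by_cases hz0 : z = 0
        · left; rw [← hc, hz0, zero_mul]
        · right
          rw [hwneg z hz0 c _ hB0 hc]
          exact add_le_add_left hz _
    rw [hlc γ f _ _ hfT hB hB0 hf', hlc γ g _ _ hgT hB hB0 hg',
      hlc γ (f + g) (a f * b g + a g * b f) _ (T.add_mem hfT hgT) hB hB0
        (by rw [add_mul, hf', hg']),
      hadd (γ + w (b f * b g)) _ hfT _ hgT (hge f _ hf hf') (hge g _ hg hg'), map_add, add_div]
  · intro f hf hf0
    rw [key f hf0 f hf 1 (hTR _ T.one_mem) one_ne_zero (mul_one f), h1, map_one, div_one]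

section facts

set_option linter.unusedSectionVars false

variable {κ Γ' : Type} [Field κ] {r : ℕ} [AddCommGroup Γ'] [LinearOrder Γ'] [IsOrderedAddMonoid Γ']

theorem r2_wt_zero (u : Fin r → Γ') : wt u 0 = 0 := by simp [wt]

theorem r2_exl0 {p s : ℕ} [NeZero p] : exl (ix0 : Ix p r s) = 0 := by
  funext i; simp [exl, ix0]

theorem r2_part_zero (u : Fin r → Γ') (c c' : Γ') (h : c < c')
    (E : AddMonoidAlgebra κ (Fin r → ℤ)) (hE : UGe u c' E) : part u c E = 0 := by
  classical
  apply AddMonoidAlgebra.ext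
  ext m
  simp only [part, AddMonoidAlgebra.coeff_ofCoeff, AddMonoidAlgebra.coeff_zero, Finsupp.coe_zero,
    Pi.zero_apply, Finsupp.filter_apply]
  split_ifs with hm
  · by_contra hne
    have := hE m hne
    rw [hm] at this
    exact absurd h (not_lt.mpr this)
  · rfl

theorem r2_part_coeff (u : Fin r → Γ') (c : Γ') (P : AddMonoidAlgebra κ (Fin r → ℤ))
    (m : Fin r → ℤ) [Decidable (wt u m = c)] :
    (part u c P).coeff m = if wt u m = c then P.coeff m else 0 := by
  classical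
  simp only [part, AddMonoidAlgebra.coeff_ofCoeff, Finsupp.filter_apply]
  congr

theorem r2_mon0 {M : Type} [CommMonoid M] {p s : ℕ} [NeZero p] (x : Fin r → M) (y : Fin s → M) :
    mon x y (ix0 : Ix p r s) = 1 := by simp [mon, ix0]

theorem r2_om0 {K : Type} {p s : ℕ} [NeZero p] [Field K] (y : Fin s → K) (ac : K → κ) :
    om y ac (ix0 : Ix p r s) = 1 := by
  have : monY (fun j => ac (y j)) (ix0 : Ix p r s).2 = 1 := by simp [monY, ix0]
  rw [om, r2_exl0, this, AddMonoidAlgebra.one_def]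

theorem r2_wd_append {K ι : Type} (π : ι → K → K) (l l' : List ι) (f : K) :
    wd π (l ++ l') f = wd π l' (wd π l f) := by simp [wd, List.foldl_append]

theorem r2_wd_mem {K ι : Type} (π : ι → K → K) (V : Set K) (hV : ∀ l, ∀ f ∈ V, π l f ∈ V)
    (l : List ι) : ∀ f ∈ V, wd π l f ∈ V := by
  induction l with
  | nil => intro f hf; exact hf
  | cons a l ih => intro f hf; exact ih _ (hV a f hf)

theorem r2_abs_mono {K ι : Type} (π : ι → K → K) (V : Set K) (hV : ∀ l, ∀ f ∈ V, π l f ∈ V)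
    (M N : ℕ) (h : M ≤ N) (f : K) (hf : Abs π V M f) : Abs π V N f := by
  intro l hl
  have : l = l.take M ++ l.drop M := (List.take_append_drop M l).symm
  rw [this, r2_wd_append]
  exact r2_wd_mem π V hV _ _ (hf _ (by rw [List.length_take]; omega))

theorem r2_abs_sub {K ι : Type} (π : ι → K → K) (V V' : Set K) (hV : V ⊆ V')
    (M : ℕ) (f : K) (hf : Abs π V M f) : Abs π V' M f := fun l hl => hV (hf l hl)

end facts

/-- The common facts about the approximations at a good weight. -/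
theorem r2_facts (hD4 : S_D4) (hD5 : S_D5) (hE1 : S_E1) (hE2 : S_E2)
    (hE3 : S_E3) (hE4 : S_E4) (p : ℕ) [Fact p.Prime] (k K κ : Type) [Field k] [CharP k p]
    [PerfectRing k p] [Field K] [Algebra k K] [Field κ] [Algebra k κ] (Γ : Type) [AddCommGroup Γ]
    [LinearOrder Γ] [IsOrderedAddMonoid Γ] (v : K → Γ) (r s : ℕ) (x : Fin r → K) (y : Fin s → K)
    (ex : K → Fin r → ℤ) (ac : K → κ) (π : Ix p r s → K → K) (ρ : (Fin s → Fin p) → κ → κ)
    (hFr : Frame k p v x y ex ac π ρ) (hFA : FA k p x y ex ac π ρ) (n : ℕ) (t : Fin n → K) (h : K)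
    (V0 : Submodule k K) (hN : Nuc x y π t h V0) (Γ' : Type) [AddCommGroup Γ']
    [LinearOrder Γ'] [IsOrderedAddMonoid Γ'] [Nontrivial Γ'] (u : Fin r → Γ')
    (hG : Good (Cmp v x ex π (prodSp x y V0 : Set K)) u) :
    (∀ M N f, M ≤ N → Abs π (V0 : Set K) M f → Abs π (V0 : Set K) N f) ∧
    (∀ M N f c, Abs π (V0 : Set K) M f → M ≤ N → IsMinW u (ap y ex ac π M f) c →
      IsMinW u (ap y ex ac π N f) c ∧ part u c (ap y ex ac π N f) = part u c (ap y ex ac π M f)) ∧
    (∀ M f g c c', Abs π (V0 : Set K) M f → Abs π (V0 : Set K) M g →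
      UGe u c (ap y ex ac π M f) → UGe u c' (ap y ex ac π M g) →
      UGe u (c + c') (ap y ex ac π M (f * g)) ∧
      part u (c + c') (ap y ex ac π M (f * g)) =
        part u c (ap y ex ac π M f) * part u c' (ap y ex ac π M g)) ∧
    (∀ M f g c, Abs π (V0 : Set K) M f → Abs π (V0 : Set K) M g →
      UGe u c (ap y ex ac π M f) → UGe u c (ap y ex ac π M g) →
      part u c (ap y ex ac π M (f + g)) =
        part u c (ap y ex ac π M f) + part u c (ap y ex ac π M g)) := by
  have hp : p.Prime := Fact.out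
  obtain ⟨hfin, hstab, habsm, hle⟩ := (hD4 p k K κ r s x y ex ac π ρ hFA).2.2 V0 hN.fin hN.stab
  have hle' : V0 ≤ prodSp x y V0 := hle hN.one
  obtain ⟨δ, hLoc⟩ := (hE1 p k K κ Γ v r s x y ex ac π ρ hFr (prodSp x y V0) hfin hstab).2 Γ' u hG
  have hδ : ∀ M : ℕ, 0 < p ^ M • δ := fun M => nsmul_pos hLoc.pos (pow_pos hp.pos M).ne'
  obtain ⟨hD5a, hD5b, hD5c, hD5d, hD5e, hD5f, hD5g⟩ := hD5 κ r Γ' u
  have hE2' := hE2 p k K κ r s x y ex ac π ρ hFA Γ' u (prodSp x y V0) δ hLoc
  have hE3' := hE3 p k K κ r s x y ex ac π ρ hFA Γ' u (prodSp x y V0) δ hLoc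
  have hE4' := hE4 p k K κ r s x y ex ac π ρ hFA Γ' u V0 δ hN.fin hN.stab hLoc
  refine ⟨fun M N f hMN hf => r2_abs_mono π _ hN.stab M N hMN f hf, ?_, ?_, ?_⟩
  · intro M N f c hf hMN hc
    exact hE2'.2 M f (r2_abs_sub π _ _ hle' M f hf) c hc N hMN
  · intro M f g c c' hf hg hc hc'
    have e := hE4' M f g ix0 hf hg c c' hc hc'
    rw [r2_mon0, r2_om0, mul_one, mul_one, r2_exl0, r2_wt_zero, add_zero] at e
    obtain ⟨h1, h2⟩ := hD5c _ _ c c' hc hc'
    set E := ap y ex ac π M (f * g) - ap y ex ac π M f * ap y ex ac π M g with hE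
    have e1 : ap y ex ac π M (f * g) = ap y ex ac π M f * ap y ex ac π M g + E := by
      rw [hE]; ring
    have e2 : c + c' < c + c' + p ^ M • δ := lt_add_of_pos_right _ (hδ M)
    constructor
    · intro m hm
      rw [e1, AddMonoidAlgebra.coeff_add, Finsupp.add_apply] at hm
      by_cases hm' : (ap y ex ac π M f * ap y ex ac π M g).coeff m = 0
      · rw [hm', zero_add] at hm
        exact e2.le.trans (e m hm)
      · exact h1 m hm'
    · rw [e1, hD5f, h2, r2_part_zero u _ _ e2 E e, add_zero]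
  · intro M f g c hf hg hc hc'
    have e := hE3' M (Fin 2) ![f, g] (by
      intro i; fin_cases i
      · exact r2_abs_sub π _ _ hle' M f hf
      · exact r2_abs_sub π _ _ hle' M g hg) c (by
      intro i; fin_cases i
      · exact hc
      · exact hc')
    simp only [Fin.sum_univ_two, Matrix.cons_val_zero, Matrix.cons_val_one] at e
    set E := ap y ex ac π M (f + g) - (ap y ex ac π M f + ap y ex ac π M g) with hE
    have e1 : ap y ex ac π M (f + g) = (ap y ex ac π M f + ap y ex ac π M g) + E := by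
      rw [hE]; ring
    have e2 : c < c + p ^ M • δ := lt_add_of_pos_right _ (hδ M)
    rw [e1, hD5f, hD5f, r2_part_zero u _ _ e2 E e, add_zero]

theorem r2_v_one {K Γ : Type} [Field K] [AddCommGroup Γ] [LinearOrder Γ]
    [IsOrderedAddMonoid Γ] {w : K → Γ} (hw : IsV w) : w 1 = 0 := by
  have := hw.mul 1 1 one_ne_zero one_ne_zero
  rw [mul_one] at this
  exact left_eq_add.mp this

theorem r2_T {k K : Type} [Field k] [Field K] [Algebra k K] {n : ℕ} {t : Fin n → K}
    (hFG : FracGen k t) (z : K) :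
    ∃ a ∈ (aeval t : MvPolynomial (Fin n) k →ₐ[k] K).range.toSubring,
      ∃ b ∈ (aeval t : MvPolynomial (Fin n) k →ₐ[k] K).range.toSubring, b ≠ 0 ∧ z * b = a := by
  obtain ⟨a, b, hb, hab⟩ := hFG z
  exact ⟨aeval t a, ⟨a, rfl⟩, aeval t b, ⟨b, rfl⟩, hb, hab⟩

open Classical in
theorem p_R2 (hD0 : S_D0) (hD1 : S_D1) (_hD2 : S_D2) (_hD3 : S_D3) (hD4 : S_D4) (hD5 : S_D5)
    (hE1 : S_E1) (hE2 : S_E2) (hE3 : S_E3) (hE4 : S_E4) (_hF2 : S_F2) (_hF5 : S_F5) : S_R2 := by
  intro p _ k K κ _ _ _ _ _ _ _ Γ _ _ _ v r s x y ex ac π ρ hFr n t h V0 hFG hN φ Γ' _ _ _ _ u w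
    hG hAt
  have hFA := hD0 p k K κ Γ v r s x y ex ac π ρ hFr
  obtain ⟨hmono, hind, hprod, hsum⟩ := r2_facts hD4 hD5 hE1 hE2 hE3 hE4 p k K κ Γ v r s x y ex ac π
    ρ hFr hFA n t h V0 hN Γ' u hG
  obtain ⟨hD5a, hD5b, hD5c, hD5d, hD5e, hD5f, hD5g⟩ := hD5 κ r Γ' u
  obtain ⟨-, -, -, hap1, hap0⟩ := hD1 p k K κ r s x y ex ac π ρ hFA
  have hw := hAt.isv
  set T : Subring K := (aeval t : MvPolynomial (Fin n) k →ₐ[k] K).range.toSubring with hT
  let R : Set K := {f | ∃ M, Abs π (V0 : Set K) M f}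
  let inn : K → AddMonoidAlgebra κ (Fin r → ℤ) := fun f =>
    if hf : ∃ M, Abs π (V0 : Set K) M f then part u (w f) (ap y ex ac π hf.choose f) else 0
  have hTR : ∀ a ∈ T, a ∈ R := by
    rintro _ ⟨q, rfl⟩
    obtain ⟨N0, hN0⟩ := hN.absorb q
    exact ⟨N0, hN0 N0 le_rfl⟩
  have hinn : ∀ f M, f ≠ 0 → Abs π (V0 : Set K) M f → inn f = part u (w f) (ap y ex ac π M f) := by
    intro f M hf hM
    have hex : ∃ M, Abs π (V0 : Set K) M f := ⟨M, hM⟩
    have e : inn f = part u (w f) (ap y ex ac π hex.choose f) := by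
      simp only [inn, dif_pos hex]
    rw [e]
    have h1 := hind hex.choose (max hex.choose M) f (w f) hex.choose_spec (le_max_left _ _)
      (hAt.min _ f hf hex.choose_spec)
    have h2 := hind M (max hex.choose M) f (w f) hM (le_max_right _ _) (hAt.min _ f hf hM)
    rw [← h1.2, h2.2]
  have hpart1 : part u 0 (1 : AddMonoidAlgebra κ (Fin r → ℤ)) = 1 := by
    apply AddMonoidAlgebra.ext
    ext m
    rw [r2_part_coeff, AddMonoidAlgebra.one_def, AddMonoidAlgebra.coeff_single]
    by_cases hm : m = 0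
    · subst hm; simp [r2_wt_zero]
    · have h0 : (Finsupp.single (0 : Fin r → ℤ) (1 : κ)) m = 0 := by
        rw [Finsupp.single_apply, if_neg (fun h => hm h.symm)]
      rw [h0]; simp
  have hinn1 : inn 1 = 1 := by
    rw [hinn 1 0 one_ne_zero (by
      intro l hl
      rw [List.length_eq_zero_iff] at hl
      subst hl
      exact hN.one), hap1, r2_v_one hw, hpart1]
  have hneR : ∀ a ∈ R, a ≠ 0 → inn a ≠ 0 := by
    rintro a ⟨M, hM⟩ ha
    rw [hinn a M ha hM]
    have := hAt.min M a ha hM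
    exact (hD5g _ _ this.1).2 this
  have hmul : ∀ f ∈ R, ∀ g ∈ R, ∀ f' ∈ R, ∀ g' ∈ R, f ≠ 0 → g ≠ 0 → f' ≠ 0 → g' ≠ 0 →
      f * g = f' * g' → inn f * inn g = inn f' * inn g' := by
    rintro f ⟨M1, h1⟩ g ⟨M2, h2⟩ f' ⟨M3, h3⟩ g' ⟨M4, h4⟩ hf hg hf' hg' he
    let M := M1 + M2 + M3 + M4
    have a1 := hmono M1 M f (by omega) h1
    have a2 := hmono M2 M g (by omega) h2
    have a3 := hmono M3 M f' (by omega) h3
    have a4 := hmono M4 M g' (by omega) h4
    rw [hinn f M hf a1, hinn g M hg a2, hinn f' M hf' a3, hinn g' M hg' a4]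
    rw [← (hprod M f g _ _ a1 a2 (hAt.min M f hf a1).1 (hAt.min M g hg a2).1).2,
      ← (hprod M f' g' _ _ a3 a4 (hAt.min M f' hf' a3).1 (hAt.min M g' hg' a4).1).2,
      ← hw.mul f g hf hg, ← hw.mul f' g' hf' hg', he]
  have hug : ∀ γ M a, Abs π (V0 : Set K) M a → Ge w γ a → UGe u γ (ap y ex ac π M a) := by
    intro γ M a hM hge
    by_cases ha : a = 0
    · subst ha
      rw [hap0]
      intro m hm
      exact absurd rfl hm
    · intro m hm
      have := (hAt.min M a ha hM).1 m hm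
      rcases hge with h | h
      · exact absurd h ha
      · exact h.trans this
  have hL : ∀ γ M a, Abs π (V0 : Set K) M a → Ge w γ a →
      part u γ (ap y ex ac π M a) = if a ≠ 0 ∧ w a = γ then inn a else 0 := by
    intro γ M a hM hge
    by_cases ha : a = 0
    · subst ha
      rw [hap0, if_neg (fun h => h.1 rfl)]
      apply AddMonoidAlgebra.ext
      ext m
      rw [r2_part_coeff]
      simp
    · by_cases hg : w a = γ
      · rw [if_pos ⟨ha, hg⟩, hinn a M ha hM, hg]
      · rw [if_neg (fun h => hg h.2)]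
        rcases hge with h | h
        · exact absurd h ha
        · exact r2_part_zero u γ (w a) (lt_of_le_of_ne h (fun h' => hg h'.symm)) _
            (hAt.min M a ha hM).1
  obtain ⟨AC, hA0, hAne, hAmul, hAadd, hAR⟩ := r2_core w hw T R hTR (r2_T hFG) inn hinn1 hneR hmul
    (by
      intro γ a ha b hb hga hgb
      obtain ⟨M1, h1⟩ := hTR a ha
      obtain ⟨M2, h2⟩ := hTR b hb
      obtain ⟨M3, h3⟩ := hTR (a + b) (T.add_mem ha hb)
      let M := M1 + M2 + M3
      have a1 := hmono M1 M a (by omega) h1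
      have a2 := hmono M2 M b (by omega) h2
      have a3 := hmono M3 M (a + b) (by omega) h3
      have hgab : Ge w γ (a + b) := by
        by_cases hab : a + b = 0
        · exact Or.inl hab
        rcases hga with h | h
        · rw [h, zero_add]; exact hgb
        rcases hgb with h' | h'
        · rw [h', add_zero]; exact Or.inr h
        by_cases ha0 : a = 0
        · rw [ha0, zero_add]; exact Or.inr h'
        by_cases hb0 : b = 0
        · rw [hb0, add_zero]; exact Or.inr h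
        exact Or.inr ((le_min h h').trans (hw.add a b ha0 hb0 hab))
      rw [← hL γ M (a + b) a3 hgab, ← hL γ M a a1 hga, ← hL γ M b a2 hgb]
      exact hsum M a b γ a1 a2 (hug γ M a a1 hga) (hug γ M b a2 hgb))
  refine ⟨AC, hA0, hAne, hAmul, ?_, ?_, ?_⟩
  · intro γ f g hf hg
    exact hAadd γ f g hf hg
  · intro M f hf hM
    rw [hAR f ⟨M, hM⟩ hf, hinn f M hf hM]
  · intro f hf
    by_cases hf0 : f = 0
    · subst hf0
      rw [hA0, hFA.ac_zero]
      simp
    · have hM : Abs π (V0 : Set K) 0 f := by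
        intro l hl
        rw [List.length_eq_zero_iff] at hl
        subst hl
        exact hf
      rw [hAR f ⟨0, hM⟩ hf0, hinn f 0 hf0 hM]
      have hmin := hAt.min 0 f hf0 hM
      have hap : ap y ex ac π 0 f = AddMonoidAlgebra.single (ex f) (ac f) := rfl
      rw [hap] at hmin ⊢
      obtain ⟨m, hm, hm2⟩ := hmin.2
      have hmex : m = ex f := by
        by_contra hne
        apply hm
        rw [AddMonoidAlgebra.coeff_single, Finsupp.single_apply, if_neg (fun h => hne h.symm)]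
      congr 1
      apply AddMonoidAlgebra.ext
      ext m'
      rw [r2_part_coeff, hm2, hmex, AddMonoidAlgebra.coeff_single]
      by_cases hm' : m' = ex f
      · rw [hm']; simp
      · have h0 : (Finsupp.single (ex f) (ac f)) m' = 0 := by
          rw [Finsupp.single_apply, if_neg (fun h => hm' h.symm)]
        rw [h0]; simp

end Pool.Agent.F2Ch
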