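import Pool.Agent.Lib.MP_305fdd_al.F2.Ch.R3

set_option autoImplicit false

namespace Pool.Agent.F2Ch

open MvPolynomial

theorem r5_compat {p : ℕ} {K Γ : Type} [Field K] [AddCommGroup Γ] [LinearOrder Γ]
    [IsOrderedAddMonoid Γ] {w : K → Γ} {φ : K → K} (h0 : φ 0 = 0) (hc : Compat p φ w) (N : ℕ) :
    ∀ g, φ^[N] g ≠ 0 → w g ≤ p ^ N • w (φ^[N] g) := by
  induction N with
  | zero => intro g _; simp
  | succ N ih =>
    intro g hg
    have h1 : φ g ≠ 0 := by
      intro h
      apply hg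
      rw [Function.iterate_succ_apply, h]
      exact Function.iterate_fixed h0 N
    have h2 := hc g h1
    have h3 := ih (φ g) (by rw [← Function.iterate_succ_apply]; exact hg)
    rw [Function.iterate_succ_apply, pow_succ', mul_smul]
    exact h2.trans (nsmul_le_nsmul_right h3 p)

theorem r5_wt_sum {Γ : Type} [AddCommGroup Γ] {r : ℕ} {ι : Type} [Fintype ι] (u : ι → Fin r → Γ)
    (m : Fin r → ℤ) : wt (fun j => ∑ i, u i j) m = ∑ i, wt (u i) m := by
  simp only [wt, Finset.smul_sum]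
  exact Finset.sum_comm

theorem p_R5 (hD0 : S_D0) (_hD2 : S_D2) (_hD3 : S_D3) (_hD4 : S_D4) (_hD5 : S_D5) (_hE1 : S_E1)
    (_hE2 : S_E2) (_hF2 : S_F2) (hF3 : S_F3) (hR1 : S_R1) (hR2 : S_R2) (hR3 : S_R3) : S_R5 := by
  classical
  intro p _ k K κ _ _ _ _ _ _ _ Γ _ _ _ v r x y ex ac π ρ hFr n t h V0 hFG hN hh0 hvh φ hφ
    Γ' _ _ _ _ ι _ _ u w hG hAt q N c hge hφN hc hφN2
  have hFA := hD0 p k K κ Γ v r 0 x y ex ac π ρ hFr
  have hp : p.Prime := Fact.out
  have : CharP K p := charP_of_injective_algebraMap (algebraMap k K).injective p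
  have : CharP κ p := charP_of_injective_algebraMap (algebraMap k κ).injective p
  have hπ : ∀ l, IsPinv p (π l) := fun l => r3_pinv hFA.pb l
  have hρ : ∀ j, IsPinv p (ρ j) := fun j => r3_pinv hFA.rb j
  have hφ0 : φ 0 = 0 := by rw [hφ, mul_zero, r3_pinv_zero (hπ _)]
  by_contra hcon
  have hcon' : ∀ m : Fin r → ℤ, (∀ i, wt (u i) m = 0) → m = 0 := by
    intro m hm
    by_contra hm0
    exact hcon ⟨m, hm0, hm⟩
  set f := aeval t q with hf
  have hf0 : f ≠ 0 := by
    intro h
    rw [h, zero_pow two_ne_zero, Function.iterate_fixed hφ0] at hφN2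
    exact hc ((map_eq_zero (algebraMap k K)).1 hφN2.symm)
  let u' : Fin r → Γ' := fun j => ∑ i, u i j
  have hu' : ∀ m, wt u' m = ∑ i, wt (u i) m := fun m => r5_wt_sum u m
  have hG' : Good (Cmp v x ex π (prodSp x y V0 : Set K)) u' := by
    intro m hm
    rw [hu']
    exact Finset.sum_pos (fun i _ => hG i m hm) Finset.univ_nonempty
  obtain ⟨w', hw', hw'x, -⟩ := (hF3 p k K κ Γ v r 0 x y ex ac π ρ hFr n t h V0 hFG hN hh0 hvh φ
    hφ).2 Γ' u' hG'
  obtain ⟨N0, hN0⟩ := hN.absorb q
  have hM : Abs π (V0 : Set K) N0 f := hN0 N0 le_rfl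
  set P := ap y ex ac π N0 f with hP
  have hnn : ∀ m, P.coeff m ≠ 0 → ∀ i, 0 ≤ wt (u i) m := by
    intro m hm i
    have h1 := ((hAt i).min N0 f hf0 hM).1 m hm
    rcases hge i with h2 | h2
    · exact absurd h2 hf0
    · exact h2.trans h1
  have hnn' : ∀ m, P.coeff m ≠ 0 → 0 ≤ wt u' m := by
    intro m hm
    rw [hu']
    exact Finset.sum_nonneg (fun i _ => hnn m hm i)
  have hz : ∀ m, P.coeff m ≠ 0 → wt u' m = 0 → m = 0 := by
    intro m hm h0
    rw [hu', Finset.sum_eq_zero_iff_of_nonneg (fun i _ => hnn m hm i)] at h0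
    exact hcon' m (fun i => h0 i (Finset.mem_univ i))
  have hmin := hw'.min N0 f hf0 hM
  rw [← hP] at hmin
  by_cases hc0 : P.coeff 0 = 0
  · obtain ⟨m, hm, hm2⟩ := hmin.2
    have hm0 : m ≠ 0 := by
      intro h
      rw [h] at hm
      exact hm hc0
    have hpos : 0 < w' f := by
      rw [hm2]
      exact lt_of_le_of_ne (hnn' m hm) (fun h => hm0 (hz m hm h.symm))
    have hne : φ^[N] (f ^ 2) ≠ 0 := by
      rw [hφN2]
      exact (map_ne_zero (algebraMap k K)).2 hc
    have h1 := r5_compat hφ0 hw'.compat N (f ^ 2) hne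
    rw [hφN2, hw'.triv c, smul_zero, r3_v_pow hw'.isv f hf0 2] at h1
    exact absurd (nsmul_pos hpos two_ne_zero) (not_lt.mpr h1)
  · set c0 := P.coeff 0 with hc0'
    have hwf : w' f = 0 := by
      apply le_antisymm
      · have := hmin.1 0 hc0
        rwa [r2_wt_zero] at this
      · obtain ⟨m, hm, hm2⟩ := hmin.2
        rw [hm2]
        exact hnn' m hm
    obtain ⟨AC, hA0, hAne, hAmul, hAadd, hAR, -⟩ := hR2 p k K κ Γ v r 0 x y ex ac π ρ hFr n t h V0
      hFG hN φ Γ' u' w' hG' hw'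
    let φb : κ → κ := fun c => ρ j0 (ac h * c)
    have hφb : IsPinv p φb := by
      constructor
      · intro a b
        simp only [φb]
        rw [mul_add, (hρ _).add]
      · intro a b
        simp only [φb]
        rw [mul_left_comm, (hρ _).pow_mul]
    obtain ⟨Φ, hΦ, hΦ1, hΦ2⟩ := hR1 p κ r φb hφb
    have hR3' := hR3 p k K κ Γ v r 0 x y ex ac π ρ hFr n t h V0 hFG hN hh0 hvh φ φb hφ
      (fun c => rfl) Γ' u' w' hG' hw' AC hA0 hAne hAmul hAadd hAR Φ hΦ hΦ1 hΦ2
    have hφb0 : ∀ c, c ≠ 0 → φb c ≠ 0 := by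
      intro c hc hz
      have h1 := hFA.rb.repr (ac h * c)
      rw [Fintype.sum_eq_single (j0 : Fin 0 → Fin p)
        (fun b hb => absurd (Subsingleton.elim b j0) hb)] at h1
      have h2 : ρ j0 (ac h * c) = 0 := hz
      rw [h2, zero_pow hp.ne_zero, zero_mul] at h1
      exact mul_ne_zero (hFA.ac_ne h hh0) hc h1.symm
    have hind : ∀ j : ℕ, Ge w' 0 (φ^[j] f) ∧
        lc w' AC 0 (φ^[j] f) = algebraMap _ _ (AddMonoidAlgebra.single (0 : Fin r → ℤ) (φb^[j] c0)) := by
      intro j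
      induction j with
      | zero =>
        refine ⟨Or.inr hwf.ge, ?_⟩
        rw [Function.iterate_zero_apply, Function.iterate_zero_apply]
        unfold lc
        rw [if_pos ⟨hf0, hwf⟩, hAR N0 f hf0 hM, hwf]
        congr 1
        apply AddMonoidAlgebra.ext
        ext m
        rw [r2_part_coeff, ← hP, AddMonoidAlgebra.coeff_single]
        by_cases hm : m = 0
        · subst hm; rw [r2_wt_zero, if_pos rfl, Finsupp.single_eq_same]
        · rw [Finsupp.single_apply, if_neg (fun h : 0 = m => hm h.symm)]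
          by_cases hPm : P.coeff m = 0
          · rw [hPm]; simp
          · rw [if_neg (fun h => hm (hz m hPm h))]
      | succ j ih =>
        have h1 := hR3' 0 (φ^[j] f) (by rw [smul_zero]; exact ih.1)
        rw [smul_zero, ih.2] at h1
        rw [Function.iterate_succ_apply', Function.iterate_succ_apply']
        refine ⟨h1.1, ?_⟩
        rw [h1.2]
        have h2 := hΦ1 0 (φb^[j] c0)
        rw [smul_zero] at h2
        exact h2
    have hne : ∀ j : ℕ, φb^[j] c0 ≠ 0 := by
      intro j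
      induction j with
      | zero => exact hc0
      | succ j ih => rw [Function.iterate_succ_apply']; exact hφb0 _ ih
    have h1 := (hind N).2
    rw [hφN] at h1
    have h2 : lc w' AC 0 0 = 0 := by
      unfold lc
      rw [if_neg (fun h => h.1 rfl)]
    rw [h2] at h1
    have h3 := (IsFractionRing.injective (AddMonoidAlgebra κ (Fin r → ℤ))
      (FractionRing (AddMonoidAlgebra κ (Fin r → ℤ)))) ((map_zero _).trans h1)
    have h4 := congrArg (fun P => AddMonoidAlgebra.coeff P 0) h3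
    simp at h4
    exact hne N h4.symm

end Pool.Agent.F2Ch
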