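import Pool.Agent.Lib.MP_305fdd_al.F2.ChStmG

/-!
# MP_305fdd_al, F_2 project, section C: piece [F2C U6]
-/

set_option autoImplicit false

namespace Pool.Agent.F2Ch

open MvPolynomial

section
variable {k K Γ : Type} [Field k] [Field K] [Algebra k K] [AddCommGroup Γ] [LinearOrder Γ]
  [IsOrderedAddMonoid Γ] {v : K → Γ}

omit [LinearOrder Γ] [IsOrderedAddMonoid Γ] in
private theorem u6_wt_sub {r : ℕ} (u : Fin r → Γ) (m n : Fin r → ℤ) :
    wt u (m - n) = wt u m - wt u n := by
  unfold wt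
  rw [← Finset.sum_sub_distrib]
  exact Finset.sum_congr rfl fun i _ => by rw [Pi.sub_apply, sub_smul]

private theorem u6_one (hv : IsV v) : v 1 = 0 := by
  have h := hv.mul 1 1 one_ne_zero one_ne_zero
  rw [mul_one] at h
  exact left_eq_add.1 h

private theorem u6_inv (hv : IsV v) {a : K} (ha : a ≠ 0) : v a⁻¹ = - v a := by
  have h := hv.mul a a⁻¹ ha (inv_ne_zero ha)
  rw [mul_inv_cancel₀ ha, u6_one hv] at h
  exact (neg_eq_of_add_eq_zero_right h.symm).symm

private theorem u6_pow (hv : IsV v) {a : K} (ha : a ≠ 0) (n : ℕ) : v (a ^ n) = n • v a := by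
  induction n with
  | zero => rw [pow_zero, u6_one hv, zero_smul]
  | succ n ih => rw [pow_succ, hv.mul _ _ (pow_ne_zero n ha) ha, ih, succ_nsmul]

private theorem u6_zpow (hv : IsV v) {a : K} (ha : a ≠ 0) (n : ℤ) : v (a ^ n) = n • v a := by
  cases n with
  | ofNat n =>
    rw [Int.ofNat_eq_natCast, zpow_natCast, u6_pow hv ha, natCast_zsmul]
  | negSucc n =>
    rw [zpow_negSucc, u6_inv hv (pow_ne_zero _ ha), u6_pow hv ha, negSucc_zsmul]

private theorem u6_prod (hv : IsV v) {r : ℕ} {x : Fin r → K} (hx : ∀ i, x i ≠ 0)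
    (m : Fin r → ℤ) : v (∏ i, x i ^ (m i)) = wt (fun i => v (x i)) m := by
  classical
  have key : ∀ s : Finset (Fin r), v (∏ i ∈ s, x i ^ (m i)) = ∑ i ∈ s, m i • v (x i) := by
    intro s
    induction s using Finset.induction_on with
    | empty => rw [Finset.prod_empty, Finset.sum_empty, u6_one hv]
    | insert a s ha ih =>
      rw [Finset.prod_insert ha, Finset.sum_insert ha, hv.mul _ _ (zpow_ne_zero _ (hx a))
        (Finset.prod_ne_zero_iff.2 fun i _ => zpow_ne_zero _ (hx i)), ih, u6_zpow hv (hx a)]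
  exact key Finset.univ

private theorem u6_neg (hv : IsV v) (a : K) : v (-a) = v a := by
  have h1 : v (-1) = 0 := by
    have h := hv.mul (-1) (-1) (neg_ne_zero.2 one_ne_zero) (neg_ne_zero.2 one_ne_zero)
    rw [neg_mul_neg, one_mul, u6_one hv] at h
    rcases lt_trichotomy (v (-1)) 0 with h2 | h2 | h2
    · exact absurd h.symm (add_neg h2 h2).ne
    · exact h2
    · exact absurd h (add_pos h2 h2).ne
  by_cases ha : a = 0
  · rw [ha, neg_zero]
  · rw [← neg_one_mul, hv.mul _ _ (neg_ne_zero.2 one_ne_zero) ha, h1, zero_add]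

omit [IsOrderedAddMonoid Γ] in
private theorem u6_gt_add (hv : IsV v) {c : Γ} {x y : K} (hx : Gt v c x)
    (hy : Gt v c y) : Gt v c (x + y) := by
  by_cases h0 : x + y = 0
  · exact Or.inl h0
  · rcases hx with hx | hx
    · rw [hx, zero_add]
      exact hy
    · rcases hy with hy | hy
      · rw [hy, add_zero]
        exact Or.inr hx
      · by_cases hx0 : x = 0
        · rw [hx0, zero_add]
          exact Or.inr hy
        · by_cases hy0 : y = 0
          · rw [hy0, add_zero]
            exact Or.inr hx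
          · exact Or.inr (lt_of_lt_of_le (lt_min hx hy) (hv.add x y hx0 hy0 h0))

omit [IsOrderedAddMonoid Γ] in
private theorem u6_gt_sum {ι : Type} (hv : IsV v) {c : Γ} (s : Finset ι) (x : ι → K)
    (hx : ∀ i ∈ s, Gt v c (x i)) : Gt v c (∑ i ∈ s, x i) := by
  classical
  induction s using Finset.induction_on with
  | empty => exact Or.inl Finset.sum_empty
  | insert a s ha ih =>
    rw [Finset.sum_insert ha]
    exact u6_gt_add hv (hx a (Finset.mem_insert_self a s))
      (ih fun i hi => hx i (Finset.mem_insert_of_mem hi))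

private theorem u6_dom (hv : IsV v) {a b : K} (ha : a ≠ 0) (hb : Gt v (v a) b) :
    v (a + b) = v a := by
  rcases hb with hb | hb
  · rw [hb, add_zero]
  · by_cases hb0 : b = 0
    · rw [hb0, add_zero]
    · have hab : a + b ≠ 0 := by
        intro h
        have h1 : b = -a := (neg_eq_of_add_eq_zero_right h).symm
        rw [h1, u6_neg hv] at hb
        exact lt_irrefl _ hb
      have h1 := hv.add a b ha hb0 hab
      rw [min_eq_left hb.le] at h1
      refine le_antisymm ?_ h1
      have h2 := hv.add (a + b) (-b) hab (neg_ne_zero.2 hb0) (by rwa [add_neg_cancel_right])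
      rw [add_neg_cancel_right, u6_neg hv] at h2
      rcases min_le_iff.1 h2 with h3 | h3
      · exact h3
      · exact absurd h3 (not_le.2 hb)

omit [IsOrderedAddMonoid Γ] in
private theorem u6_core (hv : IsV v) {r : ℕ} {x : Fin r → K}
    {m : ℕ} (g : Fin m → K) (e : Fin m → Fin r → ℤ) (c : Fin m → k) (e0 : Fin r → ℤ) (f : K)
    (hf : f = ∑ i, algebraMap k K (c i) * g i * ∏ j, x j ^ (e i j))
    (hgt : ∀ i, c i ≠ 0 → e i ≠ e0 → Gt v (wt (fun j => v (x j)) e0)
      (algebraMap k K (c i) * g i * ∏ j, x j ^ (e i j))) :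
    ∃ b, Gt v (wt (fun j => v (x j)) e0) b ∧ f = (∑ i ∈ Finset.univ.filter (fun i => e i = e0),
      algebraMap k K (c i) * g i) * (∏ j, x j ^ (e0 j)) + b := by
  classical
  refine ⟨∑ i ∈ Finset.univ.filter (fun i => ¬ e i = e0),
    algebraMap k K (c i) * g i * ∏ j, x j ^ (e i j), ?_, ?_⟩
  · refine u6_gt_sum hv _ _ fun i hi => ?_
    rw [Finset.mem_filter] at hi
    by_cases hc : c i = 0
    · left
      rw [hc, map_zero, zero_mul, zero_mul]
    · exact hgt i hc hi.2
  · rw [hf, ← Finset.sum_filter_add_sum_filter_not Finset.univ (fun i => e i = e0)]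
    congr 1
    rw [Finset.sum_mul]
    refine Finset.sum_congr rfl fun i hi => ?_
    rw [(Finset.mem_filter.1 hi).2]

end

theorem p_U6 (hU4 : S_U4) (hU5 : S_U5) : S_U6 := by
  classical
  intro p _ k K κ _ _ _ _ _ _ _ Γ _ _ _ v r s x y ex ac π ρ hF n t ht h φ hh hvh hφ V hV
  obtain ⟨m, g, e, hg, hfe⟩ := hU5 k K Γ v hF.isv hF.triv r x ex hF.vb V hV
  obtain ⟨G0, G1, hG0, hG1, hG0v, hG1v, hG⟩ := hU4 p k K κ Γ v r s x y ex ac π ρ hF n t ht h φ hh
    hvh hφ m g (fun i => Or.inr (hg i).2.ge)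
  have hxn : ∀ i, x i ≠ 0 := hF.vb.ne
  have hprodne : ∀ q : Fin r → ℤ, ∏ j, x j ^ (q j) ≠ 0 := fun q =>
    Finset.prod_ne_zero_iff.2 fun j _ => zpow_ne_zero _ (hxn j)
  refine ⟨G0, G1 ∪ {z | ∃ i i' : Fin m, wt (fun j => v (x j)) (e i) < wt (fun j => v (x j)) (e i') ∧
    z = ∏ j, x j ^ ((e i' - e i) j)}, hG0, hG1.union ?_, hG0v, ?_, ?_⟩
  · refine Set.Finite.subset (Set.finite_range fun q : Fin m × Fin m =>
      ∏ j, x j ^ ((e q.2 - e q.1) j)) ?_
    rintro z ⟨i, i', -, rfl⟩
    exact ⟨(i, i'), rfl⟩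
  · rintro z (hz | ⟨i, i', hlt, rfl⟩)
    · exact hG1v z hz
    · refine ⟨hprodne _, ?_⟩
      rw [u6_prod hF.isv hxn, u6_wt_sub, sub_pos]
      exact hlt
  · intro Γ' _ _ _ w hw htw hcw hw0 hw1 f hf hf0
    obtain ⟨c, hc, hce⟩ := hfe f hf hf0
    have hGw := hG Γ' w hw htw hcw hw0 (fun z hz => hw1 z (Or.inl hz))
    obtain ⟨b, hb, hfb⟩ := u6_core hF.isv g e c (ex f) f hc (by
      intro i hci hei
      right
      have h1 : algebraMap k K (c i) ≠ 0 := (map_ne_zero _).2 hci
      rw [hF.isv.mul _ _ (mul_ne_zero h1 (hg i).1) (hprodne _), hF.isv.mul _ _ h1 (hg i).1,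
        hF.triv, (hg i).2, zero_add, zero_add, u6_prod hF.isv hxn]
      exact (hce i hci).resolve_left hei)
    set z := ∑ i ∈ Finset.univ.filter (fun i => e i = ex f), algebraMap k K (c i) * g i with hz
    have hvf := hF.vb.gen f hf0
    have hnz : ¬ Gt v 0 z := by
      intro hgt
      have h1 : Gt v (wt (fun j => v (x j)) (ex f)) (z * ∏ j, x j ^ (ex f j)) := by
        rcases hgt with hgt | hgt
        · left
          rw [hgt, zero_mul]
        · by_cases hz0 : z = 0
          · left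
            rw [hz0, zero_mul]
          · right
            rw [hF.isv.mul _ _ hz0 (hprodne _), u6_prod hF.isv hxn]
            exact lt_add_of_pos_left _ hgt
      have h2 := u6_gt_add hF.isv h1 hb
      rw [← hfb] at h2
      rcases h2 with h2 | h2
      · exact hf0 h2
      · rw [hvf] at h2
        exact lt_irrefl _ h2
    have hPz : aeval g (∑ i ∈ Finset.univ.filter (fun i => e i = ex f),
        (C (c i) * X i : MvPolynomial (Fin m) k)) = z := by
      rw [map_sum, hz]
      exact Finset.sum_congr rfl fun i _ => by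
        rw [map_mul, aeval_X, aeval_C]
    have hGz := hGw (∑ i ∈ Finset.univ.filter (fun i => e i = ex f),
        (C (c i) * X i : MvPolynomial (Fin m) k))
    rw [hPz] at hGz
    have hz0 : z ≠ 0 := fun h0 => hnz (Or.inl h0)
    have hwz : w z = 0 := by
      have h1 : ¬ Gt w 0 z := fun h0 => hnz (hGz.2.1 h0)
      refine le_antisymm (not_lt.1 fun h2 => h1 (Or.inr h2)) ?_
      exact hGz.1.resolve_left hz0
    obtain ⟨i0, hi0, hci0⟩ : ∃ i0, e i0 = ex f ∧ c i0 ≠ 0 := by
      by_contra hcon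
      push Not at hcon
      apply hz0
      refine Finset.sum_eq_zero fun i hi => ?_
      rw [hcon i (Finset.mem_filter.1 hi).2, map_zero, zero_mul]
    have hwg : ∀ i, 0 ≤ w (g i) := by
      intro i
      have h1 := (hGw (X i)).1
      rw [aeval_X] at h1
      exact h1.resolve_left (hg i).1
    obtain ⟨b', hb', hfb'⟩ := u6_core hw g e c (ex f) f hc (by
      intro i hci hei
      right
      have h1 : algebraMap k K (c i) ≠ 0 := (map_ne_zero _).2 hci
      rw [hw.mul _ _ (mul_ne_zero h1 (hg i).1) (hprodne _), hw.mul _ _ h1 (hg i).1,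
        htw, zero_add, u6_prod hw hxn]
      have h2 : 0 < w (∏ j, x j ^ ((e i - e i0) j)) := by
        refine hw1 _ (Or.inr ⟨i0, i, ?_, rfl⟩)
        rw [hi0]
        exact (hce i hci).resolve_left hei
      rw [u6_prod hw hxn, u6_wt_sub, sub_pos, hi0] at h2
      exact lt_of_lt_of_le h2 (le_add_of_nonneg_left (hwg i)))
    have h3 : w (z * ∏ j, x j ^ (ex f j)) = wt (fun j => w (x j)) (ex f) := by
      rw [hw.mul _ _ hz0 (hprodne _), u6_prod hw hxn, hwz, zero_add]
    rw [← h3] at hb'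
    have h4 := u6_dom hw (mul_ne_zero hz0 (hprodne _)) hb'
    rw [← hfb'] at h4
    rw [h4, h3]

end Pool.Agent.F2Ch
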